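import Mathlib

set_option autoImplicit false

namespace Pool.Agent.Helper458

open Classical

variable {V : Type*}

/-- `Pth G f u v L`: the list `L` of first vertices of matching edges `w, f w` is a path,
starting at the vertex `u` and ending at the vertex `v`. -/
inductive Pth (G : SimpleGraph V) (f : V → V) : V → V → List V → Prop
  | single (u : V) : Pth G f u (f u) [u]
  | cons (u w v : V) (L : List V) (h : G.Adj (f u) w) (h' : Pth G f w v L) :
      Pth G f u v (u :: L)

/-- vertices covered by a list of matching edges -/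
def ms (f : V → V) (L : List V) : Multiset V := (L : Multiset V) + ((L.map f : List V) : Multiset V)

/-- reversal -/
def rv (f : V → V) (L : List V) : List V := (L.map f).reverse

/-- alternating cycles -/
def IsCyc (G : SimpleGraph V) (f : V → V) (L : List V) : Prop :=
  ∃ u v, Pth G f u v L ∧ G.Adj v u ∧ (ms f L).Nodup

section basic

variable {G : SimpleGraph V} {f : V → V}

@[simp] theorem ms_nil : ms f [] = 0 := by simp [ms]

theorem ms_cons (u : V) (L : List V) : ms f (u :: L) = {u, f u} + ms f L := by
  simp only [ms, List.map_cons, ← Multiset.cons_coe, Multiset.insert_eq_cons]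
  rw [← Multiset.singleton_add u (L : Multiset V), ← Multiset.singleton_add (f u),
    ← Multiset.singleton_add u ({f u} : Multiset V)]
  abel

theorem ms_append (L L' : List V) : ms f (L ++ L') = ms f L + ms f L' := by
  simp only [ms, List.map_append, ← Multiset.coe_add]
  abel

theorem ms_rv (hf : ∀ v, f (f v) = v) (L : List V) : ms f (rv f L) = ms f L := by
  simp only [ms, rv, List.map_reverse, List.map_map, Multiset.coe_reverse]
  have : List.map (f ∘ f) L = L := by
    conv_rhs => rw [← List.map_id L]
    apply List.map_congr_left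
    intro a _; simp [hf]
  rw [this, add_comm]

@[simp] theorem rv_length (L : List V) : (rv f L).length = L.length := by simp [rv]

theorem card_ms (L : List V) : Multiset.card (ms f L) = 2 * L.length := by
  simp [ms]; ring

theorem mem_ms {L : List V} {v : V} : v ∈ ms f L ↔ v ∈ L ∨ ∃ u ∈ L, f u = v := by
  simp [ms]

theorem f_mem_ms (hf : ∀ v, f (f v) = v) {L : List V} {v : V} (h : v ∈ ms f L) : f v ∈ ms f L := by
  rw [mem_ms] at *
  rcases h with h | ⟨u, hu, rfl⟩
  · exact Or.inr ⟨v, h, rfl⟩
  · left; rw [hf]; exact hu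

theorem f_mem_ms_iff (hf : ∀ v, f (f v) = v) {L : List V} {v : V} : f v ∈ ms f L ↔ v ∈ ms f L :=
  ⟨fun h => by have := f_mem_ms hf h; rwa [hf] at this, f_mem_ms hf⟩

theorem Pth.append {u v w z : V} {L L' : List V} (h : Pth G f u v L) (ha : G.Adj v w)
    (h' : Pth G f w z L') : Pth G f u z (L ++ L') := by
  induction h with
  | single u => exact Pth.cons _ _ _ _ ha h'
  | cons u w' v L hh _ ih => exact Pth.cons _ _ _ _ hh (ih ha)

theorem Pth.rv (hf : ∀ v, f (f v) = v) {u v : V} {L : List V} (h : Pth G f u v L) :
    Pth G f v u (rv f L) := by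
  induction h with
  | single u =>
    have := Pth.single (G := G) (f := f) (f u)
    rw [hf] at this
    simpa [Helper458.rv] using this
  | cons u w v L hh _ ih =>
    have h1 := Pth.single (G := G) (f := f) (f u)
    rw [hf] at h1
    have := ih.append hh.symm h1
    simpa [Helper458.rv] using this

theorem Pth.ne_nil {u v : V} {L : List V} (h : Pth G f u v L) : L ≠ [] := by
  cases h <;> simp

theorem Pth.length_pos {u v : V} {L : List V} (h : Pth G f u v L) : 0 < L.length :=
  List.length_pos_iff.mpr h.ne_nil

theorem Pth.fst_mem {u v : V} {L : List V} (h : Pth G f u v L) : u ∈ L := by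
  cases h <;> simp

theorem Pth.snd_mem {u v : V} {L : List V} (h : Pth G f u v L) : ∃ w ∈ L, f w = v := by
  induction h with
  | single u => exact ⟨u, by simp, rfl⟩
  | cons u w v L hh _ ih => obtain ⟨x, hx, hx'⟩ := ih; exact ⟨x, by simp [hx], hx'⟩

theorem Pth.fst_mem_ms {u v : V} {L : List V} (h : Pth G f u v L) : u ∈ ms f L :=
  mem_ms.mpr (Or.inl h.fst_mem)

theorem Pth.snd_mem_ms {u v : V} {L : List V} (h : Pth G f u v L) : v ∈ ms f L :=
  mem_ms.mpr (Or.inr h.snd_mem)

/-- head of a path -/
theorem Pth.eq_cons {u v : V} {L : List V} (h : Pth G f u v L) : ∃ L', L = u :: L' := by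
  cases h <;> simp

theorem Pth.cons_inv {u v x : V} {L : List V} (h : Pth G f u v (x :: L)) :
    u = x ∧ ((L = [] ∧ v = f x) ∨ ∃ w, G.Adj (f x) w ∧ Pth G f w v L) := by
  cases h with
  | single => exact ⟨rfl, Or.inl ⟨rfl, rfl⟩⟩
  | cons _ w _ _ h h' => exact ⟨rfl, Or.inr ⟨w, h, h'⟩⟩

theorem Pth.split {u v : V} {L1 L2 : List V} (h : Pth G f u v (L1 ++ L2)) (h1 : L1 ≠ [])
    (h2 : L2 ≠ []) : ∃ a b, Pth G f u a L1 ∧ G.Adj a b ∧ Pth G f b v L2 := by
  induction L1 generalizing u with
  | nil => exact absurd rfl h1
  | cons x L1 ih =>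
    rw [List.cons_append] at h
    obtain ⟨rfl, h | ⟨w, hh, h'⟩⟩ := h.cons_inv
    · simp [h2] at h
    · by_cases hL : L1 = []
      · subst hL
        exact ⟨f u, w, Pth.single u, hh, by simpa using h'⟩
      · obtain ⟨a, b, p1, ab, p2⟩ := ih h' hL
        exact ⟨a, b, Pth.cons _ _ _ _ hh p1, ab, p2⟩

end basic

/-- segments of a bi-infinite sequence -/
def seg (c : ℤ → V) (a : ℤ) (n : ℕ) : List V := (List.range n).map (fun i : ℕ => c (a + i))

section segs

variable (c : ℤ → V)

@[simp] theorem seg_length (a : ℤ) (n : ℕ) : (seg c a n).length = n := by simp [seg]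

@[simp] theorem seg_zero (a : ℤ) : seg c a 0 = [] := by simp [seg]

theorem seg_succ (a : ℤ) (n : ℕ) : seg c a (n + 1) = c a :: seg c (a + 1) n := by
  simp only [seg, List.range_succ_eq_map, List.map_cons, List.map_map]
  congr 1
  · simp
  · apply List.map_congr_left
    intro i _
    simp only [Function.comp]
    congr 1
    push_cast
    ring

theorem seg_one (a : ℤ) : seg c a 1 = [c a] := by simp [seg]

theorem seg_add (a : ℤ) (m n : ℕ) : seg c a (m + n) = seg c a m ++ seg c (a + m) n := by
  induction m generalizing a with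
  | zero => simp
  | succ m ih =>
    rw [show m + 1 + n = (m + n) + 1 by ring, seg_succ, seg_succ, ih, List.cons_append]
    congr 3
    push_cast; ring

theorem mem_seg {a : ℤ} {n : ℕ} {v : V} : v ∈ seg c a n ↔ ∃ t : ℕ, t < n ∧ c (a + t) = v := by
  simp [seg]

end segs

/-- a cyclic sequence of matching edges forming an alternating cycle -/
structure CycFun (G : SimpleGraph V) (f : V → V) (c : ℤ → V) (k : ℕ) : Prop where
  pos : 0 < k
  per : ∀ t, c (t + k) = c t
  arr : ∀ t, G.Adj (f (c t)) (c (t + 1))
  nd : (ms f (seg c 0 k)).Nodup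

section cycfun

variable {G : SimpleGraph V} {f : V → V} {c : ℤ → V} {k : ℕ}

theorem pth_seg (h : ∀ t, G.Adj (f (c t)) (c (t + 1))) (a : ℤ) (n : ℕ) :
    Pth G f (c a) (f (c (a + n))) (seg c a (n + 1)) := by
  induction n generalizing a with
  | zero => rw [seg_one]; simpa using Pth.single (c a)
  | succ n ih =>
    rw [seg_succ]
    have := ih (a + 1)
    rw [show a + 1 + (n : ℤ) = a + ((n + 1 : ℕ) : ℤ) by push_cast; ring] at this
    exact Pth.cons _ _ _ _ (h a) this

/-- version with positive length -/
theorem CycFun.pth (hc : CycFun G f c k) (a : ℤ) (n : ℕ) (hn : 0 < n) :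
    Pth G f (c a) (f (c (a + n - 1))) (seg c a n) := by
  obtain ⟨n, rfl⟩ := Nat.exists_eq_succ_of_ne_zero hn.ne'
  have := pth_seg hc.arr a n
  rw [show a + ((n.succ : ℕ) : ℤ) - 1 = a + n by push_cast; ring]
  exact this

theorem CycFun.perm_succ (hc : CycFun G f c k) (a : ℤ) : (seg c (a + 1) k).Perm (seg c a k) := by
  have h1 : seg c a (k + 1) = c a :: seg c (a + 1) k := seg_succ c a k
  have h2 : seg c a (k + 1) = seg c a k ++ [c a] := by
    rw [seg_add, seg_one, hc.per]
  have h3 : (c a :: seg c (a + 1) k).Perm (seg c a k ++ [c a]) := by rw [← h1, h2]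
  have h4 : (seg c a k ++ [c a]).Perm (c a :: seg c a k) := List.perm_append_singleton _ _
  exact (h3.trans h4).cons_inv

theorem CycFun.perm (hc : CycFun G f c k) (a : ℤ) : (seg c a k).Perm (seg c 0 k) := by
  induction a using Int.induction_on with
  | zero => rfl
  | succ a ih => exact (hc.perm_succ a).trans ih
  | pred a ih =>
    have := hc.perm_succ (-(a : ℤ) - 1)
    rw [show -(a : ℤ) - 1 + 1 = -a by ring] at this
    exact this.symm.trans ih

theorem ms_perm {L L' : List V} (h : L.Perm L') : ms f L = ms f L' := by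
  simp only [ms]
  rw [Multiset.coe_eq_coe.mpr h, Multiset.coe_eq_coe.mpr (h.map f)]

theorem CycFun.ms_eq (hc : CycFun G f c k) (a : ℤ) : ms f (seg c a k) = ms f (seg c 0 k) :=
  ms_perm (hc.perm a)

theorem CycFun.mem (hc : CycFun G f c k) (t : ℤ) : c t ∈ ms f (seg c 0 k) := by
  rw [← hc.ms_eq t, mem_ms]
  left
  rw [mem_seg]
  exact ⟨0, hc.pos, by simp⟩

theorem CycFun.mem' (hf : ∀ v, f (f v) = v) (hc : CycFun G f c k) (t : ℤ) :
    f (c t) ∈ ms f (seg c 0 k) := f_mem_ms hf (hc.mem t)

theorem CycFun.per_mul (hc : CycFun G f c k) (t : ℤ) (n : ℕ) : c (t + n * k) = c t := by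
  induction n with
  | zero => simp
  | succ n ih =>
    rw [show t + ((n + 1 : ℕ) : ℤ) * k = (t + n * k) + k by push_cast; ring, hc.per, ih]

theorem CycFun.per_int (hc : CycFun G f c k) (t n : ℤ) : c (t + n * k) = c t := by
  rcases Int.eq_nat_or_neg n with ⟨m, rfl | rfl⟩
  · exact hc.per_mul t m
  · have := hc.per_mul (t + -(m : ℤ) * k) m
    rw [← this]; congr 1; ring

/-- reversed cyclic sequence -/
theorem CycFun.rev (hf : ∀ v, f (f v) = v) (hc : CycFun G f c k) :
    CycFun G f (fun t => f (c (-t))) k := by
  refine ⟨hc.pos, ?_, ?_, ?_⟩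
  · intro t
    have := hc.per (-(t + k))
    rw [← this]; congr 2; ring
  · intro t
    simp only [hf]
    have := hc.arr (-(t + 1))
    rw [show -(t + 1) + 1 = -t by ring] at this
    exact this.symm
  · have h1 : seg (fun t => f (c (-t))) 0 k = rv f (seg c (1 - k) k) := by
      simp only [seg, rv, List.map_map]
      apply List.ext_getElem
      · simp
      · intro n h1 h2
        simp only [List.length_map, List.length_range] at h1
        simp only [List.getElem_map, List.getElem_range, List.getElem_reverse, Function.comp,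
          List.length_map, List.length_range]
        congr 2
        omega
    rw [h1, ms_rv hf, hc.ms_eq]
    exact hc.nd

/-- shifted cyclic sequence -/
theorem CycFun.shift (hc : CycFun G f c k) (s : ℤ) : CycFun G f (fun t => c (t + s)) k := by
  refine ⟨hc.pos, ?_, ?_, ?_⟩
  · intro t
    have := hc.per (t + s)
    rw [← this]; congr 1; ring
  · intro t
    have := hc.arr (t + s)
    rw [show t + 1 + s = t + s + 1 by ring]
    exact this
  · have h1 : seg (fun t => c (t + s)) 0 k = seg c s k := by
      simp only [seg]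
      apply List.map_congr_left
      intro i _
      congr 1; ring
    rw [h1, hc.ms_eq]
    exact hc.nd

theorem CycFun.isCyc (hc : CycFun G f c k) (a : ℤ) : IsCyc G f (seg c a k) := by
  refine ⟨_, _, hc.pth a k hc.pos, ?_, by rw [hc.ms_eq]; exact hc.nd⟩
  have := hc.arr (a + k - 1)
  rw [show a + (k : ℤ) - 1 + 1 = a + k by ring, hc.per] at this
  exact this

end cycfun

/-- from a cyclic list to a cyclic sequence -/
theorem exists_cycFun {G : SimpleGraph V} {f : V → V} {L : List V} (h : IsCyc G f L) :
    ∃ c : ℤ → V, CycFun G f c L.length ∧ seg c 0 L.length = L := by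
  obtain ⟨u, v, hp, hvu, hnd⟩ := h
  have hpos := hp.length_pos
  set k := L.length with hk
  have hkz : (0 : ℤ) < k := by exact_mod_cast hpos
  have hlt : ∀ t : ℤ, (t % k).toNat < L.length := by
    intro t
    have h1 := Int.emod_nonneg t hkz.ne'
    have h2 := Int.emod_lt_of_pos t hkz
    omega
  -- arrows inside the list
  have harr : ∀ (u v : V) (L : List V), Pth G f u v L → ∀ (i : ℕ) (hi : i + 1 < L.length),
      G.Adj (f (L[i]'(by omega))) (L[i + 1]'hi) := by
    intro u v L hL
    induction hL with
    | single u => intro i hi; simp at hi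
    | cons u w v L hh h' ih =>
      intro i hi
      rcases i with _ | i
      · obtain ⟨L', rfl⟩ := h'.eq_cons
        simpa using hh
      · simpa using ih i (by simpa using hi)
  have hfst : ∀ (u v : V) (L : List V) (hL : Pth G f u v L), L[0]'(hL.length_pos) = u := by
    intro u v L hL
    cases hL <;> rfl
  have hlast : ∀ (u v : V) (L : List V) (hL : Pth G f u v L),
      f (L[L.length - 1]'(by have := hL.length_pos; omega)) = v := by
    intro u v L hL
    induction hL with
    | single u => simp
    | cons u w v L hh h' ih =>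
      have := h'.length_pos
      refine Eq.trans ?_ ih
      congr 1
      rw [List.getElem_cons]
      simp only [List.length_cons, Nat.add_sub_cancel]
      split
      · omega
      · rfl
  refine ⟨fun t => L[(t % k).toNat]'(hlt t), ⟨hpos, ?_, ?_, ?_⟩, ?_⟩
  · intro t
    simp only [Int.add_emod_right]
  · intro t
    have h1 := Int.emod_nonneg t hkz.ne'
    have h2 := Int.emod_lt_of_pos t hkz
    by_cases hcase : t % k = k - 1
    · have h3 : (t + 1) % k = 0 := by
        rw [Int.add_emod, hcase]
        have : (k : ℤ) - 1 + 1 % k = (k - 1 + 1 % k) := rfl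
        rcases eq_or_lt_of_le (show (1 : ℤ) ≤ k by omega) with h | h
        · rw [← h]; simp
        · rw [Int.emod_eq_of_lt (by norm_num : (0:ℤ) ≤ 1) h]; simp
      have e1 : (t % k).toNat = L.length - 1 := by omega
      have e2 : ((t + 1) % k).toNat = 0 := by omega
      simp only [e1, e2]
      rw [hlast u v L hp, hfst u v L hp]
      exact hvu
    · have h3 : (t + 1) % k = t % k + 1 := by
        rw [Int.add_emod]
        rcases eq_or_lt_of_le (show (1 : ℤ) ≤ k by omega) with h | h
        · omega
        · rw [Int.emod_eq_of_lt (by norm_num : (0:ℤ) ≤ 1) h, Int.emod_eq_of_lt (by omega) (by omega)]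
      have e2 : ((t + 1) % k).toNat = (t % k).toNat + 1 := by omega
      simp only [e2]
      exact harr u v L hp _ (by omega)
  · have : seg (fun t : ℤ => L[(t % k).toNat]'(hlt t)) 0 k = L := by
      simp only [seg]
      apply List.ext_getElem
      · simp [hk]
      · intro n h1 h2
        simp only [List.getElem_map, List.getElem_range, zero_add]
        congr 1
        have : ((n : ℤ) % k) = n := Int.emod_eq_of_lt (by omega) (by omega)
        rw [this]; simp
    rw [this]; exact hnd
  · simp only [seg]
    apply List.ext_getElem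
    · simp [hk]
    · intro n h1 h2
      simp only [List.getElem_map, List.getElem_range, zero_add]
      congr 1
      have : ((n : ℤ) % k) = n := Int.emod_eq_of_lt (by omega) (by omega)
      rw [this]; simp

end Pool.Agent.Helper458
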