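import Pool.Agent.Helper458.Types

set_option autoImplicit false

namespace Pool.Agent.Helper458

open Classical

variable {V : Type*}

section cntmore

variable {c c' : ℤ → V} {P Q : V → Prop}

theorem cnt_disj_lt {a b : ℤ} {n : ℕ} (h : ∀ i : ℕ, i < n → ¬ (P (c (a + i)) ∧ Q (c' (b + i))))
    (j : ℕ) (hj : j < n) (h1 : ¬ P (c (a + j))) (h2 : ¬ Q (c' (b + j))) :
    cnt c a n P + cnt c' b n Q + 1 ≤ n := by
  simp only [cnt]
  rw [← Finset.card_union_of_disjoint]
  · have hsub : (Finset.range n).filter (fun i : ℕ => P (c (a + i))) ∪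
        (Finset.range n).filter (fun i : ℕ => Q (c' (b + i))) ⊆ (Finset.range n).erase j := by
      intro i hi
      simp only [Finset.mem_union, Finset.mem_filter, Finset.mem_range, Finset.mem_erase] at hi ⊢
      rcases hi with hi | hi
      · refine ⟨?_, hi.1⟩
        rintro rfl; exact h1 hi.2
      · refine ⟨?_, hi.1⟩
        rintro rfl; exact h2 hi.2
    have := Finset.card_le_card hsub
    rw [Finset.card_erase_of_mem (Finset.mem_range.mpr hj), Finset.card_range] at this
    omega
  · rw [Finset.disjoint_left]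
    intro i hi hi'
    simp only [Finset.mem_filter, Finset.mem_range] at hi hi'
    exact h i hi.1 ⟨hi.2, hi'.2⟩

theorem cnt_le_interval {b : ℤ} {n lo hi : ℕ}
    (h : ∀ t : ℕ, t < n → P (c (b + t)) → lo ≤ t ∧ t < hi) : cnt c b n P ≤ hi - lo := by
  have hsub : (Finset.range n).filter (fun i : ℕ => P (c (b + i))) ⊆ Finset.Ico lo hi := by
    intro i hi
    simp only [Finset.mem_filter, Finset.mem_range, Finset.mem_Ico] at hi ⊢
    exact h i hi.1 hi.2
  have := Finset.card_le_card hsub
  simpa [cnt] using this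

theorem cnt_eq_interval {b : ℤ} {n lo hi : ℕ} (hn : hi ≤ n)
    (h : ∀ t : ℕ, t < n → (P (c (b + t)) ↔ (lo ≤ t ∧ t < hi))) : cnt c b n P = hi - lo := by
  have hsub : (Finset.range n).filter (fun i : ℕ => P (c (b + i))) = Finset.Ico lo hi := by
    ext i
    simp only [Finset.mem_filter, Finset.mem_range, Finset.mem_Ico]
    constructor
    · rintro ⟨h1, h2⟩; exact (h i h1).mp h2
    · rintro ⟨h1, h2⟩; exact ⟨by omega, (h i (by omega)).mpr ⟨h1, h2⟩⟩
  rw [cnt, hsub, Nat.card_Ico]

end cntmore

section

variable [Fintype V] {G : SimpleGraph V} {f : V → V} {c : ℤ → V} {k l : ℕ}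

theorem W_adj (S : Setup G f c k l) {z u : V} (hz : z ∈ Wf f c k) (hu : u ∈ Wf f c k)
    (hne : u ≠ z) : G.Adj z u :=
  full_adj S (by rw [(W_struct S).2.1 z hz]) hz hu hne

theorem dg_W (S : Setup G f c k l) {z : V} (hz : z ∈ Wf f c k) : dg G z = k + l := by
  obtain ⟨h1, h2, h3, h4, h5⟩ := W_struct S
  have := h2 z hz
  have := h3 z hz
  have := S.lpos
  rw [deg_eq S.cyc]
  omega

theorem exists_notMem_W (S : Setup G f c k l) (s : Multiset V) (hs : Multiset.card s < 2 * l) :
    ∃ u ∈ Wf f c k, u ∉ s := by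
  by_contra hall
  push Not at hall
  have h1 : (Wf f c k).val ≤ s := by
    rw [Multiset.le_iff_subset (Wf f c k).nodup]
    intro v hv
    exact hall v hv
  have h2 := Multiset.card_le_card h1
  have h3 := S.card_W
  rw [Finset.card_def] at h3
  omega

theorem WP_insert (S : Setup G f c k l) {x y u : V} {P : List V} (h : WP G f c k x y P)
    (h2 : 2 ≤ P.length) (hu : u ∈ Wf f c k) (huP : u ∉ ms f P) :
    ∃ P', WP G f c k x y P' ∧ P'.length = P.length + 1 := by
  obtain ⟨L, rfl⟩ := h.pth.eq_cons
  obtain ⟨_, hL | ⟨w, hw, hL⟩⟩ := h.pth.cons_inv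
  · rw [hL.1] at h2; simp at h2
  have huL : u ∉ ms f L := by
    intro h'
    apply huP
    rw [ms_cons]; exact Multiset.mem_add.mpr (Or.inr h')
  have hux : u ≠ x := by
    rintro rfl
    exact huP h.pth.fst_mem_ms
  have hufx : u ≠ f x := by
    rintro rfl
    exact huP (f_mem_ms S.inv h.pth.fst_mem_ms)
  have hxW := h.mem h.pth.fst_mem_ms
  have hwL := hL.fst_mem_ms
  have hwW : w ∈ Wf f c k := h.mem (by rw [ms_cons]; exact Multiset.mem_add.mpr (Or.inr hwL))
  have a1 : G.Adj (f x) u := W_adj S (S.f_mem_W.mpr hxW) hu hufx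
  have a2 : G.Adj (f u) w := by
    apply W_adj S (S.f_mem_W.mpr hu) hwW
    rintro rfl
    exact huL ((f_mem_ms_iff S.inv).mp hwL)
  refine ⟨x :: u :: L, wp_of S.cyc (Pth.cons _ _ _ _ a1 (Pth.cons _ _ _ _ a2 hL)) ?_ ?_, by simp⟩
  · have hnd := h.ndP
    rw [ms_cons] at hnd huP ⊢
    rw [ms_cons, ← add_assoc, add_comm ({x, f x} : Multiset V), add_assoc]
    rw [Multiset.nodup_add]
    refine ⟨?_, hnd, ?_⟩
    · simp only [Multiset.insert_eq_cons, Multiset.nodup_cons, Multiset.mem_singleton,
        Multiset.nodup_singleton, and_true]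
      exact fun h => S.ne u h.symm
    · rw [Multiset.disjoint_left]
      intro v hv hv'
      simp only [Multiset.insert_eq_cons, Multiset.mem_cons, Multiset.mem_singleton] at hv
      rcases hv with rfl | rfl
      · exact huP hv'
      · have : f u ∈ ms f (x :: L) := by rw [ms_cons]; exact hv'
        rw [f_mem_ms_iff S.inv, ms_cons] at this
        exact huP this
  · intro v hv
    rw [ms_cons, ms_cons] at hv
    simp only [Multiset.insert_eq_cons, Multiset.mem_add, Multiset.mem_cons,
      Multiset.mem_singleton] at hv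
    rcases hv with (rfl | rfl) | (rfl | rfl) | hv
    · exact hxW
    · exact S.f_mem_W.mpr hxW
    · exact hu
    · exact S.f_mem_W.mpr hu
    · exact h.mem (by rw [ms_cons]; exact Multiset.mem_add.mpr (Or.inr hv))

theorem sp_of_ne (S : Setup G f c k l) (hl : 2 ≤ l) {x y : V} (hx : x ∈ Wf f c k)
    (hy : y ∈ Wf f c k) (hyx : y ≠ x) (hyfx : y ≠ f x) : SP G f c k l x y := by
  have key : ∀ p, 2 ≤ p → p ≤ l → ∃ P, WP G f c k x y P ∧ P.length = p := by
    intro p hp
    induction p, hp using Nat.le_induction with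
    | base =>
      intro _
      have a1 : G.Adj (f x) (f y) := by
        apply W_adj S (S.f_mem_W.mpr hx) (S.f_mem_W.mpr hy)
        intro h; exact hyx (S.finj h)
      have p1 := Pth.single (G := G) (f := f) (f y)
      rw [S.inv] at p1
      refine ⟨[x, f y], wp_of S.cyc (Pth.cons _ _ _ _ a1 p1) ?_ ?_, rfl⟩
      · rw [ms_cons, ms_cons, ms_nil, add_zero, S.inv]
        simp only [Multiset.insert_eq_cons, Multiset.singleton_add, Multiset.cons_add,
          Multiset.nodup_cons, Multiset.mem_cons, Multiset.mem_singleton,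
          Multiset.nodup_singleton, and_true]
        refine ⟨?_, ?_, ?_⟩
        · rintro (h | h | h)
          · exact S.ne x h.symm
          · apply hyfx; rw [h, S.inv]
          · exact hyx h.symm
        · rintro (h | h)
          · exact hyx (S.finj h).symm
          · exact hyfx h.symm
        · exact S.ne y
      · intro v hv
        rw [ms_cons, ms_cons, ms_nil, add_zero, S.inv] at hv
        simp only [Multiset.insert_eq_cons, Multiset.singleton_add, Multiset.cons_add,
          Multiset.mem_cons, Multiset.mem_singleton] at hv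
        rcases hv with rfl | rfl | rfl | rfl
        · exact hx
        · exact S.f_mem_W.mpr hx
        · exact S.f_mem_W.mpr hy
        · exact hy
    | succ p hp ih =>
      intro hpl
      obtain ⟨P, hP, hPl⟩ := ih (by omega)
      obtain ⟨u, hu, huP⟩ := exists_notMem_W S (ms f P) (by rw [card_ms]; omega)
      obtain ⟨P', hP', hl'⟩ := WP_insert S hP (by omega) hu huP
      exact ⟨P', hP', by omega⟩
  exact key l hl le_rfl

/-- the interval structure -/
theorem interval (S : Setup G f c k l) (hl : 2 ≤ l) {x y : V} (hsp : SP G f c k l x y)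
    (ht : cnt c 0 k (fun v => G.Adj x (f v)) + cnt c 0 k (G.Adj y) + l = k + 1)
    (h1 : 0 < cnt c 0 k (fun v => G.Adj x (f v))) (h2 : 0 < cnt c 0 k (G.Adj y)) :
    ∃ b : ℤ, ∃ a0 : ℕ, a0 + l + 1 ≤ k ∧ (∀ t : ℕ, t < k → (G.Adj y (c (b + t)) ↔ t ≤ a0)) ∧
      (∀ t : ℕ, t < k → (G.Adj x (f (c (b + t))) ↔ (a0 ≤ t ∧ t + l + 1 ≤ k))) := by
  obtain ⟨P, h, hPl⟩ := hsp
  obtain ⟨i, hi, hxi⟩ := cnt_pos_iff.mp h1
  obtain ⟨j, hj, hyj⟩ := cnt_pos_iff.mp h2
  obtain ⟨n, ⟨hn1, hnk, a, hya, hxa⟩, hmx⟩ := exists_greatest (b := k)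
    (P := fun n => 1 ≤ n ∧ n ≤ k ∧ ∃ a : ℤ, G.Adj y (c a) ∧ G.Adj x (f (c (a + n - 1))))
    (by
      obtain ⟨s, hs, n, hn⟩ := rep S (0 + j) (0 + i)
      refine ⟨s + 1, by omega, by omega, 0 + j, hyj, ?_⟩
      have : c (0 + i) = c (0 + j + ((s + 1 : ℕ) : ℤ) - 1) := by
        rw [hn, S.cyc.per_int]; congr 1; push_cast; ring
      rw [← this]; exact hxi)
    (fun n hn => hn.2.1)
  have hle := S.ins h hn1 hnk hya hxa
  rw [hPl] at hle
  obtain ⟨r, hr⟩ := Nat.exists_eq_add_of_le hnk
  have q1 : ∀ t : ℕ, t < r → ¬ G.Adj x (f (c (a + n + t))) := by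
    intro t ht hadj
    have := hmx (n + t + 1) (by
      refine ⟨by omega, by omega, a, hya, ?_⟩
      convert hadj using 3
      push_cast; ring)
    omega
  have q2 : ∀ t : ℕ, t < r → ¬ G.Adj y (c (a + n + t)) := by
    intro t ht hadj
    have := hmx (k - t) (by
      refine ⟨by omega, by omega, a + n + t, hadj, ?_⟩
      have e : (a + n + t + ((k - t : ℕ) : ℤ) - 1) = (a + n - 1) + k := by
        have : ((k - t : ℕ) : ℤ) = k - t := by omega
        rw [this]; ring
      rw [e, S.cyc.per]
      exact hxa)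
    omega
  have z1 : cnt c (a + n) r (fun v => G.Adj x (f v)) = 0 := cnt_eq_zero q1
  have z2 : cnt c (a + n) r (G.Adj y) = 0 := cnt_eq_zero q2
  have t1 : cnt c 0 k (fun v => G.Adj x (f v)) = cnt c a n (fun v => G.Adj x (f v)) := by
    rw [← cnt_base S.cyc.per a, hr, cnt_add, z1, add_zero]
  have t2 : cnt c 0 k (G.Adj y) = cnt c a n (G.Adj y) := by
    rw [← cnt_base S.cyc.per a, hr, cnt_add, z2, add_zero]
  rw [t1, t2] at ht
  have hch := cnt_chain (c := c) (P := fun v => G.Adj x (f v)) (Q := G.Adj y) (a := a) (n := n)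
    (fun t _ => S.ins0 h (a + t))
  have hnl : n + l = k := by omega
  -- one of the two
  obtain ⟨n', rfl⟩ : ∃ n', n = n' + 1 := ⟨n - 1, by omega⟩
  have hone : ∀ j : ℕ, j < n' → G.Adj x (f (c (a + j))) ∨ G.Adj y (c (a + j + 1)) := by
    intro j hj
    by_contra hcon
    push Not at hcon
    rw [cnt_succ (P := fun v => G.Adj x (f v)), cnt_succ' (P := G.Adj y)] at ht
    have := cnt_disj_lt (c := c) (c' := c) (P := fun v => G.Adj x (f v)) (Q := G.Adj y)
      (a := a) (b := a + 1) (n := n') (by
        intro i hi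
        have := S.ins0 h (a + i)
        rwa [show a + 1 + (i : ℤ) = a + i + 1 by ring]) j hj hcon.1
      (by rw [show a + 1 + (j : ℤ) = a + j + 1 by ring]; exact hcon.2)
    split_ifs at ht <;> omega
  have hlast : G.Adj x (f (c (a + n'))) := by
    convert hxa using 3; push_cast; ring
  have hup : ∀ j : ℕ, j < n' → G.Adj x (f (c (a + j))) → G.Adj x (f (c (a + (j + 1 : ℕ)))) := by
    intro j hj hadj
    rcases Nat.lt_or_ge (j + 1) n' with hj2 | hj2
    · rcases hone (j + 1) hj2 with h3 | h3
      · exact h3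
      · exfalso
        have := S.ins h (a := a + (j + 1 : ℕ) + 1) (n := k - 1) (by omega) (by omega) h3 (by
          have e : a + ((j + 1 : ℕ) : ℤ) + 1 + ((k - 1 : ℕ) : ℤ) - 1 = a + j + k := by
            have : ((k - 1 : ℕ) : ℤ) = k - 1 := by omega
            rw [this]; push_cast; ring
          rw [e, S.cyc.per]; exact hadj)
        omega
    · have : j + 1 = n' := by omega
      rw [this]; exact hlast
  have hex : ∃ j : ℕ, G.Adj x (f (c (a + j))) := ⟨n', hlast⟩
  set a0 := Nat.find hex with ha0
  have hfind : G.Adj x (f (c (a + a0))) := Nat.find_spec hex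
  have ha0n : a0 ≤ n' := Nat.find_min' hex hlast
  have hmin : ∀ t : ℕ, t < a0 → ¬ G.Adj x (f (c (a + t))) := fun t ht => Nat.find_min hex ht
  have hA : ∀ t : ℕ, t ≤ n' → a0 ≤ t → G.Adj x (f (c (a + t))) := by
    intro t ht hat
    induction t, hat using Nat.le_induction with
    | base => exact hfind
    | succ t hat ih => exact hup t (by omega) (ih (by omega))
  refine ⟨a, a0, by omega, ?_, ?_⟩
  · intro t htk
    rcases Nat.lt_or_ge t (n' + 1) with h3 | h3
    · rcases t with _ | t
      · simpa using hya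
      · constructor
        · intro hadj
          by_contra hcon
          apply S.ins0 h (a + t)
          refine ⟨hA t (by omega) (by omega), ?_⟩
          convert hadj using 2; push_cast; ring
        · intro hle
          rcases hone t (by omega) with h4 | h4
          · exact absurd h4 (hmin t (by omega))
          · convert h4 using 2; push_cast; ring
    · constructor
      · intro hadj
        exfalso
        apply q2 (t - (n' + 1)) (by omega)
        convert hadj using 2
        omega
      · intro; omega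
  · intro t htk
    rcases Nat.lt_or_ge t (n' + 1) with h3 | h3
    · constructor
      · intro hadj
        refine ⟨?_, by omega⟩
        by_contra hcon
        exact hmin t (by omega) hadj
      · rintro ⟨h4, _⟩
        exact hA t (by omega) h4
    · constructor
      · intro hadj
        exfalso
        apply q1 (t - (n' + 1)) (by omega)
        convert hadj using 3
        omega
      · intro; omega

end

end Pool.Agent.Helper458
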