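import Pool.Agent.Helper458.Big

set_option autoImplicit false

namespace Pool.Agent.Helper458

open Classical

variable {V : Type*}

section

variable [Fintype V] {G : SimpleGraph V} {f : V → V} {c : ℤ → V} {k l : ℕ}

/-- interval data for a pair -/
def Ival (G : SimpleGraph V) (f : V → V) (c : ℤ → V) (k l : ℕ) (x y : V) (b : ℤ) (a0 : ℕ) : Prop :=
  a0 + l + 1 ≤ k ∧ (∀ t : ℕ, t < k → (G.Adj y (c (b + t)) ↔ t ≤ a0)) ∧
      (∀ t : ℕ, t < k → (G.Adj x (f (c (b + t))) ↔ (a0 ≤ t ∧ t + l + 1 ≤ k)))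

theorem O_char (S : Setup G f c k l) {x y : V} {b : ℤ} {a0 : ℕ} (hI : Ival G f c k l x y b a0)
    (t : ℤ) : G.Adj y (c t) ↔ ∀ s : ℕ, 1 ≤ s → s ≤ l → ¬ G.Adj x (f (c (t - s))) := by
  obtain ⟨h0, hO, hA⟩ := hI
  have hl := S.lpos
  obtain ⟨r, hr, n, rfl⟩ := rep S b t
  have e0 : c (b + r + n * k) = c (b + r) := S.cyc.per_int _ _
  rw [e0, hO r hr]
  constructor
  · intro hra s hs1 hsl
    rcases Nat.lt_or_ge r s with h | h
    · have e1 : c (b + r + n * k - s) = c (b + ((r + k - s : ℕ) : ℤ)) := by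
        have : ((r + k - s : ℕ) : ℤ) = r + k - s := by omega
        rw [this, ← S.cyc.per_int (b + (r + k - s)) (n - 1)]
        congr 1; ring
      rw [e1, hA _ (by omega)]
      omega
    · have e1 : c (b + r + n * k - s) = c (b + ((r - s : ℕ) : ℤ)) := by
        have : ((r - s : ℕ) : ℤ) = r - s := by omega
        rw [this, ← S.cyc.per_int (b + (r - s)) n]
        congr 1; ring
      rw [e1, hA _ (by omega)]
      omega
  · intro hs
    by_contra hcon
    have key : ∀ s : ℕ, 1 ≤ s → s ≤ l → s ≤ r → ¬ (a0 ≤ r - s ∧ r - s + l + 1 ≤ k) := by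
      intro s h1 h2 h3
      have := hs s h1 h2
      have e1 : c (b + r + n * k - s) = c (b + ((r - s : ℕ) : ℤ)) := by
        have : ((r - s : ℕ) : ℤ) = r - s := by omega
        rw [this, ← S.cyc.per_int (b + (r - s)) n]
        congr 1; ring
      rw [e1, hA _ (by omega)] at this
      exact this
    have k1 := key 1 le_rfl (by omega) (by omega)
    have k2 := key (r + l + 1 - k)
    omega

theorem A_char (S : Setup G f c k l) {x y : V} {b : ℤ} {a0 : ℕ} (hI : Ival G f c k l x y b a0)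
    (t : ℤ) : G.Adj x (f (c t)) ↔ ∀ s : ℕ, 1 ≤ s → s ≤ l → ¬ G.Adj y (c (t + s)) := by
  obtain ⟨h0, hO, hA⟩ := hI
  have hl := S.lpos
  obtain ⟨r, hr, n, rfl⟩ := rep S b t
  have e0 : c (b + r + n * k) = c (b + r) := S.cyc.per_int _ _
  rw [e0, hA r hr]
  constructor
  · rintro hra s hs1 hsl
    have e1 : c (b + r + n * k + s) = c (b + ((r + s : ℕ) : ℤ)) := by
      rw [← S.cyc.per_int (b + ((r + s : ℕ) : ℤ)) n]
      congr 1; push_cast; ring
    rw [e1, hO _ (by omega)]
    omega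
  · intro hs
    by_contra hcon
    rcases Nat.lt_or_ge r a0 with h | h
    · apply hs 1 le_rfl (by omega)
      have e1 : c (b + r + n * k + (1 : ℕ)) = c (b + ((r + 1 : ℕ) : ℤ)) := by
        rw [← S.cyc.per_int (b + ((r + 1 : ℕ) : ℤ)) n]
        congr 1; push_cast; ring
      rw [e1, hO _ (by omega)]
      omega
    · apply hs (k - r) (by omega) (by omega)
      have e1 : c (b + r + n * k + ((k - r : ℕ) : ℤ)) = c (b + ((0 : ℕ) : ℤ)) := by
        have : ((k - r : ℕ) : ℤ) = k - r := by omega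
        rw [this, ← S.cyc.per_int (b + ((0 : ℕ) : ℤ)) (n + 1)]
        congr 1; push_cast; ring
      rw [e1, hO _ (by omega)]
      omega

theorem tight_pair (S : Setup G f c k l) (hl : 2 ≤ l) {x y : V} (hx : x ∈ Wf f c k)
    (hy : y ∈ Wf f c k) (hyx : y ≠ x) (hyfx : y ≠ f x) :
    ∃ b a0, Ival G f c k l x y b a0 := by
  have hsp := sp_of_ne S hl hx hy hyx hyfx
  obtain ⟨hlk, h2, h3, h4, h5⟩ := W_struct S
  have h6 := tri S hlk hsp
  have := h4 x hx
  have := h4 y hy
  have := h5 x hx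
  have := h5 y hy
  have := h3 x hx
  obtain ⟨b, a0, hI⟩ := interval S hl hsp (by omega) (by assumption) (by assumption)
  exact ⟨b, a0, hI⟩

theorem pair_eq (S : Setup G f c k l) (hl : 2 ≤ l) {z y : V} (hz : z ∈ Wf f c k)
    (hy : y ∈ Wf f c k) (hyz : y ≠ z) (hyfz : y ≠ f z) :
    (∀ t, G.Adj z (c t) ↔ G.Adj y (c t)) ∧ (∀ t, G.Adj z (f (c t)) ↔ G.Adj y (f (c t))) := by
  have hfyz : z ≠ f y := by
    rintro rfl
    exact hyfz (S.inv y).symm
  rcases Nat.lt_or_ge 2 l with hl3 | hl2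
  · -- a third edge
    obtain ⟨w, hw, hwn⟩ := exists_notMem_W S ({z, f z, y, f y} : Multiset V) (by
      simp; omega)
    simp only [Multiset.insert_eq_cons, Multiset.mem_cons, Multiset.mem_singleton, not_or] at hwn
    obtain ⟨w1, w2, w3, w4⟩ := hwn
    have w5 : z ≠ f w := by rintro rfl; exact w2 (S.inv w).symm
    have w6 : y ≠ f w := by rintro rfl; exact w4 (S.inv w).symm
    obtain ⟨b1, a1, I1⟩ := tight_pair S hl hz hw w1 w2
    obtain ⟨b2, a2, I2⟩ := tight_pair S hl hy hw w3 w4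
    obtain ⟨b3, a3, I3⟩ := tight_pair S hl hw hz (Ne.symm w1) w5
    obtain ⟨b4, a4, I4⟩ := tight_pair S hl hw hy (Ne.symm w3) w6
    constructor
    · intro t; rw [O_char S I3, O_char S I4]
    · intro t; rw [A_char S I1, A_char S I2]
  · have hl2 : l = 2 := by omega
    subst hl2
    obtain ⟨b, a0, I⟩ := tight_pair S hl hz hy hyz hyfz
    obtain ⟨b', a0', I'⟩ := tight_pair S hl hy hz hyz.symm hfyz
    have hI := I
    obtain ⟨h0, hO, hA⟩ := I
    have hfz : f z ∈ Wf f c k := S.f_mem_W.mpr hz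
    have hfy : f y ∈ Wf f c k := S.f_mem_W.mpr hy
    obtain ⟨b1, a1, I1⟩ := tight_pair S hl hy hfz hyfz.symm (by
      intro h; exact hyz (S.finj h).symm)
    obtain ⟨b2, a2, I2⟩ := tight_pair S hl hz hfy hfyz.symm (by
      intro h; exact hyz (S.finj h))
    have Ozz : ∀ t, G.Adj z (c t) ↔ G.Adj (f z) (c t) := by
      intro t; rw [O_char S I', O_char S I1]
    have Oyy : ∀ t, G.Adj y (c t) ↔ G.Adj (f y) (c t) := by
      intro t; rw [O_char S hI, O_char S I2]
    obtain ⟨hlk, g2, g3, g4, g5⟩ := W_struct S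
    have cz := g3 z hz
    have cy := g3 y hy
    have oy : cnt c 0 k (G.Adj y) = a0 + 1 := by
      rw [← cnt_base S.cyc.per b]
      have := cnt_eq_interval (c := c) (P := G.Adj y) (b := b) (n := k) (lo := 0) (hi := a0 + 1)
        (by omega) (by intro t ht; rw [hO t ht]; omega)
      rw [this]; rfl
    have az : cnt c 0 k (fun v => G.Adj z (f v)) = k - 2 - a0 := by
      rw [← cnt_base S.cyc.per b]
      have := cnt_eq_interval (c := c) (P := fun v => G.Adj z (f v)) (b := b) (n := k) (lo := a0)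
        (hi := k - 2) (by omega) (by intro t ht; rw [hA t ht]; omega)
      rw [this]
    by_cases hlast : G.Adj z (c (b + ((k - 1 : ℕ) : ℤ)))
    · exfalso
      have ay : cnt c b k (fun v => G.Adj y (f v)) ≤ k - 3 - a0 := by
        apply cnt_le_interval
        intro t ht hadj
        have c1 : ¬ G.Adj y (c (b + t + 1)) := by
          intro h'
          exact S.ins0 (S.single hy) (b + t) ⟨hadj, (Oyy _).mp h'⟩
        have c2 : a0 ≤ t ∧ t ≠ k - 1 := by
          constructor
          · by_contra hcon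
            apply c1
            have := (hO (t + 1) (by omega)).mpr (by omega)
            convert this using 2; push_cast; ring
          · rintro rfl
            apply c1
            have := (hO 0 (by omega)).mpr (by omega)
            have e : c (b + ((k - 1 : ℕ) : ℤ) + 1) = c (b + ((0 : ℕ) : ℤ)) := by
              have : ((k - 1 : ℕ) : ℤ) = k - 1 := by omega
              rw [this, ← S.cyc.per (b + ((0 : ℕ) : ℤ))]
              congr 1; push_cast; ring
            rw [e]; exact this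
        have c3 := (A_char S I' (b + t)).mp hadj
        refine ⟨c2.1, ?_⟩
        by_contra hcon
        have c4 : t = k - 2 ∨ t = k - 3 := by omega
        rcases c4 with rfl | rfl
        · apply c3 1 (by omega) (by omega)
          convert hlast using 2
          omega
        · apply c3 2 (by omega) (by omega)
          convert hlast using 2
          omega
      rw [cnt_base S.cyc.per b] at ay
      omega
    · have hsub : ∀ t : ℕ, t < k → G.Adj z (c (b + t)) → G.Adj y (c (b + t)) := by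
        intro t ht hadj
        rw [hO t ht]
        by_contra hcon
        have c5 : t ≠ k - 1 := by rintro rfl; exact hlast hadj
        have c6 := (hA (t - 1) (by omega)).mpr (by omega)
        apply S.ins0 (S.single hz) (b + ((t - 1 : ℕ) : ℤ))
        refine ⟨c6, ?_⟩
        have e : b + ((t - 1 : ℕ) : ℤ) + 1 = b + t := by omega
        rw [e]
        exact (Ozz _).mp hadj
      have heq : ∀ t : ℕ, t < k → (G.Adj z (c (b + t)) ↔ G.Adj y (c (b + t))) := by
        intro t ht
        refine ⟨hsub t ht, ?_⟩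
        intro h1
        by_contra h2
        have := cnt_lt_of (c := c) (P := G.Adj z) (Q := G.Adj y) (a := b) (n := k) hsub t ht h2 h1
        rw [cnt_base S.cyc.per b, cnt_base S.cyc.per b] at this
        omega
      have heq' : ∀ t : ℤ, G.Adj z (c t) ↔ G.Adj y (c t) := by
        intro t
        obtain ⟨r, hr, n, rfl⟩ := rep S b t
        rw [S.cyc.per_int]
        exact heq r hr
      refine ⟨heq', ?_⟩
      intro t
      rw [A_char S hI, A_char S I']
      simp only [heq']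

theorem all_eq (S : Setup G f c k l) (hl : 2 ≤ l) {z y : V} (hz : z ∈ Wf f c k)
    (hy : y ∈ Wf f c k) :
    (∀ t, G.Adj z (c t) ↔ G.Adj y (c t)) ∧ (∀ t, G.Adj z (f (c t)) ↔ G.Adj y (f (c t))) := by
  by_cases h1 : y = z
  · subst h1; simp
  by_cases h2 : y = f z
  · subst h2
    obtain ⟨w, hw, hwn⟩ := exists_notMem_W S ({z, f z} : Multiset V) (by simp; omega)
    simp only [Multiset.insert_eq_cons, Multiset.mem_cons, Multiset.mem_singleton, not_or] at hwn
    have p1 := pair_eq S hl hz hw hwn.1 hwn.2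
    have p2 := pair_eq S hl (S.f_mem_W.mpr hz) hw hwn.2 (by rw [S.inv]; exact hwn.1)
    constructor
    · intro t; rw [p1.1, p2.1]
    · intro t; rw [p1.2, p2.2]
  · exact pair_eq S hl hz hy h1 h2

/-- uniform interval data -/
theorem unif (S : Setup G f c k l) (hl : 2 ≤ l) : ∃ b : ℤ, ∃ a0 : ℕ, a0 + l + 1 ≤ k ∧
    (∀ z ∈ Wf f c k, ∀ t : ℕ, t < k → (G.Adj z (c (b + t)) ↔ t ≤ a0)) ∧
    (∀ z ∈ Wf f c k, ∀ t : ℕ, t < k → (G.Adj z (f (c (b + t))) ↔ (a0 ≤ t ∧ t + l + 1 ≤ k))) := by
  obtain ⟨x, hx, _⟩ := exists_notMem_W S (0 : Multiset V) (by simp; omega)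
  obtain ⟨y, hy, hwn⟩ := exists_notMem_W S ({x, f x} : Multiset V) (by simp; omega)
  simp only [Multiset.insert_eq_cons, Multiset.mem_cons, Multiset.mem_singleton, not_or] at hwn
  obtain ⟨b, a0, h0, hO, hA⟩ := tight_pair S hl hx hy hwn.1 hwn.2
  refine ⟨b, a0, h0, ?_, ?_⟩
  · intro z hz t ht
    rw [(all_eq S hl hz hy).1, hO t ht]
  · intro z hz t ht
    rw [(all_eq S hl hz hx).2, hA t ht]

theorem seg_shift_eq (s : ℤ) (a : ℤ) (n : ℕ) : seg (fun t => c (t + s)) a n = seg c (a + s) n := by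
  simp only [seg]
  apply List.map_congr_left
  intro i _
  congr 1; ring

theorem Setup.shift (S : Setup G f c k l) (s : ℤ) : Setup G f (fun t => c (t + s)) k l :=
  ⟨S.inv, S.ne, S.cyc.shift s, S.max, S.card, S.deg, S.lpos⟩

theorem Wf_shift (S : Setup G f c k l) (s : ℤ) : Wf f (fun t => c (t + s)) k = Wf f c k := by
  simp only [Wf, seg_shift_eq, S.cyc.ms_eq]

theorem cnt_shift (S : Setup G f c k l) (s : ℤ) (P : V → Prop) :
    cnt (fun t => c (t + s)) 0 k P = cnt c 0 k P := by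
  rw [← cnt_base S.cyc.per s]
  apply cnt_congr
  intro i _
  rw [show (0 : ℤ) + i + s = s + i by ring]

theorem sp_ms (S : Setup G f c k l) {x y : V} {P : List V} (h : WP G f c k x y P)
    (hl : P.length = l) : ms f P = (Wf f c k).val := by
  have hsub : ms f P ≤ (Wf f c k).val := by
    rw [Multiset.le_iff_subset h.ndP]
    intro v hv
    exact h.mem hv
  apply Multiset.eq_of_le_of_card_le hsub
  have h2 := S.card_W
  rw [Finset.card_def] at h2
  rw [h2, card_ms, hl]

section hamlemmas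

variable {h : ℕ} {P P' : List V} {x y x' y' : V}

theorem too_long (S : Setup G f c k l) (hk : k = h + l) (hl : P.length = l) (hl' : P'.length = l)
    (hN : (ms f (seg c 0 h) + ms f P + ms f P').Nodup) {L : List V} {u v : V}
    (hp : Pth G f u v L) (ha : G.Adj v u)
    (hms : ms f L = ms f (seg c 0 h) + ms f P + ms f P') : False := by
  have h1 := S.max L ⟨u, v, hp, ha, by rw [hms]; exact hN⟩
  have h2 := congrArg Multiset.card hms
  rw [card_ms, Multiset.card_add, Multiset.card_add, card_ms, card_ms, card_ms, seg_length] at h2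
  have := S.lpos
  omega

theorem ham1 (S : Setup G f c k l) (hk : k = h + l) (hl : P.length = l) (hl' : P'.length = l)
    (hN : (ms f (seg c 0 h) + ms f P + ms f P').Nodup)
    (hP : Pth G f x y P) (hP' : Pth G f x' y' P') {a : ℕ} (ha : a + 1 < h)
    (e1 : G.Adj x (f (c a))) (e2 : G.Adj y (f (c ((h : ℤ) - 1)))) (e3 : G.Adj x' (c (a + 1)))
    (e4 : G.Adj y' (c 0)) : False := by
  obtain ⟨r, rfl⟩ := Nat.exists_eq_add_of_lt ha
  have p1 := S.cyc.pth 0 (a + 1) (by omega)
  have p2 := (S.cyc.pth (a + 1 : ℕ) (r + 1) (by omega)).rv S.inv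
  push_cast at p1 p2 e2
  rw [show (0 : ℤ) + (a + 1) - 1 = a by ring] at p1
  rw [show (a : ℤ) + 1 + (r + 1) - 1 = a + 1 + r + 1 - 1 by ring] at p2
  have q1 := p1.append e1.symm hP
  have q2 := (q1.append e2 p2).append e3.symm hP'
  refine too_long S hk hl hl' hN q2 e4 ?_
  have hs : ms f (seg c 0 (a + 1 + r + 1)) =
      ms f (seg c 0 (a + 1)) + ms f (seg c ((a : ℤ) + 1) (r + 1)) := by
    rw [show a + 1 + r + 1 = (a + 1) + (r + 1) by ring]
    rw [seg_add c 0 (a + 1) (r + 1), ms_append]; push_cast; rw [zero_add]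
  rw [ms_append, ms_append, ms_append, ms_rv S.inv, hs]
  abel

theorem ham2 (S : Setup G f c k l) (hk : k = h + l) (hl : P.length = l) (hl' : P'.length = l)
    (hN : (ms f (seg c 0 h) + ms f P + ms f P').Nodup)
    (hP : Pth G f x y P) (hP' : Pth G f x' y' P') {a p : ℕ} (hap : a + 1 < p) (hph : p < h)
    (e1 : G.Adj x (f (c a))) (e2 : G.Adj y (f (c ((p : ℤ) - 1)))) (e3 : G.Adj (c (a + 1)) (c p))
    (e4 : G.Adj x' (f (c ((h : ℤ) - 1)))) (e5 : G.Adj y' (c 0)) : False := by
  obtain ⟨r, rfl⟩ := Nat.exists_eq_add_of_lt hap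
  obtain ⟨s, rfl⟩ := Nat.exists_eq_add_of_lt hph
  have p1 := S.cyc.pth 0 (a + 1) (by omega)
  have p2 := (S.cyc.pth (a + 1 : ℕ) (r + 1) (by omega)).rv S.inv
  have p3 := S.cyc.pth (a + 1 + r + 1 : ℕ) (s + 1) (by omega)
  push_cast at p1 p2 p3 e2 e3 e4
  rw [show (0 : ℤ) + (a + 1) - 1 = a by ring] at p1
  rw [show (a : ℤ) + 1 + (r + 1) - 1 = a + 1 + r + 1 - 1 by ring] at p2
  rw [show (a : ℤ) + 1 + r + 1 + (s + 1) - 1 = a + 1 + r + 1 + s + 1 - 1 by ring] at p3
  have q1 := p1.append e1.symm hP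
  have q2 := ((q1.append e2 p2).append e3 p3).append e4.symm hP'
  refine too_long S hk hl hl' hN q2 e5 ?_
  have hs : ms f (seg c 0 (a + 1 + r + 1 + s + 1)) =
      ms f (seg c 0 (a + 1)) + ms f (seg c ((a : ℤ) + 1) (r + 1)) +
        ms f (seg c ((a : ℤ) + 1 + r + 1) (s + 1)) := by
    rw [show a + 1 + r + 1 + s + 1 = (a + 1) + (r + 1) + (s + 1) by ring]
    rw [seg_add c 0 ((a + 1) + (r + 1)) (s + 1), ms_append, seg_add c 0 (a + 1) (r + 1), ms_append]
    push_cast
    rw [zero_add, zero_add, show (a : ℤ) + 1 + (r + 1) = a + 1 + r + 1 by ring]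
  rw [ms_append, ms_append, ms_append, ms_append, ms_rv S.inv, hs]
  abel

theorem ham3 (S : Setup G f c k l) (hk : k = h + l) (hl : P.length = l) (hl' : P'.length = l)
    (hN : (ms f (seg c 0 h) + ms f P + ms f P').Nodup)
    (hP : Pth G f x y P) (hP' : Pth G f x' y' P') {a j : ℕ} (hja : j < a) (hah : a + 1 < h)
    (e1 : G.Adj (c (a + 1)) (f (c j))) (e2 : G.Adj x (c 0)) (e3 : G.Adj y (c (j + 1)))
    (e4 : G.Adj x' (f (c a))) (e5 : G.Adj y' (f (c ((h : ℤ) - 1)))) : False := by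
  obtain ⟨r, rfl⟩ := Nat.exists_eq_add_of_lt hja
  obtain ⟨s, rfl⟩ := Nat.exists_eq_add_of_lt hah
  have p1 := (S.cyc.pth 0 (j + 1) (by omega)).rv S.inv
  have p2 := S.cyc.pth (j + 1 : ℕ) (r + 1) (by omega)
  have p3 := (S.cyc.pth (j + r + 1 + 1 : ℕ) (s + 1) (by omega)).rv S.inv
  push_cast at p1 p2 p3 e1 e4 e5
  rw [show (0 : ℤ) + (j + 1) - 1 = j by ring] at p1
  rw [show (j : ℤ) + 1 + (r + 1) - 1 = j + r + 1 by ring] at p2
  rw [show (j : ℤ) + r + 1 + 1 + (s + 1) - 1 = j + r + 1 + 1 + s + 1 - 1 by ring] at p3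
  have q1 := (p3.append e1 p1).append e2.symm hP
  have q2 := (q1.append e3 p2).append e4.symm hP'
  refine too_long S hk hl hl' hN q2 e5 ?_
  have hs : ms f (seg c 0 (j + r + 1 + 1 + s + 1)) =
      ms f (seg c 0 (j + 1)) + ms f (seg c ((j : ℤ) + 1) (r + 1)) +
        ms f (seg c ((j : ℤ) + r + 1 + 1) (s + 1)) := by
    rw [show j + r + 1 + 1 + s + 1 = (j + 1) + (r + 1) + (s + 1) by ring]
    rw [seg_add c 0 ((j + 1) + (r + 1)) (s + 1), ms_append, seg_add c 0 (j + 1) (r + 1), ms_append]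
    push_cast
    rw [zero_add, zero_add, show (j : ℤ) + 1 + (r + 1) = j + r + 1 + 1 by ring]
  rw [ms_append, ms_append, ms_append, ms_append, ms_rv S.inv, ms_rv S.inv, hs]
  abel

end hamlemmas

end

end Pool.Agent.Helper458
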