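import Pool.Agent.Helper458.Big2

set_option autoImplicit false

namespace Pool.Agent.Helper458

open Classical

variable {V : Type*}

section

variable [Fintype V] {G : SimpleGraph V} {f : V → V} {c : ℤ → V} {k l : ℕ}

omit [Fintype V] in
theorem int_mul_zero {k n : ℤ} (h1 : -k < n * k) (h2 : n * k < k) : n = 0 := by
  have hk : 0 < k := by omega
  rcases lt_trichotomy n 0 with h | h | h
  · nlinarith
  · exact h
  · nlinarith

theorem exists_sp (S : Setup G f c k l) (hl : 2 ≤ l) : ∃ x ∈ Wf f c k, ∃ y ∈ Wf f c k,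
    ∃ P, WP G f c k x y P ∧ P.length = l := by
  obtain ⟨x, hx, _⟩ := exists_notMem_W S (0 : Multiset V) (by simp; omega)
  obtain ⟨y, hy, hwn⟩ := exists_notMem_W S ({x, f x} : Multiset V) (by simp; omega)
  simp only [Multiset.insert_eq_cons, Multiset.mem_cons, Multiset.mem_singleton, not_or] at hwn
  exact ⟨x, hx, y, hy, sp_of_ne S hl hx hy hwn.1 hwn.2⟩

theorem swap_exists (S : Setup G f c k l) (hl : 2 ≤ l) {h : ℕ} (hk : k = h + l) (hh : 0 < h)
    (e1 : ∀ z ∈ Wf f c k, G.Adj z (c 0)) (e2 : ∀ z ∈ Wf f c k, G.Adj z (f (c ((h : ℤ) - 1)))) :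
    ∃ d : ℤ → V, Setup G f d k l ∧ (∀ t : ℕ, t < h → d t = c t) ∧
      (∀ v, v ∈ Wf f d k ↔ v ∈ ms f (seg c h l)) ∧
      (ms f (seg d 0 k) = ms f (seg c 0 h) + (Wf f c k).val) := by
  obtain ⟨x, hx, y, hy, P, hP, hPl⟩ := exists_sp S hl
  have hms := sp_ms S hP hPl
  have p1 := S.cyc.pth 0 h hh
  rw [zero_add] at p1
  have p2 := p1.append (e2 x hx).symm hP.pth
  have hnd : (ms f (seg c 0 h ++ P)).Nodup := by
    rw [ms_append]
    apply Multiset.nodup_of_le _ hP.nd
    apply add_le_add_left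
    rw [hk, seg_add, ms_append]
    exact Multiset.le_add_right _ _
  have hcyc : IsCyc G f (seg c 0 h ++ P) := ⟨_, _, p2, e1 y hy, hnd⟩
  obtain ⟨d, hd, hdD⟩ := exists_cycFun hcyc
  have hlen : (seg c 0 h ++ P).length = k := by rw [List.length_append, seg_length, hPl, hk]
  rw [hlen] at hd hdD
  have hms2 : ms f (seg d 0 k) = ms f (seg c 0 h) + (Wf f c k).val := by
    rw [hdD, ms_append, hms]
  refine ⟨d, ⟨S.inv, S.ne, hd, S.max, S.card, S.deg, S.lpos⟩, ?_, ?_, hms2⟩
  · have h1 : seg d 0 k = seg d 0 h ++ seg d (0 + h) l := by rw [hk, seg_add]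
    rw [h1] at hdD
    have h2 := (List.append_inj hdD (by simp)).1
    intro t ht
    have h3 := List.map_inj_left.mp h2 t (List.mem_range.mpr ht)
    simpa using h3
  · intro v
    have h1 : v ∈ Wf f d k ↔ v ∉ ms f (seg d 0 k) := by simp [Wf]
    rw [h1, hms2, Multiset.mem_add, Finset.mem_val, S.mem_W]
    have h2 : ms f (seg c 0 k) = ms f (seg c 0 h) + ms f (seg c h l) := by
      rw [hk, seg_add, ms_append, zero_add]
    have h3 := S.cyc.nd
    rw [h2] at h3 ⊢
    have h4 := (Multiset.nodup_add.mp h3).2.2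
    rw [Multiset.disjoint_left] at h4
    rw [Multiset.mem_add]
    constructor
    · intro h5
      by_contra h6
      apply h5
      by_cases h7 : v ∈ ms f (seg c 0 h)
      · exact Or.inl h7
      · right
        rintro (h8 | h8)
        · exact h7 h8
        · exact h6 h8
    · intro h5 h6
      rcases h6 with h6 | h6
      · exact h4 h6 h5
      · exact h6 (Or.inr h5)

theorem main_norm (S : Setup G f c k l) (hl : 2 ≤ l) {a0 : ℕ} (h0 : a0 + l + 1 < k)
    (hO : ∀ z ∈ Wf f c k, ∀ t : ℕ, t < k → (G.Adj z (c t) ↔ t ≤ a0))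
    (hA : ∀ z ∈ Wf f c k, ∀ t : ℕ, t < k → (G.Adj z (f (c t)) ↔ (a0 ≤ t ∧ t + l + 1 ≤ k))) :
    False := by
  obtain ⟨h, hk⟩ : ∃ h, k = h + l := ⟨k - l, by omega⟩
  have hhz : (h : ℤ) - 1 = ((h - 1 : ℕ) : ℤ) := by omega
  obtain ⟨d, Sd, hdc, hWd, hmsd⟩ := swap_exists S hl hk (by omega)
    (fun z hz => by simpa using (hO z hz 0 (by omega)).mpr (by omega))
    (fun z hz => by rw [hhz]; exact (hA z hz (h - 1) (by omega)).mpr (by omega))
  obtain ⟨b', a1, h0', hO', hA'⟩ := unif Sd hl
  -- u1, u2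
  have hu1 : c h ∈ Wf f d k := by
    rw [hWd, mem_ms]; left
    exact (mem_seg c).mpr ⟨0, by omega, by simp⟩
  have hu2 : f (c ((k : ℤ) - 1)) ∈ Wf f d k := by
    rw [hWd]
    apply f_mem_ms S.inv
    rw [mem_ms]; left
    exact (mem_seg c).mpr ⟨l - 1, by omega, by congr 1; omega⟩
  have hu1a : G.Adj (c h) (f (c ((h - 1 : ℕ) : ℤ))) := by
    have := S.cyc.arr ((h - 1 : ℕ) : ℤ)
    rw [show ((h - 1 : ℕ) : ℤ) + 1 = h by omega] at this
    exact this.symm
  have hu2a : G.Adj (f (c ((k : ℤ) - 1))) (c 0) := by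
    have := S.cyc.arr ((k : ℤ) - 1)
    rw [show (k : ℤ) - 1 + 1 = 0 + k by ring, S.cyc.per] at this
    exact this
  obtain ⟨t1, ht1, n1, e1⟩ := rep Sd b' 0
  obtain ⟨t2, ht2, n2, e2⟩ := rep Sd b' ((h - 1 : ℕ) : ℤ)
  have g1 : t1 ≤ a1 := by
    rw [← hO' _ hu2 t1 ht1, ← Sd.cyc.per_int (b' + t1) n1, ← e1]
    have := hdc 0 (by omega)
    rw [Nat.cast_zero] at this
    rw [this]; exact hu2a
  have g2 : a1 ≤ t2 ∧ t2 + l + 1 ≤ k := by
    rw [← hA' _ hu1 t2 ht2, ← Sd.cyc.per_int (b' + t2) n2, ← e2, hdc (h - 1) (by omega)]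
    exact hu1a
  have hn : n1 = n2 := by
    have hkpos : (0 : ℤ) < k := by exact_mod_cast S.cyc.pos
    have h3 : (t2 : ℤ) - t1 - (h - 1) = (n1 - n2) * k := by
      have : ((h - 1 : ℕ) : ℤ) = h - 1 := by omega
      rw [this] at e2
      linear_combination e1 - e2
    have h4 : (t2 : ℤ) - t1 - (h - 1) ≤ 0 := by omega
    have h5 : -(k : ℤ) < (t2 : ℤ) - t1 - (h - 1) := by omega
    have := int_mul_zero (k := k) (n := n1 - n2) (by rw [← h3]; omega) (by rw [← h3]; omega)
    omega
  subst hn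
  have ht10 : t1 = 0 := by omega
  subst ht10
  have hb' : b' = -n1 * k := by push_cast at e1; linear_combination -e1
  have hdb : ∀ t : ℕ, d (b' + t) = d t := by
    intro t
    rw [hb', ← Sd.cyc.per_int t (-n1)]
    congr 1; ring
  have hOu : ∀ z ∈ Wf f d k, ∀ t : ℕ, t < h → (G.Adj z (c t) ↔ t ≤ a1) := by
    intro z hz t ht
    rw [← hdc t ht, ← hdb, hO' z hz t (by omega)]
  have hAu : ∀ z ∈ Wf f d k, ∀ t : ℕ, t < h → (G.Adj z (f (c t)) ↔ a1 ≤ t) := by
    intro z hz t ht
    rw [← hdc t ht, ← hdb, hA' z hz t (by omega)]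
    constructor
    · exact fun h => h.1
    · exact fun h => ⟨h, by omega⟩
  obtain ⟨x, hx, y, hy, P, hP, hPl⟩ := exists_sp S hl
  obtain ⟨x', hx', y', hy', P', hP', hPl'⟩ := exists_sp Sd hl
  have hN : (ms f (seg c 0 h) + ms f P + ms f P').Nodup := by
    have := hP'.nd
    rw [hmsd, ← sp_ms S hP hPl] at this
    exact this
  have hN' : (ms f (seg c 0 h) + ms f P' + ms f P).Nodup := by
    rw [add_assoc, add_comm (ms f P'), ← add_assoc]; exact hN
  have heq : a1 = a0 := by
    rcases lt_trichotomy a0 a1 with h1 | h1 | h1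
    · exfalso
      refine ham1 S hk hPl hPl' hN hP.pth hP'.pth (a := a0) (by omega) ?_ ?_ ?_ ?_
      · exact (hA x hx a0 (by omega)).mpr (by omega)
      · rw [hhz]; exact (hA y hy (h - 1) (by omega)).mpr (by omega)
      · have := (hOu x' hx' (a0 + 1) (by omega)).mpr (by omega)
        exact_mod_cast this
      · have := (hOu y' hy' 0 (by omega)).mpr (by omega)
        exact_mod_cast this
    · exact h1.symm
    · exfalso
      refine ham1 S hk hPl' hPl hN' hP'.pth hP.pth (a := a1) (by omega) ?_ ?_ ?_ ?_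
      · exact (hAu x' hx' a1 (by omega)).mpr (by omega)
      · rw [hhz]; exact (hAu y' hy' (h - 1) (by omega)).mpr (by omega)
      · have := (hO x hx (a1 + 1) (by omega)).mpr (by omega)
        exact_mod_cast this
      · have := (hO y hy 0 (by omega)).mpr (by omega)
        exact_mod_cast this
  subst heq
  have hUmem : ∀ t : ℕ, h ≤ t → t < k → c t ∈ Wf f d k := by
    intro t h1 h2
    rw [hWd, mem_ms]; left
    exact (mem_seg c).mpr ⟨t - h, by omega, by congr 1; omega⟩
  have hUmem' : ∀ t : ℕ, h ≤ t → t < k → f (c t) ∈ Wf f d k := by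
    intro t h1 h2
    exact Sd.f_mem_W.mpr (hUmem t h1 h2)
  have hdeg := S.deg (c ((a1 + 1 : ℕ) : ℤ))
  rw [deg_eq S.cyc] at hdeg
  have b1 : cnt c 0 k (G.Adj (c ((a1 + 1 : ℕ) : ℤ))) ≤ a1 + 1 - 0 := by
    apply cnt_le_interval
    intro t ht hadj
    rw [zero_add] at hadj
    refine ⟨by omega, ?_⟩
    by_contra hcon
    rcases Nat.lt_or_ge t h with h1 | h1
    · rcases Nat.lt_or_ge (a1 + 1) t with h2 | h2
      · refine ham2 S hk hPl hPl' hN hP.pth hP'.pth (a := a1) (p := t) h2 h1 ?_ ?_ ?_ ?_ ?_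
        · exact (hA x hx a1 (by omega)).mpr (by omega)
        · have := (hA y hy (t - 1) (by omega)).mpr (by omega)
          rw [show ((t - 1 : ℕ) : ℤ) = t - 1 by omega] at this
          exact this
        · exact_mod_cast hadj
        · rw [hhz]; exact (hAu x' hx' (h - 1) (by omega)).mpr (by omega)
        · have := (hOu y' hy' 0 (by omega)).mpr (by omega)
          exact_mod_cast this
      · have h3 : t = a1 + 1 := by omega
        subst h3
        exact G.loopless.irrefl _ hadj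
    · have := (hOu _ (hUmem t h1 ht) (a1 + 1) (by omega)).mp hadj.symm
      omega
  have b2 : cnt c 0 k (fun v => G.Adj (c ((a1 + 1 : ℕ) : ℤ)) (f v)) ≤ h - a1 := by
    apply cnt_le_interval
    intro t ht hadj
    rw [zero_add] at hadj
    constructor
    · by_contra hcon
      refine ham3 S hk hPl hPl' hN hP.pth hP'.pth (a := a1) (j := t) (by omega) (by omega)
        ?_ ?_ ?_ ?_ ?_
      · exact_mod_cast hadj
      · have := (hO x hx 0 (by omega)).mpr (by omega)
        exact_mod_cast this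
      · have := (hO y hy (t + 1) (by omega)).mpr (by omega)
        exact_mod_cast this
      · exact (hAu x' hx' a1 (by omega)).mpr (by omega)
      · rw [hhz]; exact (hAu y' hy' (h - 1) (by omega)).mpr (by omega)
    · by_contra hcon
      have := (hOu _ (hUmem' t (by omega) ht) (a1 + 1) (by omega)).mp hadj.symm
      omega
  have b3 : dW G f c k (c ((a1 + 1 : ℕ) : ℤ)) = 0 := by
    rw [dW, Multiset.countP_eq_zero]
    intro w hw hadj
    have := (hO w hw (a1 + 1) (by omega)).mp hadj.symm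
    omega
  omega

/-- both parameters are one -/
theorem big_a_one (S : Setup G f c k l) (hl : 2 ≤ l) {z : V} (hz : z ∈ Wf f c k) :
    cnt c 0 k (fun v => G.Adj z (f v)) = 1 := by
  obtain ⟨b, a0, h0, hO, hA⟩ := unif S hl
  have haz : cnt c 0 k (fun v => G.Adj z (f v)) = k - l - a0 := by
    rw [← cnt_base S.cyc.per b]
    have := cnt_eq_interval (c := c) (P := fun v => G.Adj z (f v)) (b := b) (n := k) (lo := a0)
      (hi := k - l) (by omega) (by intro t ht; rw [hA z hz t ht]; omega)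
    rw [this]
  rcases Nat.lt_or_ge (a0 + l + 1) k with h1 | h1
  · exfalso
    refine main_norm (S.shift b) hl h1 ?_ ?_
    · intro z hz t ht
      rw [Wf_shift S] at hz
      rw [← hO z hz t ht, add_comm]
    · intro z hz t ht
      rw [Wf_shift S] at hz
      rw [← hA z hz t ht, add_comm]
  · omega

theorem big_k (S : Setup G f c k l) (hl : 2 ≤ l) : k = l + 1 := by
  obtain ⟨x, hx, _⟩ := exists_notMem_W S (0 : Multiset V) (by simp; omega)
  have h1 := big_a_one S hl hx
  have h2 := big_a_one S.rev hl (z := x) (by rw [Wf_rev S]; exact hx)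
  rw [cnt_rev S] at h2
  simp only [S.inv] at h2
  have h3 := (W_struct S).2.2.1 x hx
  have h4 : cnt c 0 k (fun v => G.Adj x v) = cnt c 0 k (G.Adj x) := rfl
  omega

/-- type (a) -/
theorem typeA (S : Setup G f c k l) (hl : 2 ≤ l) : 5 ≤ k + l ∧ ∃ s, (∀ v, v ≠ s → v ≠ f s →
    dg G v = k + l) ∧ k + l < dg G s ∧ k + l < dg G (f s) := by
  have hk := big_k S hl
  refine ⟨by omega, ?_⟩
  obtain ⟨b, a0, h0, hO, hA⟩ := unif S hl
  have ha0 : a0 = 0 := by omega
  subst ha0
  have S1 := S.shift b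
  have hk' : k = 1 + l := by omega
  have g1 : ∀ z ∈ Wf f (fun t => c (t + b)) k, G.Adj z ((fun t => c (t + b)) 0) := by
    intro z hz
    rw [Wf_shift S] at hz
    have := (hO z hz 0 (by omega)).mpr (by omega)
    simpa using this
  have g2 : ∀ z ∈ Wf f (fun t => c (t + b)) k, G.Adj z (f ((fun t => c (t + b)) 0)) := by
    intro z hz
    rw [Wf_shift S] at hz
    have := (hA z hz 0 (by omega)).mpr (by omega)
    simpa using this
  generalize (fun t => c (t + b)) = c1 at S1 g1 g2
  clear hO hA h0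
  obtain ⟨d, Sd, hdc, hWd, hmsd⟩ := swap_exists S1 hl hk' (by omega) g1 (by simpa using g2)
  have hd0 : d 0 = c1 0 := by have := hdc 0 (by omega); simpa using this
  have hk2 := big_k Sd hl
  obtain ⟨b', a1, h0', hO', hA'⟩ := unif Sd hl
  have ha1 : a1 = 0 := by omega
  subst ha1
  -- U vertices adjacent to c1 0
  have hu2 : f (c1 ((k : ℤ) - 1)) ∈ Wf f d k := by
    rw [hWd]
    apply f_mem_ms S.inv
    rw [mem_ms]; left
    exact (mem_seg c1).mpr ⟨l - 1, by omega, by congr 1; omega⟩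
  have hu2a : G.Adj (f (c1 ((k : ℤ) - 1))) (c1 0) := by
    have := S1.cyc.arr ((k : ℤ) - 1)
    rw [show (k : ℤ) - 1 + 1 = 0 + k by ring, S1.cyc.per] at this
    exact this
  obtain ⟨t1, ht1, n1, e1⟩ := rep Sd b' 0
  have hdd : d (b' + t1) = d 0 := by
    rw [e1, Sd.cyc.per_int]
  have ht10 : t1 = 0 := by
    have := (hO' _ hu2 t1 ht1).mp (by rw [hdd, hd0]; exact hu2a)
    omega
  subst ht10
  have k1 : ∀ z ∈ Wf f d k, G.Adj z (c1 0) := by
    intro z hz
    rw [← hd0, ← hdd]
    exact (hO' z hz 0 (by omega)).mpr (by omega)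
  have k2 : ∀ z ∈ Wf f d k, G.Adj z (f (c1 0)) := by
    intro z hz
    rw [← hd0, ← hdd]
    exact (hA' z hz 0 (by omega)).mpr (by omega)
  have hdis : Disjoint (Wf f c1 k) (Wf f d k) := by
    rw [Finset.disjoint_left]
    intro v h1 h2
    rw [Sd.mem_W, hmsd] at h2
    apply h2
    exact Multiset.mem_add.mpr (Or.inr h1)
  refine ⟨c1 0, ?_, ?_, ?_⟩
  · intro v hv1 hv2
    by_cases hvW : v ∈ Wf f c1 k
    · exact dg_W S1 hvW
    by_cases hvU : v ∈ Wf f d k
    · exact dg_W Sd hvU
    exfalso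
    rw [Sd.mem_W, not_not, hmsd, Multiset.mem_add] at hvU
    rcases hvU with h1 | h1
    · rw [seg_one, mem_ms] at h1
      simp only [List.mem_singleton, exists_eq_left] at h1
      rcases h1 with rfl | rfl
      · exact hv1 rfl
      · exact hv2 rfl
    · exact hvW h1
  · have hsub : Wf f c1 k ∪ Wf f d k ⊆ Finset.univ.filter (G.Adj (c1 0)) := by
      intro v hv
      simp only [Finset.mem_union, Finset.mem_filter, Finset.mem_univ, true_and] at hv ⊢
      rcases hv with hv | hv
      · exact (g1 v hv).symm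
      · exact (k1 v hv).symm
    have := Finset.card_le_card hsub
    rw [Finset.card_union_of_disjoint hdis, S1.card_W, Sd.card_W] at this
    rw [dg]; omega
  · have hsub : Wf f c1 k ∪ Wf f d k ⊆ Finset.univ.filter (G.Adj (f (c1 0))) := by
      intro v hv
      simp only [Finset.mem_union, Finset.mem_filter, Finset.mem_univ, true_and] at hv ⊢
      rcases hv with hv | hv
      · exact (g2 v hv).symm
      · exact (k2 v hv).symm
    have := Finset.card_le_card hsub
    rw [Finset.card_union_of_disjoint hdis, S1.card_W, Sd.card_W] at this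
    rw [dg]; omega

end

end Pool.Agent.Helper458
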