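import Pool.Agent.Helper458.Base

set_option autoImplicit false

namespace Pool.Agent.Helper458

open Classical

variable {V : Type*}

/-- number of `i < n` with `P (c (a + i))` -/
noncomputable def cnt (c : ℤ → V) (a : ℤ) (n : ℕ) (P : V → Prop) : ℕ :=
  ((Finset.range n).filter (fun i : ℕ => P (c (a + i)))).card

section cnt

variable {c c' : ℤ → V} {P Q : V → Prop}

theorem cnt_le (a : ℤ) (n : ℕ) : cnt c a n P ≤ n := by
  simpa [cnt] using Finset.card_filter_le (Finset.range n) (fun i : ℕ => P (c (a + i)))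

@[simp] theorem cnt_zero (a : ℤ) : cnt c a 0 P = 0 := by simp [cnt]

theorem cnt_succ (a : ℤ) (n : ℕ) :
    cnt c a (n + 1) P = cnt c a n P + (if P (c (a + n)) then 1 else 0) := by
  simp only [cnt, Finset.range_add_one, Finset.filter_insert]
  split_ifs with h
  · rw [Finset.card_insert_of_notMem (by simp)]
  · simp

theorem cnt_add (a : ℤ) (m n : ℕ) :
    cnt c a (m + n) P = cnt c a m P + cnt c (a + m) n P := by
  induction n with
  | zero => simp
  | succ n ih =>
    rw [← add_assoc, cnt_succ, ih, cnt_succ, add_assoc]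
    congr 2
    push_cast
    rw [add_assoc]

theorem cnt_succ' (a : ℤ) (n : ℕ) :
    cnt c a (n + 1) P = (if P (c a) then 1 else 0) + cnt c (a + 1) n P := by
  rw [add_comm n 1, cnt_add]
  congr 1
  rw [show (1 : ℕ) = 0 + 1 from rfl, cnt_succ]
  simp

theorem cnt_eq_countP (a : ℤ) (n : ℕ) :
    Multiset.countP P (seg c a n : Multiset V) = cnt c a n P := by
  rw [Multiset.coe_countP]
  induction n generalizing a with
  | zero => simp
  | succ n ih =>
    rw [seg_succ, List.countP_cons, ih, cnt_succ']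
    simp [add_comm]

theorem cnt_base {k : ℕ} (hper : ∀ t, c (t + k) = c t) (a : ℤ) :
    cnt c a k P = cnt c 0 k P := by
  have step : ∀ a : ℤ, cnt c (a + 1) k P = cnt c a k P := by
    intro a
    have h1 := cnt_succ (c := c) (P := P) a k
    have h2 := cnt_succ' (c := c) (P := P) a k
    rw [hper] at h1
    omega
  induction a using Int.induction_on with
  | zero => rfl
  | succ a ih => rw [step, ih]
  | pred a ih =>
    have := step (-(a : ℤ) - 1)
    rw [show -(a : ℤ) - 1 + 1 = -a by ring] at this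
    rw [← this, ih]

theorem cnt_disj {a b : ℤ} {n : ℕ} (h : ∀ i : ℕ, i < n → ¬ (P (c (a + i)) ∧ Q (c' (b + i)))) :
    cnt c a n P + cnt c' b n Q ≤ n := by
  simp only [cnt]
  rw [← Finset.card_union_of_disjoint]
  · calc _ ≤ (Finset.range n).card := by
          apply Finset.card_le_card
          intro i hi
          simp only [Finset.mem_union, Finset.mem_filter] at hi
          rcases hi with hi | hi <;> exact hi.1
      _ = n := Finset.card_range n
  · rw [Finset.disjoint_left]
    intro i hi hi'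
    simp only [Finset.mem_filter, Finset.mem_range] at hi hi'
    exact h i hi.1 ⟨hi.2, hi'.2⟩

theorem cnt_mono {a : ℤ} {n : ℕ} (h : ∀ i : ℕ, i < n → P (c (a + i)) → Q (c (a + i))) :
    cnt c a n P ≤ cnt c a n Q := by
  apply Finset.card_le_card
  intro i hi
  simp only [Finset.mem_filter, Finset.mem_range] at hi ⊢
  exact ⟨hi.1, h i hi.1 hi.2⟩

theorem cnt_congr {a b : ℤ} {n : ℕ} (h : ∀ i : ℕ, i < n → (P (c (a + i)) ↔ Q (c' (b + i)))) :
    cnt c a n P = cnt c' b n Q := by
  unfold cnt
  congr 1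
  apply Finset.filter_congr
  intro i hi
  exact h i (Finset.mem_range.mp hi)

theorem cnt_eq_zero {a : ℤ} {n : ℕ} (h : ∀ i : ℕ, i < n → ¬ P (c (a + i))) :
    cnt c a n P = 0 := by
  rw [cnt, Finset.card_eq_zero, Finset.filter_eq_empty_iff]
  intro i hi
  exact h i (Finset.mem_range.mp hi)

theorem cnt_pos_iff {a : ℤ} {n : ℕ} : 0 < cnt c a n P ↔ ∃ i : ℕ, i < n ∧ P (c (a + i)) := by
  rw [cnt, Finset.card_pos]
  constructor
  · rintro ⟨i, hi⟩
    simp only [Finset.mem_filter, Finset.mem_range] at hi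
    exact ⟨i, hi⟩
  · rintro ⟨i, hi⟩
    exact ⟨i, by simpa using hi⟩

theorem cnt_lt {a : ℤ} {n : ℕ} (i : ℕ) (hi : i < n) (h : ¬ P (c (a + i))) :
    cnt c a n P + 1 ≤ n := by
  have h1 : ((Finset.range n).filter (fun i : ℕ => P (c (a + i)))) ⊆ (Finset.range n).erase i := by
    intro j hj
    simp only [Finset.mem_filter, Finset.mem_range, Finset.mem_erase] at hj ⊢
    refine ⟨?_, hj.1⟩
    rintro rfl
    exact h hj.2
  have h2 := Finset.card_le_card h1
  rw [Finset.card_erase_of_mem (Finset.mem_range.mpr hi), Finset.card_range] at h2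
  unfold cnt
  omega

/-- chain counting -/
theorem cnt_chain {a : ℤ} {n : ℕ}
    (h : ∀ i : ℕ, i + 1 < n → ¬ (P (c (a + i)) ∧ Q (c (a + i + 1)))) :
    cnt c a n P + cnt c a n Q ≤ n + 1 := by
  rcases n with _ | n
  · simp
  · rw [cnt_succ (P := P), cnt_succ' (P := Q)]
    have h1 : cnt c a n P + cnt c (a + 1) n Q ≤ n := by
      apply cnt_disj
      intro i hi
      have := h i (by omega)
      rwa [show a + 1 + (i : ℤ) = a + i + 1 by ring]
    split_ifs <;> omega

end cnt

section setup

variable [Fintype V]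

/-- degree -/
noncomputable def dg (G : SimpleGraph V) (v : V) : ℕ := (Finset.univ.filter (G.Adj v)).card

/-- complement of the cycle -/
noncomputable def Wf (f : V → V) (c : ℤ → V) (k : ℕ) : Finset V :=
  Finset.univ.filter (fun v => v ∉ ms f (seg c 0 k))

/-- number of neighbours outside the cycle -/
noncomputable def dW (G : SimpleGraph V) (f : V → V) (c : ℤ → V) (k : ℕ) (z : V) : ℕ :=
  Multiset.countP (G.Adj z) (Wf f c k).val

/-- The standing assumptions: `c` is a longest alternating cycle (with `k` matching edges) and there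
are `l` matching edges outside. -/
structure Setup (G : SimpleGraph V) (f : V → V) (c : ℤ → V) (k l : ℕ) : Prop where
  inv : ∀ v, f (f v) = v
  ne : ∀ v, f v ≠ v
  cyc : CycFun G f c k
  max : ∀ L, IsCyc G f L → L.length ≤ k
  card : Fintype.card V = 2 * (k + l)
  deg : ∀ v, k + l ≤ dg G v
  lpos : 0 < l

variable {G : SimpleGraph V} {f : V → V} {c : ℤ → V} {k l : ℕ}

theorem univ_eq {L : List V} (h : (ms f L).Nodup) :
    (Finset.univ : Finset V).val =
      ms f L + (Finset.univ.filter (fun v => v ∉ ms f L)).val := by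
  ext v
  rw [Multiset.count_add, Multiset.count_eq_of_nodup Finset.univ.nodup,
    Multiset.count_eq_of_nodup h, Multiset.count_eq_of_nodup (Finset.nodup _)]
  by_cases hv : v ∈ ms f L <;> simp [hv]

theorem countP_ms (P : V → Prop) (L : List V) :
    Multiset.countP P (ms f L) =
      Multiset.countP P (L : Multiset V) + Multiset.countP (fun v => P (f v)) (L : Multiset V) := by
  rw [ms, Multiset.countP_add]
  congr 1
  simp only [Multiset.coe_countP, List.countP_map]
  rfl

theorem deg_eq (hc : CycFun G f c k) (z : V) :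
    dg G z = cnt c 0 k (G.Adj z) + cnt c 0 k (fun v => G.Adj z (f v)) + dW G f c k z := by
  have h1 : dg G z = Multiset.countP (G.Adj z) (Finset.univ : Finset V).val := by
    rw [Multiset.countP_eq_card_filter]
    rfl
  rw [h1, univ_eq hc.nd, Multiset.countP_add, countP_ms, cnt_eq_countP, cnt_eq_countP]
  rfl

namespace Setup

variable (S : Setup G f c k l)
include S

theorem card_W : (Wf f c k).card = 2 * l := by
  have h := congrArg Multiset.card (univ_eq S.cyc.nd)
  rw [Multiset.card_add, card_ms, seg_length] at h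
  have h2 : Multiset.card (Finset.univ : Finset V).val = Fintype.card V := rfl
  rw [h2, S.card] at h
  have h3 : Multiset.card (Finset.univ.filter (fun v => v ∉ ms f (seg c 0 k))).val
    = (Wf f c k).card := rfl
  omega

theorem mem_W {v : V} : v ∈ Wf f c k ↔ v ∉ ms f (seg c 0 k) := by simp [Wf]

theorem f_mem_W {v : V} : f v ∈ Wf f c k ↔ v ∈ Wf f c k := by
  rw [S.mem_W, S.mem_W, f_mem_ms_iff S.inv]

theorem c_notMem_W (t : ℤ) : c t ∉ Wf f c k := by
  rw [S.mem_W, not_not]; exact S.cyc.mem t

theorem fc_notMem_W (t : ℤ) : f (c t) ∉ Wf f c k := by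
  rw [S.mem_W, not_not]; exact S.cyc.mem' S.inv t

theorem finj {u v : V} (h : f u = f v) : u = v := by
  rw [← S.inv u, ← S.inv v, h]

end Setup

/-- paths outside the cycle -/
structure WP (G : SimpleGraph V) (f : V → V) (c : ℤ → V) (k : ℕ) (x y : V) (P : List V) : Prop where
  pth : Pth G f x y P
  nd : (ms f (seg c 0 k) + ms f P).Nodup

theorem WP.rv (S : Setup G f c k l) {x y : V} {P : List V} (h : WP G f c k x y P) :
    WP G f c k y x (rv f P) := ⟨h.pth.rv S.inv, by rw [ms_rv S.inv]; exact h.nd⟩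

theorem WP.nd' (S : Setup G f c k l) {x y : V} {P : List V} (h : WP G f c k x y P) (a : ℤ) :
    (ms f (seg c a k) + ms f P).Nodup := by
  rw [S.cyc.ms_eq]; exact h.nd

theorem WP.mem {x y : V} {P : List V} (h : WP G f c k x y P) {v : V} (hv : v ∈ ms f P) :
    v ∈ Wf f c k := by
  simp only [Wf, Finset.mem_filter, Finset.mem_univ, true_and]
  intro h'
  have := (Multiset.nodup_add.mp h.nd).2.2
  rw [Multiset.disjoint_left] at this
  exact this h' hv

theorem wp_of (hc : CycFun G f c k) {x y : V} {P : List V} (hp : Pth G f x y P)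
    (hnd : (ms f P).Nodup) (hW : ∀ v ∈ ms f P, v ∈ Wf f c k) : WP G f c k x y P := by
  refine ⟨hp, Multiset.nodup_add.mpr ⟨hc.nd, hnd, ?_⟩⟩
  rw [Multiset.disjoint_left]
  intro v hv hv'
  have := hW v hv'
  simp only [Wf, Finset.mem_filter, Finset.mem_univ, true_and] at this
  exact this hv

theorem WP.ndP {x y : V} {P : List V} (h : WP G f c k x y P) : (ms f P).Nodup :=
  (Multiset.nodup_add.mp h.nd).2.1

section rules

variable {x y : V} {P : List V}

/-- single edge path -/
theorem Setup.single (S : Setup G f c k l) {z : V} (hz : z ∈ Wf f c k) :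
    WP G f c k z (f z) [z] := by
  apply wp_of S.cyc (Pth.single z)
  · rw [ms_cons, ms_nil, add_zero]
    simp only [Multiset.insert_eq_cons, Multiset.nodup_cons, Multiset.mem_singleton,
      Multiset.nodup_singleton, and_true]
    exact fun h => S.ne z h.symm
  · intro v hv
    rw [mem_ms] at hv
    simp only [List.mem_singleton, exists_eq_left] at hv
    rcases hv with rfl | rfl
    · exact hz
    · exact S.f_mem_W.mpr hz

/-- replacing a segment of the cycle by a path -/
theorem Setup.ins (S : Setup G f c k l) (h : WP G f c k x y P) {a : ℤ} {n : ℕ} (hn : 1 ≤ n)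
    (hnk : n ≤ k) (hy : G.Adj y (c a)) (hx : G.Adj x (f (c (a + n - 1)))) : n + P.length ≤ k := by
  have hp := ((S.cyc.pth a n hn).append hx.symm h.pth)
  have hnd : (ms f (seg c a n ++ P)).Nodup := by
    rw [ms_append]
    apply Multiset.nodup_of_le _ (h.nd' S a)
    apply add_le_add_left
    obtain ⟨r, rfl⟩ := Nat.exists_eq_add_of_le hnk
    rw [seg_add, ms_append]
    exact Multiset.le_add_right _ _
  have := S.max _ ⟨_, _, hp, hy, hnd⟩
  simpa using this

theorem Setup.ins0 (S : Setup G f c k l) (h : WP G f c k x y P) (t : ℤ) :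
    ¬ (G.Adj x (f (c t)) ∧ G.Adj y (c (t + 1))) := by
  rintro ⟨h1, h2⟩
  have h3 : G.Adj x (f (c (t + 1 + k - 1))) := by
    rw [show t + 1 + (k : ℤ) - 1 = t + k by ring, S.cyc.per]; exact h1
  have := S.ins h S.cyc.pos le_rfl h2 h3
  have := h.pth.length_pos
  omega

theorem rep (S : Setup G f c k l) (i j : ℤ) : ∃ s : ℕ, s < k ∧ ∃ n : ℤ, j = i + s + n * k := by
  have hk : (0 : ℤ) < k := by exact_mod_cast S.cyc.pos
  have h1 := Int.emod_nonneg (j - i) hk.ne'
  have h2 := Int.emod_lt_of_pos (j - i) hk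
  refine ⟨((j - i) % k).toNat, by omega, (j - i) / k, ?_⟩
  have h3 := Int.emod_add_mul_ediv (j - i) k
  rw [Int.toNat_of_nonneg h1]
  linarith

/-- the two-head switch -/
theorem Setup.heads (S : Setup G f c k l) (h : WP G f c k x y P) (i t : ℤ)
    (hx : G.Adj x (f (c i))) : ¬ (G.Adj (c (i + 1)) (c (t + 1)) ∧ G.Adj y (f (c t))) := by
  rintro ⟨h1, h2⟩
  obtain ⟨s, hs, n, rfl⟩ := rep S i t
  have e1 : c (i + s + n * k) = c (i + s) := S.cyc.per_int _ _
  have e2 : c (i + s + n * k + 1) = c (i + s + 1) := by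
    rw [show i + s + n * k + 1 = i + s + 1 + n * k by ring]; exact S.cyc.per_int _ _
  rw [e1] at h2
  rw [e2] at h1
  rcases Nat.eq_zero_or_pos s with rfl | hs0
  · simp at h1
  obtain ⟨r, hr⟩ := Nat.exists_eq_add_of_le hs.le
  have hr0 : 0 < r := by omega
  have p1 := S.cyc.pth (i + 1) s hs0
  have p2 := S.cyc.pth (i + 1 + s) r hr0
  rw [show i + 1 + (s : ℤ) - 1 = i + s by ring] at p1
  rw [show i + 1 + (s : ℤ) + r - 1 = i + k by rw [hr]; push_cast; ring, S.cyc.per] at p2
  have p3 := (p2.append hx.symm h.pth).append h2 (p1.rv S.inv)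
  have hnd : (ms f (seg c (i + 1 + s) r ++ P ++ rv f (seg c (i + 1) s))).Nodup := by
    have := h.nd' S (i + 1)
    rw [hr, seg_add, ms_append] at this
    rw [ms_append, ms_append, ms_rv S.inv]
    convert this using 1
    abel
  have := S.max _ ⟨_, _, p3, by rw [show i + 1 + (s:ℤ) = i + s + 1 by ring]; exact h1, hnd⟩
  have h5 := h.pth.length_pos
  simp at this
  omega

/-- The inequality (Q). -/
theorem Setup.Q (S : Setup G f c k l) (h : WP G f c k x y P)
    (h1 : 0 < cnt c 0 k (fun v => G.Adj x (f v))) (h2 : 0 < cnt c 0 k (G.Adj y)) :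
    cnt c 0 k (fun v => G.Adj x (f v)) + cnt c 0 k (G.Adj y) + P.length ≤ k + 1 := by
  obtain ⟨i, hi, hxi⟩ := cnt_pos_iff.mp h1
  obtain ⟨j, hj, hyj⟩ := cnt_pos_iff.mp h2
  -- the set of good lengths
  let good : ℕ → Prop := fun n => 1 ≤ n ∧ n ≤ k ∧ ∃ a : ℤ, G.Adj y (c a) ∧
    G.Adj x (f (c (a + n - 1)))
  have hex : ∃ n, good n := by
    obtain ⟨s, hs, n, hn⟩ := rep S (0 + j) (0 + i)
    refine ⟨s + 1, by omega, by omega, 0 + j, hyj, ?_⟩
    have : c (0 + i) = c (0 + j + ((s + 1 : ℕ) : ℤ) - 1) := by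
      rw [hn, S.cyc.per_int]; congr 1; push_cast; ring
    rw [← this]; exact hxi
  have hb : ∀ n, good n → n ≤ k := fun n hn => hn.2.1
  obtain ⟨n, hn, hmx⟩ : ∃ n, good n ∧ ∀ n', good n' → n' ≤ n := by
    have h3 := Nat.findGreatest_spec (P := good) (hb _ hex.choose_spec) hex.choose_spec
    refine ⟨_, h3, fun n' hn' => ?_⟩
    exact Nat.le_findGreatest (hb _ hn') hn'
  obtain ⟨hn1, hnk, a, hya, hxa⟩ := hn
  have hle := S.ins h hn1 hnk hya hxa
  obtain ⟨r, hr⟩ := Nat.exists_eq_add_of_le hnk
  -- nothing beyond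
  have z1 : cnt c (a + n) r (fun v => G.Adj x (f v)) = 0 := by
    apply cnt_eq_zero
    intro t ht hadj
    have : good (n + t + 1) := by
      refine ⟨by omega, by omega, a, hya, ?_⟩
      convert hadj using 3
      push_cast; ring
    have := hmx _ this
    omega
  have z2 : cnt c (a + n) r (G.Adj y) = 0 := by
    apply cnt_eq_zero
    intro t ht hadj
    have : good (k - t) := by
      refine ⟨by omega, by omega, a + n + t, hadj, ?_⟩
      have e : (a + n + t + ((k - t : ℕ) : ℤ) - 1) = (a + n - 1) + k := by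
        have : ((k - t : ℕ) : ℤ) = k - t := by omega
        rw [this]; ring
      rw [e, S.cyc.per]
      exact hxa
    have := hmx _ this
    omega
  have t1 : cnt c 0 k (fun v => G.Adj x (f v)) = cnt c a n (fun v => G.Adj x (f v)) := by
    rw [← cnt_base S.cyc.per a, hr, cnt_add, z1, add_zero]
  have t2 : cnt c 0 k (G.Adj y) = cnt c a n (G.Adj y) := by
    rw [← cnt_base S.cyc.per a, hr, cnt_add, z2, add_zero]
  rw [t1, t2]
  have := cnt_chain (c := c) (P := fun v => G.Adj x (f v)) (Q := G.Adj y) (a := a) (n := n)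
    (fun t _ => S.ins0 h (a + t))
  omega

end rules

end setup

end Pool.Agent.Helper458
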