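import Pool.Agent.Helper458.FM

set_option autoImplicit false

namespace Pool.Agent.Helper458

open Classical

variable {V : Type*}

section

variable [Fintype V] {G : SimpleGraph V}

theorem count_nodup {P : List V} (hnd : P.Nodup) {Q : V → Prop} (h : ∀ u, Q u → u ∈ P) :
    (Finset.univ.filter Q).card = List.countP Q P := by
  rw [← Multiset.coe_countP, Multiset.countP_eq_card_filter]
  have : (Finset.univ.filter Q).val = Multiset.filter Q (P : Multiset V) := by
    apply (Multiset.Nodup.ext (Finset.nodup _) (Multiset.Nodup.filter _ (Multiset.coe_nodup.mpr hnd))).mpr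
    intro v
    simp only [Finset.mem_val, Finset.mem_filter, Finset.mem_univ, true_and, Multiset.mem_filter,
      Multiset.mem_coe]
    exact ⟨fun hq => ⟨h v hq, hq⟩, fun hq => hq.2⟩
  rw [← this]; rfl

/-- Dirac's theorem, list form -/
theorem dirac (hn : 3 ≤ Fintype.card V) (hdeg : ∀ v, Fintype.card V ≤ 2 * dg G v) :
    ∃ (L : List V) (u v : V), Pth G id u v L ∧ G.Adj v u ∧ L.Nodup ∧ ∀ w, w ∈ L := by
  obtain ⟨v0⟩ := Fintype.card_pos_iff.mp (show 0 < Fintype.card V by omega)
  obtain ⟨n, ⟨x, y, P, hP, hnd, hlen⟩, hmx⟩ := exists_greatest (b := Fintype.card V)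
    (P := fun n => ∃ x y P, Pth G id x y P ∧ P.Nodup ∧ P.length = n)
    ⟨1, v0, id v0, [v0], Pth.single v0, by simp, rfl⟩
    (by rintro n ⟨x, y, P, _, hnd, rfl⟩; exact hnd.length_le_card)
  obtain ⟨p, hp1, hp2, hp3, hp4⟩ := hP.seq
  rw [hlen] at hp1 hp3 hp4
  have hnle : n ≤ Fintype.card V := by rw [← hlen]; exact hnd.length_le_card
  have nx : ∀ u, G.Adj x u → u ∈ P := by
    intro u hu
    by_contra hcon
    have := hmx (n + 1) ⟨u, y, u :: P, Pth.cons u x y P hu.symm hP,
      List.nodup_cons.mpr ⟨hcon, hnd⟩, by simp [hlen]⟩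
    omega
  have ny : ∀ u, G.Adj y u → u ∈ P := by
    intro u hu
    by_contra hcon
    have := hmx (n + 1) ⟨x, id u, P ++ [u], hP.append hu (Pth.single u), by
      rw [List.nodup_append]
      refine ⟨hnd, by simp, ?_⟩
      intro a ha b hb
      rw [List.mem_singleton] at hb
      subst hb
      rintro rfl
      exact hcon ha, by simp [hlen]⟩
    omega
  have hpos := hP.length_pos
  rw [hlen] at hpos
  obtain ⟨n', rfl⟩ : ∃ n', n = n' + 1 := ⟨n - 1, by omega⟩
  have dx : dg G x = cnt p 0 (n' + 1) (G.Adj x) := by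
    rw [dg, count_nodup hnd nx]
    conv_lhs => rw [← hp1]
    rw [← Multiset.coe_countP, cnt_eq_countP]
  have dy : dg G y = cnt p 0 (n' + 1) (G.Adj y) := by
    rw [dg, count_nodup hnd ny]
    conv_lhs => rw [← hp1]
    rw [← Multiset.coe_countP, cnt_eq_countP]
  have hy' : p ((0 : ℤ) + n') = y := by
    rw [← hp3]
    show p _ = p _
    congr 1; push_cast; ring
  rw [cnt_succ', hp2, if_neg (by simp), zero_add] at dx
  rw [cnt_succ, hy', if_neg (by simp), add_zero] at dy
  -- crossing
  obtain ⟨i, hi, hyi, hxi⟩ : ∃ i : ℕ, i < n' ∧ G.Adj y (p i) ∧ G.Adj x (p (i + 1)) := by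
    by_contra hall
    push Not at hall
    have := cnt_disj (c := p) (c' := p) (P := G.Adj y) (Q := G.Adj x) (a := 0) (b := 0 + 1)
      (n := n') (by
        rintro i hi ⟨h1, h2⟩
        apply hall i hi
        · convert h1 using 2; ring
        · convert h2 using 2; ring)
    have h1 := hdeg x
    have h2 := hdeg y
    omega
  -- the cycle
  have q1 := pth_sub hp4 0 i (by omega)
  rw [Nat.cast_zero, hp2, zero_add] at q1
  obtain ⟨r, hr⟩ := Nat.exists_eq_add_of_lt hi
  have q2 := pth_sub hp4 (i + 1) r (by omega)
  have e5 : id (p (((i + 1 : ℕ) : ℤ) + r)) = y := by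
    rw [← hp3]
    show p _ = p _
    congr 1; omega
  rw [e5] at q2
  have q3 := q1.append hyi.symm (q2.rv (fun _ => rfl))
  have hx2 : G.Adj (p ((i + 1 : ℕ) : ℤ)) x := by push_cast; exact hxi.symm
  have hperm : (seg p 0 (i + 1) ++ rv id (seg p ((i + 1 : ℕ) : ℤ) (r + 1))).Perm P := by
    have h1 := seg_add p 0 (i + 1) (r + 1)
    rw [zero_add, show i + 1 + (r + 1) = n' + 1 by omega, hp1] at h1
    rw [h1]
    apply List.Perm.append_left
    rw [rv, List.map_id]
    exact List.reverse_perm _
  generalize (seg p 0 (i + 1) ++ rv id (seg p ((i + 1 : ℕ) : ℤ) (r + 1))) = D at q3 hperm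
  have hDnd : D.Nodup := hperm.nodup_iff.mpr hnd
  have hDlen : D.length = n' + 1 := by rw [hperm.length_eq, hlen]
  refine ⟨D, _, _, q3, hx2, hDnd, ?_⟩
  by_contra hcon
  push Not at hcon
  obtain ⟨u, hu⟩ := hcon
  -- a neighbour of u in D
  have hw : ∃ w ∈ D, G.Adj u w := by
    by_contra hall
    push Not at hall
    have h1 : dg G u + (n' + 1) + 1 ≤ Fintype.card V := by
      have hdis : Disjoint (Finset.univ.filter (G.Adj u)) (insert u D.toFinset) := by
        rw [Finset.disjoint_left]
        intro w hw hw'
        simp only [Finset.mem_filter, Finset.mem_univ, true_and] at hw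
        rw [Finset.mem_insert, List.mem_toFinset] at hw'
        rcases hw' with rfl | hw'
        · simp at hw
        · exact hall w hw' hw
      have h2 := Finset.card_le_univ (Finset.univ.filter (G.Adj u) ∪ insert u D.toFinset)
      rw [Finset.card_union_of_disjoint hdis,
        Finset.card_insert_of_notMem (by rw [List.mem_toFinset]; exact hu),
        List.toFinset_card_of_nodup hDnd, hDlen] at h2
      rw [dg]; omega
    have h2 := hdeg u
    have h3 := hdeg x
    have h4 : cnt p (0 + 1) n' (G.Adj x) ≤ n' := cnt_le _ _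
    omega
  obtain ⟨w, hwD, huw⟩ := hw
  obtain ⟨D1, D2, hD⟩ := List.append_of_mem hwD
  have hlong : ∀ (D' : List V) (z z' : V), Pth G id z z' D' → D'.Perm D → G.Adj u z → False := by
    intro D' z z' h1 h2 h3
    have := hmx (n' + 1 + 1) ⟨u, z', u :: D', Pth.cons u z z' D' h3 h1,
      List.nodup_cons.mpr ⟨fun h => hu (h2.mem_iff.mp h), h2.nodup_iff.mpr hDnd⟩, by
        simp [h2.length_eq, hDlen]⟩
    omega
  by_cases hD1 : D1 = []
  · subst hD1
    simp only [List.nil_append] at hD
    have := q3
    rw [hD] at this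
    obtain ⟨rfl, _⟩ := this.cons_inv
    exact hlong D _ _ q3 (List.Perm.refl _) huw
  · rw [hD] at q3
    obtain ⟨a, b, p1, ab, p2⟩ := q3.split hD1 (by simp)
    obtain ⟨hbw, _⟩ := p2.cons_inv
    have p3 := p2.append hx2 p1
    refine hlong _ _ _ p3 ?_ (by rw [hbw]; exact huw)
    rw [hD]
    exact List.perm_append_comm

end

/-- cyclic sequences of vertices -/
theorem exists_cyc_id {G : SimpleGraph V} {L : List V} {u v : V} (hp : Pth G id u v L)
    (hvu : G.Adj v u) (hnd : L.Nodup) (hall : ∀ w, w ∈ L) :
    ∃ c : ℤ → V, (∀ t, c (t + L.length) = c t) ∧ (∀ t, G.Adj (c t) (c (t + 1))) ∧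
      (∀ v, ∃ t, c t = v) ∧ (∀ s t, c s = c t → ∃ j : ℤ, s = t + j * L.length) := by
  have hpos := hp.length_pos
  set k := L.length with hk
  have hkz : (0 : ℤ) < k := by exact_mod_cast hpos
  have hlt : ∀ t : ℤ, (t % k).toNat < L.length := by
    intro t
    have h1 := Int.emod_nonneg t hkz.ne'
    have h2 := Int.emod_lt_of_pos t hkz
    omega
  have harr : ∀ (u v : V) (L : List V), Pth G id u v L → ∀ (i : ℕ) (hi : i + 1 < L.length),
      G.Adj (L[i]'(by omega)) (L[i + 1]'hi) := by
    intro u v L hL
    induction hL with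
    | single u => intro i hi; simp at hi
    | cons u w v L hh h' ih =>
      intro i hi
      rcases i with _ | i
      · obtain ⟨L', rfl⟩ := h'.eq_cons
        simpa using hh
      · simpa using ih i (by simpa using hi)
  have hfst : ∀ (u v : V) (L : List V) (hL : Pth G id u v L), L[0]'(hL.length_pos) = u := by
    intro u v L hL
    cases hL <;> rfl
  have hlast : ∀ (u v : V) (L : List V) (hL : Pth G id u v L),
      (L[L.length - 1]'(by have := hL.length_pos; omega)) = v := by
    intro u v L hL
    induction hL with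
    | single u => simp
    | cons u w v L hh h' ih =>
      have := h'.length_pos
      refine Eq.trans ?_ ih
      rw [List.getElem_cons]
      simp only [List.length_cons, Nat.add_sub_cancel]
      split
      · omega
      · rfl
  refine ⟨fun t => L[(t % k).toNat]'(hlt t), ?_, ?_, ?_, ?_⟩
  · intro t
    simp only [Int.add_emod_right]
  · intro t
    have h1 := Int.emod_nonneg t hkz.ne'
    have h2 := Int.emod_lt_of_pos t hkz
    by_cases hcase : t % k = k - 1
    · have h3 : (t + 1) % k = 0 := by
        rw [Int.add_emod, hcase]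
        rcases eq_or_lt_of_le (show (1 : ℤ) ≤ k by omega) with h | h
        · rw [← h]; simp
        · rw [Int.emod_eq_of_lt (by norm_num : (0:ℤ) ≤ 1) h]; simp
      have e1 : (t % k).toNat = L.length - 1 := by omega
      have e2 : ((t + 1) % k).toNat = 0 := by omega
      simp only [e1, e2]
      rw [hlast u v L hp, hfst u v L hp]
      exact hvu
    · have h3 : (t + 1) % k = t % k + 1 := by
        rw [Int.add_emod]
        rcases eq_or_lt_of_le (show (1 : ℤ) ≤ k by omega) with h | h
        · omega
        · rw [Int.emod_eq_of_lt (by norm_num : (0:ℤ) ≤ 1) h, Int.emod_eq_of_lt (by omega) (by omega)]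
      have e2 : ((t + 1) % k).toNat = (t % k).toNat + 1 := by omega
      simp only [e2]
      exact harr u v L hp _ (by omega)
  · intro w
    obtain ⟨i, hi, hw⟩ := List.getElem_of_mem (hall w)
    refine ⟨i, ?_⟩
    have : ((i : ℤ) % k).toNat = i := by
      rw [Int.emod_eq_of_lt (by omega) (by omega)]; simp
    simp only [this]
    exact hw
  · intro s t hst
    have h1 := (hnd.getElem_inj_iff).mp hst
    have h2 := Int.emod_nonneg s hkz.ne'
    have h3 := Int.emod_nonneg t hkz.ne'
    have h4 : s % k = t % k := by omega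
    refine ⟨s / k - t / k, ?_⟩
    have h5 := Int.emod_add_mul_ediv s k
    have h6 := Int.emod_add_mul_ediv t k
    linear_combination (-1 : ℤ) * h5 + h6 + h4

/-- two disjoint perfect matchings -/
theorem two_matchings [Fintype V] {G : SimpleGraph V} {m : ℕ} (hm : 2 ≤ m)
    (hcard : Fintype.card V = 2 * m) (hdeg : ∀ v, m ≤ dg G v) :
    ∃ f1 f2 : V → V, (∀ v, f1 (f1 v) = v) ∧ (∀ v, f2 (f2 v) = v) ∧ (∀ v, G.Adj v (f1 v)) ∧
      (∀ v, G.Adj v (f2 v)) ∧ ∀ v, f1 v ≠ f2 v := by
  obtain ⟨L, u, v, hp, hvu, hnd, hall⟩ := dirac (G := G) (by omega)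
    (fun v => by have := hdeg v; omega)
  obtain ⟨c, hper, harr, hsurj, hinj⟩ := exists_cyc_id hp hvu hnd hall
  have hL : L.length = 2 * m := by
    rw [← hcard, ← List.toFinset_card_of_nodup hnd, ← Finset.card_univ]
    congr 1
    ext w; simp [hall w]
  rw [hL] at hper hinj
  have hper' : ∀ (t : ℤ) (j : ℤ), c (t + j * (2 * m : ℕ)) = c t := by
    intro t j
    induction j using Int.induction_on with
    | zero => simp
    | succ i ih =>
      rw [show t + ((i : ℤ) + 1) * (2 * m : ℕ) = t + i * (2 * m : ℕ) + (2 * m : ℕ) by ring, hper, ih]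
    | pred i ih =>
      rw [← ih, ← hper (t + (-(i : ℤ) - 1) * (2 * m : ℕ))]
      congr 1; ring
  choose idx hidx using hsurj
  set g : ℤ → ℤ := fun t => if Even t then t + 1 else t - 1 with hg
  set g' : ℤ → ℤ := fun t => if Even t then t - 1 else t + 1 with hg'
  have key : ∀ s, c (g (idx (c s))) = c (g s) := by
    intro s
    obtain ⟨j, hj⟩ := hinj _ _ (hidx (c s))
    have hpar : Even (idx (c s)) ↔ Even s := by
      rw [hj, Int.even_add]
      have : Even (j * ((2 * m : ℕ) : ℤ)) := by
        push_cast
        exact ⟨j * m, by ring⟩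
      simp [this]
    by_cases hs : Even s
    · simp only [hg, if_pos hs, if_pos (hpar.mpr hs)]
      rw [hj, ← hper' (s + 1) j]
      congr 1; ring
    · simp only [hg, if_neg hs, if_neg (fun h => hs (hpar.mp h))]
      rw [hj, ← hper' (s - 1) j]
      congr 1; ring
  have key' : ∀ s, c (g' (idx (c s))) = c (g' s) := by
    intro s
    obtain ⟨j, hj⟩ := hinj _ _ (hidx (c s))
    have hpar : Even (idx (c s)) ↔ Even s := by
      rw [hj, Int.even_add]
      have : Even (j * ((2 * m : ℕ) : ℤ)) := by
        push_cast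
        exact ⟨j * m, by ring⟩
      simp [this]
    by_cases hs : Even s
    · simp only [hg', if_pos hs, if_pos (hpar.mpr hs)]
      rw [hj, ← hper' (s - 1) j]
      congr 1; ring
    · simp only [hg', if_neg hs, if_neg (fun h => hs (hpar.mp h))]
      rw [hj, ← hper' (s + 1) j]
      congr 1; ring
  have gg : ∀ s, g (g s) = s := by
    intro s
    by_cases hs : Even s
    · have : ¬ Even (s + 1) := by rw [Int.even_add_one]; simpa using hs
      simp only [hg, if_pos hs, if_neg this]; ring
    · have : Even (s - 1) := by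
        rw [Int.even_sub_one]; exact hs
      simp only [hg, if_neg hs, if_pos this]; ring
  have gg' : ∀ s, g' (g' s) = s := by
    intro s
    by_cases hs : Even s
    · have : ¬ Even (s - 1) := by rw [Int.even_sub_one]; simpa using hs
      simp only [hg', if_pos hs, if_neg this]; ring
    · have : Even (s + 1) := by
        rw [Int.even_add_one]; exact hs
      simp only [hg', if_neg hs, if_pos this]; ring
  refine ⟨fun v => c (g (idx v)), fun v => c (g' (idx v)), ?_, ?_, ?_, ?_, ?_⟩
  · intro v
    simp only
    rw [key, gg, hidx]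
  · intro v
    simp only
    rw [key', gg', hidx]
  · intro v
    by_cases hs : Even (idx v)
    · simp only [hg, if_pos hs]
      have := harr (idx v)
      rwa [hidx] at this
    · simp only [hg, if_neg hs]
      have := harr (idx v - 1)
      rw [show idx v - 1 + 1 = idx v by ring, hidx] at this
      exact this.symm
  · intro v
    by_cases hs : Even (idx v)
    · simp only [hg', if_pos hs]
      have := harr (idx v - 1)
      rw [show idx v - 1 + 1 = idx v by ring, hidx] at this
      exact this.symm
    · simp only [hg', if_neg hs]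
      have := harr (idx v)
      rwa [hidx] at this
  · intro v h
    have h2 : ∀ s : ℤ, c (s + 1) ≠ c (s - 1) := by
      intro s h
      obtain ⟨j, hj⟩ := hinj _ _ h
      have h3 : (2 : ℤ) = j * ((2 * m : ℕ) : ℤ) := by linarith
      have h4 := int_mul_zero (k := ((2 * m : ℕ) : ℤ)) (n := j) (by rw [← h3]; omega)
        (by rw [← h3]; omega)
      subst h4
      simp at h3
    by_cases hs : Even (idx v)
    · simp only [hg, hg', if_pos hs] at h
      exact h2 _ h
    · simp only [hg, hg', if_neg hs] at h
      exact h2 _ h.symm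

/-- the key theorem: alternating Hamilton cycles for two colours -/
theorem key_star [Fintype V] {R B : SimpleGraph V} {m : ℕ} (hm : 0 < m)
    (hcard : Fintype.card V = 2 * m) (hR : ∀ v, m ≤ dg R v) (hB : ∀ v, m ≤ dg B v) :
    ∃ (f : V → V) (c : ℤ → V), (∀ v, f (f v) = v) ∧ (∀ v, R.Adj v (f v)) ∧ CycFun B f c m := by
  rcases Nat.lt_or_ge 1 m with h1 | h1
  · obtain ⟨f1, f2, inv1, inv2, adj1, adj2, hdis⟩ := two_matchings h1 hcard hR
    have ne1 : ∀ v, f1 v ≠ v := fun v h => by
      have := adj1 v
      rw [h] at this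
      simp at this
    have ne2 : ∀ v, f2 v ≠ v := fun v h => by
      have := adj2 v
      rw [h] at this
      simp at this
    rcases FM inv1 ne1 hcard hm hB with ⟨L, hL, hLm⟩ | e1
    · obtain ⟨c, hc, _⟩ := exists_cycFun hL
      rw [hLm] at hc
      exact ⟨f1, c, inv1, adj1, hc⟩
    · rcases FM inv2 ne2 hcard hm hB with ⟨L, hL, hLm⟩ | e2
      · obtain ⟨c, hc, _⟩ := exists_cycFun hL
        rw [hLm] at hc
        exact ⟨f2, c, inv2, adj2, hc⟩
      · exact (exc_false inv1 inv2 ne1 hdis e1 e2).elim
  · have hm1 : m = 1 := by omega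
    subst hm1
    -- two vertices
    obtain ⟨a, b, hab, huniv⟩ := Finset.card_eq_two.mp
      (show (Finset.univ : Finset V).card = 2 by rw [Finset.card_univ, hcard])
    have hRab : R.Adj a b := by
      have := hR a
      rw [dg] at this
      obtain ⟨w, hw⟩ := Finset.card_pos.mp (show 0 < (Finset.univ.filter (R.Adj a)).card by omega)
      simp only [Finset.mem_filter, Finset.mem_univ, true_and] at hw
      have : w ∈ (Finset.univ : Finset V) := Finset.mem_univ w
      rw [huniv] at this
      simp only [Finset.mem_insert, Finset.mem_singleton] at this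
      rcases this with rfl | rfl
      · simp at hw
      · exact hw
    have hinv : ∀ v, Equiv.swap a b (Equiv.swap a b v) = v := fun v => by simp
    have hadj : ∀ v, R.Adj v (Equiv.swap a b v) := by
      intro v
      have : v ∈ (Finset.univ : Finset V) := Finset.mem_univ v
      rw [huniv] at this
      simp only [Finset.mem_insert, Finset.mem_singleton] at this
      rcases this with rfl | rfl
      · simpa using hRab
      · simpa using hRab.symm
    have hne : ∀ v, Equiv.swap a b v ≠ v := fun v h => by
      have := hadj v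
      rw [h] at this
      simp at this
    obtain ⟨L, hL⟩ := exists_cyc (f := Equiv.swap a b) hinv hne hcard hm hB
    obtain ⟨c, hc, _⟩ := exists_cycFun hL
    have hlen : L.length = 1 := by
      obtain ⟨u, v, hp, _, hnd⟩ := hL
      have h1 := congrArg Multiset.card (univ_eq hnd)
      rw [Multiset.card_add, card_ms] at h1
      have h2 : Multiset.card (Finset.univ : Finset V).val = Fintype.card V := rfl
      have := hp.length_pos
      omega
    rw [hlen] at hc
    exact ⟨Equiv.swap a b, c, hinv, hadj, hc⟩

end Pool.Agent.Helper458
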