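import Pool.Agent.Helper458.Small5

set_option autoImplicit false

namespace Pool.Agent.Helper458

open Classical

variable {V : Type*}

/-- exceptional configurations -/
def Exc [Fintype V] (G : SimpleGraph V) (f : V → V) (m : ℕ) : Prop :=
  ∃ x, dg G x = m ∧ dg G (f x) = m ∧ G.Adj x (f x) ∧
    (∀ u, G.Adj x u → u ≠ f x → ∃ w, G.Adj w x ∧ G.Adj w u) ∧
    ((∃ s, (∀ v, v ≠ s → v ≠ f s → dg G v = m) ∧ m < dg G s ∧ m < dg G (f s) ∧
        ∃ a u1 u2, dg G a = m ∧ dg G u1 = m ∧ dg G u2 = m ∧ G.Adj a u1 ∧ G.Adj a u2 ∧ u1 ≠ u2) ∨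
      ((∀ v, G.Adj v (f v)) ∧ ∀ v w, G.Adj v w → G.Adj (f v) w → False) ∨
      (∀ a u, dg G a = m → dg G u = m → G.Adj a u → u = f a))

section

variable [Fintype V] {G : SimpleGraph V} {f : V → V} {m : ℕ}

theorem exc_of_setup {c : ℤ → V} {k l : ℕ} (S : Setup G f c k l) : Exc G f (k + l) := by
  obtain ⟨x, hx, _⟩ := exists_notMem_W S (0 : Multiset V) (by simp; exact S.lpos)
  have hfx := S.f_mem_W.mpr hx
  refine ⟨x, dg_W S hx, dg_W S hfx, W_adj S hx hfx (S.ne x), ?_, ?_⟩
  · rcases Nat.lt_or_ge 1 l with hl | hl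
    · intro u hu hne
      refine ⟨f x, W_adj S hfx hx (fun h => S.ne x h.symm), ?_⟩
      by_cases huW : u ∈ Wf f c k
      · exact W_adj S hfx huW hne
      · have hall := all_eq S hl hx hfx
        rw [S.mem_W, not_not, mem_ms] at huW
        rcases huW with h | ⟨w, hw, rfl⟩
        · obtain ⟨t, _, rfl⟩ := (mem_seg c).mp h
          exact (hall.1 _).mp hu
        · obtain ⟨t, _, rfl⟩ := (mem_seg c).mp hw
          exact (hall.2 _).mp hu
    · have hl1 : l = 1 := by have := S.lpos; omega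
      subst hl1
      intro u hu hne
      rcases vert_cases S hx u with rfl | rfl | ⟨t, rfl⟩ | ⟨t, rfl⟩
      · simp at hu
      · exact absurd rfl hne
      · have h1 := F1 S hx (t - 1)
        have h3 := S.cyc.arr (t - 1)
        rw [show t - 1 + 1 = t by ring] at h1 h3
        by_cases hA : G.Adj x (f (c (t - 1)))
        · exact ⟨_, hA.symm, h3⟩
        · exact ⟨f x, (W_adj S hx hfx (S.ne x)).symm, h1.mpr hA⟩
      · have h1 := F2 S hx t
        have h3 := S.cyc.arr t
        by_cases hA : G.Adj (f x) (f (c t))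
        · exact ⟨f x, (W_adj S hx hfx (S.ne x)).symm, hA⟩
        · exact ⟨_, (h1.mpr hA).symm, h3.symm⟩
  · rcases Nat.lt_or_ge 1 l with hl | hl
    · left
      obtain ⟨_, s, h1, h2, h3⟩ := typeA S hl
      refine ⟨s, h1, h2, h3, ?_⟩
      obtain ⟨y, hy, hwn⟩ := exists_notMem_W S ({x, f x} : Multiset V) (by simp; omega)
      simp only [Multiset.insert_eq_cons, Multiset.mem_cons, Multiset.mem_singleton, not_or] at hwn
      exact ⟨y, x, f x, dg_W S hy, dg_W S hx, dg_W S hfx, W_adj S hy hx (Ne.symm hwn.1),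
        W_adj S hy hfx (Ne.symm hwn.2), fun h => S.ne x h.symm⟩
    · right
      have hl1 : l = 1 := by have := S.lpos; omega
      subst hl1
      by_cases hpos : 0 < cw 0 k (EE G f c x)
      · right
        exact typeC S hx hpos
      · left
        have T := set6_of S hx hpos
        exact ⟨T.B1, T.B2⟩

/-- existence of an alternating cycle -/
theorem exists_cyc (hinv : ∀ v, f (f v) = v) (hne : ∀ v, f v ≠ v) (hcard : Fintype.card V = 2 * m)
    (hm : 0 < m) (hdeg : ∀ v, m ≤ dg G v) : ∃ L, IsCyc G f L := by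
  have hbound : ∀ L : List V, (ms f L).Nodup → L.length ≤ m := by
    intro L hL
    have h1 := congrArg Multiset.card (univ_eq hL)
    rw [Multiset.card_add, card_ms] at h1
    have h2 : Multiset.card (Finset.univ : Finset V).val = Fintype.card V := rfl
    omega
  have hV : 0 < Fintype.card V := by omega
  obtain ⟨v0⟩ := Fintype.card_pos_iff.mp hV
  obtain ⟨n, ⟨x, y, P, hP, hnd, hlen⟩, hmx⟩ := exists_greatest (b := m)
    (P := fun n => ∃ x y P, Pth G f x y P ∧ (ms f P).Nodup ∧ P.length = n)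
    ⟨1, v0, f v0, [v0], Pth.single v0, by
      rw [ms_cons, ms_nil, add_zero]
      simp only [Multiset.insert_eq_cons, Multiset.nodup_cons, Multiset.mem_singleton,
        Multiset.nodup_singleton, and_true]
      exact fun h => hne v0 h.symm, rfl⟩
    (by rintro n ⟨x, y, P, _, hnd, rfl⟩; exact hbound P hnd)
  obtain ⟨p, hp1, hp2, hp3, hp4⟩ := hP.seq
  rw [hlen] at hp1 hp3 hp4
  by_cases hex : ∃ j : ℕ, j < n ∧ G.Adj x (f (p j))
  · obtain ⟨j, hj, hadj⟩ := hex
    have q1 := pth_sub hp4 0 j (by omega)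
    rw [Nat.cast_zero, hp2, zero_add] at q1
    refine ⟨_, _, _, q1, hadj.symm, ?_⟩
    apply Multiset.nodup_of_le _ hnd
    obtain ⟨r, hr⟩ := Nat.exists_eq_add_of_lt hj
    rw [← hp1, show n = (j + 1) + r by omega, seg_add p 0 (j + 1) r, ms_append]
    exact Multiset.le_add_right _ _
  · exfalso
    push Not at hex
    have hsub : Finset.univ.filter (G.Adj x) ⊆ (seg p 1 (n - 1)).toFinset := by
      intro u hu
      simp only [Finset.mem_filter, Finset.mem_univ, true_and] at hu
      rw [List.mem_toFinset]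
      have huP : u ∈ ms f P := by
        by_contra hcon
        have := hmx (n + 1) ⟨f u, y, f u :: P, ?_, ?_, by simp [hlen]⟩
        · omega
        · apply Pth.cons _ x _ _ _ hP
          rw [hinv]; exact hu.symm
        · rw [ms_cons, hinv]
          simp only [Multiset.insert_eq_cons, Multiset.singleton_add, Multiset.cons_add,
            Multiset.nodup_cons, Multiset.mem_cons]
          refine ⟨?_, hcon, hnd⟩
          rintro (h1 | h1)
          · exact hne u h1
          · rw [f_mem_ms_iff hinv] at h1; exact hcon h1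
      rw [mem_ms] at huP
      rcases huP with h | ⟨w, hw, rfl⟩
      · rw [← hp1] at h
        obtain ⟨t, ht, rfl⟩ := (mem_seg p).mp h
        rcases t with _ | t
        · simp only [Nat.cast_zero, add_zero] at hu
          rw [hp2] at hu
          simp at hu
        · exact (mem_seg p).mpr ⟨t, by omega, by congr 1; push_cast; ring⟩
      · rw [← hp1] at hw
        obtain ⟨t, ht, rfl⟩ := (mem_seg p).mp hw
        rw [zero_add] at hu
        exact absurd hu (hex t ht)
    have h1 := Finset.card_le_card hsub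
    have h2 := List.toFinset_card_le (seg p 1 (n - 1))
    rw [seg_length] at h2
    have h3 := hdeg x
    have h4 := hbound P hnd
    rw [dg] at h3
    have h5 := hP.length_pos
    omega

/-- the fixed matching theorem -/
theorem FM (hinv : ∀ v, f (f v) = v) (hne : ∀ v, f v ≠ v) (hcard : Fintype.card V = 2 * m)
    (hm : 0 < m) (hdeg : ∀ v, m ≤ dg G v) : (∃ L, IsCyc G f L ∧ L.length = m) ∨ Exc G f m := by
  have hbound : ∀ L : List V, (ms f L).Nodup → L.length ≤ m := by
    intro L hL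
    have h1 := congrArg Multiset.card (univ_eq hL)
    rw [Multiset.card_add, card_ms] at h1
    have h2 : Multiset.card (Finset.univ : Finset V).val = Fintype.card V := rfl
    omega
  have hb : ∀ L, IsCyc G f L → L.length ≤ m := by
    rintro L ⟨u, v, _, _, hnd⟩
    exact hbound L hnd
  obtain ⟨L0, hL0⟩ := exists_cyc hinv hne hcard hm hdeg
  obtain ⟨k, ⟨L, hL, hLk⟩, hmx⟩ := exists_greatest (b := m)
    (P := fun n => ∃ L, IsCyc G f L ∧ L.length = n) ⟨_, L0, hL0, rfl⟩
    (by rintro n ⟨L, hL, rfl⟩; exact hb L hL)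
  have hkm : k ≤ m := by rw [← hLk]; exact hb L hL
  rcases Nat.lt_or_ge k m with h | h
  · right
    obtain ⟨l, rfl⟩ := Nat.exists_eq_add_of_le hkm
    obtain ⟨c, hc, _⟩ := exists_cycFun hL
    rw [hLk] at hc
    exact exc_of_setup (c := c) (k := k) (l := l)
      ⟨hinv, hne, hc, fun L hL => hmx _ ⟨L, hL, rfl⟩, hcard, hdeg, by omega⟩
  · left
    exact ⟨L, hL, by omega⟩

theorem exc_false {f1 f2 : V → V} (hinv1 : ∀ v, f1 (f1 v) = v) (hinv2 : ∀ v, f2 (f2 v) = v)
    (hne1 : ∀ v, f1 v ≠ v) (hdis : ∀ v, f1 v ≠ f2 v)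
    (e1 : Exc G f1 m) (e2 : Exc G f2 m) : False := by
  obtain ⟨x1, a1, b1, c1, d1, t1⟩ := e1
  obtain ⟨x2, a2, b2, c2, d2, t2⟩ := e2
  rcases t2 with t2 | t2 | t2
  · rcases t1 with t1 | t1 | t1
    · obtain ⟨s1, p1, q1, r1, _⟩ := t1
      obtain ⟨s2, p2, q2, r2, _⟩ := t2
      have g1 : s1 = s2 ∨ s1 = f2 s2 := by
        by_contra h
        push Not at h
        have := p2 s1 h.1 h.2
        omega
      have g2 : f1 s1 = s2 ∨ f1 s1 = f2 s2 := by
        by_contra h
        push Not at h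
        have := p2 (f1 s1) h.1 h.2
        omega
      rcases g1 with g1 | g1 <;> rcases g2 with g2 | g2
      · exact hne1 s1 (by rw [g2, g1])
      · subst g1; exact hdis _ g2
      · apply hdis s1; rw [g2, g1, hinv2]
      · exact hne1 s1 (by rw [g2, g1])
    · -- type1 = b
      obtain ⟨w, hw1, hw2⟩ := d2 (f1 x2) (t1.1 x2) (hdis x2)
      exact t1.2 x2 w hw1.symm hw2.symm
    · -- type1 = c, type2 = a
      obtain ⟨s2, p2, q2, r2, a, u, u', g1, g2, g3, g4, g5, g6⟩ := t2
      exact g6 ((t1 a u g1 g2 g4).trans (t1 a u' g1 g3 g5).symm)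
  · obtain ⟨w, hw1, hw2⟩ := d1 (f2 x1) (t2.1 x1) (fun h => hdis x1 h.symm)
    exact t2.2 x1 w hw1.symm hw2.symm
  · rcases t1 with t1 | t1 | t1
    · obtain ⟨s1, p1, q1, r1, a, u, u', g1, g2, g3, g4, g5, g6⟩ := t1
      exact g6 ((t2 a u g1 g2 g4).trans (t2 a u' g1 g3 g5).symm)
    · obtain ⟨w, hw1, hw2⟩ := d2 (f1 x2) (t1.1 x2) (hdis x2)
      exact t1.2 x2 w hw1.symm hw2.symm
    · exact hdis x1 (t2 x1 (f1 x1) a1 b1 c1)

end

end Pool.Agent.Helper458
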