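import Pool.Agent.Helper458.Dirac

set_option autoImplicit false

namespace Pool.Agent.Helper458

open Classical

/-- output format -/
theorem cyc_out {n c N : ℕ} (G : Fin c → SimpleGraph (Fin n)) (hN : 2 ≤ N) (z : ℕ → Fin n)
    (col : ℕ → Fin c) (hinj : ∀ i j, i < N → j < N → z i = z j → i = j)
    (hadj : ∀ i, i + 1 < N → (G (col i)).Adj (z i) (z (i + 1)))
    (hlast : (G (col (N - 1))).Adj (z (N - 1)) (z 0))
    (hcol : ∀ i, i + 1 < N → col i ≠ col (i + 1)) (hcl : col (N - 1) ≠ col 0) :
    ∃ f : Fin N → Fin n, Function.Injective f ∧ ∃ col' : Fin N → Fin c, ∀ j : Fin N,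
      (G (col' j)).Adj (f j) (f (finRotate N j)) ∧ col' j ≠ col' (finRotate N j) := by
  refine ⟨fun j => z j, ?_, fun j => col j, ?_⟩
  · intro i j hij
    exact Fin.ext (hinj i j i.2 j.2 hij)
  · intro j
    obtain ⟨N', rfl⟩ : ∃ N', N = N' + 1 := ⟨N - 1, by omega⟩
    simp only
    rw [finRotate_succ_apply]
    by_cases hj : (j : ℕ) + 1 < N' + 1
    · have h1 : ((j + 1 : Fin (N' + 1)) : ℕ) = j + 1 := by
        apply Fin.val_add_one_of_lt
        rw [Fin.lt_def, Fin.val_last]; omega
      rw [h1]
      exact ⟨hadj j hj, hcol j hj⟩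
    · have hj' : j = Fin.last N' := by
        apply Fin.ext
        rw [Fin.val_last]
        have := j.2
        omega
      subst hj'
      rw [Fin.last_add_one]
      simp only [Fin.val_last, Fin.val_zero]
      simp only [Nat.add_sub_cancel] at hlast hcl
      exact ⟨hlast, hcl⟩

theorem dg_eq_ncard {n : ℕ} (G : SimpleGraph (Fin n)) (v : Fin n) :
    dg G v = (G.neighborSet v).ncard := by
  have : G.neighborSet v = ↑(Finset.univ.filter (G.Adj v)) := by
    ext w; simp
  rw [this, Set.ncard_coe_finset, dg]

theorem dg_comap {m : ℕ} (H : SimpleGraph (Fin (2 * m + 1))) (w : Fin (2 * m)) :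
    dg H (Fin.castSucc w) ≤ dg (H.comap Fin.castSucc) w + 1 := by
  have hsub : Finset.univ.filter (H.Adj (Fin.castSucc w)) ⊆
      insert (Fin.last (2 * m)) ((Finset.univ.filter ((H.comap Fin.castSucc).Adj w)).image
        Fin.castSucc) := by
    intro u hu
    simp only [Finset.mem_filter, Finset.mem_univ, true_and] at hu
    rw [Finset.mem_insert, Finset.mem_image]
    rcases Fin.eq_castSucc_or_eq_last u with ⟨u', rfl⟩ | rfl
    · right
      exact ⟨u', by simpa using hu, rfl⟩
    · left; rfl
  have h1 := Finset.card_le_card hsub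
  have h2 := Finset.card_insert_le (Fin.last (2 * m))
    ((Finset.univ.filter ((H.comap Fin.castSucc).Adj w)).image Fin.castSucc)
  have h3 : ((Finset.univ.filter ((H.comap Fin.castSucc).Adj w)).image
    (Fin.castSucc : Fin (2 * m) → Fin (2 * m + 1))).card ≤ _ := Finset.card_image_le
  have h4 : dg (H.comap Fin.castSucc) w =
      (Finset.univ.filter ((H.comap Fin.castSucc).Adj w)).card := by
    unfold dg; congr
  rw [h4]
  unfold dg
  omega

theorem dg_last {m : ℕ} (H : SimpleGraph (Fin (2 * m + 1))) :
    dg H (Fin.last (2 * m)) ≤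
      (Finset.univ.filter (fun w : Fin (2 * m) => H.Adj (Fin.last (2 * m)) (Fin.castSucc w))).card := by
  have hsub : Finset.univ.filter (H.Adj (Fin.last (2 * m))) ⊆
      (Finset.univ.filter (fun w : Fin (2 * m) =>
        H.Adj (Fin.last (2 * m)) (Fin.castSucc w))).image Fin.castSucc := by
    intro u hu
    simp only [Finset.mem_filter, Finset.mem_univ, true_and] at hu
    rw [Finset.mem_image]
    rcases Fin.eq_castSucc_or_eq_last u with ⟨u', rfl⟩ | rfl
    · exact ⟨u', by simpa using hu, rfl⟩
    · simp at hu
  exact le_trans (Finset.card_le_card hsub) Finset.card_image_le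

section

variable {V : Type*}

/-- the vertex sequence of an alternating cycle -/
def yy (f : V → V) (c : ℤ → V) (s : ℤ) : V := if s % 2 = 0 then c (s / 2) else f (c (s / 2))

variable {f : V → V} {c : ℤ → V} {m : ℕ} {B : SimpleGraph V}

theorem yy_even (t : ℤ) : yy f c (2 * t) = c t := by
  have h1 : (2 * t) % 2 = 0 := by omega
  have h2 : (2 * t) / 2 = t := by omega
  rw [yy, if_pos h1, h2]

theorem yy_odd (t : ℤ) : yy f c (2 * t + 1) = f (c t) := by
  have h1 : ¬ (2 * t + 1) % 2 = 0 := by omega
  have h2 : (2 * t + 1) / 2 = t := by omega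
  rw [yy, if_neg h1, h2]

theorem yy_inj (hinv : ∀ v, f (f v) = v) (hc : CycFun B f c m) (a : ℤ) {s t : ℕ} (hs : s < 2 * m)
    (ht : t < 2 * m) (h : yy f c (a + s) = yy f c (a + t)) : s = t := by
  have hcc : ∀ x y : ℤ, x ≤ y → y < x + m → c x = c y → x = y := by
    intro x y h1 h2 h3
    by_contra hne
    have := hc.ne_of_lt x (y - x).toNat (by omega) (by omega)
    apply this
    rw [show x + ((y - x).toNat : ℤ) = y by omega]
    exact h3
  have hcc' : ∀ x y : ℤ, x < y + m → y < x + m → c x = c y → x = y := by
    intro x y h1 h2 h3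
    rcases le_total x y with h | h
    · exact hcc x y h h2 h3
    · exact (hcc y x h h1 h3.symm).symm
  rcases Int.even_or_odd' (a + s) with ⟨x, hx | hx⟩ <;>
    rcases Int.even_or_odd' (a + t) with ⟨y, hy | hy⟩ <;> rw [hx, hy] at h
  · rw [yy_even, yy_even] at h
    have := hcc' x y (by omega) (by omega) h
    omega
  · rw [yy_even, yy_odd] at h
    exact absurd h (hc.ne_f _ _)
  · rw [yy_even, yy_odd] at h
    exact absurd h.symm (hc.ne_f _ _)
  · rw [yy_odd, yy_odd] at h
    have h' : c x = c y := by rw [← hinv (c x), ← hinv (c y), h]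
    have := hcc' x y (by omega) (by omega) h'
    omega

theorem count_all [Fintype V] (hc : CycFun B f c m) (hcard : Fintype.card V = 2 * m)
    (P : V → Prop) : (Finset.univ.filter P).card = cnt c 0 m P + cnt c 0 m (fun v => P (f v)) := by
  have h1 := univ_eq hc.nd
  have h2 : (Finset.univ.filter (fun v => v ∉ ms f (seg c 0 m))).val = 0 := by
    have h3 := congrArg Multiset.card h1
    rw [Multiset.card_add, card_ms, seg_length] at h3
    have h4 : Multiset.card (Finset.univ : Finset V).val = Fintype.card V := rfl
    rw [← Multiset.card_eq_zero]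
    omega
  rw [h2, add_zero] at h1
  have h5 : (Finset.univ.filter P).card = Multiset.countP P (Finset.univ : Finset V).val := by
    rw [Multiset.countP_eq_card_filter]; rfl
  rw [h5, h1, countP_ms, cnt_eq_countP, cnt_eq_countP]

end

/-- the full statement -/
theorem final (n c : ℕ) (G : Fin c → SimpleGraph (Fin n)) (hn : 2 ≤ n)
    (hdeg : ∀ (i : Fin c) (v : Fin n), (n + 1) / 2 ≤ ((G i).neighborSet v).ncard) :
      (((3 ≤ c ∨ (c = 2 ∧ Even n)) →
          ∃ f : Fin n → Fin n, Function.Injective f ∧
            ∃ col : Fin n → Fin c, ∀ j : Fin n,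
              (G (col j)).Adj (f j) (f (finRotate n j)) ∧ col j ≠ col (finRotate n j)) ∧
       ((c = 2 ∧ Odd n) →
          ∃ f : Fin (n - 1) → Fin n, Function.Injective f ∧
            ∃ col : Fin (n - 1) → Fin c, ∀ j : Fin (n - 1),
              (G (col j)).Adj (f j) (f (finRotate (n - 1) j)) ∧
                col j ≠ col (finRotate (n - 1) j))) := by
  have hdeg' : ∀ (i : Fin c) (v : Fin n), (n + 1) / 2 ≤ dg (G i) v := by
    intro i v
    rw [dg_eq_ncard]; exact hdeg i v
  clear hdeg
  constructor
  · intro hc
    have hc2 : 2 ≤ c := by omega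
    rcases Nat.even_or_odd' n with ⟨m, rfl | rfl⟩
    · -- n even
      obtain ⟨f, d, hinv, hR, hd⟩ := key_star (V := Fin (2 * m)) (R := G ⟨0, by omega⟩)
        (B := G ⟨1, by omega⟩) (m := m) (by omega) (by simp)
        (fun v => by have := hdeg' ⟨0, by omega⟩ v; omega)
        (fun v => by have := hdeg' ⟨1, by omega⟩ v; omega)
      have hval : ∀ i : ℕ, yy f d (i : ℤ) = yy f d (0 + i) := by intro i; rw [zero_add]
      refine cyc_out G hn (fun i => yy f d i)
        (fun i => if i % 2 = 0 then ⟨0, by omega⟩ else ⟨1, by omega⟩) ?_ ?_ ?_ ?_ ?_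
      · intro i j hi hj h
        simp only [hval] at h
        exact yy_inj hinv hd 0 hi hj h
      · intro i hi
        rcases Nat.even_or_odd' i with ⟨t, rfl | rfl⟩
        · rw [if_pos (by omega)]
          push_cast
          rw [yy_even, yy_odd]
          exact hR _
        · rw [if_neg (by omega)]
          push_cast
          rw [show (2 : ℤ) * t + 1 + 1 = 2 * (t + 1) by ring, yy_even, yy_odd]
          exact hd.arr _
      · rw [if_neg (by omega)]
        have e1 : ((2 * m - 1 : ℕ) : ℤ) = 2 * ((m : ℤ) - 1) + 1 := by omega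
        rw [e1, yy_odd]
        have e2 : yy f d ((0 : ℕ) : ℤ) = d 0 := by
          have := yy_even (f := f) (c := d) 0
          simpa using this
        rw [e2]
        have := hd.arr ((m : ℤ) - 1)
        rw [show (m : ℤ) - 1 + 1 = 0 + m by ring, hd.per] at this
        exact this
      · intro i hi
        rcases Nat.even_or_odd' i with ⟨t, rfl | rfl⟩
        · rw [if_pos (by omega), if_neg (by omega)]
          simp
        · rw [if_neg (by omega), if_pos (by omega)]
          simp
      · rw [if_neg (by omega), if_pos (by omega)]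
        simp
    · -- n odd, c ≥ 3
      have hc3 : 3 ≤ c := by
        rcases hc with h | ⟨_, h⟩
        · exact h
        · exfalso
          rw [Nat.even_iff] at h
          omega
      have hm : 0 < m := by omega
      obtain ⟨f, d, hinv, hR, hd⟩ := key_star (V := Fin (2 * m))
        (R := (G ⟨0, by omega⟩).comap Fin.castSucc)
        (B := (G ⟨1, by omega⟩).comap Fin.castSucc) (m := m) hm (by simp)
        (fun v => by
          have h1 := hdeg' ⟨0, by omega⟩ (Fin.castSucc v)
          have h2 := dg_comap (G ⟨0, by omega⟩) v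
          omega)
        (fun v => by
          have h1 := hdeg' ⟨1, by omega⟩ (Fin.castSucc v)
          have h2 := dg_comap (G ⟨1, by omega⟩) v
          omega)
      -- pigeonhole
      have k0 := count_all hd (by simp) (fun w : Fin (2 * m) =>
        (G ⟨0, by omega⟩).Adj (Fin.last (2 * m)) (Fin.castSucc w))
      have k2 := count_all hd (by simp) (fun w : Fin (2 * m) =>
        (G ⟨2, by omega⟩).Adj (Fin.last (2 * m)) (Fin.castSucc w))
      have l0 := dg_last (G ⟨0, by omega⟩)
      have l2 := dg_last (G ⟨2, by omega⟩)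
      have m0 := hdeg' ⟨0, by omega⟩ (Fin.last (2 * m))
      have m2 := hdeg' ⟨2, by omega⟩ (Fin.last (2 * m))
      have hex : ∃ (a b : Fin c) (t : ℤ), a ≠ b ∧ a ≠ ⟨1, by omega⟩ ∧ b ≠ ⟨1, by omega⟩ ∧
          (G a).Adj (Fin.last (2 * m)) (Fin.castSucc (d t)) ∧
          (G b).Adj (Fin.last (2 * m)) (Fin.castSucc (f (d t))) := by
        by_contra hcon
        push Not at hcon
        have c1 := cnt_disj (c := d) (c' := d) (a := 0) (b := 0) (n := m)
          (P := fun w : Fin (2 * m) =>
            (G ⟨0, by omega⟩).Adj (Fin.last (2 * m)) (Fin.castSucc w))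
          (Q := fun w : Fin (2 * m) =>
            (G ⟨2, by omega⟩).Adj (Fin.last (2 * m)) (Fin.castSucc (f w))) (by
            rintro i _ ⟨h1, h2⟩
            exact hcon ⟨0, by omega⟩ ⟨2, by omega⟩ (0 + i) (by simp) (by simp) (by simp) h1 h2)
        have c2 := cnt_disj (c := d) (c' := d) (a := 0) (b := 0) (n := m)
          (P := fun w : Fin (2 * m) =>
            (G ⟨2, by omega⟩).Adj (Fin.last (2 * m)) (Fin.castSucc w))
          (Q := fun w : Fin (2 * m) =>
            (G ⟨0, by omega⟩).Adj (Fin.last (2 * m)) (Fin.castSucc (f w))) (by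
            rintro i _ ⟨h1, h2⟩
            exact hcon ⟨2, by omega⟩ ⟨0, by omega⟩ (0 + i) (by simp) (by simp) (by simp) h1 h2)
        omega
      obtain ⟨a, b, t, hab, ha1, hb1, hadja, hadjb⟩ := hex
      refine cyc_out G hn
        (fun i => match i with
          | 0 => Fin.last (2 * m)
          | i + 1 => Fin.castSucc (yy f d (2 * t + 1 + (i : ℤ))))
        (fun i => match i with
          | 0 => b
          | i + 1 => if i = 2 * m - 1 then a else if i % 2 = 0 then ⟨1, by omega⟩
              else ⟨0, by omega⟩) ?_ ?_ ?_ ?_ ?_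
      · intro i j hi hj h
        rcases i with _ | i <;> rcases j with _ | j
        · rfl
        · exact absurd h.symm (Fin.castSucc_ne_last _)
        · exact absurd h (Fin.castSucc_ne_last _)
        · have h' := Fin.castSucc_injective _ h
          have := yy_inj hinv hd (2 * t + 1) (by omega) (by omega) h'
          omega
      · intro i hi
        rcases i with _ | i
        · simp only [Nat.cast_zero, add_zero]
          rw [yy_odd]
          exact hadjb
        · simp only
          rw [if_neg (by omega)]
          rcases Nat.even_or_odd' i with ⟨s, rfl | rfl⟩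
          · rw [if_pos (by omega)]
            push_cast
            rw [show (2 : ℤ) * t + 1 + 2 * s = 2 * (t + s) + 1 by ring,
              show (2 : ℤ) * t + 1 + (2 * s + 1) = 2 * (t + s + 1) by ring, yy_even, yy_odd]
            exact hd.arr _
          · rw [if_neg (by omega)]
            push_cast
            rw [show (2 : ℤ) * t + 1 + (2 * s + 1) = 2 * (t + s + 1) by ring,
              show (2 : ℤ) * t + 1 + (2 * s + 1 + 1) = 2 * (t + s + 1) + 1 by ring, yy_even,
              yy_odd]
            exact hR _
      · obtain ⟨m', rfl⟩ : ∃ m', m = m' + 1 := ⟨m - 1, by omega⟩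
        have e1 : 2 * (m' + 1) + 1 - 1 = (2 * m' + 1) + 1 := by omega
        rw [e1]
        simp only
        rw [if_pos (by omega)]
        have e2 : (2 : ℤ) * t + 1 + ((2 * m' + 1 : ℕ) : ℤ) = 2 * (t + ((m' + 1 : ℕ) : ℤ)) := by
          push_cast; ring
        rw [e2, yy_even, hd.per]
        exact hadja.symm
      · intro i hi
        rcases i with _ | i
        · simp only
          rw [if_neg (by omega)]
          simpa using hb1
        · simp only
          rw [if_neg (by omega)]
          by_cases h1 : i + 1 = 2 * m - 1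
          · rw [if_pos (by omega), if_pos h1]
            exact ha1.symm
          · rw [if_neg h1]
            rcases Nat.even_or_odd' i with ⟨s, rfl | rfl⟩
            · rw [if_pos (by omega), if_neg (by omega)]
              simp
            · rw [if_neg (by omega), if_pos (by omega)]
              simp
      · obtain ⟨m', rfl⟩ : ∃ m', m = m' + 1 := ⟨m - 1, by omega⟩
        have e1 : 2 * (m' + 1) + 1 - 1 = (2 * m' + 1) + 1 := by omega
        rw [e1]
        simp only
        rw [if_pos (by omega)]
        exact hab
  · rintro ⟨hc, hodd⟩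
    obtain ⟨m, rfl⟩ := hodd
    have hm : 0 < m := by omega
    have e : 2 * m + 1 - 1 = 2 * m := by omega
    rw [e]
    obtain ⟨f, d, hinv, hR, hd⟩ := key_star (V := Fin (2 * m))
      (R := (G ⟨0, by omega⟩).comap Fin.castSucc)
      (B := (G ⟨1, by omega⟩).comap Fin.castSucc) (m := m) hm (by simp)
      (fun v => by
        have h1 := hdeg' ⟨0, by omega⟩ (Fin.castSucc v)
        have h2 := dg_comap (G ⟨0, by omega⟩) v
        omega)
      (fun v => by
        have h1 := hdeg' ⟨1, by omega⟩ (Fin.castSucc v)
        have h2 := dg_comap (G ⟨1, by omega⟩) v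
        omega)
    have hval : ∀ i : ℕ, yy f d (i : ℤ) = yy f d (0 + i) := by intro i; rw [zero_add]
    refine cyc_out G (by omega) (fun i => Fin.castSucc (yy f d i))
      (fun i => if i % 2 = 0 then ⟨0, by omega⟩ else ⟨1, by omega⟩) ?_ ?_ ?_ ?_ ?_
    · intro i j hi hj h
      have h := Fin.castSucc_injective _ h
      simp only [hval] at h
      exact yy_inj hinv hd 0 hi hj h
    · intro i hi
      rcases Nat.even_or_odd' i with ⟨t, rfl | rfl⟩
      · rw [if_pos (by omega)]
        push_cast
        rw [yy_even, yy_odd]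
        exact hR _
      · rw [if_neg (by omega)]
        push_cast
        rw [show (2 : ℤ) * t + 1 + 1 = 2 * (t + 1) by ring, yy_even, yy_odd]
        exact hd.arr _
    · rw [if_neg (by omega)]
      have e1 : ((2 * m - 1 : ℕ) : ℤ) = 2 * ((m : ℤ) - 1) + 1 := by omega
      rw [e1, yy_odd]
      have e2 : yy f d ((0 : ℕ) : ℤ) = d 0 := by
        have := yy_even (f := f) (c := d) 0
        simpa using this
      rw [e2]
      have := hd.arr ((m : ℤ) - 1)
      rw [show (m : ℤ) - 1 + 1 = 0 + m by ring, hd.per] at this
      exact this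
    · intro i hi
      rcases Nat.even_or_odd' i with ⟨t, rfl | rfl⟩
      · rw [if_pos (by omega), if_neg (by omega)]
        simp
      · rw [if_neg (by omega), if_pos (by omega)]
        simp
    · rw [if_neg (by omega), if_pos (by omega)]
      simp

end Pool.Agent.Helper458
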