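import Pool.Agent.Helper458.Dirac

set_option autoImplicit false

namespace Pool.Agent.Helper458

open Classical

variable {V : Type*}

/-- `CP G a u b v L`: the list `L` is a walk from `u` to `v` with alternating colours; `a` is the
colour which may be used to prolong it at `u`, and `b` the colour which may be used at `v`. -/
inductive CP (G : Bool → SimpleGraph V) : Bool → V → Bool → V → List V → Prop
  | single (a : Bool) (u : V) : CP G a u (!a) u [u]
  | cons (a : Bool) (u w : V) (b : Bool) (v : V) (L : List V) (h : (G (!a)).Adj u w)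
      (h' : CP G (!a) w b v L) : CP G a u b v (u :: L)

/-- alternating cycles -/
def IsC (G : Bool → SimpleGraph V) (L : List V) : Prop :=
  ∃ a u v, CP G a u a v L ∧ (G a).Adj v u ∧ L.Nodup

/-- left free colour at position `s` -/
def fcol (a : Bool) (s : ℕ) : Bool := if s % 2 = 0 then a else !a

theorem fcol_zero (a : Bool) : fcol a 0 = a := by simp [fcol]

theorem fcol_succ (a : Bool) (s : ℕ) : fcol a (s + 1) = fcol (!a) s := by
  unfold fcol
  rcases Nat.even_or_odd' s with ⟨m, rfl | rfl⟩
  · simp [show (2 * m + 1) % 2 = 1 by omega]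
  · simp [show (2 * m + 1 + 1) % 2 = 0 by omega, show (2 * m + 1) % 2 = 1 by omega]

theorem fcol_even (a : Bool) {s : ℕ} (h : s % 2 = 0) : fcol a s = a := by simp [fcol, h]

theorem fcol_odd (a : Bool) {s : ℕ} (h : s % 2 = 1) : fcol a s = !a := by simp [fcol, h]

section cp

variable {G : Bool → SimpleGraph V}

theorem CP.single' (a : Bool) (u : V) : CP G (!a) u a u [u] := by
  have := CP.single (G := G) (!a) u
  rwa [Bool.not_not] at this

theorem CP.append {a b c : Bool} {u v w z : V} {L L' : List V} (h : CP G a u b v L)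
    (ha : (G b).Adj v w) (h' : CP G b w c z L') : CP G a u c z (L ++ L') := by
  induction h with
  | single a u => exact CP.cons _ _ _ _ _ _ ha h'
  | cons a u w' b v L hh _ ih => exact CP.cons _ _ _ _ _ _ hh (ih ha h')

theorem CP.rev {a b : Bool} {u v : V} {L : List V} (h : CP G a u b v L) :
    CP G b v a u L.reverse := by
  induction h with
  | single a u => exact CP.single' a u
  | cons a u w b v L hh _ ih =>
    rw [List.reverse_cons]
    exact ih.append hh.symm (CP.single' a u)

theorem CP.ne_nil {a b : Bool} {u v : V} {L : List V} (h : CP G a u b v L) : L ≠ [] := by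
  cases h <;> simp

theorem CP.length_pos {a b : Bool} {u v : V} {L : List V} (h : CP G a u b v L) : 0 < L.length :=
  List.length_pos_iff.mpr h.ne_nil

theorem CP.fst_mem {a b : Bool} {u v : V} {L : List V} (h : CP G a u b v L) : u ∈ L := by
  cases h <;> simp

theorem CP.snd_mem {a b : Bool} {u v : V} {L : List V} (h : CP G a u b v L) : v ∈ L := by
  have := h.rev.fst_mem
  simpa using this

theorem CP.par {a b : Bool} {u v : V} {L : List V} (h : CP G a u b v L) :
    b = fcol a L.length := by
  induction h with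
  | single a u => simp [fcol]
  | cons a u w b v L hh _ ih => rw [List.length_cons, fcol_succ]; exact ih

theorem CP.eq_cons {a b : Bool} {u v : V} {L : List V} (h : CP G a u b v L) :
    ∃ L', L = u :: L' := by
  cases h <;> simp

theorem CP.seq {a b : Bool} {x y : V} {P : List V} (h : CP G a x b y P) :
    ∃ p : ℤ → V, seg p 0 P.length = P ∧ p 0 = x ∧ p (P.length - 1) = y ∧
      ∀ t : ℕ, t + 1 < P.length → (G (fcol a (t + 1))).Adj (p t) (p (t + 1)) := by
  refine ⟨fun t => P.getD t.toNat x, ?_, ?_, ?_, ?_⟩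
  · apply List.ext_getElem
    · simp
    · intro n h1 h2
      simp [seg]
      rw [List.getElem?_eq_getElem h2]; rfl
  · obtain ⟨P', rfl⟩ := h.eq_cons
    simp
  · have hl := h.length_pos
    induction h with
    | single a u => simp
    | cons a u w b v L hh h' ih =>
      have h3 := h'.length_pos
      have := ih h3
      have e1 : ((((u :: L).length : ℕ) : ℤ) - 1).toNat = (L.length - 1) + 1 := by
        simp only [List.length_cons]; push_cast; omega
      have e2 : (((L.length : ℕ) : ℤ) - 1).toNat = L.length - 1 := by omega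
      simp only [e1, e2] at this ⊢
      have hlt : L.length - 1 < L.length := by omega
      simp only [List.getD_cons_succ]
      rw [List.getD_eq_getElem _ _ hlt] at this ⊢
      exact this
  · intro t ht
    simp only [Int.toNat_natCast]
    have e2 : ((t : ℤ) + 1).toNat = t + 1 := by omega
    rw [e2]
    clear e2
    induction h generalizing t with
    | single a u => simp at ht
    | cons a u w b v L hh h' ih =>
      rcases t with _ | t
      · obtain ⟨L', rfl⟩ := h'.eq_cons
        rw [fcol_succ, fcol_zero]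
        simpa using hh
      · simp only [List.length_cons] at ht
        have h4 : t + 1 < L.length := by omega
        have := ih t h4
        rw [fcol_succ]
        simp only [List.getD_cons_succ]
        rw [List.getD_eq_getElem _ _ (by omega)] at this ⊢
        rw [List.getD_eq_getElem _ _ (by omega)] at this ⊢
        exact this

theorem cp_sub {p : ℤ → V} {len : ℕ} {a : Bool}
    (h : ∀ t : ℕ, t + 1 < len → (G (fcol a (t + 1))).Adj (p t) (p (t + 1)))
    (s n : ℕ) (hn : s + n < len) :
    CP G (fcol a s) (p s) (fcol a (s + n + 1)) (p (s + n)) (seg p s (n + 1)) := by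
  induction n generalizing s with
  | zero =>
    rw [seg_one]
    have := CP.single (G := G) (fcol a s) (p s)
    have e : (!fcol a s) = fcol a (s + 0 + 1) := by
      unfold fcol
      rcases Nat.even_or_odd' s with ⟨m, rfl | rfl⟩
      · simp [show (2 * m + 0 + 1) % 2 = 1 by omega]
      · simp [show (2 * m + 1 + 0 + 1) % 2 = 0 by omega, show (2 * m + 1) % 2 = 1 by omega]
    rw [← e]
    simpa using this
  | succ n ih =>
    rw [seg_succ]
    have := ih (s + 1) (by omega)
    push_cast at this ⊢
    rw [show (s : ℤ) + 1 + (n : ℤ) = s + (n + 1) by ring,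
      show s + 1 + n + 1 = s + (n + 1) + 1 by ring] at this
    have e : fcol a (s + 1) = !fcol a s := by
      unfold fcol
      rcases Nat.even_or_odd' s with ⟨m, rfl | rfl⟩
      · simp [show (2 * m + 1) % 2 = 1 by omega]
      · simp [show (2 * m + 1 + 1) % 2 = 0 by omega, show (2 * m + 1) % 2 = 1 by omega]
    have h1 := h s (by omega)
    rw [e] at this h1
    exact CP.cons _ _ _ _ _ _ h1 this

end cp

/-- alternating cycles as periodic sequences; the edges from even positions have colour `true` -/
structure Cyc (G : Bool → SimpleGraph V) (c : ℤ → V) (k : ℕ) : Prop where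
  pos : 0 < k
  per : ∀ t, c (t + 2 * k) = c t
  arrT : ∀ i, (G true).Adj (c (2 * i)) (c (2 * i + 1))
  arrF : ∀ i, (G false).Adj (c (2 * i + 1)) (c (2 * i + 2))
  nd : (seg c 0 (2 * k)).Nodup

section cyc

variable {G : Bool → SimpleGraph V} {c : ℤ → V} {k : ℕ}

theorem Cyc.perm (hc : Cyc G c k) (a : ℤ) : (seg c a (2 * k)).Perm (seg c 0 (2 * k)) := by
  have hstep : ∀ a : ℤ, (seg c (a + 1) (2 * k)).Perm (seg c a (2 * k)) := by
    intro a
    have h1 : seg c a (2 * k + 1) = c a :: seg c (a + 1) (2 * k) := seg_succ c a (2 * k)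
    have h2 : seg c a (2 * k + 1) = seg c a (2 * k) ++ [c a] := by
      rw [seg_add, seg_one]
      have := hc.per a
      push_cast
      rw [this]
    have h3 : (c a :: seg c (a + 1) (2 * k)).Perm (seg c a (2 * k) ++ [c a]) := by rw [← h1, h2]
    have h4 : (seg c a (2 * k) ++ [c a]).Perm (c a :: seg c a (2 * k)) :=
      List.perm_append_singleton _ _
    exact (h3.trans h4).cons_inv
  induction a using Int.induction_on with
  | zero => rfl
  | succ a ih => exact (hstep a).trans ih
  | pred a ih =>
    have := hstep (-(a : ℤ) - 1)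
    rw [show -(a : ℤ) - 1 + 1 = -a by ring] at this
    exact this.symm.trans ih

theorem Cyc.coe (hc : Cyc G c k) (a : ℤ) :
    ((seg c a (2 * k) : List V) : Multiset V) = (seg c 0 (2 * k) : List V) :=
  Multiset.coe_eq_coe.mpr (hc.perm a)

theorem Cyc.per_int (hc : Cyc G c k) (t n : ℤ) : c (t + n * (2 * k)) = c t := by
  induction n using Int.induction_on with
  | zero => simp
  | succ i ih =>
    rw [show t + ((i : ℤ) + 1) * (2 * k) = t + i * (2 * k) + 2 * k by ring, hc.per, ih]
  | pred i ih =>
    rw [← ih, ← hc.per (t + (-(i : ℤ) - 1) * (2 * k))]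
    congr 1; ring

theorem Cyc.mem (hc : Cyc G c k) (t : ℤ) : c t ∈ seg c 0 (2 * k) := by
  rw [← (hc.perm t).mem_iff]
  exact (mem_seg c).mpr ⟨0, by have := hc.pos; omega, by simp⟩

theorem Cyc.sTT (hc : Cyc G c k) (i : ℤ) (r : ℕ) :
    CP G false (c (2 * i)) true (c (2 * (i + r))) (seg c (2 * i) (2 * r + 1)) := by
  induction r generalizing i with
  | zero => simpa [seg_one] using CP.single (G := G) false (c (2 * i))
  | succ r ih =>
    rw [show 2 * (r + 1) + 1 = (2 * r + 1) + 1 + 1 by ring, seg_succ, seg_succ]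
    have := ih (i + 1)
    rw [show 2 * (i + 1 + (r : ℤ)) = 2 * (i + ((r + 1 : ℕ) : ℤ)) by push_cast; ring] at this
    have h1 := hc.arrT i
    have h2 := hc.arrF i
    rw [show 2 * (i + 1) = 2 * i + 1 + 1 by ring] at this
    rw [show 2 * i + 2 = 2 * i + 1 + 1 by ring] at h2
    exact CP.cons _ _ _ _ _ _ h1 (CP.cons _ _ _ _ _ _ h2 this)

theorem Cyc.sTF (hc : Cyc G c k) (i : ℤ) (r : ℕ) :
    CP G false (c (2 * i)) false (c (2 * (i + r) + 1)) (seg c (2 * i) (2 * r + 2)) := by
  rw [show 2 * r + 2 = (2 * r + 1) + 1 by ring, seg_add, seg_one]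
  have := (hc.sTT i r).append (hc.arrT (i + r)) (CP.single (G := G) true _)
  rw [show 2 * i + ((2 * r + 1 : ℕ) : ℤ) = 2 * (i + r) + 1 by push_cast; ring]
  exact this

theorem Cyc.sFT (hc : Cyc G c k) (i : ℤ) (r : ℕ) :
    CP G true (c (2 * i + 1)) true (c (2 * (i + r) + 2)) (seg c (2 * i + 1) (2 * r + 2)) := by
  rw [show 2 * r + 2 = (2 * r + 1) + 1 by ring, seg_succ]
  have := hc.sTT (i + 1) r
  rw [show 2 * (i + 1 + (r : ℤ)) = 2 * (i + r) + 2 by ring, show 2 * (i + 1) = 2 * i + 2 by ring]
    at this
  have h2 := hc.arrF i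
  rw [show 2 * i + 1 + 1 = 2 * i + 2 by ring]
  exact CP.cons _ _ _ _ _ _ h2 this

theorem Cyc.sFF (hc : Cyc G c k) (i : ℤ) (r : ℕ) :
    CP G true (c (2 * i + 1)) false (c (2 * (i + r) + 1)) (seg c (2 * i + 1) (2 * r + 1)) := by
  rcases r with _ | r
  · simpa [seg_one] using CP.single (G := G) true (c (2 * i + 1))
  · rw [show 2 * (r + 1) + 1 = (2 * r + 2) + 1 by ring, seg_succ]
    have := hc.sTF (i + 1) r
    rw [show 2 * (i + 1 + (r : ℤ)) + 1 = 2 * (i + ((r + 1 : ℕ) : ℤ)) + 1 by push_cast; ring,
      show 2 * (i + 1) = 2 * i + 1 + 1 by ring] at this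
    have h2 := hc.arrF i
    rw [show 2 * i + 2 = 2 * i + 1 + 1 by ring] at h2
    exact CP.cons _ _ _ _ _ _ h2 this

/-- the whole cycle, opened before an even position -/
theorem Cyc.fullT (hc : Cyc G c k) (i : ℤ) :
    CP G false (c (2 * i)) false (c (2 * i - 1)) (seg c (2 * i) (2 * k)) := by
  have hk := hc.pos
  have := hc.sTF i (k - 1)
  rw [show 2 * (k - 1) + 2 = 2 * k by omega] at this
  have e : c (2 * (i + ((k - 1 : ℕ) : ℤ)) + 1) = c (2 * i - 1) := by
    rw [← hc.per (2 * i - 1)]
    congr 1
    omega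
  rw [e] at this
  exact this

/-- the whole cycle, opened before an odd position -/
theorem Cyc.fullF (hc : Cyc G c k) (i : ℤ) :
    CP G true (c (2 * i + 1)) true (c (2 * i)) (seg c (2 * i + 1) (2 * k)) := by
  have hk := hc.pos
  have := hc.sFT i (k - 1)
  rw [show 2 * (k - 1) + 2 = 2 * k by omega] at this
  have e : c (2 * (i + ((k - 1 : ℕ) : ℤ)) + 2) = c (2 * i) := by
    rw [← hc.per (2 * i)]
    congr 1
    omega
  rw [e] at this
  exact this

/-- opening the cycle at a given vertex with a given colour -/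
theorem Cyc.openC (hc : Cyc G c k) (t : ℤ) (b : Bool) : ∃ b' z L, CP G b (c t) b' z L ∧
    (L : Multiset V) = (seg c 0 (2 * k) : List V) := by
  rcases Int.even_or_odd' t with ⟨i, rfl | rfl⟩
  · cases b
    · exact ⟨_, _, _, hc.fullT i, hc.coe _⟩
    · refine ⟨_, _, _, (hc.fullF i).rev, ?_⟩
      rw [Multiset.coe_reverse]; exact hc.coe _
  · cases b
    · have := (hc.fullT (i + 1)).rev
      rw [show 2 * (i + 1) - 1 = 2 * i + 1 by ring] at this
      refine ⟨_, _, _, this, ?_⟩
      rw [Multiset.coe_reverse]; exact hc.coe _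
    · exact ⟨_, _, _, hc.fullF i, hc.coe _⟩

theorem Cyc.isC (hc : Cyc G c k) : IsC G (seg c 0 (2 * k)) := by
  have := hc.fullT 0
  rw [mul_zero] at this
  refine ⟨_, _, _, this, ?_, hc.nd⟩
  have := hc.arrF (-1)
  rwa [show 2 * (-1 : ℤ) + 1 = 0 - 1 by ring, show 2 * (-1 : ℤ) + 2 = 0 by ring] at this

/-- reflection -/
theorem Cyc.refl (hc : Cyc G c k) : Cyc G (fun t => c (1 - t)) k ∧
    ((seg (fun t => c (1 - t)) 0 (2 * k) : List V) : Multiset V) = (seg c 0 (2 * k) : List V) := by
  have h1 : seg (fun t => c (1 - t)) 0 (2 * k) = (seg c (2 - 2 * k) (2 * k)).reverse := by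
    simp only [seg]
    apply List.ext_getElem
    · simp
    · intro n h1 h2
      simp only [List.length_map, List.length_range] at h1
      simp only [List.getElem_map, List.getElem_range, List.getElem_reverse,
        List.length_map, List.length_range]
      congr 1
      omega
  refine ⟨⟨hc.pos, ?_, ?_, ?_, ?_⟩, ?_⟩
  · intro t
    rw [← hc.per (1 - (t + 2 * k))]; congr 1; ring
  · intro i
    have := (hc.arrT (-i)).symm
    rwa [show 2 * -i + 1 = 1 - 2 * i by ring, show 2 * -i = 1 - (2 * i + 1) by ring] at this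
  · intro i
    have := (hc.arrF (-i - 1)).symm
    rwa [show 2 * (-i - 1) + 1 = 1 - (2 * i + 2) by ring,
      show 2 * (-i - 1) + 2 = 1 - (2 * i + 1) by ring] at this
  · rw [h1, List.nodup_reverse]
    exact (hc.perm _).nodup_iff.mpr hc.nd
  · rw [h1, Multiset.coe_reverse]
    exact hc.coe _

/-- exchange of colours -/
theorem Cyc.swap (hc : Cyc G c k) : Cyc (fun b => G (!b)) (fun t => c (t + 1)) k ∧
    ((seg (fun t => c (t + 1)) 0 (2 * k) : List V) : Multiset V) = (seg c 0 (2 * k) : List V) := by
  have h1 : seg (fun t => c (t + 1)) 0 (2 * k) = seg c 1 (2 * k) := by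
    simp only [seg]
    apply List.map_congr_left
    intro i _
    congr 1; ring
  refine ⟨⟨hc.pos, ?_, ?_, ?_, ?_⟩, ?_⟩
  · intro t
    rw [← hc.per (t + 1)]; congr 1; ring
  · intro i
    have := hc.arrF i
    simpa [show 2 * i + 1 + 1 = 2 * i + 2 by ring] using this
  · intro i
    have := hc.arrT (i + 1)
    simpa [show 2 * i + 1 + 1 = 2 * (i + 1) by ring, show 2 * i + 2 + 1 = 2 * (i + 1) + 1 by ring]
      using this
  · rw [h1]
    exact (hc.perm _).nodup_iff.mpr hc.nd
  · rw [h1]
    exact hc.coe _

end cyc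

end Pool.Agent.Helper458
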