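import Pool.Agent.Helper458.PC9

set_option autoImplicit false
set_option linter.unusedSectionVars false

namespace Pool.Agent.Helper458

open Classical

variable {V : Type*} [Fintype V] {G : Bool → SimpleGraph V} {d N k l : ℕ}
  {c e : ℤ → V} {a b : Bool} {x y z z' : V} {P : List V}

theorem DB.refl (S : Cx G d N k) (D : DB G N d k l c P) :
    DB G N d k l (fun t => c (1 - t)) P := by
  have e1 : Ms (fun t => c (1 - t)) k P = Ms c k P := by
    unfold Ms; rw [D.hc.refl.2]
  refine DB_mk S D.hc.refl.1 (by rw [e1]; exact D.nd) D.len D.lpos D.hN D.K ?_ ?_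
  · intro g w hw
    obtain ⟨t, ht⟩ := D.A g w hw
    exact ⟨1 - t, by simpa using ht⟩
  · rw [e1]; exact D.C

theorem DB.swp (S : Cx G d N k) (D : DB G N d k l c P) :
    DB (sw G) N d k l (fun t => c (t + 1)) P := by
  have e1 : Ms (fun t => c (t + 1)) k P = Ms c k P := by
    unfold Ms; rw [D.hc.swap.2]
  refine DB_mk S.swp D.hc.swp (by rw [e1]; exact D.nd) D.len D.lpos D.hN
    (fun g w hw z hz hne => D.K (!g) w hw z hz hne) ?_ ?_
  · intro g w hw
    obtain ⟨t, ht⟩ := D.A (!g) w hw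
    exact ⟨t - 1, by simpa using ht⟩
  · rw [e1]; exact fun g w hw z hz => D.C (!g) w hw z hz

theorem cp_two (g : Bool) (h : (G (!g)).Adj x y) : CP G g x g y [x, y] :=
  CP.cons g x y g y [y] h (CP.single' g y)

/-- relation between the two vertices -/
theorem DB.relT (D : DB G N d k 1 c P) (hx : x ∈ P) (hy : y ∈ P) (hne : x ≠ y) (i : ℤ) :
    (G true).Adj x (c (2 * i)) ↔ ¬ (G true).Adj y (c (2 * i + 1)) := by
  have h1 : (G true).Adj x (c (2 * (i - 1) + 1 + 1)) ↔
    gap (fun j => (G true).Adj y (c (2 * j + 1))) 1 (i - 1) := (D.T x hx y hy hne).e1 (i - 1)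
  rw [show 2 * (i - 1) + 1 + 1 = 2 * i by ring] at h1
  rw [h1]
  constructor
  · intro h
    have := h 1 le_rfl le_rfl
    rw [show i - 1 + ((1 : ℕ) : ℤ) = i by push_cast; ring] at this
    exact this
  · intro h s hs1 hs2
    have : s = 1 := by omega
    subst this
    show ¬ (G true).Adj y (c (2 * (i - 1 + ((1 : ℕ) : ℤ)) + 1))
    rwa [show i - 1 + ((1 : ℕ) : ℤ) = i by push_cast; ring]

theorem DB.mem2 (D : DB G N d k 1 c P) : ∃ x y, P = [x, y] ∧ x ≠ y := by
  have h1 := D.len
  have h2 := D.ndP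
  obtain ⟨x, y, rfl⟩ := List.length_eq_two.mp h1
  refine ⟨x, y, rfl, ?_⟩
  rintro rfl
  simp at h2

theorem DB.bp (D : DB G N d k 1 c [x, y]) (g : Bool) : BP G N c k g x g y [x, y] := by
  have hne : x ≠ y := by
    rintro rfl
    have := D.ndP
    simp at this
  refine ⟨cp_two g (D.K _ x (by simp) y (by simp) hne), D.nd, ?_⟩
  rw [D.len]; exact D.hN

theorem out_step (S : Cx G d N k) (D : DB G N d k 1 c P) {γ : Bool} (hz : z ∉ Ms c k P)
    (hzγ : Att G c γ z) (hz' : z' ∉ seg c 0 (2 * k)) (hadj : (G (!γ)).Adj z z') :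
    z' ∉ Ms c k P ∧ z ≠ z' ∧ DB G N d k 1 c [z, z'] := by
  have hne : z ≠ z' := hadj.ne
  have hzP : z' ∉ P := by
    intro hP
    exact hz (D.C _ z' hP z hadj.symm)
  refine ⟨by rw [Ms_mem]; tauto, hne, ?_⟩
  have hzc : z ∉ seg c 0 (2 * k) := fun h => hz (Ms_mem.mpr (Or.inl h))
  have hB : BP G N c k γ z γ z' [z, z'] := by
    refine ⟨cp_two γ hadj, ?_, ?_⟩
    · unfold Ms
      rw [Multiset.nodup_add]
      refine ⟨by simpa using D.hc.nd, by simpa using hne, ?_⟩
      rw [Multiset.disjoint_left]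
      intro v hv hv'
      simp only [Multiset.mem_coe, List.mem_cons, List.not_mem_nil, or_false] at hv hv'
      rcases hv' with rfl | rfl
      · exact hzc hv
      · exact hz' hv
    · have := D.hN
      simpa using this
  exact even_DB S D.hc hB (l := 1) (by simp) (S.att D.hc hB.rev hzγ).2

/-- vertices outside `X` adjacent to the cycle belong to double edges -/
theorem out2 (S : Cx G d N k) (D : DB G N d k 1 c P) {γ : Bool} (hz : z ∉ Ms c k P)
    (hzγ : Att G c γ z) : ∃ z', z' ∉ Ms c k P ∧ z ≠ z' ∧ DB G N d k 1 c [z, z'] := by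
  obtain ⟨x, y, rfl, hne⟩ := D.mem2
  have hc := D.hc
  have hFxy := D.F x (by simp) y (by simp) hne
  have hd := hFxy.deq
  by_cases h1 : ∃ z', z' ∉ seg c 0 (2 * k) ∧ (G (!γ)).Adj z z'
  · obtain ⟨z', h2, h3⟩ := h1
    exact ⟨z', out_step S D hz hzγ h2 h3⟩
  push Not at h1
  have hA' : Att G c (!γ) z := by
    have hpos : 0 < dg (G (!γ)) z := by
      have := S.deg (!γ) z
      omega
    obtain ⟨u, hu⟩ := Finset.card_pos.mp hpos
    simp only [Finset.mem_filter, Finset.mem_univ, true_and] at hu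
    have hus : u ∈ seg c 0 (2 * k) := by
      by_contra hcon
      exact h1 u hcon hu
    rw [mem_seg] at hus
    obtain ⟨t, _, ht⟩ := hus
    exact ⟨_, by rw [ht]; exact hu⟩
  by_cases h2 : ∃ z', z' ∉ seg c 0 (2 * k) ∧ (G γ).Adj z z'
  · obtain ⟨z', h3, h4⟩ := h2
    exact ⟨z', out_step S D hz hA' h3 (by rw [Bool.not_not]; exact h4)⟩
  push Not at h2
  exfalso
  have hcl : Cl G true z (Ms c k []) := by
    intro u hu
    rw [Ms_mem]
    left
    by_contra hcon
    cases γ
    · exact h1 u hcon hu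
    · exact h2 u hcon hu
  have hdz := deg_cl (G := G) (g := true) (v := z) (P := [])
    (by unfold Ms; simpa using hc.nd) hcl
  have hdz2 := S.deg true z
  rw [List.countP_nil] at hdz
  obtain ⟨i, hi1, hi2⟩ : ∃ i, (G true).Adj z (c (2 * i)) ∧ (G true).Adj z (c (2 * i + 1)) := by
    by_contra hcon
    push Not at hcon
    have := cw_disj (P := fun i => (G true).Adj z (c (2 * i)))
      (Q := fun i => (G true).Adj z (c (2 * i + 1))) (a := 0) (b := 0) (n := k)
      (fun i _ hh => hcon _ hh.1 hh.2)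
    omega
  have hs : CP G false z true z [z] := CP.single' true z
  have hB := D.bp true
  have hms : ∀ w w', (({w, w'} : Multiset V) = {x, y}) →
      ({z} : Multiset V) + (((seg c 0 (2 * k) : List V) : Multiset V) + {w, w'}) =
        {z} + Ms c k [x, y] := by
    intro w w' h
    rw [h]; rfl
  by_cases h5 : (G true).Adj x (c (2 * i + 1))
  · have hp := (hs.append hi1 (hc.fullF i).rev).append h5.symm hB.cp
    refine S.pm hB hp (M := {z}) ?_ (by simp) (by simp) (by simpa using hz)
    rw [← Multiset.coe_add, ← Multiset.coe_add, Multiset.coe_reverse, hc.coe, Ms,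
      Multiset.coe_singleton, add_assoc]
  · have h6 : (G true).Adj y (c (2 * i)) := by
      rw [D.relT (x := y) (y := x) (by simp) (by simp) (Ne.symm hne)]; exact h5
    have hp := (hs.append hi2 (hc.fullF i)).append h6.symm hB.rev.cp
    refine S.pm hB hp (M := {z}) ?_ (by simp) (by simp) (by simpa using hz)
    rw [← Multiset.coe_add, ← Multiset.coe_add, Multiset.coe_reverse, hc.coe, Ms,
      Multiset.coe_singleton, add_assoc]

/-- two double edges -/
structure Q5 (G : Bool → SimpleGraph V) (N d k : ℕ) (c : ℤ → V) (x y z z' : V) : Prop where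
  D1 : DB G N d k 1 c [x, y]
  D2 : DB G N d k 1 c [z, z']
  nd : (Ms c k [x, y] + (([z, z'] : List V) : Multiset V)).Nodup

theorem Q5.refl (S : Cx G d N k) (Q : Q5 G N d k c x y z z') :
    Q5 G N d k (fun t => c (1 - t)) x y z z' := by
  refine ⟨Q.D1.refl S, Q.D2.refl S, ?_⟩
  have e1 : Ms (fun t => c (1 - t)) k [x, y] = Ms c k [x, y] := by
    unfold Ms; rw [Q.D1.hc.refl.2]
  rw [e1]; exact Q.nd

theorem Q5.swp (S : Cx G d N k) (Q : Q5 G N d k c x y z z') :
    Q5 (sw G) N d k (fun t => c (t + 1)) x y z z' := by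
  refine ⟨Q.D1.swp S, Q.D2.swp S, ?_⟩
  have e1 : Ms (fun t => c (t + 1)) k [x, y] = Ms c k [x, y] := by
    unfold Ms; rw [Q.D1.hc.swap.2]
  rw [e1]; exact Q.nd

theorem Q5.ne (Q : Q5 G N d k c x y z z') : x ≠ y ∧ z ≠ z' := by
  constructor
  · rintro rfl
    have := Q.D1.ndP
    simp at this
  · rintro rfl
    have := Q.D2.ndP
    simp at this

theorem DB.comm2 (S : Cx G d N k) (D : DB G N d k 1 c [x, y]) : DB G N d k 1 c [y, x] := by
  have e1 : Ms c k [y, x] = Ms c k [x, y] := by
    have : ([y, x] : List V) = [x, y].reverse := rfl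
    rw [this, Ms_rev]
  have hm : ∀ w, w ∈ [y, x] → w ∈ [x, y] := by
    intro w hw
    simp at hw ⊢
    tauto
  refine DB_mk S D.hc (by rw [e1]; exact D.nd) (by simp) D.lpos D.hN
    (fun g w hw z hz => D.K g w (hm w hw) z (hm z hz)) (fun g w hw => D.A g w (hm w hw)) ?_
  rw [e1]
  exact fun g w hw => D.C g w (hm w hw)

theorem Q5.comm1 (S : Cx G d N k) (Q : Q5 G N d k c x y z z') : Q5 G N d k c y x z z' := by
  refine ⟨Q.D1.comm2 S, Q.D2, ?_⟩
  have : ([y, x] : List V) = [x, y].reverse := rfl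
  rw [this, Ms_rev]
  exact Q.nd

theorem Q5.comm2 (S : Cx G d N k) (Q : Q5 G N d k c x y z z') : Q5 G N d k c x y z' z := by
  refine ⟨Q.D1, Q.D2.comm2 S, ?_⟩
  have : ([z', z] : List V) = [z, z'].reverse := rfl
  rw [this, Multiset.coe_reverse]
  exact Q.nd

theorem Q5.comm3 (Q : Q5 G N d k c x y z z') : Q5 G N d k c z z' x y := by
  refine ⟨Q.D2, Q.D1, ?_⟩
  have : Ms c k [z, z'] + (([x, y] : List V) : Multiset V) =
      Ms c k [x, y] + (([z, z'] : List V) : Multiset V) := by
    unfold Ms; abel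
  rw [this]; exact Q.nd

theorem Q5.link (S : Cx G d N k) (Q : Q5 G N d k c x y z z') (i : ℤ) :
    ¬ ((G true).Adj x (c (2 * i)) ∧ (G true).Adj z (c (2 * i + 1))) := by
  rintro ⟨h1, h2⟩
  have hc := Q.D1.hc
  have hp := ((Q.D1.bp true).cp.rev.append h1 (hc.fullF i).rev).append h2.symm (Q.D2.bp true).cp
  have h3 := S.pmax _ _ _ _ _ hp (by
    have : (([x, y].reverse ++ (seg c (2 * i + 1) (2 * k)).reverse ++ [z, z'] : List V) :
        Multiset V) = Ms c k [x, y] + (([z, z'] : List V) : Multiset V) := by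
      rw [← Multiset.coe_add, ← Multiset.coe_add, Multiset.coe_reverse, Multiset.coe_reverse,
        hc.coe, Ms]
      abel
    have hnd := Q.nd
    rw [← this] at hnd
    simpa using hnd)
  have h4 := Q.D1.hN
  simp at h3
  omega

theorem Q5.eqv (S : Cx G d N k) (Q : Q5 G N d k c x y z z') (i : ℤ) :
    ((G true).Adj y (c (2 * i)) ↔ (G true).Adj x (c (2 * i))) ∧
    ((G true).Adj x (c (2 * i + 1)) ↔ ¬ (G true).Adj x (c (2 * i))) ∧
    ((G true).Adj y (c (2 * i + 1)) ↔ ¬ (G true).Adj x (c (2 * i))) := by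
  obtain ⟨hxy, hzz⟩ := Q.ne
  have r1 := Q.D1.relT (x := x) (y := y) (by simp) (by simp) hxy i
  have r2 := Q.D1.relT (x := y) (y := x) (by simp) (by simp) hxy.symm i
  have r3 := Q.D2.relT (x := z) (y := z') (by simp) (by simp) hzz i
  have r4 := Q.D2.relT (x := z') (y := z) (by simp) (by simp) hzz.symm i
  have l1 := Q.link S i
  have l2 := (Q.comm1 S).link S i
  have m3 := (Q.comm2 S).comm3.link S i
  have m4 := ((Q.comm1 S).comm2 S).comm3.link S i
  have h1 : (G true).Adj x (c (2 * i)) → (G true).Adj y (c (2 * i)) := fun h =>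
    r2.mpr fun h2 => m3 ⟨r4.mpr fun h3 => l1 ⟨h, h3⟩, h2⟩
  have h2 : (G true).Adj y (c (2 * i)) → (G true).Adj x (c (2 * i)) := fun h =>
    r1.mpr fun h2 => m4 ⟨r4.mpr fun h3 => l2 ⟨h, h3⟩, h2⟩
  have h3 : (G true).Adj y (c (2 * i)) ↔ (G true).Adj x (c (2 * i)) := ⟨h2, h1⟩
  refine ⟨h3, ?_, ?_⟩
  · rw [← h3, r2, not_not]
  · rw [r1, not_not]

theorem Q5.two_le (Q : Q5 G N d k c x y z z') : 2 ≤ k := by
  have := (Q.D1.F x (by simp) y (by simp) Q.ne.1).lk
  omega

/-- replacement of one vertex of the cycle -/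
theorem Q5.repl (S : Cx G d N k) (Q : Q5 G N d k c x y z z') (i : ℤ)
    (h1 : (G true).Adj x (c (2 * i))) : ¬ (G false).Adj x (c (2 * (i + 1))) := by
  intro h2
  have hc := Q.D1.hc
  have hk2 := Q.two_le
  have hN := Q.D1.hN
  have hC0 := hc.sTT (i + 1) (k - 1)
  rw [show 2 * (i + 1 + ((k - 1 : ℕ) : ℤ)) = 2 * i + 2 * k by omega, hc.per] at hC0
  have hC := hC0.append h1.symm (CP.single (G := G) true x)
  set L := seg c (2 * (i + 1)) (2 * (k - 1) + 1) ++ [x] with hL
  have harc := arc_split hc (2 * i + 1) (m := 1) (n := 2 * (k - 1) + 1) (by omega)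
  rw [seg_one, show 2 * i + 1 + ((1 : ℕ) : ℤ) = 2 * (i + 1) by push_cast; ring] at harc
  have hm : (L : Multiset V) + (([c (2 * i + 1), y] : List V) : Multiset V) = Ms c k [x, y] := by
    rw [Ms, hL, ← Multiset.coe_add, ← harc]
    have e1 : (([c (2 * i + 1), y] : List V) : Multiset V) =
        (([c (2 * i + 1)] : List V) : Multiset V) + (([y] : List V) : Multiset V) := rfl
    have e2 : (([x, y] : List V) : Multiset V) =
        (([x] : List V) : Multiset V) + (([y] : List V) : Multiset V) := rfl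
    rw [e1, e2]
    abel
  have hLC := isC_of (Q.D1.bp true) hC h2 hm
  obtain ⟨c', k', hc', hk', hcL⟩ := exists_Cyc hLC
  have hLlen : L.length = 2 * k := by
    rw [hL, List.length_append, seg_length, List.length_singleton]; omega
  have hkk : k' = k := by omega
  subst hkk
  have hmemL : ∀ v ∈ L, ∃ t, c' t = v := by
    intro v hv
    have : v ∈ seg c' 0 (2 * k') := (mem_of_coe hcL).mpr hv
    rw [mem_seg] at this
    obtain ⟨t, _, ht⟩ := this
    exact ⟨_, ht⟩
  have hnd' : (Ms c' k' [z, z'] + (([c (2 * i + 1), y] : List V) : Multiset V)).Nodup := by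
    have := Q.nd
    rw [← hm] at this
    unfold Ms
    rw [hcL]
    convert this using 1
    abel
  have hB : BP G N c' k' true z true z' [z, z'] := by
    refine ⟨(Q.D2.bp true).cp, (Multiset.nodup_add.mp hnd').1, ?_⟩
    simpa using hN
  have hattz : Att G c' true z := by
    have h3 := (Q.comm3.eqv S (i + 1)).2.1
    by_cases h4 : (G true).Adj z (c (2 * (i + 1)))
    · obtain ⟨t, ht⟩ := hmemL (c (2 * (i + 1))) (by
        rw [hL, List.mem_append, mem_seg]
        left
        exact ⟨0, by omega, by simp⟩)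
      exact ⟨t, by rw [ht]; exact h4⟩
    · obtain ⟨t, ht⟩ := hmemL (c (2 * (i + 1) + 1)) (by
        rw [hL, List.mem_append, mem_seg]
        left
        exact ⟨1, by omega, by simp⟩)
      exact ⟨t, by rw [ht]; exact h3.mpr h4⟩
  have hD := even_DB S hc' hB (l := 1) (by simp) (S.att hc' hB.rev hattz).2
  have hdisj := (Multiset.nodup_add.mp hnd').2.2
  rw [Multiset.disjoint_left] at hdisj
  have hy : y ∉ Ms c' k' [z, z'] := fun hy => hdisj hy (by simp)
  have hyx : (G true).Adj y x := by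
    have := Q.D1.K true y (by simp) x (by simp) Q.ne.1.symm
    exact this
  obtain ⟨tx, htx⟩ := hmemL x (by rw [hL]; simp)
  obtain ⟨y', hy', hne, hDy⟩ := out2 S hD (γ := true) hy ⟨tx, by rw [htx]; exact hyx⟩
  have hadj : (G true).Adj y y' := hDy.K true y (by simp) y' (by simp) hne
  have hcl := Q.D1.C true y (by simp) y' hadj
  rw [← hm, Multiset.mem_add] at hcl
  have hy'L : y' ∉ (L : Multiset V) := by
    intro h
    apply hy'
    rw [Ms_mem]
    left
    exact (mem_of_coe hcL).mpr (by simpa using h)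
  rcases hcl with hcl | hcl
  · exact hy'L hcl
  · simp only [Multiset.mem_coe, List.mem_cons, List.not_mem_nil, or_false] at hcl
    rcases hcl with rfl | rfl
    · exact ((Q.eqv S i).2.2.mp hadj) h1
    · exact hne rfl

/-- the last configuration -/
theorem caseA (S : Cx G d N k) (D : DB G N d k 1 c [x, y])
    (hx : ∀ i, (G true).Adj x (c (2 * i))) (hy : ∀ i, (G true).Adj y (c (2 * i)))
    (hx' : ∀ i, ¬ (G true).Adj x (c (2 * i + 1))) (hy' : ∀ i, ¬ (G true).Adj y (c (2 * i + 1))) :
    False := by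
  have hc := D.hc
  have hB := D.bp true
  have hne : x ≠ y := by
    rintro rfl
    have := D.ndP
    simp at this
  have hd := (D.F x (by simp) y (by simp) hne).deq
  have h0 := hc.fullF 0
  have hcl : Cl G true (c (2 * 0 + 1)) (Ms c k [x, y]) := by
    apply S.cl hB (h0.append (hx 0).symm hB.cp)
    rw [← Multiset.coe_add, hc.coe]
    rfl
  have hdv := deg_cl hB.nd hcl
  have hdv2 := S.deg true (c (2 * 0 + 1))
  have z1 : List.countP ((G true).Adj (c (2 * 0 + 1))) [x, y] = 0 := by
    rw [List.countP_eq_zero]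
    intro v hv
    simp only [List.mem_cons, List.not_mem_nil, or_false] at hv
    rcases hv with rfl | rfl
    · simpa using fun h => hx' 0 (by simpa using h.symm)
    · simpa using fun h => hy' 0 (by simpa using h.symm)
  have z2 : cw 0 k (fun i => (G true).Adj (c (2 * 0 + 1)) (c (2 * i))) ≤ k := cw_le _ _ _
  have z3 : 0 < cw 0 k (fun i => (G true).Adj (c (2 * 0 + 1)) (c (2 * i + 1))) := by omega
  rw [cw_pos_iff] at z3
  obtain ⟨s, hs, hadj⟩ := z3
  rw [show (0 : ℤ) + s = s by ring] at hadj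
  have hs0 : 0 < s := by
    rcases Nat.eq_zero_or_pos s with rfl | h
    · simp at hadj
    · exact h
  have a1 := hc.sFT 0 (s - 1)
  have a2 := (hc.sFT s (k - s - 1)).rev
  rw [show 2 * (0 + ((s - 1 : ℕ) : ℤ)) + 2 = 2 * s by omega] at a1
  rw [show 2 * (s + ((k - s - 1 : ℕ) : ℤ)) + 2 = 2 * 0 + 2 * k by omega, hc.per] at a2
  have hp := (a1.append (hx s).symm hB.cp).append (hy 0) a2
  refine S.cm hB hp hadj.symm ?_
  rw [← Multiset.coe_add, ← Multiset.coe_add, Multiset.coe_reverse, Ms,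
    ← arc_split hc (2 * 0 + 1) (m := 2 * (s - 1) + 2) (n := 2 * (k - s - 1) + 2) (by omega),
    show (2 * 0 + 1 : ℤ) + ((2 * (s - 1) + 2 : ℕ) : ℤ) = 2 * s + 1 by omega]
  abel

theorem Q5.contra (S : Cx G d N k) (Q : Q5 G N d k c x y z z') : False := by
  have hc := Q.D1.hc
  have hk := hc.pos
  -- relations for colour `false`
  have F : ∀ i, ((G false).Adj x (c (2 * (i + 1))) ↔ ¬ (G false).Adj x (c (2 * i + 1))) := by
    intro i
    have h1 : (G false).Adj x (c (2 * i + 1 + 1)) ↔ ¬ (G false).Adj x (c (2 * i + 1)) :=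
      ((Q.swp S).eqv S.swp i).2.1
    rwa [show 2 * i + 1 + 1 = 2 * (i + 1) by ring] at h1
  have A : ∀ i, (G true).Adj x (c (2 * i)) → (G false).Adj x (c (2 * i + 1)) := by
    intro i hi
    have := Q.repl S i hi
    rw [F] at this
    exact not_not.mp this
  have B : ∀ i, (G false).Adj x (c (2 * i + 1)) → (G true).Adj x (c (2 * (i + 1))) := by
    intro i hi
    by_contra hcon
    have h1 : (G true).Adj x (c (2 * (i + 1) + 1)) := (Q.eqv S (i + 1)).2.1.mpr hcon
    have h2 := (Q.refl S).repl S (-(i + 1))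
    apply h2
    · show (G true).Adj x (c (1 - 2 * (-(i + 1))))
      rw [show 1 - 2 * (-(i + 1)) = 2 * (i + 1) + 1 by ring]
      exact h1
    · show (G false).Adj x (c (1 - 2 * (-(i + 1) + 1)))
      rw [show 1 - 2 * (-(i + 1) + 1) = 2 * i + 1 by ring]
      exact hi
  by_cases hex : ∃ i, (G true).Adj x (c (2 * i))
  · have hall : ∀ i, (G true).Adj x (c (2 * i)) :=
      cyc_walk hk (T := fun i => (G true).Adj x (c (2 * i))) (evP hc true x)
        (fun t ht => B t (A t ht)) hex
    refine caseA S Q.D1 hall (fun i => (Q.eqv S i).1.mpr (hall i)) ?_ ?_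
    · intro i h; exact (Q.eqv S i).2.1.mp h (hall i)
    · intro i h; exact (Q.eqv S i).2.2.mp h (hall i)
  · push Not at hex
    refine caseA S (Q.D1.refl S) ?_ ?_ ?_ ?_
    · intro i
      show (G true).Adj x (c (1 - 2 * i))
      rw [show 1 - 2 * i = 2 * (-i) + 1 by ring]
      exact (Q.eqv S (-i)).2.1.mpr (hex _)
    · intro i
      show (G true).Adj y (c (1 - 2 * i))
      rw [show 1 - 2 * i = 2 * (-i) + 1 by ring]
      exact (Q.eqv S (-i)).2.2.mpr (hex _)
    · intro i
      show ¬ (G true).Adj x (c (1 - (2 * i + 1)))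
      rw [show 1 - (2 * i + 1) = 2 * (-i) by ring]
      exact hex _
    · intro i
      show ¬ (G true).Adj y (c (1 - (2 * i + 1)))
      rw [show 1 - (2 * i + 1) = 2 * (-i) by ring, (Q.eqv S (-i)).1]
      exact hex _

theorem even_small (S : Cx G d N k) (D : DB G N d k 1 c P) : False := by
  obtain ⟨x, y, rfl, hne⟩ := D.mem2
  have hN := D.hN
  obtain ⟨g, v, z, h1, h2, h3⟩ := S.conn (seg c 0 (2 * k) ++ [x, y]) (by simp) (by
    simp only [List.length_append, seg_length, List.length_cons, List.length_nil]; omega)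
  have hz : z ∉ Ms c k [x, y] := by
    rw [Ms_mem]
    rw [List.mem_append] at h2
    exact h2
  rw [List.mem_append] at h1
  have hv : v ∈ seg c 0 (2 * k) := by
    rcases h1 with h1 | h1
    · exact h1
    · exact absurd (D.C g v h1 z h3) hz
  rw [mem_seg] at hv
  obtain ⟨t, _, ht⟩ := hv
  obtain ⟨z', hz', hne', hDz⟩ := out2 S D (γ := g) hz ⟨0 + t, by rw [ht]; exact h3.symm⟩
  have Q : Q5 G N d k c x y z z' := by
    refine ⟨D, hDz, ?_⟩
    rw [Multiset.nodup_add]
    refine ⟨D.nd, by simpa using hne', ?_⟩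
    rw [Multiset.disjoint_left]
    intro v hv hv'
    simp only [Multiset.mem_coe, List.mem_cons, List.not_mem_nil, or_false] at hv'
    rcases hv' with rfl | rfl
    · exact hz hv
    · exact hz' hv
  exact Q.contra S

theorem even_false (S : Cx G d N k) (D : DB G N d k l c P) : False := by
  rcases Nat.lt_or_ge 1 l with h | h
  · exact even_big S D h
  · have := D.lpos
    have hl : l = 1 := by omega
    subst hl
    exact even_small S D

end Pool.Agent.Helper458
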