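import Pool.Agent.Helper458.PC10

set_option autoImplicit false
set_option linter.unusedSectionVars false

namespace Pool.Agent.Helper458

open Classical

variable {V : Type*} [Fintype V] {G : Bool → SimpleGraph V} {d N k l : ℕ}
  {c e : ℤ → V} {a b : Bool} {x y z z' : V} {P : List V}

/-- one vertex outside the cycle -/
theorem one_false (S : Cx G d N k) (hc : Cyc G c k) {x : V} (h : BP G N c k a x (!a) x [x])
    (hax : Att G c (!a) x) : False := by
  have hN := h.len
  have hle := S.le
  have hk := hc.pos
  simp only [List.length_singleton] at hN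
  -- every such vertex is closed in both colours
  have key : ∀ (a : Bool) (x : V), BP G N c k a x (!a) x [x] → Att G c (!a) x →
      ∀ g, Cl G g x (Ms c k [x]) := by
    intro a x h hax g
    obtain ⟨h1, h2, h3⟩ := S.att2 hc h hax
    cases a <;> cases g <;> assumption
  obtain ⟨g, v, z, h1, h2, h3⟩ := S.conn (seg c 0 (2 * k) ++ [x]) (by simp) (by
    simp only [List.length_append, seg_length, List.length_cons, List.length_nil]; omega)
  have hz : z ∉ Ms c k [x] := by
    rw [Ms_mem]
    rw [List.mem_append] at h2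
    exact h2
  have hclx := key a x h hax
  rw [List.mem_append] at h1
  have hv : v ∈ seg c 0 (2 * k) := by
    rcases h1 with h1 | h1
    · exact h1
    · rw [List.mem_singleton] at h1
      subst h1
      exact absurd (hclx g z h3) hz
  rw [mem_seg] at hv
  obtain ⟨t, _, ht⟩ := hv
  have hBz : BP G N c k (!g) z (!(!g)) z [z] := by
    refine ⟨CP.single (!g) z, ?_, by simpa using hN⟩
    unfold Ms
    rw [Multiset.nodup_add]
    refine ⟨by simpa using hc.nd, by simp, ?_⟩
    rw [Multiset.disjoint_left]
    intro v hv hv'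
    simp only [Multiset.mem_coe, List.mem_cons, List.not_mem_nil, or_false] at hv hv'
    subst hv'
    exact hz (Ms_mem.mpr (Or.inl hv))
  have hclz := key (!g) z hBz ⟨0 + t, by rw [Bool.not_not, ht]; exact h3.symm⟩
  have d1 := deg_cl h.nd (hclx true)
  have d2 := deg_cl hBz.nd (hclz true)
  have d1' := S.deg true x
  have d2' := S.deg true z
  have w1 := cp_lt (G := G) (g := true) (P := [x]) (v := x) (by simp)
  have w2 := cp_lt (G := G) (g := true) (P := [z]) (v := z) (by simp)
  simp only [List.length_singleton] at w1 w2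
  have hs : CP G false x true x [x] := CP.single' true x
  have hs' : CP G true z false z [z] := CP.single true z
  have hfin : ∀ L : List V, (L : Multiset V) = (([x] : List V) : Multiset V) +
      ((seg c 0 (2 * k) : List V) : Multiset V) + (([z] : List V) : Multiset V) →
      (L : Multiset V) = {z} + Ms c k [x] := by
    intro L hL
    rw [hL, Ms]
    have : (([z] : List V) : Multiset V) = {z} := rfl
    rw [this]
    abel
  by_cases hA : ∃ i, (G true).Adj x (c (2 * i)) ∧ (G true).Adj z (c (2 * i + 1))
  · obtain ⟨i, hi1, hi2⟩ := hA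
    have hp := (hs.append hi1 (hc.fullF i).rev).append hi2.symm hs'
    refine S.pm h hp (M := {z}) (hfin _ ?_) (by simp) (by simp) (by simpa using hz)
    rw [← Multiset.coe_add, ← Multiset.coe_add, Multiset.coe_reverse, hc.coe]
  by_cases hB : ∃ i, (G true).Adj x (c (2 * i + 1)) ∧ (G true).Adj z (c (2 * i))
  · obtain ⟨i, hi1, hi2⟩ := hB
    have hp := (hs.append hi1 (hc.fullF i)).append hi2.symm hs'
    refine S.pm h hp (M := {z}) (hfin _ ?_) (by simp) (by simp) (by simpa using hz)
    rw [← Multiset.coe_add, ← Multiset.coe_add, hc.coe]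
  push Not at hA hB
  have e1 := cw_disj (P := fun i => (G true).Adj x (c (2 * i)))
      (Q := fun i => (G true).Adj z (c (2 * i + 1))) (a := 0) (b := 0) (n := k)
      (fun i _ hh => hA _ hh.1 hh.2)
  have e2 := cw_disj (P := fun i => (G true).Adj x (c (2 * i + 1)))
      (Q := fun i => (G true).Adj z (c (2 * i))) (a := 0) (b := 0) (n := k)
      (fun i _ hh => hB _ hh.1 hh.2)
  omega

/-- lollipops whose cycle has `m` vertices -/
def Lol (G : Bool → SimpleGraph V) (N m : ℕ) : Prop :=
  ∃ L P e x b y, IsC G L ∧ CP G e x b y P ∧ (∃ w ∈ L, (G e).Adj x w) ∧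
    (L ++ P).Nodup ∧ L.length + P.length = N ∧ L.length = m

theorem two_core (hdeg : ∀ g v, d ≤ dg (G g) v) (hN : N ≤ 2 * d)
    (hpmax : ∀ a u b v L, CP G a u b v L → L.Nodup → L.length ≤ N)
    (hconn : ∀ L : List V, L ≠ [] → L.length ≤ N → ∃ g v z, v ∈ L ∧ z ∉ L ∧ (G g).Adj v z)
    (hex : ∃ a u b v L, CP G a u b v L ∧ L.Nodup ∧ L.length = N) : False := by
  have hcmax : ∀ L, IsC G L → L.length < N := by
    intro L hL
    by_contra hcon
    obtain ⟨c, k, hc, hk, hcL⟩ := exists_Cyc hL
    have hle : L.length ≤ N := by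
      obtain ⟨a, u, v, hp, _, hnd⟩ := hL
      exact hpmax _ _ _ _ _ hp hnd
    obtain ⟨g, v, z, h1, h2, h3⟩ := hconn L (by
      rintro rfl
      have := hc.pos
      simp at hk
      omega) hle
    have hv : v ∈ seg c 0 (2 * k) := (mem_of_coe hcL).mpr h1
    rw [mem_seg] at hv
    obtain ⟨t, _, ht⟩ := hv
    obtain ⟨b', z', L', hL', hLm'⟩ := hc.openC (0 + t) g
    rw [ht] at hL'
    have hmem : ∀ w, w ∈ L' ↔ w ∈ L := by
      intro w
      apply mem_of_coe
      rw [hLm', hcL]
    have h4 : CP G (!g) z b' z' (z :: L') := by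
      refine CP.cons _ _ v _ _ _ ?_ ?_
      · rw [Bool.not_not]; exact h3.symm
      · rw [Bool.not_not]; exact hL'
    have hlen : L'.length = L.length := by
      have := congrArg Multiset.card (hLm'.trans hcL)
      simpa using this
    have h5 := hpmax _ _ _ _ _ h4 (by
      rw [List.nodup_cons]
      refine ⟨fun h => h2 ((hmem z).mp h), ?_⟩
      have : (L' : Multiset V).Nodup := by
        rw [hLm']; simpa using hc.nd
      simpa using this)
    simp at h5
    omega
  have S0 : Cx G d N N := ⟨hdeg, hN, hpmax, hcmax, hconn, fun L P e x b y _ _ _ _ h => by omega⟩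
  have hlol : ∃ m, Lol G N m := by
    obtain ⟨a, u, b, v, L, hL, hnd, hlen⟩ := hex
    have hcl := S0.closed hL (by simpa using hnd) hlen
    obtain ⟨p, hp⟩ := hL.sq
    rw [hlen] at hp
    have hNpos := hp.pos
    have hdeg' : dg (G a) u = cw 0 N (fun t => (G a).Adj u (p t)) := by
      rw [dg, count_nodup hnd (fun w hw => by simpa using hcl w hw), hp.countP]
    have hd := hdeg a u
    obtain ⟨s, hs1, hs2, hs3⟩ : ∃ s : ℕ, s < N ∧ s % 2 = 1 ∧ (G a).Adj u (p s) := by
      by_contra hcon
      push Not at hcon
      rcases Nat.even_or_odd' N with ⟨m, hm | hm⟩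
      · rw [hm, cw_par] at hdeg'
        have b1 : cw 0 m (fun t => (G a).Adj u (p (2 * t))) + 1 ≤ m := by
          apply cw_miss 0 (by omega)
          simp [hp.fst]
        have b2 : cw 0 m (fun t => (G a).Adj u (p (2 * t + 1))) = 0 := by
          apply cw_eq_zero
          intro t ht hadj
          rw [zero_add] at hadj
          exact hcon (2 * t + 1) (by omega) (by omega) (by push_cast; exact hadj)
        omega
      · rw [hm, cw_par'] at hdeg'
        have b1 : cw 0 (m + 1) (fun t => (G a).Adj u (p (2 * t))) + 1 ≤ m + 1 := by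
          apply cw_miss 0 (by omega)
          simp [hp.fst]
        have b2 : cw 0 m (fun t => (G a).Adj u (p (2 * t + 1))) = 0 := by
          apply cw_eq_zero
          intro t ht hadj
          rw [zero_add] at hadj
          exact hcon (2 * t + 1) (by omega) (by omega) (by push_cast; exact hadj)
        omega
    have h1 := hp.pre hs1
    rw [fcol_even _ (by omega : (s + 1) % 2 = 0)] at h1
    have hnd' : (seg p 0 (s + 1) ++ seg p ((s + 1 : ℕ) : ℤ) (N - (s + 1))).Nodup := by
      have h2 := hp.split (s := s + 1) (by omega)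
      rw [Multiset.coe_add] at h2
      have : ((seg p 0 (s + 1) ++ seg p ((s + 1 : ℕ) : ℤ) (N - (s + 1)) : List V) :
        Multiset V).Nodup := by rw [h2]; simpa using hnd
      simpa using this
    have hC : IsC G (seg p 0 (s + 1)) := ⟨_, _, _, h1, hs3.symm, (List.nodup_append.mp hnd').1⟩
    have h2 := hcmax _ hC
    rw [seg_length] at h2
    have h3 := hp.suf h2
    rw [fcol_even _ (by omega : (s + 1) % 2 = 0)] at h3
    have h4 := hp.adj s h2
    rw [fcol_even _ (by omega : (s + 1) % 2 = 0)] at h4
    refine ⟨_, _, _, _, _, _, _, hC, h3, ⟨p s, ?_, ?_⟩, hnd', ?_, rfl⟩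
    · rw [mem_seg]; exact ⟨s, by omega, by simp⟩
    · push_cast; exact h4.symm
    · simp only [seg_length]; omega
  obtain ⟨m, hm, hmax⟩ := exists_greatest hlol (b := N) (by
    rintro m ⟨L, P, e, x, b, y, _, _, _, _, h5, h6⟩
    omega)
  obtain ⟨L, P, e, x, b, y, hL, hP, ⟨w, hw, hxw⟩, hnd, hlen, hLm⟩ := hm
  obtain ⟨c, k, hc, hk, hcL⟩ := exists_Cyc hL
  have S : Cx G d N k := by
    refine ⟨hdeg, hN, hpmax, hcmax, hconn, ?_⟩
    intro L' P' e' x' b' y' g1 g2 g3 g4 g5
    have := hmax L'.length ⟨L', P', e', x', b', y', g1, g2, g3, g4, g5, rfl⟩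
    omega
  have hB : BP G N c k e x b y P := by
    refine ⟨hP, ?_, by omega⟩
    unfold Ms
    rw [hcL, Multiset.coe_add]
    simpa using hnd
  have hax : Att G c e x := by
    have : w ∈ seg c 0 (2 * k) := (mem_of_coe hcL).mpr hw
    rw [mem_seg] at this
    obtain ⟨t, _, ht⟩ := this
    exact ⟨_, by rw [ht]; exact hxw⟩
  have hay := (S.att hc hB.rev hax).2
  have hpar := hP.par
  rcases Nat.even_or_odd' P.length with ⟨l, hl | hl⟩
  · rw [fcol_even _ (by omega)] at hpar
    subst hpar
    exact even_false S (even_DB S hc hB hl hay)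
  · rw [fcol_odd _ (by omega)] at hpar
    subst hpar
    rcases Nat.eq_zero_or_pos l with rfl | hl1
    · have hlen1 : P.length = 1 := by omega
      obtain ⟨v, rfl⟩ := List.length_eq_one_iff.mp hlen1
      have e1 : x = v := by have := hP.fst_mem; simpa using this
      have e2 : y = v := by have := hP.snd_mem; simpa using this
      subst e1
      subst e2
      exact one_false S hc hB hay
    · cases e
      · exact odd_false S hc hB.rev (by simpa using hl) hl1 hax
      · exact odd_false S hc hB hl hl1 hay

end Pool.Agent.Helper458
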