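import Pool.Agent.Helper458.PC11

set_option autoImplicit false
set_option linter.unusedSectionVars false

namespace Pool.Agent.Helper458

open Classical

variable {V : Type*} [Fintype V] {G : Bool → SimpleGraph V} {d N k l : ℕ}
  {c e : ℤ → V} {a b : Bool} {x y z z' : V} {P : List V}

/-- leaving a proper nonempty subset of a connected graph -/
theorem leave {H : SimpleGraph V} (hH : H.Preconnected) (S : Set V) {u v : V} (hu : u ∈ S)
    (hv : v ∉ S) : ∃ s t, s ∈ S ∧ t ∉ S ∧ H.Adj s t := by
  obtain ⟨w⟩ := hH u v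
  obtain ⟨dd, _, h1, h2⟩ := w.exists_boundary_dart S hu hv
  exact ⟨_, _, h1, h2, dd.adj⟩

/-- two colours, connected -/
theorem two_main [Nonempty V] (hdeg : ∀ g v, d ≤ dg (G g) v)
    (hH : (G true ⊔ G false).Preconnected) :
    ∃ a u b v L, CP G a u b v L ∧ L.Nodup ∧ min (Fintype.card V) (2 * d + 1) ≤ L.length := by
  have hT : ∃ m, ∃ a u b v L, CP G a u b v L ∧ L.Nodup ∧ L.length = m := by
    obtain ⟨u⟩ := ‹Nonempty V›
    exact ⟨1, true, u, _, u, [u], CP.single true u, by simp, rfl⟩
  obtain ⟨N, hN, hmax⟩ := exists_greatest hT (b := Fintype.card V) (by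
    rintro m ⟨a, u, b, v, L, _, h2, h3⟩
    rw [← h3]
    exact h2.length_le_card)
  obtain ⟨a, u, b, v, L, h1, h2, h3⟩ := hN
  refine ⟨a, u, b, v, L, h1, h2, ?_⟩
  by_contra hcon
  push Not at hcon
  rw [lt_min_iff] at hcon
  apply two_core (N := N) hdeg (by omega)
  · intro a' u' b' v' L' g1 g2
    exact hmax _ ⟨a', u', b', v', L', g1, g2, rfl⟩
  · intro L' g1 g2
    obtain ⟨u', hu'⟩ := List.exists_mem_of_ne_nil _ g1
    obtain ⟨v', hv'⟩ : ∃ v', v' ∉ L' := by
      by_contra hc
      push Not at hc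
      have h5 : (Finset.univ : Finset V) ⊆ L'.toFinset := by
        intro w _
        rw [List.mem_toFinset]; exact hc w
      have h6 := Finset.card_le_card h5
      have h7 := List.toFinset_card_le L'
      rw [Finset.card_univ] at h6
      omega
    obtain ⟨s, t, hs, ht, hst⟩ := leave hH {w | w ∈ L'} hu' hv'
    rw [SimpleGraph.sup_adj] at hst
    rcases hst with h | h
    · exact ⟨true, s, t, hs, ht, h⟩
    · exact ⟨false, s, t, hs, ht, h⟩
  · exact ⟨a, u, b, v, L, h1, h2, h3⟩

/-- greedy paths -/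
theorem greedy (hdeg : ∀ g v, d ≤ dg (G g) v) (s : V) (m : ℕ) (hm : m ≤ d) :
    ∃ e x b L, CP G e x b s L ∧ L.Nodup ∧ L.length = m + 1 ∧
      ∀ w ∈ L, (G true ⊔ G false).Reachable s w := by
  induction m with
  | zero =>
    refine ⟨true, s, false, [s], CP.single true s, by simp, rfl, ?_⟩
    intro w hw
    rw [List.mem_singleton] at hw
    subst hw
    exact SimpleGraph.Reachable.refl _
  | succ m ih =>
    obtain ⟨e, x, b, L, h1, h2, h3, h4⟩ := ih (by omega)
    obtain ⟨z, hz1, hz2⟩ : ∃ z, (G e).Adj x z ∧ z ∉ L := by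
      by_contra hcon
      push Not at hcon
      have h5 : dg (G e) x ≤ List.countP ((G e).Adj x) L := by
        rw [dg, count_nodup h2 hcon]
      have h6 := cp_lt (G := G) (g := e) h1.fst_mem
      have h7 := hdeg e x
      omega
    refine ⟨!e, z, b, z :: L, ?_, ?_, ?_, ?_⟩
    · refine CP.cons _ _ x _ _ _ ?_ ?_
      · rw [Bool.not_not]; exact hz1.symm
      · rw [Bool.not_not]; exact h1
    · rw [List.nodup_cons]; exact ⟨hz2, h2⟩
    · simp [h3]
    · intro w hw
      rw [List.mem_cons] at hw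
      rcases hw with rfl | hw
      · refine (h4 x h1.fst_mem).trans (SimpleGraph.Adj.reachable ?_)
        rw [SimpleGraph.sup_adj]
        cases e
        · exact Or.inr hz1
        · exact Or.inl hz1
      · exact h4 w hw

/-- properly coloured paths with `m` edges in a `c`-coloured multigraph -/
def HasPC {c : ℕ} (G : Fin c → SimpleGraph V) (m : ℕ) : Prop :=
  ∃ (p : Fin (m + 1) → V) (col : Fin m → Fin c), Function.Injective p ∧
    (∀ i : Fin m, (G (col i)).Adj (p i.castSucc) (p i.succ)) ∧
    ∀ i j : Fin m, (i : ℕ) + 1 = j → col i ≠ col j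

theorem fcol_ne (a : Bool) (s : ℕ) : fcol a s ≠ fcol a (s + 1) := by
  rw [fcol_succ, fcol_not]
  cases fcol a s <;> simp

theorem hasPC_of_CP {c : ℕ} {G : Fin c → SimpleGraph V} {φ : Bool → Fin c}
    (hφ : φ true ≠ φ false) {a b : Bool} {u v : V} {L : List V} {m : ℕ}
    (h : CP (fun b => G (φ b)) a u b v L) (hnd : L.Nodup) (hlen : L.length = m + 1) :
    HasPC G m := by
  obtain ⟨p, hp⟩ := h.sq
  rw [hlen] at hp
  refine ⟨fun i => p i, fun i => φ (fcol a (i + 1)), ?_, ?_, ?_⟩
  · intro i j hij
    exact Fin.ext (hp.inj hnd i.2 j.2 hij)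
  · intro i
    have := hp.adj i (by omega)
    simpa using this
  · intro i j hij
    have h1 := fcol_ne a (i + 1)
    intro h2
    have h2 : φ (fcol a (i + 1)) = φ (fcol a (j + 1)) := h2
    have hinj : Function.Injective φ := by
      intro x y hxy
      cases x <;> cases y <;> first | rfl | (exfalso; exact hφ hxy) | (exfalso; exact hφ hxy.symm)
    rw [← hij] at h2
    exact h1 (hinj h2)

/-- joining two paths by an edge of a third colour -/
theorem hasPC_join {c : ℕ} {G : Fin c → SimpleGraph V} {φ : Bool → Fin c}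
    (hφ : φ true ≠ φ false) {e1 b1 e2 b2 : Bool} {x1 s x2 t : V} {L1 L2 : List V} {m : ℕ}
    (h1 : CP (fun b => G (φ b)) e1 x1 b1 s L1) (h2 : CP (fun b => G (φ b)) b2 t e2 x2 L2)
    (hnd1 : L1.Nodup) (hnd2 : L2.Nodup) (hlen1 : L1.length = m + 1) (hlen2 : L2.length = m + 1)
    (hdisj : ∀ w ∈ L1, w ∉ L2) {j : Fin c} (hst : (G j).Adj s t) (hj : ∀ b, φ b ≠ j) :
    HasPC G (2 * m + 1) := by
  have hinj : Function.Injective φ := by
    intro x y hxy
    cases x <;> cases y <;> first | rfl | (exfalso; exact hφ hxy) | (exfalso; exact hφ hxy.symm)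
  obtain ⟨p, hp⟩ := h1.sq
  obtain ⟨q, hq⟩ := h2.sq
  rw [hlen1] at hp
  rw [hlen2] at hq
  let r : ℕ → V := fun i => if i < m + 1 then p i else q ((i - (m + 1) : ℕ) : ℤ)
  let col : ℕ → Fin c := fun i => if i < m then φ (fcol e1 (i + 1)) else
    if i = m then j else φ (fcol b2 (i - m))
  have hr1 : ∀ i : ℕ, i < m + 1 → r i = p i := fun i hi => by simp only [r, if_pos hi]
  have hr2 : ∀ i : ℕ, ¬ i < m + 1 → r i = q ((i - (m + 1) : ℕ) : ℤ) := fun i hi => by
    simp only [r, if_neg hi]
  refine ⟨fun i => r i, fun i => col i, ?_, ?_, ?_⟩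
  · intro i i' hii
    apply Fin.ext
    have hii : r i = r i' := hii
    by_cases hi : (i : ℕ) < m + 1 <;> by_cases hi' : (i' : ℕ) < m + 1
    · rw [hr1 i hi, hr1 i' hi'] at hii
      exact hp.inj hnd1 hi hi' hii
    · rw [hr1 i hi, hr2 i' hi'] at hii
      exfalso
      apply hdisj _ (hp.mem hi)
      rw [hii]
      exact hq.mem (by omega)
    · rw [hr2 i hi, hr1 i' hi'] at hii
      exfalso
      apply hdisj _ (hp.mem hi')
      rw [← hii]
      exact hq.mem (by omega)
    · rw [hr2 i hi, hr2 i' hi'] at hii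
      have := hq.inj hnd2 (s := i - (m + 1)) (t := i' - (m + 1)) (by omega) (by omega) hii
      omega
  · intro i
    show (G (col i)).Adj (r i.castSucc) (r i.succ)
    rw [Fin.val_castSucc, Fin.val_succ]
    rcases lt_trichotomy (i : ℕ) m with hi | hi | hi
    · rw [hr1 _ (by omega), hr1 _ (by omega)]
      have hcol : col i = φ (fcol e1 (i + 1)) := by simp [col, hi]
      rw [hcol]
      have := hp.adj i (by omega)
      push_cast
      exact this
    · rw [hr1 _ (by omega), hr2 _ (by omega)]
      have hcol : col i = j := by simp [col, hi]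
      rw [hcol]
      have e1 : p (i : ℕ) = s := by
        rw [← hp.lst]; congr 1; push_cast; omega
      have e2 : q ((i + 1 - (m + 1) : ℕ) : ℤ) = t := by
        rw [← hq.fst]; congr 1; omega
      rw [e1, e2]
      exact hst
    · rw [hr2 _ (by omega), hr2 _ (by omega)]
      have hcol : col i = φ (fcol b2 (i - m)) := by
        simp only [col]
        rw [if_neg (by omega), if_neg (by omega)]
      rw [hcol]
      have := hq.adj (i - (m + 1)) (by omega)
      rw [show (i : ℕ) - (m + 1) + 1 = i - m by omega] at this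
      have e : (((i : ℕ) + 1 - (m + 1) : ℕ) : ℤ) = (((i : ℕ) - (m + 1) : ℕ) : ℤ) + 1 := by omega
      rw [e]
      exact this
  · intro i i' hii
    show col i ≠ col i'
    rw [← hii]
    have hi' : (i : ℕ) + 1 < 2 * m + 1 := by omega
    rcases lt_trichotomy (i : ℕ) m with hi | hi | hi
    · have hc1 : col i = φ (fcol e1 (i + 1)) := by simp [col, hi]
      rw [hc1]
      by_cases h3 : (i : ℕ) + 1 < m
      · have hc2 : col (i + 1) = φ (fcol e1 (i + 1 + 1)) := by simp [col, h3]
        rw [hc2]
        exact fun h => fcol_ne e1 (i + 1) (hinj h)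
      · have hc2 : col (i + 1) = j := by
          simp only [col]
          rw [if_neg h3, if_pos (by omega)]
        rw [hc2]
        exact hj _
    · have hc1 : col i = j := by simp [col, hi]
      have hc2 : col (i + 1) = φ (fcol b2 (i + 1 - m)) := by
        simp only [col]
        rw [if_neg (by omega), if_neg (by omega)]
      rw [hc1, hc2]
      exact (hj _).symm
    · have hc1 : col i = φ (fcol b2 (i - m)) := by
        simp only [col]
        rw [if_neg (by omega), if_neg (by omega)]
      have hc2 : col (i + 1) = φ (fcol b2 (i + 1 - m)) := by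
        simp only [col]
        rw [if_neg (by omega), if_neg (by omega)]
      rw [hc1, hc2, show (i : ℕ) + 1 - m = i - m + 1 by omega]
      exact fun h => fcol_ne b2 (i - m) (hinj h)

/-- the main theorem, connected multigraphs -/
theorem main_conn {c : ℕ} (hc : 2 ≤ c) (G : Fin c → SimpleGraph V) (hG : (⨆ i, G i).Connected)
    (hdeg : ∀ v i, d ≤ dg (G i) v) :
    ∃ L, min (Fintype.card V - 1) (2 * d) ≤ L ∧ HasPC G L := by
  have hne := hG.nonempty
  let φ : Bool → Fin c := fun b => if b then ⟨0, by omega⟩ else ⟨1, by omega⟩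
  have hφ : φ true ≠ φ false := by
    simp [φ]
  have hdeg' : ∀ g v, d ≤ dg ((fun b => G (φ b)) g) v := fun g v => hdeg v (φ g)
  by_cases hH : ((fun b => G (φ b)) true ⊔ (fun b => G (φ b)) false).Preconnected
  · obtain ⟨a, u, b, v, L, h1, h2, h3⟩ := two_main (G := fun b => G (φ b)) hdeg' hH
    have hpos := h1.length_pos
    refine ⟨L.length - 1, by omega, hasPC_of_CP hφ h1 h2 (by omega)⟩
  · have hex : ∃ u v, ¬ ((fun b => G (φ b)) true ⊔ (fun b => G (φ b)) false).Reachable u v := by
      by_contra hcon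
      push Not at hcon
      exact hH fun u v => hcon u v
    obtain ⟨u, v, huv⟩ := hex
    obtain ⟨s, t, hs, ht, hst⟩ := leave hG.preconnected
      {w | ((fun b => G (φ b)) true ⊔ (fun b => G (φ b)) false).Reachable u w}
      (SimpleGraph.Reachable.refl u) huv
    simp only [Set.mem_ofPred_eq] at hs ht
    rw [SimpleGraph.iSup_adj] at hst
    obtain ⟨j, hj⟩ := hst
    have hjne : ∀ b, φ b ≠ j := by
      intro b hb
      apply ht
      refine hs.trans (SimpleGraph.Adj.reachable ?_)
      rw [SimpleGraph.sup_adj]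
      cases b
      · right; show (G (φ false)).Adj s t; rw [hb]; exact hj
      · left; show (G (φ true)).Adj s t; rw [hb]; exact hj
    obtain ⟨e1, x1, b1, L1, p1, p2, p3, p4⟩ := greedy (G := fun b => G (φ b)) hdeg' s d le_rfl
    obtain ⟨e2, x2, b2, L2, q1, q2, q3, q4⟩ := greedy (G := fun b => G (φ b)) hdeg' t d le_rfl
    refine ⟨2 * d + 1, by omega, hasPC_join hφ p1 q1.rev p2 (List.nodup_reverse.mpr q2) p3
      (by simpa using q3) ?_ hj hjne⟩
    intro w hw1 hw2
    rw [List.mem_reverse] at hw2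
    exact ht ((hs.trans (p4 w hw1)).trans (q4 w hw2).symm)

end Pool.Agent.Helper458
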