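import Pool.Agent.Helper458.PC1

set_option autoImplicit false

namespace Pool.Agent.Helper458

open Classical

variable {V : Type*}

section excyc

variable {G : Bool → SimpleGraph V}

theorem exists_Cyc_aux {L : List V} {u v : V} (hp : CP G false u false v L)
    (hvu : (G false).Adj v u) (hnd : L.Nodup) : ∃ (c : ℤ → V) (k : ℕ), Cyc G c k ∧
      2 * k = L.length ∧ seg c 0 (2 * k) = L := by
  obtain ⟨p, hp1, hp2, hp3, hp4⟩ := hp.seq
  have hpar := hp.par
  have hlen := hp.length_pos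
  obtain ⟨k, hk⟩ : ∃ k, 2 * k = L.length := by
    rcases Nat.even_or_odd' L.length with ⟨m, hm | hm⟩
    · exact ⟨m, hm.symm⟩
    · rw [fcol_odd false (by omega)] at hpar
      simp at hpar
  rw [← hk] at hp1 hp3 hp4 hlen
  have hk0 : 0 < k := by omega
  have hkz : (0 : ℤ) < 2 * k := by exact_mod_cast hlen
  have hseg : seg (fun t : ℤ => p (t % (2 * k))) 0 (2 * k) = L := by
    rw [← hp1]
    simp only [seg]
    apply List.map_congr_left
    intro i hi
    rw [List.mem_range] at hi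
    congr 1
    rw [zero_add, Int.emod_eq_of_lt (by omega) (by omega)]
  have hadj : ∀ t : ℤ, 0 ≤ t → t + 1 < 2 * k →
      (G (fcol false (t + 1).toNat)).Adj (p t) (p (t + 1)) := by
    intro t h0 h1
    obtain ⟨n, rfl⟩ := Int.eq_ofNat_of_zero_le h0
    have := hp4 n (by omega)
    have e : ((n : ℤ) + 1).toNat = n + 1 := by omega
    rw [e]; exact this
  refine ⟨fun t => p (t % (2 * k)), k, ⟨hk0, ?_, ?_, ?_, ?_⟩, hk, hseg⟩
  · intro t
    simp only [Int.add_emod_right]
  · intro i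
    have e1 : (2 * i) % (2 * k) = 2 * (i % k) := Int.mul_emod_mul_of_pos _ _ (by norm_num)
    have h1 := Int.emod_nonneg i (show (k : ℤ) ≠ 0 by omega)
    have h2 := Int.emod_lt_of_pos i (show (0 : ℤ) < k by omega)
    have e2 : (2 * i + 1) % (2 * k) = 2 * (i % k) + 1 := by
      have h3 := Int.mul_ediv_add_emod i k
      have h4 : 2 * i + 1 = (2 * (i % k) + 1) + (2 * k) * (i / k) := by linarith
      rw [h4, Int.add_mul_emod_self_left, Int.emod_eq_of_lt (by omega) (by omega)]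
    simp only [e1, e2]
    have := hadj (2 * (i % k)) (by omega) (by omega)
    rw [fcol_odd false (by omega)] at this
    exact this
  · intro i
    have h1 := Int.emod_nonneg i (show (k : ℤ) ≠ 0 by omega)
    have h2 := Int.emod_lt_of_pos i (show (0 : ℤ) < k by omega)
    have h3 := Int.mul_ediv_add_emod i k
    have e1 : (2 * i + 1) % (2 * k) = 2 * (i % k) + 1 := by
      have h4 : 2 * i + 1 = (2 * (i % k) + 1) + (2 * k) * (i / k) := by linarith
      rw [h4, Int.add_mul_emod_self_left, Int.emod_eq_of_lt (by omega) (by omega)]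
    have h5 : 2 * i + 2 = (2 * (i % k) + 2) + (2 * k) * (i / k) := by linarith
    by_cases hcase : i % k = k - 1
    · have e2 : (2 * i + 2) % (2 * k) = 0 := by
        rw [h5, Int.add_mul_emod_self_left, hcase,
          show 2 * ((k : ℤ) - 1) + 2 = 2 * k by ring, Int.emod_self]
      simp only [e1, e2]
      rw [hp2, hcase]
      have : p (2 * ((k : ℤ) - 1) + 1) = v := by
        rw [← hp3]; congr 1; push_cast; ring
      rw [this]; exact hvu
    · have e2 : (2 * i + 2) % (2 * k) = 2 * (i % k) + 2 := by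
        rw [h5, Int.add_mul_emod_self_left, Int.emod_eq_of_lt (by omega) (by omega)]
      simp only [e1, e2]
      have := hadj (2 * (i % k) + 1) (by omega) (by omega)
      rw [fcol_even false (by omega)] at this
      rw [show 2 * (i % k) + 2 = 2 * (i % k) + 1 + 1 by ring]
      exact this
  · rw [hseg]; exact hnd

theorem exists_Cyc {L : List V} (h : IsC G L) : ∃ (c : ℤ → V) (k : ℕ), Cyc G c k ∧
    2 * k = L.length ∧ ((seg c 0 (2 * k) : List V) : Multiset V) = (L : Multiset V) := by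
  obtain ⟨a, u, v, hp, hvu, hnd⟩ := h
  cases a
  · obtain ⟨c, k, h1, h2, h3⟩ := exists_Cyc_aux hp hvu hnd
    exact ⟨c, k, h1, h2, by rw [h3]⟩
  · cases hp with
    | cons a u w b v L' hh h' =>
      have hq := h'.append hvu (CP.single (G := G) true u)
      have hperm : (L' ++ [u]).Perm (u :: L') := List.perm_append_singleton _ _
      obtain ⟨c, k, h1, h2, h3⟩ := exists_Cyc_aux hq hh (hperm.nodup_iff.mpr hnd)
      refine ⟨c, k, h1, ?_, ?_⟩
      · rw [h2]; simp
      · rw [h3]; exact Multiset.coe_eq_coe.mpr hperm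

theorem IsC.even {L : List V} (h : IsC G L) : L.length % 2 = 0 := by
  obtain ⟨c, k, _, h2, _⟩ := exists_Cyc h
  omega

end excyc

section counting

theorem cw_par (m : ℕ) (T : ℤ → Prop) :
    cw 0 (2 * m) T = cw 0 m (fun t => T (2 * t)) + cw 0 m (fun t => T (2 * t + 1)) := by
  induction m with
  | zero => simp [cw]
  | succ m ih =>
    rw [show 2 * (m + 1) = 2 * m + 1 + 1 by ring]
    simp only [cw_sum, Finset.sum_range_succ] at ih ⊢
    rw [ih]
    have e1 : (0 : ℤ) + ((2 * m : ℕ) : ℤ) = 2 * (0 + (m : ℤ)) := by push_cast; ring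
    have e2 : (0 : ℤ) + ((2 * m + 1 : ℕ) : ℤ) = 2 * (0 + (m : ℤ)) + 1 := by push_cast; ring
    rw [e1, e2]
    ring

theorem cw_par' (m : ℕ) (T : ℤ → Prop) :
    cw 0 (2 * m + 1) T = cw 0 (m + 1) (fun t => T (2 * t)) + cw 0 m (fun t => T (2 * t + 1)) := by
  have h := cw_par m T
  have h1 : cw 0 (2 * m + 1) T = cw 0 (2 * m) T + (if T (0 + ((2 * m : ℕ) : ℤ)) then 1 else 0) := by
    simp only [cw_sum, Finset.sum_range_succ]
  have h2 : cw 0 (m + 1) (fun t => T (2 * t)) = cw 0 m (fun t => T (2 * t)) +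
      (if T (2 * (0 + (m : ℤ))) then 1 else 0) := by
    simp only [cw_sum, Finset.sum_range_succ]
  rw [h1, h2, h]
  have e1 : (0 : ℤ) + ((2 * m : ℕ) : ℤ) = 2 * (0 + (m : ℤ)) := by push_cast; ring
  rw [e1]
  ring

theorem cw_le (a : ℤ) (n : ℕ) (T : ℤ → Prop) : cw a n T ≤ n := cnt_le (c := fun t : ℤ => t) a n

theorem cw_le_interval {T : ℤ → Prop} {b : ℤ} {n lo hi : ℕ}
    (h : ∀ t : ℕ, t < n → T (b + t) → lo ≤ t ∧ t < hi) : cw b n T ≤ hi - lo :=
  cnt_le_interval (c := fun t : ℤ => t) h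

theorem cw_disj {P Q : ℤ → Prop} {a b : ℤ} {n : ℕ}
    (h : ∀ i : ℕ, i < n → ¬ (P (a + i) ∧ Q (b + i))) : cw a n P + cw b n Q ≤ n :=
  cnt_disj (c := fun t : ℤ => t) (c' := fun t : ℤ => t) h

theorem cw_miss {T : ℤ → Prop} {a : ℤ} {n : ℕ} (i : ℕ) (hi : i < n) (h : ¬ T (a + i)) :
    cw a n T + 1 ≤ n := cnt_lt (c := fun t : ℤ => t) i hi h

theorem cyc_walk {k : ℕ} (hk : 0 < k) {T : ℤ → Prop} (hT : ∀ t, T (t + k) ↔ T t)
    (hstep : ∀ t, T t → T (t + 1)) (h : ∃ t, T t) (t : ℤ) : T t := by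
  obtain ⟨t0, h0⟩ := h
  have hup : ∀ n : ℕ, T (t0 + n) := by
    intro n
    induction n with
    | zero => simpa using h0
    | succ n ih =>
      have := hstep _ ih
      rw [show t0 + ((n + 1 : ℕ) : ℤ) = t0 + n + 1 by push_cast; ring]
      exact this
  have hper : ∀ (n : ℕ) (t : ℤ), T (t + n * k) ↔ T t := by
    intro n
    induction n with
    | zero => intro t; simp
    | succ n ih =>
      intro t
      rw [show t + ((n + 1 : ℕ) : ℤ) * k = (t + n * k) + k by push_cast; ring, hT, ih]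
  rw [← hper (t0 - t).toNat t]
  have hk' : (1 : ℤ) ≤ k := by exact_mod_cast hk
  have h1 : t0 ≤ t + ((t0 - t).toNat : ℤ) * k := by
    have h2 : t0 - t ≤ ((t0 - t).toNat : ℤ) := Int.self_le_toNat _
    have h3 : (0 : ℤ) ≤ ((t0 - t).toNat : ℤ) := by positivity
    nlinarith
  have := hup (t + ((t0 - t).toNat : ℤ) * k - t0).toNat
  rw [Int.toNat_of_nonneg (by linarith)] at this
  rwa [show t0 + (t + ((t0 - t).toNat : ℤ) * k - t0) = t + ((t0 - t).toNat : ℤ) * k by ring] at this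

theorem cyc_step {k : ℕ} (hk : 0 < k) {T : ℤ → Prop} (hT : ∀ t, T (t + k) ↔ T t)
    (h : ∃ t, T t) (h' : ∃ t, ¬ T t) : ∃ t, T t ∧ ¬ T (t + 1) := by
  by_contra hcon
  push Not at hcon
  obtain ⟨t, ht⟩ := h'
  exact ht (cyc_walk hk hT hcon h t)

theorem cw_step {k : ℕ} (hk : 0 < k) {T : ℤ → Prop} (hT : ∀ t, T (t + k) ↔ T t)
    (h : ∃ t, T t) (h' : ∃ t, ¬ T t) : cw 0 k (fun t => T t ∧ T (t + 1)) + 1 ≤ cw 0 k T := by
  obtain ⟨t, ht, ht'⟩ := cyc_step hk hT h h'
  rw [← cw_base hT t, ← cw_base (P := fun t => T t ∧ T (t + 1)) _ t]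
  · apply cw_lt_of (fun i _ h => h.1) 0 hk
    · simp [ht']
    · simpa using ht
  · intro t
    rw [hT, show t + (k : ℤ) + 1 = t + 1 + k by ring, hT]

/-- the gap set -/
def gap (Q : ℤ → Prop) (l : ℕ) (i : ℤ) : Prop := ∀ s : ℕ, 1 ≤ s → s ≤ l → ¬ Q (i + s)

theorem gap_per {k : ℕ} {Q : ℤ → Prop} (hQ : ∀ t, Q (t + k) ↔ Q t) (l : ℕ) (t : ℤ) :
    gap Q l (t + k) ↔ gap Q l t := by
  unfold gap
  constructor
  · intro h s h1 h2 h3
    exact h s h1 h2 (by rw [show t + (k : ℤ) + s = t + s + k by ring, hQ]; exact h3)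
  · intro h s h1 h2 h3
    rw [show t + (k : ℤ) + s = t + s + k by ring, hQ] at h3
    exact h s h1 h2 h3

theorem gap_succ (Q : ℤ → Prop) (l : ℕ) (hl : 1 ≤ l) (i : ℤ) :
    gap Q (l + 1) i ↔ gap Q l i ∧ gap Q l (i + 1) := by
  unfold gap
  constructor
  · intro h
    refine ⟨fun s h1 h2 => h s h1 (by omega), fun s h1 h2 => ?_⟩
    have := h (s + 1) (by omega) (by omega)
    rwa [show i + ((s + 1 : ℕ) : ℤ) = i + 1 + s by push_cast; ring] at this
  · rintro ⟨h, h'⟩ s h1 h2
    by_cases hs : s ≤ l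
    · exact h s h1 hs
    · have := h' (s - 1) (by omega) (by omega)
      rwa [show i + 1 + ((s - 1 : ℕ) : ℤ) = i + s by omega] at this

theorem gap_count {k : ℕ} (hk : 0 < k) {Q : ℤ → Prop} (hQ : ∀ t, Q (t + k) ↔ Q t) (hQ1 : ∃ j, Q j)
    (l : ℕ) (hl : 1 ≤ l) (hg : ∃ i, gap Q l i) : cw 0 k (gap Q l) + cw 0 k Q + l ≤ k + 1 := by
  induction l, hl using Nat.le_induction with
  | base =>
    have h1 := cw_compl (P := Q) 0 k
    have h2 : cw 0 k (gap Q 1) = cw 0 k (fun t => ¬ Q t) := by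
      rw [← cw_shift (P := fun t => ¬ Q t) (fun t => by rw [hQ]) 1]
      apply cw_congr
      intro t
      unfold gap
      constructor
      · intro h; simpa using h 1 le_rfl le_rfl
      · intro h s h1 h2
        have : s = 1 := by omega
        subst this
        simpa using h
    omega
  | succ l hl ih =>
    obtain ⟨i, hi⟩ := hg
    have hg' := (gap_succ Q l hl i).mp hi
    have h1 := ih ⟨i, hg'.1⟩
    have h2 := cw_step hk (gap_per hQ l) ⟨i, hg'.1⟩ (by
      obtain ⟨j, hj⟩ := hQ1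
      refine ⟨j - 1, fun h => ?_⟩
      have := h 1 le_rfl hl
      rw [show j - 1 + ((1 : ℕ) : ℤ) = j by simp] at this
      exact this hj)
    have h3 : cw 0 k (gap Q (l + 1)) = cw 0 k (fun t => gap Q l t ∧ gap Q l (t + 1)) := by
      apply cw_congr
      intro t
      exact gap_succ Q l hl t
    omega

/-- the basic counting lemma -/
theorem hr_count {k l : ℕ} (hk : 0 < k) (hl : 1 ≤ l) {P Q : ℤ → Prop}
    (hP : ∀ t, P (t + k) ↔ P t) (hQ : ∀ t, Q (t + k) ↔ Q t)
    (hr : ∀ (j : ℤ) (r : ℕ), r < k → Q j → P (j + r) → l + 1 + r ≤ k)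
    (hP1 : ∃ i, P i) (hQ1 : ∃ j, Q j) :
    l + 1 ≤ k ∧ cw 0 k P + cw 0 k Q + l ≤ k + 1 ∧ (∀ i, P i → gap Q l i) ∧
      (cw 0 k P + cw 0 k Q + l = k + 1 → ∀ i, gap Q l i → P i) := by
  have hlk : l + 1 ≤ k := by
    obtain ⟨i, hi⟩ := hP1
    obtain ⟨j, hj⟩ := hQ1
    have hkz : (0 : ℤ) < k := by exact_mod_cast hk
    have h1 := Int.emod_nonneg (i - j) hkz.ne'
    have h2 := Int.emod_lt_of_pos (i - j) hkz
    have h3 : P (j + ((i - j) % k).toNat) := by
      rw [Int.toNat_of_nonneg h1]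
      have h4 := Int.emod_add_mul_ediv (i - j) k
      have hper : ∀ (n : ℤ) (t : ℤ), P (t + n * k) ↔ P t := by
        intro n
        induction n using Int.induction_on with
        | zero => intro t; simp
        | succ n ih =>
          intro t
          rw [show t + ((n : ℤ) + 1) * k = (t + n * k) + k by ring, hP, ih]
        | pred n ih =>
          intro t
          rw [← ih t, ← hP (t + (-(n : ℤ) - 1) * k)]
          rw [show t + (-(n : ℤ) - 1) * k + k = t + -(n : ℤ) * k by ring]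
      have h5 : j + (i - j) % k = i + (-((i - j) / k)) * k := by linarith
      rw [h5, hper]
      exact hi
    have := hr j _ (by omega) hj h3
    omega
  have hsub : ∀ i, P i → gap Q l i := by
    intro i hi s h1 h2 h3
    have h4 : P (i + s + ((k - s : ℕ) : ℤ)) := by
      rw [show i + (s : ℤ) + ((k - s : ℕ) : ℤ) = i + k by omega, hP]; exact hi
    have := hr (i + s) (k - s) (by omega) h3 h4
    omega
  have hg : ∃ i, gap Q l i := by
    obtain ⟨i, hi⟩ := hP1
    exact ⟨i, hsub i hi⟩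
  have h1 := gap_count hk hQ hQ1 l hl hg
  have h2 : cw 0 k P ≤ cw 0 k (gap Q l) := cw_mono hsub
  refine ⟨hlk, by omega, hsub, ?_⟩
  intro heq i hi
  have hgp := gap_per hQ l
  by_contra hcon
  have h3 : cw i k P + 1 ≤ cw i k (gap Q l) := by
    apply cw_lt_of (fun j _ => hsub _) 0 hk
    · simpa using hcon
    · simpa using hi
  rw [cw_base hP, cw_base hgp] at h3
  omega

end counting

end Pool.Agent.Helper458
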