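import Pool.Agent.Helper458.PC2

set_option autoImplicit false
set_option linter.unusedSectionVars false

namespace Pool.Agent.Helper458

open Classical

variable {V : Type*}

theorem cw_neg' {k : ℕ} {P : ℤ → Prop} (hper : ∀ t, P (t + k) ↔ P t) :
    cw 0 k (fun t => P (-t)) = cw 0 k P := by
  have h := cw_neg (P := fun t => P (t + 1)) (k := k)
    (fun t => by rw [show t + (k : ℤ) + 1 = t + 1 + k by ring]; exact hper _)
  have h2 : cw 0 k (fun t => P (-t - 1 + 1)) = cw 0 k (fun t => P (-t)) := by
    apply cw_congr; intro t; rw [show -t - 1 + 1 = -t by ring]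
  rw [← h2, h, cw_shift hper]

/-- the dual gap set -/
def gap' (P : ℤ → Prop) (l : ℕ) (j : ℤ) : Prop := ∀ s : ℕ, 1 ≤ s → s ≤ l → ¬ P (j - s)

theorem hr_count' {k l : ℕ} (hk : 0 < k) (hl : 1 ≤ l) {P Q : ℤ → Prop}
    (hP : ∀ t, P (t + k) ↔ P t) (hQ : ∀ t, Q (t + k) ↔ Q t)
    (hr : ∀ (j : ℤ) (r : ℕ), r < k → Q j → P (j + r) → l + 1 + r ≤ k)
    (hP1 : ∃ i, P i) (hQ1 : ∃ j, Q j) :
    (∀ j, Q j → gap' P l j) ∧
      (cw 0 k P + cw 0 k Q + l = k + 1 → ∀ j, gap' P l j → Q j) := by
  have hP' : ∀ t, P (-(t + (k : ℤ))) ↔ P (-t) := by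
    intro t
    rw [← hP (-(t + k)), show -(t + (k : ℤ)) + k = -t by ring]
  have hQ' : ∀ t, Q (-(t + (k : ℤ))) ↔ Q (-t) := by
    intro t
    rw [← hQ (-(t + k)), show -(t + (k : ℤ)) + k = -t by ring]
  have h := hr_count hk hl (P := fun t => Q (-t)) (Q := fun t => P (-t)) hQ' hP' (by
    intro j r hrk h1 h2
    apply hr (-(j + r)) r hrk h2
    rw [show -(j + (r : ℤ)) + r = -j by ring]
    exact h1) (by obtain ⟨j, hj⟩ := hQ1; exact ⟨-j, by simpa using hj⟩)
    (by obtain ⟨j, hj⟩ := hP1; exact ⟨-j, by simpa using hj⟩)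
  rw [cw_neg' hP, cw_neg' hQ] at h
  obtain ⟨-, -, h3, h4⟩ := h
  constructor
  · intro j hj s h1 h2 h5
    have : ¬ P (-(-j + (s : ℤ))) := h3 (-j) (by simpa using hj) s h1 h2
    rw [show -(-j + (s : ℤ)) = j - s by ring] at this
    exact this h5
  · intro heq j hj
    have := h4 (by omega) (-j) (by
      intro s h1 h2 (h5 : P (-(-j + (s : ℤ))))
      rw [show -(-j + (s : ℤ)) = j - s by ring] at h5
      exact hj s h1 h2 h5)
    simpa using this

/-- exchange of the two colours -/
def sw (G : Bool → SimpleGraph V) : Bool → SimpleGraph V := fun b => G (!b)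

@[simp] theorem sw_apply (G : Bool → SimpleGraph V) (b : Bool) : sw G b = G (!b) := rfl

@[simp] theorem sw_sw (G : Bool → SimpleGraph V) : sw (sw G) = G := by
  funext b; simp [sw]

theorem CP.swp {G : Bool → SimpleGraph V} {a b : Bool} {u v : V} {L : List V}
    (h : CP G a u b v L) : CP (sw G) (!a) u (!b) v L := by
  induction h with
  | single a u => exact CP.single _ _
  | cons a u w b v L hh _ ih =>
    refine CP.cons _ _ _ _ _ _ ?_ ih
    simpa [sw] using hh

theorem IsC.swp {G : Bool → SimpleGraph V} {L : List V} (h : IsC G L) : IsC (sw G) L := by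
  obtain ⟨a, u, v, hp, hvu, hnd⟩ := h
  refine ⟨!a, u, v, hp.swp, ?_, hnd⟩
  simpa [sw] using hvu

section cx

variable [Fintype V]

/-- The standing assumptions. -/
structure Cx (G : Bool → SimpleGraph V) (d N k : ℕ) : Prop where
  deg : ∀ g v, d ≤ dg (G g) v
  le : N ≤ 2 * d
  pmax : ∀ a u b v L, CP G a u b v L → L.Nodup → L.length ≤ N
  cmax : ∀ L, IsC G L → L.length < N
  conn : ∀ L : List V, L ≠ [] → L.length ≤ N → ∃ g v z, v ∈ L ∧ z ∉ L ∧ (G g).Adj v z
  lmax : ∀ L P e x b y, IsC G L → CP G e x b y P → (∃ w ∈ L, (G e).Adj x w) →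
    (L ++ P).Nodup → L.length + P.length = N → L.length ≤ 2 * k

variable {G : Bool → SimpleGraph V} {d N k : ℕ}

theorem Cx.swp (S : Cx G d N k) : Cx (sw G) d N k := by
  refine ⟨fun g v => S.deg _ v, S.le, ?_, ?_, ?_, ?_⟩
  · intro a u b v L h hnd
    have := h.swp
    rw [sw_sw] at this
    exact S.pmax _ _ _ _ _ this hnd
  · intro L h
    have := h.swp
    rw [sw_sw] at this
    exact S.cmax _ this
  · intro L h h'
    obtain ⟨g, v, z, h1, h2, h3⟩ := S.conn L h h'
    exact ⟨!g, v, z, h1, h2, by simpa [sw] using h3⟩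
  · intro L P e x b y h1 h2 h3 h4 h5
    have h6 := h1.swp
    have h7 := h2.swp
    rw [sw_sw] at h6 h7
    exact S.lmax L P _ x _ y h6 h7 (by simpa [sw] using h3) h4 h5

/-- closed vertices -/
def Cl (G : Bool → SimpleGraph V) (g : Bool) (v : V) (M : Multiset V) : Prop :=
  ∀ z, (G g).Adj v z → z ∈ M

theorem Cx.closed (S : Cx G d N k) {a b : Bool} {u v : V} {L : List V} (h : CP G a u b v L)
    (hnd : (L : Multiset V).Nodup) (hlen : L.length = N) : Cl G a u (L : Multiset V) := by
  intro z hz
  by_contra hcon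
  have h1 : CP G (!a) z b v (z :: L) := by
    refine CP.cons _ _ u _ _ _ ?_ ?_
    · rw [Bool.not_not]; exact hz.symm
    · rw [Bool.not_not]; exact h
  have h2 := S.pmax _ _ _ _ _ h1 (by
    rw [List.nodup_cons]
    exact ⟨fun h => hcon (by simpa using h), by simpa using hnd⟩)
  simp at h2
  omega

/-- the cycle and the path as a multiset -/
def Ms (c : ℤ → V) (k : ℕ) (P : List V) : Multiset V :=
  ((seg c 0 (2 * k) : List V) : Multiset V) + (P : Multiset V)

/-- paths outside the cycle covering `N - 2k` vertices -/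
structure BP (G : Bool → SimpleGraph V) (N : ℕ) (c : ℤ → V) (k : ℕ) (a : Bool) (x : V) (b : Bool)
    (y : V) (P : List V) : Prop where
  cp : CP G a x b y P
  nd : (Ms c k P).Nodup
  len : 2 * k + P.length = N

variable {c : ℤ → V} {a b : Bool} {x y : V} {P : List V}

theorem BP.rev (h : BP G N c k a x b y P) : BP G N c k b y a x P.reverse :=
  ⟨h.cp.rev, by
    have := h.nd
    unfold Ms at this ⊢
    rwa [Multiset.coe_reverse], by simpa using h.len⟩

theorem Ms_rev : Ms c k P.reverse = Ms c k P := by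
  unfold Ms; rw [Multiset.coe_reverse]

theorem BP.of_perm (h : BP G N c k a x b y P) {a' b' : Bool} {x' y' : V} {P' : List V}
    (h' : CP G a' x' b' y' P') (hp : (P' : Multiset V) = (P : Multiset V)) :
    BP G N c k a' x' b' y' P' := by
  refine ⟨h', ?_, ?_⟩
  · unfold Ms; rw [hp]; exact h.nd
  · have := congrArg Multiset.card hp
    simp at this
    rw [this]; exact h.len

theorem BP.ndP (h : BP G N c k a x b y P) : P.Nodup := by
  have := (Multiset.nodup_add.mp h.nd).2.1
  simpa using this

theorem BP.notc (h : BP G N c k a x b y P) (hc : Cyc G c k) {v : V} (hv : v ∈ P) (t : ℤ) :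
    v ≠ c t := by
  rintro rfl
  have := (Multiset.nodup_add.mp h.nd).2.2
  rw [Multiset.disjoint_left] at this
  exact this (by simpa using hc.mem t) (by simpa using hv)

theorem Ms_mem {v : V} : v ∈ Ms c k P ↔ v ∈ seg c 0 (2 * k) ∨ v ∈ P := by
  simp [Ms]

/-- attached vertices -/
def Att (G : Bool → SimpleGraph V) (c : ℤ → V) (g : Bool) (v : V) : Prop :=
  ∃ t, (G g).Adj v (c t)

theorem arc_split (hc : Cyc G c k) (a : ℤ) {m n : ℕ} (h : m + n = 2 * k) :
    ((seg c a m : List V) : Multiset V) + ((seg c (a + m) n : List V) : Multiset V) =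
      (seg c 0 (2 * k) : List V) := by
  rw [← hc.coe a, ← h, seg_add, Multiset.coe_add]

theorem arc_split3 (hc : Cyc G c k) (a : ℤ) {m n r : ℕ} (h : m + n + r = 2 * k) :
    ((seg c a m : List V) : Multiset V) + ((seg c (a + m) n : List V) : Multiset V) +
      ((seg c (a + m + n) r : List V) : Multiset V) = (seg c 0 (2 * k) : List V) := by
  rw [← hc.coe a, ← h, seg_add, seg_add, Multiset.coe_add, Multiset.coe_add]
  push_cast
  rw [show a + ((m : ℤ) + n) = a + m + n by ring]

/-- `lmax` in multiset form -/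
theorem Cx.lm (S : Cx G d N k) (h : BP G N c k a x b y P) {L P' : List V} {e e' : Bool}
    {x' y' : V} (hL : IsC G L) (hP : CP G e x' e' y' P') (hw : ∃ w ∈ L, (G e).Adj x' w)
    (hm : (L : Multiset V) + (P' : Multiset V) = Ms c k P) : L.length ≤ 2 * k := by
  apply S.lmax L P' e x' e' y' hL hP hw
  · have := h.nd
    rw [← hm, Multiset.coe_add] at this
    simpa using this
  · have h1 := congrArg Multiset.card hm
    simp [Ms] at h1
    have := h.len
    omega

theorem isC_of (h : BP G N c k a x b y P) {L P' : List V} {e : Bool} {u v : V}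
    (hp : CP G e u e v L) (hvu : (G e).Adj v u)
    (hm : (L : Multiset V) + (P' : Multiset V) = Ms c k P) : IsC G L := by
  refine ⟨e, u, v, hp, hvu, ?_⟩
  have := h.nd
  rw [← hm] at this
  have := (Multiset.nodup_add.mp this).1
  simpa using this

/-- no cycle has `N` vertices -/
theorem Cx.cm (S : Cx G d N k) (h : BP G N c k a x b y P) {L : List V} {e : Bool} {u v : V}
    (hp : CP G e u e v L) (hvu : (G e).Adj v u) (hm : (L : Multiset V) = Ms c k P) : False := by
  have h1 := S.cmax L (isC_of h (P' := []) hp hvu (by rw [← hm]; simp))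
  have h2 := congrArg Multiset.card hm
  simp [Ms] at h2
  have := h.len
  omega

/-- ends of paths with `N` vertices are closed -/
theorem Cx.cl (S : Cx G d N k) (h : BP G N c k a x b y P) {L : List V} {e e' : Bool} {u v : V}
    (hp : CP G e u e' v L) (hm : (L : Multiset V) = Ms c k P) : Cl G e u (Ms c k P) := by
  rw [← hm]
  apply S.closed hp
  · rw [hm]; exact h.nd
  · have h2 := congrArg Multiset.card hm
    simp [Ms] at h2
    have := h.len
    omega

/-- paths have at most `N` vertices -/
theorem Cx.pm (S : Cx G d N k) (h : BP G N c k a x b y P) {L : List V} {e e' : Bool} {u v : V}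
    (hp : CP G e u e' v L) {M : Multiset V} (hm : (L : Multiset V) = M + Ms c k P)
    (hM : M ≠ 0) (hMn : M.Nodup) (hd : ∀ z ∈ M, z ∉ Ms c k P) : False := by
  have h1 := S.pmax _ _ _ _ _ hp (by
    have : (L : Multiset V).Nodup := by
      rw [hm, Multiset.nodup_add]
      exact ⟨hMn, h.nd, Multiset.disjoint_left.mpr fun {z} hz => hd z hz⟩
    simpa using this)
  have h2 := congrArg Multiset.card hm
  simp [Ms] at h2
  have := h.len
  have := Multiset.card_pos.mpr hM
  omega

/-- number of neighbours of a closed vertex -/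
theorem deg_cl {g : Bool} {v : V} (hnd : (Ms c k P).Nodup) (h : Cl G g v (Ms c k P)) :
    dg (G g) v = cw 0 k (fun i => (G g).Adj v (c (2 * i))) +
      cw 0 k (fun i => (G g).Adj v (c (2 * i + 1))) + List.countP ((G g).Adj v) P := by
  have h0 : ((seg c 0 (2 * k) ++ P : List V) : Multiset V) = Ms c k P := by
    rw [Ms, Multiset.coe_add]
  have h1 : (seg c 0 (2 * k) ++ P).Nodup := by
    rw [← h0] at hnd; simpa using hnd
  rw [dg, count_nodup h1 (fun u hu => by
    have := h u hu
    rw [← h0] at this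
    simpa using this), List.countP_append]
  congr 1
  rw [← Multiset.coe_countP, cnt_eq_countP, cnt_cw, cw_par]

theorem cp_lt {g : Bool} {v : V} (hv : v ∈ P) : List.countP ((G g).Adj v) P + 1 ≤ P.length := by
  have h1 := List.length_eq_countP_add_countP (fun z => decide ((G g).Adj v z)) (l := P)
  have h2 : 0 < List.countP (fun z => ¬ (decide ((G g).Adj v z)) = true) P := by
    rw [List.countP_pos_iff]
    exact ⟨v, hv, by simp⟩
  omega

theorem cp_full {g : Bool} {v w : V} (hv : v ∈ P) (hw : w ∈ P) (hvw : v ≠ w) (hnd : P.Nodup)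
    (h : P.length ≤ List.countP ((G g).Adj v) P + 1) : (G g).Adj v w := by
  by_contra hcon
  have h1 := List.length_eq_countP_add_countP (fun z => decide ((G g).Adj v z)) (l := P)
  have h2 : 2 ≤ List.countP (fun z => ¬ (decide ((G g).Adj v z)) = true) P := by
    rw [List.countP_eq_length_filter]
    have hf := hnd.filter (fun z => ¬ (decide ((G g).Adj v z)) = true)
    rw [← List.toFinset_card_of_nodup hf]
    have hsub : ({v, w} : Finset V) ⊆
        (P.filter (fun z => ¬ (decide ((G g).Adj v z)) = true)).toFinset := by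
      intro z hz
      simp only [Finset.mem_insert, Finset.mem_singleton] at hz
      rw [List.mem_toFinset, List.mem_filter]
      rcases hz with rfl | rfl
      · exact ⟨hv, by simp⟩
      · exact ⟨hw, by simpa using hcon⟩
    have := Finset.card_le_card hsub
    rw [Finset.card_pair hvw] at this
    exact this
  omega

/-- The attachment lemma. -/
theorem Cx.att (S : Cx G d N k) (hc : Cyc G c k) (h : BP G N c k a x b y P)
    (hy : Att G c b y) : Cl G a x (Ms c k P) ∧ Att G c a x := by
  obtain ⟨t, ht⟩ := hy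
  obtain ⟨b', z, L, hL, hLm⟩ := hc.openC t b
  have hcl : Cl G a x (Ms c k P) := by
    apply S.cl h (h.cp.append ht hL)
    rw [← Multiset.coe_add, hLm, Ms, add_comm]
  refine ⟨hcl, ?_⟩
  by_contra hcon
  have hcon' : ∀ t, ¬ (G a).Adj x (c t) := fun t ht => hcon ⟨t, ht⟩
  have hdeg := deg_cl h.nd hcl
  rw [cw_eq_zero (fun i _ => hcon' _), cw_eq_zero (fun i _ => hcon' _), zero_add, zero_add] at hdeg
  obtain ⟨p, hp1, hp2, hp3, hp4⟩ := h.cp.seq
  have hpar := h.cp.par
  have hlen := h.cp.length_pos
  have hN := h.len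
  have hd := S.deg a x
  have hle := S.le
  set q := P.length with hq
  have e1 : List.countP ((G a).Adj x) P = cw 0 q (fun t => (G a).Adj x (p t)) := by
    conv_lhs => rw [← hp1]
    rw [← Multiset.coe_countP, cnt_eq_countP, cnt_cw]
  -- closing neighbours
  have hclose : ∀ s : ℕ, s < q → s % 2 = 1 → (G a).Adj x (p s) → s + 1 ≤ 2 * k := by
    intro s hs hs2 hxs
    have hC := cp_sub hp4 0 s (by omega)
    rw [fcol_zero] at hC
    simp only [Nat.cast_zero, zero_add] at hC
    rw [fcol_even a (by omega : (s + 1) % 2 = 0), hp2] at hC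
    by_cases hsq : s + 1 = q
    · have hpy : p s = y := by rw [← hp3]; congr 1; omega
      have hba : b = a := by rw [hpar, fcol_even a (by omega)]
      have hm : ((seg p 0 (s + 1) : List V) : Multiset V) + (L : Multiset V) = Ms c k P := by
        rw [hsq, hp1, hLm, Ms, add_comm]
      have := S.lm h (isC_of h hC hxs.symm hm) hL ⟨p s, by
        rw [mem_seg]; exact ⟨s, by omega, by simp⟩, by rw [hpy]; exact ht.symm⟩ hm
      simpa using this
    · have hR := cp_sub hp4 (s + 1) (q - s - 2) (by omega)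
      rw [show s + 1 + (q - s - 2) + 1 = q by omega, ← hpar,
        show q - s - 2 + 1 = q - s - 1 by omega] at hR
      have e2 : p (((s + 1 : ℕ) : ℤ) + ((q - s - 2 : ℕ) : ℤ)) = y := by
        rw [← hp3]; congr 1; omega
      rw [e2, fcol_even a (by omega : (s + 1) % 2 = 0)] at hR
      have hm : ((seg p 0 (s + 1) : List V) : Multiset V) +
          (((seg p ((s + 1 : ℕ) : ℤ) (q - s - 1)) ++ L : List V) : Multiset V) = Ms c k P := by
        have : P = seg p 0 (s + 1) ++ seg p ((s + 1 : ℕ) : ℤ) (q - s - 1) := by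
          rw [← hp1]
          conv_lhs => rw [show q = (s + 1) + (q - s - 1) by omega]
          rw [seg_add, zero_add]
        rw [← Multiset.coe_add, hLm, Ms]
        conv_rhs => rw [this]
        rw [← Multiset.coe_add]
        abel
      have := S.lm h (isC_of h hC hxs.symm hm) (hR.append ht hL) ⟨p s, by
        rw [mem_seg]; exact ⟨s, by omega, by simp⟩, by
          have := hp4 s (by omega)
          rw [fcol_even a (by omega : (s + 1) % 2 = 0)] at this
          push_cast
          exact this.symm⟩ hm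
      simpa using this
  rcases Nat.even_or_odd' q with ⟨m, hm | hm⟩
  · rw [hm, cw_par] at e1
    have b1 : cw 0 m (fun t => (G a).Adj x (p (2 * t))) + 1 ≤ m := by
      apply cw_miss 0 (by omega)
      simp [hp2]
    have b2 : cw 0 m (fun t => (G a).Adj x (p (2 * t + 1))) ≤ k - 0 := by
      apply cw_le_interval
      intro t ht' hadj
      refine ⟨Nat.zero_le _, ?_⟩
      have := hclose (2 * t + 1) (by omega) (by omega) (by
        rw [show (0 : ℤ) + t = t by ring] at hadj
        push_cast; exact hadj)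
      omega
    omega
  · rw [hm, cw_par'] at e1
    have b1 : cw 0 (m + 1) (fun t => (G a).Adj x (p (2 * t))) + 1 ≤ m + 1 := by
      apply cw_miss 0 (by omega)
      simp [hp2]
    have b2 : cw 0 m (fun t => (G a).Adj x (p (2 * t + 1))) ≤ k - 0 := by
      apply cw_le_interval
      intro t ht' hadj
      refine ⟨Nat.zero_le _, ?_⟩
      have := hclose (2 * t + 1) (by omega) (by omega) (by
        rw [show (0 : ℤ) + t = t by ring] at hadj
        push_cast; exact hadj)
      omega
    omega

/-- both ends of an attached path are attached and closed -/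
theorem Cx.att2 (S : Cx G d N k) (hc : Cyc G c k) (h : BP G N c k a x b y P)
    (hy : Att G c b y) : Cl G a x (Ms c k P) ∧ Att G c a x ∧ Cl G b y (Ms c k P) := by
  obtain ⟨h1, h2⟩ := S.att hc h hy
  have h3 := S.att hc h.rev h2
  rw [Ms_rev] at h3
  exact ⟨h1, h2, h3.1⟩

theorem Att.ev_od {g : Bool} {v : V} (h : Att G c g v) :
    (∃ i, (G g).Adj v (c (2 * i))) ∨ (∃ i, (G g).Adj v (c (2 * i + 1))) := by
  obtain ⟨t, ht⟩ := h
  rcases Int.even_or_odd' t with ⟨i, rfl | rfl⟩
  · exact Or.inl ⟨i, ht⟩
  · exact Or.inr ⟨i, ht⟩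

theorem BP.refl (hc : Cyc G c k) (h : BP G N c k a x b y P) :
    BP G N (fun t => c (1 - t)) k a x b y P ∧ Ms (fun t => c (1 - t)) k P = Ms c k P := by
  have e : Ms (fun t => c (1 - t)) k P = Ms c k P := by
    unfold Ms; rw [hc.refl.2]
  exact ⟨⟨h.cp, by rw [e]; exact h.nd, h.len⟩, e⟩

theorem BP.swp (hc : Cyc G c k) (h : BP G N c k a x b y P) :
    BP (sw G) N (fun t => c (t + 1)) k (!a) x (!b) y P ∧
      Ms (fun t => c (t + 1)) k P = Ms c k P := by
  have e : Ms (fun t => c (t + 1)) k P = Ms c k P := by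
    unfold Ms; rw [hc.swap.2]
  exact ⟨⟨h.cp.swp, by rw [e]; exact h.nd, h.len⟩, e⟩

theorem Cyc.swp (hc : Cyc G c k) : Cyc (sw G) (fun t => c (t + 1)) k := hc.swap.1

end cx

end Pool.Agent.Helper458
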