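import Pool.Agent.Helper458.PC3

set_option autoImplicit false
set_option linter.unusedSectionVars false

namespace Pool.Agent.Helper458

open Classical

variable {V : Type*} [Fintype V] {G : Bool → SimpleGraph V} {d N k : ℕ}
  {c : ℤ → V} {a b : Bool} {x y : V} {P : List V}

/-- a path as a sequence -/
structure Sq (G : Bool → SimpleGraph V) (a : Bool) (x : V) (b : Bool) (y : V) (P : List V)
    (p : ℤ → V) (q : ℕ) : Prop where
  len : P.length = q
  pos : 0 < q
  sg : seg p 0 q = P
  fst : p 0 = x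
  lst : p (q - 1) = y
  adj : ∀ t : ℕ, t + 1 < q → (G (fcol a (t + 1))).Adj (p t) (p (t + 1))
  col : b = fcol a q

theorem CP.sq (h : CP G a x b y P) : ∃ p : ℤ → V, Sq G a x b y P p P.length := by
  obtain ⟨p, h1, h2, h3, h4⟩ := h.seq
  exact ⟨p, rfl, h.length_pos, h1, h2, h3, h4, h.par⟩

theorem Sq.pre {p : ℤ → V} {q : ℕ} (h : Sq G a x b y P p q) {s : ℕ} (hs : s < q) :
    CP G a x (fcol a (s + 1)) (p s) (seg p 0 (s + 1)) := by
  have := cp_sub h.adj 0 s (by omega)
  rw [fcol_zero] at this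
  simp only [Nat.cast_zero, zero_add] at this
  rwa [h.fst] at this

theorem Sq.suf {p : ℤ → V} {q : ℕ} (h : Sq G a x b y P p q) {s : ℕ} (hs : s < q) :
    CP G (fcol a s) (p s) b y (seg p s (q - s)) := by
  have := cp_sub h.adj s (q - s - 1) (by omega)
  rw [show s + (q - s - 1) + 1 = q by omega, show q - s - 1 + 1 = q - s by omega, ← h.col] at this
  have e : p ((s : ℤ) + ((q - s - 1 : ℕ) : ℤ)) = y := by
    rw [← h.lst]; congr 1; omega
  rwa [e] at this

theorem Sq.split {p : ℤ → V} {q : ℕ} (h : Sq G a x b y P p q) {s : ℕ} (hs : s ≤ q) :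
    ((seg p 0 s : List V) : Multiset V) + ((seg p s (q - s) : List V) : Multiset V) =
      (P : Multiset V) := by
  rw [← h.sg]
  conv_rhs => rw [show q = s + (q - s) by omega]
  rw [seg_add, zero_add, Multiset.coe_add]

theorem Sq.mem {p : ℤ → V} {q : ℕ} (h : Sq G a x b y P p q) {s : ℕ} (hs : s < q) : p s ∈ P := by
  rw [← h.sg, mem_seg]
  exact ⟨s, hs, by simp⟩

theorem Sq.countP {p : ℤ → V} {q : ℕ} (h : Sq G a x b y P p q) (T : V → Prop) :
    List.countP T P = cw 0 q (fun t => T (p t)) := by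
  conv_lhs => rw [← h.sg]
  rw [← Multiset.coe_countP, cnt_eq_countP, cnt_cw]

theorem Sq.ex {p : ℤ → V} {q : ℕ} (h : Sq G a x b y P p q) {v : V} (hv : v ∈ P) :
    ∃ s : ℕ, s < q ∧ p s = v := by
  rw [← h.sg, mem_seg] at hv
  obtain ⟨s, h1, h2⟩ := hv
  exact ⟨s, h1, by simpa using h2⟩

theorem Sq.inj {p : ℤ → V} {q : ℕ} (h : Sq G a x b y P p q) (hnd : P.Nodup) {s t : ℕ} (hs : s < q)
    (ht : t < q) (he : p s = p t) : s = t := by
  have h1 : P[s]'(by rw [h.len]; exact hs) = P[t]'(by rw [h.len]; exact ht) := by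
    have hg : ∀ s : ℕ, ∀ hs : s < q, P[s]'(by rw [h.len]; exact hs) = p s := by
      intro s hs
      have h2 := h.sg
      subst h2
      simp [seg]
    rw [hg s hs, hg t ht, he]
  exact (List.Nodup.getElem_inj_iff hnd).mp h1

theorem cw_avoid {T : ℤ → Prop} {k lo hi : ℕ} (h : ∀ s : ℕ, lo ≤ s → s < hi → ¬ T s) (hk : hi ≤ k) :
    cw 0 k T + (hi - lo) ≤ k := by
  have h1 := cw_compl (P := T) 0 k
  have h2 : hi - lo ≤ cw 0 k (fun t => ¬ T t) := by
    have hsub : Finset.Ico lo hi ⊆ (Finset.range k).filter (fun i : ℕ => ¬ T (0 + (i : ℤ))) := by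
      intro i hi'
      simp only [Finset.mem_Ico, Finset.mem_filter, Finset.mem_range] at hi' ⊢
      refine ⟨by omega, ?_⟩
      have := h i hi'.1 hi'.2
      simpa using this
    have := Finset.card_le_card hsub
    simpa [cw] using this
  omega

/-- reversing an index set -/
theorem cw_revs {k : ℕ} {T : ℤ → Prop} (hper : ∀ t, T (t + k) ↔ T t) (i : ℤ) :
    cw 0 k (fun t => T (i - t)) = cw 0 k T := by
  have h1 := cw_neg' (P := fun t => T (t + i)) (k := k) (fun t => by
    rw [show t + (k : ℤ) + i = t + i + k by ring]; exact hper _)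
  rw [cw_shift hper] at h1
  rw [← h1]
  apply cw_congr
  intro t
  rw [show -t + i = i - t by ring]

theorem evP (hc : Cyc G c k) (g : Bool) (v : V) (t : ℤ) :
    (G g).Adj v (c (2 * (t + k))) ↔ (G g).Adj v (c (2 * t)) := by
  rw [show 2 * (t + (k : ℤ)) = 2 * t + 2 * k by ring, hc.per]

theorem odP (hc : Cyc G c k) (g : Bool) (v : V) (t : ℤ) :
    (G g).Adj v (c (2 * (t + k) + 1)) ↔ (G g).Adj v (c (2 * t + 1)) := by
  rw [show 2 * (t + (k : ℤ)) + 1 = 2 * t + 1 + 2 * k by ring, hc.per]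

section odd

variable {l : ℕ}

theorem rule1 (S : Cx G d N k) (hc : Cyc G c k) (h : BP G N c k true x false y P)
    (hl : P.length = 2 * l + 1) {j : ℤ} {r : ℕ} (hr : r < k)
    (hy : (G false).Adj y (c (2 * j))) (hx : (G true).Adj x (c (2 * (j + r)))) :
    l + 1 + r ≤ k := by
  have hC := (hc.sTT j r).append hx.symm h.cp
  have hR := hc.sFF (j + r) (k - 1 - r)
  have hm : ((seg c (2 * j) (2 * r + 1) ++ P : List V) : Multiset V) +
      ((seg c (2 * (j + r) + 1) (2 * (k - 1 - r) + 1) : List V) : Multiset V) = Ms c k P := by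
    rw [Ms, ← arc_split hc (2 * j) (m := 2 * r + 1) (n := 2 * (k - 1 - r) + 1) (by omega),
      ← Multiset.coe_add]
    rw [show 2 * j + ((2 * r + 1 : ℕ) : ℤ) = 2 * (j + r) + 1 by push_cast; ring]
    abel
  have := S.lm h (isC_of h hC hy hm) hR ⟨c (2 * (j + r)), by
    rw [List.mem_append, mem_seg]
    left
    exact ⟨2 * r, by omega, by congr 1; push_cast; ring⟩, (hc.arrT (j + r)).symm⟩ hm
  simp only [List.length_append, seg_length, hl] at this
  omega

theorem refl_even (c : ℤ → V) (j : ℤ) : c (2 * j + 1) = (fun t => c (1 - t)) (2 * -j) := by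
  show _ = c (1 - 2 * -j)
  congr 1; ring

theorem refl_odd (c : ℤ → V) (j : ℤ) : c (2 * j) = (fun t => c (1 - t)) (2 * -j + 1) := by
  show _ = c (1 - (2 * -j + 1))
  congr 1; ring

theorem rule2 (S : Cx G d N k) (hc : Cyc G c k) (h : BP G N c k true x false y P)
    (hl : P.length = 2 * l + 1) {i : ℤ} {r : ℕ} (hr : r < k)
    (hx : (G true).Adj x (c (2 * i + 1))) (hy : (G false).Adj y (c (2 * (i + r) + 1))) :
    l + 1 + r ≤ k := by
  have h' := (h.refl hc).1
  rw [refl_even c] at hx hy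
  apply rule1 S hc.refl.1 h' hl hr (j := -(i + r)) hy
  rw [show -(i + (r : ℤ)) + r = -i by ring]
  exact hx

section m1

variable {i : ℤ}

theorem m1_cl (S : Cx G d N k) (hc : Cyc G c k) (h : BP G N c k true x false y P)
    (hxi : (G true).Adj x (c (2 * i + 1))) : Cl G true (c (2 * i)) (Ms c k P) := by
  apply S.cl h ((hc.fullF i).rev.append hxi.symm h.cp)
  rw [← Multiset.coe_add, Multiset.coe_reverse, hc.coe]
  rfl

theorem m1_c (S : Cx G d N k) (hc : Cyc G c k) (h : BP G N c k true x false y P)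
    (hxi : (G true).Adj x (c (2 * i + 1))) {p : ℤ → V} {q : ℕ} (hp : Sq G true x false y P p q)
    {s : ℕ} (hs : s % 2 = 1) (hsq : s + 1 < q) : ¬ (G true).Adj (c (2 * i)) (p s) := by
  intro hcon
  have h1 := hp.pre (s := s) (by omega)
  have h2 := hp.suf (s := s + 1) (by omega)
  have h3 := (hc.fullF i).rev.append hxi.symm h1
  rw [fcol_even _ (by omega : (s + 1) % 2 = 0)] at h2 h3
  have hm : (((seg c (2 * i + 1) (2 * k)).reverse ++ seg p 0 (s + 1) : List V) : Multiset V) +
      ((seg p ((s + 1 : ℕ) : ℤ) (q - (s + 1)) : List V) : Multiset V) = Ms c k P := by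
    rw [Ms, ← Multiset.coe_add, Multiset.coe_reverse, hc.coe,
      ← hp.split (s := s + 1) (by omega)]
    abel
  have h4 := hp.adj s hsq
  rw [fcol_even _ (by omega : (s + 1) % 2 = 0)] at h4
  have := S.lm h (isC_of h h3 hcon.symm hm) h2 ⟨p s, by
    rw [List.mem_append]; right; rw [mem_seg]; exact ⟨s, by omega, by simp⟩, by
      push_cast; exact h4.symm⟩ hm
  simp only [List.length_append, List.length_reverse, seg_length] at this
  omega

theorem m1_b (S : Cx G d N k) (hc : Cyc G c k) (h : BP G N c k true x false y P)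
    (hxi : (G true).Adj x (c (2 * i + 1))) {p : ℤ → V} {q : ℕ} (hp : Sq G true x false y P p q)
    {s : ℕ} (hs : s % 2 = 0) (hs0 : 0 < s) (hsq : s < q) (hv : (G true).Adj (c (2 * i)) (p s))
    {t : ℕ} (ht : t < k) (hy : (G false).Adj y (c (2 * (i - t)))) : q - s + (2 * t + 1) ≤ 2 * k := by
  have h1 := hp.suf hsq
  rw [fcol_even _ hs] at h1
  have h2 := hc.sTT (i - t) t
  rw [show i - (t : ℤ) + t = i by ring] at h2
  have h3 := h1.append hy h2
  have h4 := (hc.sFF i (k - 1 - t)).rev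
  have h5 := hp.pre (s := s - 1) (by omega)
  rw [show s - 1 + 1 = s by omega] at h5
  have h6 := h4.append hxi.symm h5
  have hm : ((seg p s (q - s) ++ seg c (2 * (i - t)) (2 * t + 1) : List V) : Multiset V) +
      (((seg c (2 * i + 1) (2 * (k - 1 - t) + 1)).reverse ++ seg p 0 s : List V) : Multiset V)
      = Ms c k P := by
    rw [Ms, ← Multiset.coe_add, ← Multiset.coe_add, Multiset.coe_reverse,
      ← hp.split (s := s) (by omega),
      ← arc_split hc (2 * (i - t)) (m := 2 * t + 1) (n := 2 * (k - 1 - t) + 1) (by omega)]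
    rw [show 2 * (i - t) + ((2 * t + 1 : ℕ) : ℤ) = 2 * i + 1 by push_cast; ring]
    abel
  have := S.lm h (isC_of h h3 hv hm) h6 ⟨c (2 * (i - t)), by
    rw [List.mem_append]; right; rw [mem_seg]; exact ⟨0, by omega, by simp⟩, by
      have := hc.arrF (i + ((k - 1 - t : ℕ) : ℤ))
      rw [show 2 * (i + ((k - 1 - t : ℕ) : ℤ)) + 2 = 2 * (i - t) + 2 * k by omega, hc.per] at this
      exact this⟩ hm
  simp only [List.length_append, seg_length] at this
  omega

theorem m1_a (S : Cx G d N k) (hc : Cyc G c k) (h : BP G N c k true x false y P)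
    (hl : P.length = 2 * l + 1)
    (hxi : (G true).Adj x (c (2 * i + 1)))
    {t' : ℕ} (ht' : t' < k) (hv : (G true).Adj (c (2 * i)) (c (2 * (i - t'))))
    {t : ℕ} (ht : t < t') (hy : (G false).Adj y (c (2 * (i - t)))) : t + l + 1 ≤ t' := by
  have h1 := (hc.sFT i (k - 1 - t')).rev
  have e1 : c (2 * (i + ((k - 1 - t' : ℕ) : ℤ)) + 2) = c (2 * (i - t')) := by
    rw [show 2 * (i + ((k - 1 - t' : ℕ) : ℤ)) + 2 = 2 * (i - t') + 2 * k by omega, hc.per]
  rw [e1] at h1
  have h2 := hc.sTT (i - t) t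
  rw [show i - (t : ℤ) + t = i by ring] at h2
  have h3 := (h1.append hxi.symm h.cp).append hy h2
  have h4 := hc.sFF (i - t') (t' - t - 1)
  have hm : (((seg c (2 * i + 1) (2 * (k - 1 - t') + 2)).reverse ++ P ++
      seg c (2 * (i - t)) (2 * t + 1) : List V) : Multiset V) +
      ((seg c (2 * (i - t') + 1) (2 * (t' - t - 1) + 1) : List V) : Multiset V) = Ms c k P := by
    rw [Ms, ← Multiset.coe_add, ← Multiset.coe_add, Multiset.coe_reverse,
      ← arc_split3 hc (2 * (i - t') + 1) (m := 2 * (t' - t - 1) + 1) (n := 2 * t + 1)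
        (r := 2 * (k - 1 - t') + 2) (by omega)]
    rw [show 2 * (i - t') + 1 + ((2 * (t' - t - 1) + 1 : ℕ) : ℤ) = 2 * (i - t) by omega,
      show 2 * (i - t) + ((2 * t + 1 : ℕ) : ℤ) = 2 * i + 1 by omega]
    abel
  have := S.lm h (isC_of h h3 hv hm) h4 ⟨c (2 * (i - t')), by
    rw [List.mem_append, List.mem_append, List.mem_reverse]; left; left
    rw [← e1, mem_seg]
    exact ⟨2 * (k - 1 - t') + 1, by omega, by congr 1; push_cast; ring⟩,
      (hc.arrT (i - t')).symm⟩ hm
  simp only [List.length_append, List.length_reverse, seg_length, hl] at this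
  omega

/-- case M1 is impossible -/
theorem m1_false (S : Cx G d N k) (hc : Cyc G c k) (h : BP G N c k true x false y P)
    (hl : P.length = 2 * l + 1) (hl1 : 1 ≤ l) (hay : Att G c false y)
    (h1 : ∀ i, ¬ (G true).Adj x (c (2 * i))) (h2 : ∀ i, ¬ (G false).Adj y (c (2 * i + 1))) :
    False := by
  obtain ⟨-, hax, hcly⟩ := S.att2 hc h hay
  obtain ⟨i, hxi⟩ : ∃ i, (G true).Adj x (c (2 * i + 1)) := by
    rcases hax.ev_od with ⟨i, hi⟩ | h'
    · exact absurd hi (h1 i)
    · exact h'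
  obtain ⟨j, hyj⟩ : ∃ i, (G false).Adj y (c (2 * i)) := by
    rcases hay.ev_od with h' | ⟨i, hi⟩
    · exact h'
    · exact absurd hi (h2 i)
  have hk := hc.pos
  have hclv := m1_cl S hc h hxi
  have hN := h.len
  have hle := S.le
  obtain ⟨p, hp⟩ := h.cp.sq
  rw [hl] at hp
  -- degree of y
  have hdy := deg_cl h.nd hcly
  have hdy2 := S.deg false y
  have hwy := cp_lt (G := G) (g := false) h.cp.snd_mem
  rw [cw_eq_zero (P := fun i => (G false).Adj y (c (2 * i + 1))) (fun i _ => h2 _)] at hdy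
  -- the index set
  set O : ℤ → Prop := fun t => (G false).Adj y (c (2 * (i - t))) with hO
  have hOc : cw 0 k O = cw 0 k (fun i => (G false).Adj y (c (2 * i))) :=
    cw_revs (T := fun i => (G false).Adj y (c (2 * i))) (evP hc false y) i
  have hOge : k + 1 ≤ cw 0 k O + l := by omega
  have hex : ∃ t : ℕ, t < k ∧ O t := by
    have hpos : 0 < cw 0 k (fun i => (G false).Adj y (c (2 * i))) := by
      rw [← cw_base (evP hc false y) j]
      exact cw_pos (s := 0) hk (by simpa using hyj)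
    rw [← hOc, cw_pos_iff] at hpos
    obtain ⟨t, ht, ht'⟩ := hpos
    exact ⟨t, ht, by simpa using ht'⟩
  obtain ⟨t1, ⟨ht1, hO1⟩, hmax⟩ := exists_greatest (b := k) hex (fun t ht => ht.1.le)
  obtain ⟨t0, ⟨ht0, hO0⟩, hmin⟩ : ∃ t0 : ℕ, (t0 < k ∧ O t0) ∧ ∀ t : ℕ, t < k ∧ O t → t0 ≤ t :=
    ⟨Nat.find hex, Nat.find_spec hex, fun t ht => Nat.find_min' hex ht⟩
  have hOle : cw 0 k O ≤ t1 + 1 - t0 := by
    apply cw_le_interval
    intro t ht hOt
    rw [zero_add] at hOt
    exact ⟨hmin t ⟨ht, hOt⟩, by have := hmax t ⟨ht, hOt⟩; omega⟩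
  -- the degree of v
  have hdv := deg_cl h.nd hclv
  have hdv2 := S.deg true (c (2 * i))
  rw [hp.countP, cw_par'] at hdv
  have b0 : cw 0 k (fun t => (G true).Adj (c (2 * i)) (c (2 * t + 1))) ≤ k := cw_le _ _ _
  have b1 : cw 0 k (fun t => (G true).Adj (c (2 * i)) (c (2 * t))) ≤ t0 := by
    rw [← cw_revs (T := fun t => (G true).Adj (c (2 * i)) (c (2 * t)))
      (evP hc true (c (2 * i))) i]
    have : t0 = t0 + 1 - 1 := by omega
    rw [this]
    apply cw_le_interval
    intro t ht hadj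
    rw [zero_add] at hadj
    have ht0' : t ≠ 0 := by
      rintro rfl
      simp at hadj
    refine ⟨by omega, ?_⟩
    by_contra hcon
    have hgap : ∀ s : ℕ, t - l ≤ s → s < t → ¬ O s := by
      intro s hs1 hs2 hs3
      have := m1_a S hc h hl hxi ht hadj hs2 hs3
      omega
    have h5 := m1_a S hc h hl hxi ht hadj (t := t0) (by omega) hO0
    have := cw_avoid (T := O) (k := k) hgap (by omega)
    omega
  have b2 : cw 0 l (fun t => (G true).Adj (c (2 * i)) (p (2 * t + 1))) = 0 := by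
    apply cw_eq_zero
    intro t ht hadj
    rw [zero_add] at hadj
    exact m1_c S hc h hxi hp (s := 2 * t + 1) (by omega) (by omega) (by push_cast; exact hadj)
  have b3 : cw 0 (l + 1) (fun t => (G true).Adj (c (2 * i)) (p (2 * t))) ≤
      (l + 1) - (l + 1 - (k - t1)) := by
    apply cw_le_interval
    intro t ht hadj
    rw [zero_add] at hadj
    refine ⟨?_, by omega⟩
    have ht0' : t ≠ 0 := by
      rintro rfl
      rw [Nat.cast_zero, mul_zero, hp.fst] at hadj
      exact h1 i hadj.symm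
    have := m1_b S hc h hxi hp (s := 2 * t) (by omega) (by omega) (by omega)
      (by push_cast; exact hadj) ht1 hO1
    omega
  have h01 := hmin t1 ⟨ht1, hO1⟩
  omega

end m1

/-- case M2 is impossible -/
theorem m2_false (S : Cx G d N k) (hc : Cyc G c k) (h : BP G N c k true x false y P)
    (hl : P.length = 2 * l + 1) (hl1 : 1 ≤ l) (hay : Att G c false y)
    (h1 : ∀ i, ¬ (G true).Adj x (c (2 * i + 1))) (h2 : ∀ i, ¬ (G false).Adj y (c (2 * i))) :
    False := by
  have h' := (h.refl hc).1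
  apply m1_false S hc.refl.1 h' hl hl1
  · obtain ⟨t, ht⟩ := hay
    exact ⟨1 - t, by simpa using ht⟩
  · intro i
    have := h1 (-i)
    rw [refl_even c] at this
    simpa using this
  · intro i
    have := h2 (-i)
    rw [refl_odd c] at this
    simpa using this

end odd

end Pool.Agent.Helper458
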