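import Pool.Agent.Helper458.PC4

set_option autoImplicit false
set_option linter.unusedSectionVars false

namespace Pool.Agent.Helper458

open Classical

variable {V : Type*} [Fintype V] {G : Bool → SimpleGraph V} {d N k l : ℕ}
  {c : ℤ → V} {a b : Bool} {x y : V} {P : List V}

/-- complete to a list -/
def Kc (G : Bool → SimpleGraph V) (g : Bool) (w : V) (P : List V) : Prop :=
  ∀ z ∈ P, w ≠ z → (G g).Adj w z

theorem Sq.rev {p : ℤ → V} {q : ℕ} (h : Sq G a x b y P p q) (hb : CP G a x b y P) :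
    Sq G b y a x P.reverse (fun t => p (q - 1 - t)) q := by
  have hpos := h.pos
  refine ⟨by simpa using h.len, hpos, ?_, ?_, ?_, ?_, ?_⟩
  · rw [← h.sg]
    simp only [seg]
    apply List.ext_getElem
    · simp
    · intro n h1 h2
      simp only [List.length_map, List.length_range] at h1
      simp only [List.getElem_map, List.getElem_range, List.getElem_reverse,
        List.length_map, List.length_range]
      congr 1
      omega
  · show p _ = y
    rw [← h.lst]; congr 1; ring
  · show p _ = x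
    rw [← h.fst]; congr 1; ring
  · intro t ht
    have := h.adj (q - 2 - t) (by omega)
    have e1 : fcol a (q - 2 - t + 1) = fcol b (t + 1) := by
      rw [h.col]
      unfold fcol
      split_ifs <;> first | rfl | (exfalso; omega) | simp
    rw [e1] at this
    have e2 : ((q : ℤ) - 1 - t) = ((q - 2 - t : ℕ) : ℤ) + 1 := by omega
    have e3 : ((q : ℤ) - 1 - (t + 1)) = ((q - 2 - t : ℕ) : ℤ) := by omega
    show (G (fcol b (t + 1))).Adj (p _) (p _)
    rw [e2, e3]
    exact this.symm
  · have := hb.rev.par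
    rw [List.length_reverse, h.len] at this
    exact this

theorem fcol_not (a : Bool) (s : ℕ) : fcol (!a) s = !fcol a s := by
  unfold fcol; split_ifs <;> simp

theorem Sq.swp {p : ℤ → V} {q : ℕ} (h : Sq G a x b y P p q) :
    Sq (sw G) (!a) x (!b) y P p q := by
  refine ⟨h.len, h.pos, h.sg, h.fst, h.lst, ?_, ?_⟩
  · intro t ht
    have := h.adj t ht
    rw [fcol_not, sw_apply, Bool.not_not]
    exact this
  · rw [fcol_not, h.col]

theorem dc_cp (L : List V) : ∀ (u : V) (a : Bool),
    (∀ g, ∀ u' ∈ u :: L, ∀ v ∈ u :: L, u' ≠ v → (G g).Adj u' v) → (u :: L).Nodup →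
    CP G a u (fcol a (L.length + 1)) ((u :: L).getLast (by simp)) (u :: L) := by
  induction L with
  | nil =>
    intro u a _ _
    simpa [fcol] using CP.single (G := G) a u
  | cons w L ih =>
    intro u a h hnd
    rw [List.length_cons, fcol_succ, List.getLast_cons (by simp)]
    apply CP.cons _ _ w
    · apply h _ u (by simp) w (by simp)
      rintro rfl
      simp at hnd
    · exact ih w (!a) (fun g u' hu' v hv => h g u' (List.mem_cons_of_mem _ hu') v
        (List.mem_cons_of_mem _ hv)) (List.nodup_cons.mp hnd).2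

/-- a double clique has all spanning paths -/
theorem dc_path (hK : ∀ g, ∀ u ∈ P, Kc G g u P) (hnd : P.Nodup) {w w' : V} (hw : w ∈ P)
    (hw' : w' ∈ P) (hww : w ≠ w') (a : Bool) :
    ∃ P', CP G a w (fcol a P.length) w' P' ∧ (P' : Multiset V) = (P : Multiset V) := by
  have h1 : P.Perm (w :: P.erase w) := List.perm_cons_erase hw
  have h2 : w' ∈ P.erase w := (List.mem_erase_of_ne (Ne.symm hww)).mpr hw'
  have h3 : (P.erase w).Perm (w' :: (P.erase w).erase w') := List.perm_cons_erase h2
  set Q := (P.erase w).erase w' with hQ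
  have h4 : (w' :: Q).Perm (Q ++ [w']) := (List.perm_append_singleton _ _).symm
  have h5 : P.Perm (w :: (Q ++ [w'])) := h1.trans ((h3.trans h4).cons w)
  have h6 := dc_cp (G := G) (Q ++ [w']) w a (fun g u' hu' v hv huv =>
    hK g u' (h5.mem_iff.mpr hu') v (h5.mem_iff.mpr hv) huv) (h5.nodup_iff.mp hnd)
  refine ⟨w :: (Q ++ [w']), ?_, Multiset.coe_eq_coe.mpr h5.symm⟩
  have e1 : (w :: (Q ++ [w'])).getLast (by simp) = w' := by simp
  have e2 : (Q ++ [w']).length + 1 = P.length := by rw [h5.length_eq]; simp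
  rw [e1, e2] at h6
  exact h6

/-- a third element -/
theorem third (hnd : P.Nodup) (h3 : 3 ≤ P.length) (u v : V) : ∃ w ∈ P, w ≠ u ∧ w ≠ v := by
  by_contra hcon
  push Not at hcon
  have hsub : P.toFinset ⊆ {u, v} := by
    intro w hw
    rw [List.mem_toFinset] at hw
    simp only [Finset.mem_insert, Finset.mem_singleton]
    by_cases h : w = u
    · exact Or.inl h
    · exact Or.inr (hcon w hw h)
  have := Finset.card_le_card hsub
  rw [List.toFinset_card_of_nodup hnd] at this
  have := Finset.card_le_two (a := u) (b := v)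
  omega

/-- type F -/
structure FT (G : Bool → SimpleGraph V) (d k l : ℕ) (c : ℤ → V) (x y : V) (P : List V) : Prop where
  deq : d = k + l + 1
  fx : Kc G true x P
  fy : Kc G false y P
  lk : l + 1 ≤ k
  e1 : ∀ i, (G true).Adj x (c (2 * i)) ↔ gap (fun j => (G false).Adj y (c (2 * j))) l i
  e1' : ∀ j, (G false).Adj y (c (2 * j)) ↔ gap' (fun i => (G true).Adj x (c (2 * i))) l j
  e2 : ∀ i, (G false).Adj y (c (2 * i + 1)) ↔ gap (fun j => (G true).Adj x (c (2 * j + 1))) l i
  e2' : ∀ j, (G true).Adj x (c (2 * j + 1)) ↔ gap' (fun i => (G false).Adj y (c (2 * i + 1))) l j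
  xe : ∃ i, (G true).Adj x (c (2 * i))
  ye : ∃ i, (G false).Adj y (c (2 * i))
  xo : ∃ i, (G true).Adj x (c (2 * i + 1))
  yo : ∃ i, (G false).Adj y (c (2 * i + 1))

theorem cw_pos_of {k : ℕ} (hk : 0 < k) {T : ℤ → Prop} (hper : ∀ t, T (t + k) ↔ T t)
    (h : ∃ i, T i) : 1 ≤ cw 0 k T := by
  obtain ⟨i, hi⟩ := h
  rw [← cw_base hper i]
  exact cw_pos (s := 0) hk (by simpa using hi)

theorem cw_none {k : ℕ} {T : ℤ → Prop} (h : ¬ ∃ i, T i) : cw 0 k T = 0 :=
  cw_eq_zero (fun _ _ hi => h ⟨_, hi⟩)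

theorem odd_type (S : Cx G d N k) (hc : Cyc G c k) (h : BP G N c k true x false y P)
    (hl : P.length = 2 * l + 1) (hl1 : 1 ≤ l) (hay : Att G c false y) : FT G d k l c x y P := by
  obtain ⟨hclx, hax, hcly⟩ := S.att2 hc h hay
  have hk := hc.pos
  have hN := h.len
  have hle := S.le
  have dx := deg_cl h.nd hclx
  have dy := deg_cl h.nd hcly
  have dx2 := S.deg true x
  have dy2 := S.deg false y
  have wx := cp_lt (G := G) (g := true) h.cp.fst_mem
  have wy := cp_lt (G := G) (g := false) h.cp.snd_mem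
  have r1 := fun (h1 : ∃ i, (G true).Adj x (c (2 * i))) (h2 : ∃ i, (G false).Adj y (c (2 * i))) =>
    hr_count (P := fun i => (G true).Adj x (c (2 * i))) (Q := fun i => (G false).Adj y (c (2 * i)))
      hk hl1 (evP hc true x) (evP hc false y)
      (fun j r hr h1 h2 => rule1 S hc h hl hr h1 h2) h1 h2
  have r1' := fun (h1 : ∃ i, (G true).Adj x (c (2 * i))) (h2 : ∃ i, (G false).Adj y (c (2 * i))) =>
    hr_count' (P := fun i => (G true).Adj x (c (2 * i))) (Q := fun i => (G false).Adj y (c (2 * i)))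
      hk hl1 (evP hc true x) (evP hc false y)
      (fun j r hr h1 h2 => rule1 S hc h hl hr h1 h2) h1 h2
  have r2 := fun (h1 : ∃ i, (G false).Adj y (c (2 * i + 1)))
      (h2 : ∃ i, (G true).Adj x (c (2 * i + 1))) =>
    hr_count (P := fun i => (G false).Adj y (c (2 * i + 1)))
      (Q := fun i => (G true).Adj x (c (2 * i + 1)))
      hk hl1 (odP hc false y) (odP hc true x)
      (fun j r hr h1 h2 => rule2 S hc h hl hr h1 h2) h1 h2
  have r2' := fun (h1 : ∃ i, (G false).Adj y (c (2 * i + 1)))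
      (h2 : ∃ i, (G true).Adj x (c (2 * i + 1))) =>
    hr_count' (P := fun i => (G false).Adj y (c (2 * i + 1)))
      (Q := fun i => (G true).Adj x (c (2 * i + 1)))
      hk hl1 (odP hc false y) (odP hc true x)
      (fun j r hr h1 h2 => rule2 S hc h hl hr h1 h2) h1 h2
  have pex := cw_pos_of (T := fun i => (G true).Adj x (c (2 * i))) hk (evP hc true x)
  have pox := cw_pos_of (T := fun i => (G true).Adj x (c (2 * i + 1))) hk (odP hc true x)
  have pey := cw_pos_of (T := fun i => (G false).Adj y (c (2 * i))) hk (evP hc false y)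
  have poy := cw_pos_of (T := fun i => (G false).Adj y (c (2 * i + 1))) hk (odP hc false y)
  have key1 : ¬ ((¬ ∃ i, (G true).Adj x (c (2 * i))) ∧ ¬ ∃ i, (G false).Adj y (c (2 * i + 1))) := by
    rintro ⟨h1, h2⟩
    exact m1_false S hc h hl hl1 hay (fun i hi => h1 ⟨i, hi⟩) (fun i hi => h2 ⟨i, hi⟩)
  have key2 : ¬ ((¬ ∃ i, (G true).Adj x (c (2 * i + 1))) ∧ ¬ ∃ i, (G false).Adj y (c (2 * i))) := by
    rintro ⟨h1, h2⟩
    exact m2_false S hc h hl hl1 hay (fun i hi => h1 ⟨i, hi⟩) (fun i hi => h2 ⟨i, hi⟩)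
  have hxe : ∃ i, (G true).Adj x (c (2 * i)) := by
    by_contra h1
    have h2 : ∃ i, (G false).Adj y (c (2 * i + 1)) := by
      by_contra h2; exact key1 ⟨h1, h2⟩
    have h3 : ∃ i, (G true).Adj x (c (2 * i + 1)) := by
      rcases hax.ev_od with h3 | h3
      · exact absurd h3 h1
      · exact h3
    have z := cw_none (k := k) h1
    have := (r2 h2 h3).2.1
    have := poy h2
    omega
  have hyo : ∃ i, (G false).Adj y (c (2 * i + 1)) := by
    by_contra h1
    have h2 : ∃ i, (G false).Adj y (c (2 * i)) := by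
      rcases hay.ev_od with h3 | h3
      · exact h3
      · exact absurd h3 h1
    have z := cw_none (k := k) h1
    have := (r1 hxe h2).2.1
    have := pex hxe
    omega
  have hxo : ∃ i, (G true).Adj x (c (2 * i + 1)) := by
    by_contra h1
    have h2 : ∃ i, (G false).Adj y (c (2 * i)) := by
      by_contra h2; exact key2 ⟨h1, h2⟩
    have z := cw_none (k := k) h1
    have := (r1 hxe h2).2.1
    have := pey h2
    omega
  have hye : ∃ i, (G false).Adj y (c (2 * i)) := by
    by_contra h1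
    have z := cw_none (k := k) h1
    have := (r2 hyo hxo).2.1
    have := pox hxo
    omega
  obtain ⟨a1, a2, a3, a4⟩ := r1 hxe hye
  obtain ⟨b3, b4⟩ := r1' hxe hye
  obtain ⟨c1, c2, c3, c4⟩ := r2 hyo hxo
  obtain ⟨d3, d4⟩ := r2' hyo hxo
  have s1 : cw 0 k (fun i => (G true).Adj x (c (2 * i))) +
    cw 0 k (fun i => (G false).Adj y (c (2 * i))) + l = k + 1 := by omega
  have s2 : cw 0 k (fun i => (G false).Adj y (c (2 * i + 1))) +
    cw 0 k (fun i => (G true).Adj x (c (2 * i + 1))) + l = k + 1 := by omega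
  refine ⟨by omega, ?_, ?_, a1, ?_, ?_, ?_, ?_, hxe, hye, hxo, hyo⟩
  · intro z hz hxz
    exact cp_full h.cp.fst_mem hz hxz h.ndP (by omega)
  · intro z hz hyz
    exact cp_full h.cp.snd_mem hz hyz h.ndP (by omega)
  · exact fun i => ⟨a3 i, a4 s1 i⟩
  · exact fun i => ⟨b3 i, b4 s1 i⟩
  · exact fun i => ⟨c3 i, c4 s2 i⟩
  · exact fun i => ⟨d3 i, d4 s2 i⟩

/-- odd positions are complete -/
theorem odd_A (S : Cx G d N k) (hc : Cyc G c k) (h : BP G N c k true x false y P)
    (hl : P.length = 2 * l + 1) (hl1 : 1 ≤ l) (hay : Att G c false y) {p : ℤ → V}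
    (hp : Sq G true x false y P p (2 * l + 1)) {s : ℕ} (hs : s % 2 = 1) (hsl : s < 2 * l + 1) :
    Kc G true (p s) P ∧ Att G c true (p s) := by
  have hF := odd_type S hc h hl hl1 hay
  have h1 := (hp.pre (s := s) hsl).rev
  have h2 := hp.suf (s := s + 1) (by omega)
  rw [fcol_even _ (by omega : (s + 1) % 2 = 0)] at h1 h2
  have hx : (G true).Adj x (p ((s + 1 : ℕ) : ℤ)) := by
    apply hF.fx _ (hp.mem (by omega))
    rw [← hp.fst]
    intro he
    have := hp.inj h.ndP (s := 0) (t := s + 1) (by omega) (by omega) (by simpa using he)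
    omega
  have h3 := h1.append hx h2
  have hm : (((seg p 0 (s + 1)).reverse ++ seg p ((s + 1 : ℕ) : ℤ) (2 * l + 1 - (s + 1)) : List V) :
      Multiset V) = (P : Multiset V) := by
    rw [← Multiset.coe_add, Multiset.coe_reverse, hp.split (by omega)]
  have h4 := h.of_perm h3 hm
  have hmem : ∀ z, z ∈ P → z ∈ ((seg p 0 (s + 1)).reverse ++
      seg p ((s + 1 : ℕ) : ℤ) (2 * l + 1 - (s + 1))) := by
    intro z hz
    have : z ∈ (P : Multiset V) := by simpa using hz
    rw [← hm] at this
    simpa using this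
  have hlen : ((seg p 0 (s + 1)).reverse ++ seg p ((s + 1 : ℕ) : ℤ) (2 * l + 1 - (s + 1))).length
      = 2 * l + 1 := by
    have := congrArg Multiset.card hm
    rw [Multiset.coe_card, Multiset.coe_card, hl] at this
    exact this
  have hF' := odd_type S hc h4 hlen hl1 hay
  refine ⟨fun z hz hne => hF'.fx z (hmem z hz) hne, ?_⟩
  exact (S.att hc h4 hay).2

theorem odd_B (S : Cx G d N k) (hc : Cyc G c k) (h : BP G N c k true x false y P)
    (hl : P.length = 2 * l + 1) (hl1 : 1 ≤ l) (hay : Att G c false y) {p : ℤ → V}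
    (hp : Sq G true x false y P p (2 * l + 1)) {s : ℕ} (hs : s % 2 = 1) (hsl : s < 2 * l + 1) :
    Kc G false (p s) P ∧ Att G c false (p s) := by
  have hax := (S.att2 hc h hay).2.1
  have h' := (h.swp hc).1.rev
  have hp' := hp.swp.rev (h.cp.swp)
  have := odd_A S.swp hc.swp h' (by simpa using hl) hl1 (by
    obtain ⟨t, ht⟩ := hax
    exact ⟨t - 1, by simpa using ht⟩) hp' (s := 2 * l - s) (by omega) (by omega)
  have e : (((2 * l + 1 : ℕ) : ℤ) - 1 - ((2 * l - s : ℕ) : ℤ)) = s := by omega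
  rw [e] at this
  refine ⟨fun z hz hne => by simpa using this.1 z (by simpa using hz) hne, ?_⟩
  obtain ⟨t, ht⟩ := this.2
  exact ⟨t + 1, by simpa using ht⟩

/-- every vertex is complete in colour `true` -/
theorem odd_C (S : Cx G d N k) (hc : Cyc G c k) (h : BP G N c k true x false y P)
    (hl : P.length = 2 * l + 1) (hl1 : 1 ≤ l) (hay : Att G c false y) :
    ∀ w ∈ P, Kc G true w P ∧ Att G c true w := by
  obtain ⟨p, hp⟩ := h.cp.sq
  rw [hl] at hp
  intro w hw
  obtain ⟨s, hs, rfl⟩ := hp.ex hw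
  have hF := odd_type S hc h hl hl1 hay
  rcases Nat.eq_zero_or_pos s with rfl | hs0
  · rw [Nat.cast_zero, hp.fst]
    exact ⟨hF.fx, (S.att2 hc h hay).2.1⟩
  rcases Nat.even_or_odd' s with ⟨m, hm | hm⟩
  swap
  · exact odd_A S hc h hl hl1 hay hp (by omega) hs
  -- even positions
  have h1 := hp.suf hs
  rw [fcol_even _ (by omega : s % 2 = 0)] at h1
  have hflip : ∀ t : ℕ, t + 1 < 2 * l + 1 → (G (fcol false (t + 1))).Adj (p t) (p (t + 1)) := by
    intro t ht
    have hne : p t ≠ p ((t + 1 : ℕ) : ℤ) := by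
      intro he
      have := hp.inj h.ndP (by omega) (by omega) he
      omega
    have hall : ∀ s : ℕ, s % 2 = 1 → s < 2 * l + 1 → ∀ g, Kc G g (p s) P := by
      intro s hs1 hs2 g
      cases g
      · exact (odd_B S hc h hl hl1 hay hp hs1 hs2).1
      · exact (odd_A S hc h hl hl1 hay hp hs1 hs2).1
    rw [show (t : ℤ) + 1 = ((t + 1 : ℕ) : ℤ) by push_cast; ring]
    by_cases ht2 : t % 2 = 1
    · exact hall t ht2 (by omega) _ _ (hp.mem (by omega)) hne
    · exact (hall (t + 1) (by omega) (by omega) _ _ (hp.mem (by omega)) (Ne.symm hne)).symm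
  have h2 := cp_sub hflip 0 (s - 1) (by omega)
  rw [fcol_zero, show 0 + (s - 1) + 1 = s by omega, fcol_even _ (by omega : s % 2 = 0),
    show s - 1 + 1 = s by omega, Nat.cast_zero, zero_add, hp.fst] at h2
  have hyx : (G false).Adj y x := by
    apply hF.fy _ h.cp.fst_mem
    rw [← hp.fst, ← hp.lst]
    intro he
    have := hp.inj h.ndP (s := 2 * l) (t := 0) (by omega) (by omega) (by
      rw [Nat.cast_zero, ← he]; congr 1; push_cast; ring)
    omega
  have h3 := h1.append hyx h2
  have hm : ((seg p s (2 * l + 1 - s) ++ seg p 0 s : List V) : Multiset V) = (P : Multiset V) := by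
    rw [← Multiset.coe_add, add_comm, hp.split (by omega)]
  have h4 := h.of_perm h3 hm
  have hmem : ∀ z, z ∈ P → z ∈ (seg p s (2 * l + 1 - s) ++ seg p 0 s) := by
    intro z hz
    have : z ∈ (P : Multiset V) := by simpa using hz
    rw [← hm] at this
    simpa using this
  have hlen : (seg p s (2 * l + 1 - s) ++ seg p 0 s).length = 2 * l + 1 := by
    have := congrArg Multiset.card hm
    rw [Multiset.coe_card, Multiset.coe_card, hl] at this
    exact this
  have hatt := (odd_B S hc h hl hl1 hay hp (s := s - 1) (by omega) (by omega)).2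
  have hF' := odd_type S hc h4 hlen hl1 hatt
  exact ⟨fun z hz hne => hF'.fx z (hmem z hz) hne, (S.att hc h4 hatt).2⟩

/-- uniformity -/
def UF (G : Bool → SimpleGraph V) (c : ℤ → V) (P : List V) : Prop :=
  ∀ g t, ∀ w ∈ P, ∀ w' ∈ P, (G g).Adj w (c t) ↔ (G g).Adj w' (c t)

theorem odd_D (S : Cx G d N k) (hc : Cyc G c k) (h : BP G N c k true x false y P)
    (hl : P.length = 2 * l + 1) (hl1 : 1 ≤ l) (hay : Att G c false y) :
    (∀ g, ∀ w ∈ P, Kc G g w P ∧ Att G c g w) := by
  intro g
  cases g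
  · intro w hw
    have hax := (S.att2 hc h hay).2.1
    have h' := (h.swp hc).1.rev
    have := odd_C S.swp hc.swp h' (by simpa using hl) hl1 (by
      obtain ⟨t, ht⟩ := hax
      exact ⟨t - 1, by simpa using ht⟩) w (by simpa using hw)
    refine ⟨fun z hz hne => by simpa using this.1 z (by simpa using hz) hne, ?_⟩
    obtain ⟨t, ht⟩ := this.2
    exact ⟨t + 1, by simpa using ht⟩
  · exact odd_C S hc h hl hl1 hay

theorem odd_pair (S : Cx G d N k) (hc : Cyc G c k) (h : BP G N c k true x false y P)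
    (hl : P.length = 2 * l + 1) (hl1 : 1 ≤ l) (hay : Att G c false y) {w w' : V} (hw : w ∈ P)
    (hw' : w' ∈ P) (hne : w ≠ w') : FT G d k l c w w' P := by
  have hD := odd_D S hc h hl hl1 hay
  obtain ⟨P', h1, h2⟩ := dc_path (fun g u hu => (hD g u hu).1) h.ndP hw hw' hne true
  rw [hl, fcol_odd _ (by omega)] at h1
  have h3 := h.of_perm h1 h2
  have hlen : P'.length = 2 * l + 1 := by
    have := congrArg Multiset.card h2
    rw [Multiset.coe_card, Multiset.coe_card, hl] at this
    exact this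
  have hF := odd_type S hc h3 hlen hl1 (hD false w' hw').2
  have hmem : ∀ z, z ∈ P → z ∈ P' := by
    intro z hz
    have : z ∈ (P : Multiset V) := by simpa using hz
    rw [← h2] at this
    simpa using this
  exact ⟨hF.deq, fun z hz => hF.fx z (hmem z hz), fun z hz => hF.fy z (hmem z hz), hF.lk, hF.e1,
    hF.e1', hF.e2, hF.e2', hF.xe, hF.ye, hF.xo, hF.yo⟩

theorem odd_uf (S : Cx G d N k) (hc : Cyc G c k) (h : BP G N c k true x false y P)
    (hl : P.length = 2 * l + 1) (hl1 : 1 ≤ l) (hay : Att G c false y) : UF G c P := by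
  intro g t w hw w' hw'
  obtain ⟨z, hz, hz1, hz2⟩ := third h.ndP (by omega) w w'
  have f1 := odd_pair S hc h hl hl1 hay hw hz (Ne.symm hz1)
  have f2 := odd_pair S hc h hl hl1 hay hw' hz (Ne.symm hz2)
  have f3 := odd_pair S hc h hl hl1 hay hz hw hz1
  have f4 := odd_pair S hc h hl hl1 hay hz hw' hz2
  rcases Int.even_or_odd' t with ⟨i, rfl | rfl⟩
  · cases g
    · rw [f3.e1', f4.e1']
    · rw [f1.e1, f2.e1]
  · cases g
    · rw [f3.e2, f4.e2]
    · rw [f1.e2', f2.e2']

/-- the odd case is impossible -/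
theorem odd_false (S : Cx G d N k) (hc : Cyc G c k) (h : BP G N c k true x false y P)
    (hl : P.length = 2 * l + 1) (hl1 : 1 ≤ l) (hay : Att G c false y) : False := by
  have hF := odd_type S hc h hl hl1 hay
  have hU := odd_uf S hc h hl hl1 hay
  have hk := hc.pos
  have hxP := h.cp.fst_mem
  have hyP := h.cp.snd_mem
  obtain ⟨i, hi, hi'⟩ := cyc_step hk (T := fun i => (G true).Adj x (c (2 * i))) (evP hc true x) hF.xe
    (by
      obtain ⟨j, hj⟩ := hF.ye
      refine ⟨j - 1, ?_⟩
      have := (hF.e1' j).mp hj 1 le_rfl hl1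
      simpa using this)
  have g1 := (hF.e1 i).mp hi
  have hyj : (G false).Adj y (c (2 * (i + l + 1))) := by
    by_contra hcon
    apply hi'
    show (G true).Adj x (c (2 * (i + 1)))
    rw [hF.e1]
    intro s hs1 hs2
    by_cases hsl : s = l
    · subst hsl
      show ¬ (G false).Adj y (c (2 * (i + 1 + s)))
      rw [show i + 1 + (s : ℤ) = i + s + 1 by ring]
      exact hcon
    · have := g1 (s + 1) (by omega) (by omega)
      rw [show i + ((s + 1 : ℕ) : ℤ) = i + 1 + s by push_cast; ring] at this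
      exact this
  have g2 := (hF.e1' _).mp hyj
  have hlk := hF.lk
  -- the new cycle
  have hC := (hc.sTT (i + l + 1) (k - l - 1)).append (w := x) (by
    rw [show 2 * (i + l + 1 + ((k - l - 1 : ℕ) : ℤ)) = 2 * i + 2 * k by omega, hc.per]
    exact hi.symm) h.cp
  have hUc := hc.sFF i l
  set L := seg c (2 * (i + l + 1)) (2 * (k - l - 1) + 1) ++ P with hL
  set U := seg c (2 * i + 1) (2 * l + 1) with hUdef
  have hm : (L : Multiset V) + (U : Multiset V) = Ms c k P := by
    rw [Ms, hL, hUdef, ← Multiset.coe_add,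
      ← arc_split hc (2 * i + 1) (m := 2 * l + 1) (n := 2 * (k - l - 1) + 1) (by omega),
      show 2 * i + 1 + ((2 * l + 1 : ℕ) : ℤ) = 2 * (i + l + 1) by push_cast; ring]
    abel
  have hLC := isC_of h hC hyj hm
  obtain ⟨c', k', hc', hk', hcL⟩ := exists_Cyc hLC
  have hLlen : L.length = 2 * k := by
    rw [hL, List.length_append, seg_length, hl]; omega
  have hkk : k' = k := by omega
  subst hkk
  have hMs : Ms c' k' U = Ms c k' P := by rw [Ms, hcL, hm]
  have hB : BP G N c' k' true (c (2 * i + 1)) false (c (2 * (i + l) + 1)) U := by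
    refine ⟨hUc, by rw [hMs]; exact h.nd, ?_⟩
    rw [hUdef, seg_length, ← hl]; exact h.len
  have hmemL : ∀ v ∈ L, ∃ t, c' t = v := by
    intro v hv
    have : v ∈ ((seg c' 0 (2 * k') : List V) : Multiset V) := by rw [hcL]; simpa using hv
    rw [Multiset.mem_coe, mem_seg] at this
    obtain ⟨t, _, ht⟩ := this
    exact ⟨_, ht⟩
  have hatt : Att G c' false (c (2 * (i + l) + 1)) := by
    have h1 : Att G c' true (c (2 * i + 1)) := by
      obtain ⟨t, ht⟩ := hmemL (c (2 * i)) (by
        rw [hL, List.mem_append, mem_seg]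
        left
        refine ⟨2 * (k' - l - 1), by omega, ?_⟩
        rw [show 2 * (i + l + 1) + ((2 * (k' - l - 1) : ℕ) : ℤ) = 2 * i + 2 * k' by omega, hc.per])
      exact ⟨t, by rw [ht]; exact (hc.arrT i).symm⟩
    exact (S.att hc' hB.rev h1).2
  have hU' := odd_uf S hc' hB (l := l) (by rw [hUdef, seg_length]) hl1 hatt
  have hUmem : ∀ s : ℕ, s < 2 * l + 1 → c (2 * i + 1 + s) ∈ U := by
    intro s hs
    rw [hUdef, mem_seg]
    exact ⟨s, hs, rfl⟩
  -- no edges between U and P
  have hno : ∀ g, ∀ u ∈ U, ∀ w ∈ P, ¬ (G g).Adj u w := by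
    intro g u hu w hw hadj
    obtain ⟨t, ht⟩ := hmemL w (by rw [hL, List.mem_append]; exact Or.inr hw)
    rw [← ht] at hadj
    have hv0 : c (2 * (i + l)) ∈ U := by
      have := hUmem (2 * l - 1) (by omega)
      rwa [show 2 * i + 1 + ((2 * l - 1 : ℕ) : ℤ) = 2 * (i + l) by omega] at this
    have h1 := (hU' g t u hu _ hv0).mp hadj
    rw [ht] at h1
    cases g
    · have h2 := (hU false (2 * (i + l)) w hw y hyP).mp h1.symm
      exact g1 l hl1 le_rfl h2
    · have h2 := (hU true (2 * (i + l)) w hw x hxP).mp h1.symm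
      have := g2 1 le_rfl hl1
      rw [show i + (l : ℤ) + 1 - ((1 : ℕ) : ℤ) = i + l by push_cast; ring] at this
      exact this h2
  have hfin : (G false).Adj y (c (2 * i + 1)) := by
    rw [hF.e2]
    intro s hs1 hs2 hadj
    have h1 := hUmem (2 * s) (by omega)
    rw [show 2 * i + 1 + ((2 * s : ℕ) : ℤ) = 2 * (i + s) + 1 by push_cast; ring] at h1
    exact hno true _ h1 x hxP hadj.symm
  have h1 := hUmem 0 (by omega)
  rw [Nat.cast_zero, add_zero] at h1
  exact hno false _ h1 y hyP hfin.symm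

end Pool.Agent.Helper458
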