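import Pool.Agent.Helper458.PC5

set_option autoImplicit false
set_option linter.unusedSectionVars false

namespace Pool.Agent.Helper458

open Classical

variable {V : Type*} [Fintype V] {G : Bool → SimpleGraph V} {d N k l : ℕ}
  {c : ℤ → V} {a b : Bool} {x y : V} {P : List V}

theorem ruleE (S : Cx G d N k) (hc : Cyc G c k) (h : BP G N c k false x false y P)
    (hl : P.length = 2 * l) {j : ℤ} {r : ℕ} (hr : r < k)
    (hy : (G false).Adj y (c (2 * j))) (hx : (G false).Adj x (c (2 * (j + r) + 1))) :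
    l + 1 + r ≤ k := by
  have hC := (hc.sTF j r).append hx.symm h.cp
  by_cases hrk : r + 1 = k
  · exfalso
    refine S.cm h hC hy ?_
    rw [← Multiset.coe_add, show 2 * r + 2 = 2 * k by omega, hc.coe]
    rfl
  · have hR := hc.sTF (j + r + 1) (k - 2 - r)
    have hm : ((seg c (2 * j) (2 * r + 2) ++ P : List V) : Multiset V) +
        ((seg c (2 * (j + r + 1)) (2 * (k - 2 - r) + 2) : List V) : Multiset V) = Ms c k P := by
      rw [Ms, ← arc_split hc (2 * j) (m := 2 * r + 2) (n := 2 * (k - 2 - r) + 2) (by omega),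
        ← Multiset.coe_add]
      rw [show 2 * j + ((2 * r + 2 : ℕ) : ℤ) = 2 * (j + r + 1) by push_cast; ring]
      abel
    have := S.lm h (isC_of h hC hy hm) hR ⟨c (2 * (j + r) + 1), by
      rw [List.mem_append, mem_seg]
      left
      exact ⟨2 * r + 1, by omega, by congr 1; push_cast; ring⟩, by
        have := (hc.arrF (j + r)).symm
        rwa [show 2 * (j + (r : ℤ)) + 2 = 2 * (j + r + 1) by ring] at this⟩ hm
    simp only [List.length_append, seg_length, hl] at this
    omega

section etype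

/-- opening before `c (2j+2)` -/
theorem e_cl (S : Cx G d N k) (hc : Cyc G c k) (h : BP G N c k false x false y P) {j : ℤ}
    (hxj : (G false).Adj x (c (2 * j + 1))) : Cl G false (c (2 * (j + 1))) (Ms c k P) := by
  have h1 := hc.fullT (j + 1)
  rw [show 2 * (j + 1) - 1 = 2 * j + 1 by ring] at h1
  apply S.cl h (h1.append hxj.symm h.cp)
  rw [← Multiset.coe_add, hc.coe]
  rfl

theorem e_one (S : Cx G d N k) (hc : Cyc G c k) (h : BP G N c k false x false y P) {j : ℤ}
    (hxj : (G false).Adj x (c (2 * j + 1))) {p : ℤ → V} {q : ℕ} (hp : Sq G false x false y P p q)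
    {s : ℕ} (hs : s % 2 = 1) (hsq : s < q) : ¬ (G false).Adj (c (2 * (j + 1))) (p s) := by
  intro hcon
  have h1 := hc.fullT (j + 1)
  rw [show 2 * (j + 1) - 1 = 2 * j + 1 by ring] at h1
  have h2 := h1.append hxj.symm (hp.pre hsq)
  rw [fcol_even _ (by omega : (s + 1) % 2 = 0)] at h2
  by_cases hsq' : s + 1 = q
  · refine S.cm h h2 hcon.symm ?_
    rw [← Multiset.coe_add, hc.coe, hsq', hp.sg]
    rfl
  · have h3 := hp.suf (s := s + 1) (by omega)
    rw [fcol_even _ (by omega : (s + 1) % 2 = 0)] at h3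
    have hm : ((seg c (2 * (j + 1)) (2 * k) ++ seg p 0 (s + 1) : List V) : Multiset V) +
        ((seg p ((s + 1 : ℕ) : ℤ) (q - (s + 1)) : List V) : Multiset V) = Ms c k P := by
      rw [Ms, ← Multiset.coe_add, hc.coe, ← hp.split (s := s + 1) (by omega)]
      abel
    have h4 := hp.adj s (by omega)
    rw [fcol_even _ (by omega : (s + 1) % 2 = 0)] at h4
    have := S.lm h (isC_of h h2 hcon.symm hm) h3 ⟨p s, by
      rw [List.mem_append]; right; rw [mem_seg]; exact ⟨s, by omega, by simp⟩, by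
        push_cast; exact h4.symm⟩ hm
    simp only [List.length_append, seg_length] at this
    omega

theorem rep' {k : ℕ} (hk : 0 < k) (i j : ℤ) : ∃ s : ℕ, s < k ∧ ∃ n : ℤ, j = i + s + n * k := by
  have hk : (0 : ℤ) < k := by exact_mod_cast hk
  have h1 := Int.emod_nonneg (j - i) hk.ne'
  have h2 := Int.emod_lt_of_pos (j - i) hk
  refine ⟨((j - i) % k).toNat, by omega, (j - i) / k, ?_⟩
  have h3 := Int.emod_add_mul_ediv (j - i) k
  rw [Int.toNat_of_nonneg h1]
  linarith

theorem Cyc.ev_red (hc : Cyc G c k) (i n : ℤ) : c (2 * (i + n * k)) = c (2 * i) := by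
  rw [show 2 * (i + n * (k : ℤ)) = 2 * i + n * (2 * k) by ring, hc.per_int]

theorem Cyc.od_red (hc : Cyc G c k) (i n : ℤ) : c (2 * (i + n * k) + 1) = c (2 * i + 1) := by
  rw [show 2 * (i + n * (k : ℤ)) + 1 = 2 * i + 1 + n * (2 * k) by ring, hc.per_int]

theorem e_heads (S : Cx G d N k) (hc : Cyc G c k) (h : BP G N c k false x false y P) {j t : ℤ}
    (hxj : (G false).Adj x (c (2 * j + 1))) (hyt : (G false).Adj y (c (2 * t + 1))) :
    ¬ (G false).Adj (c (2 * (j + 1))) (c (2 * (t + 1))) := by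
  intro hcon
  obtain ⟨s, hs, n, rfl⟩ := rep' hc.pos j t
  rw [hc.od_red] at hyt
  rw [show j + s + n * k + 1 = (j + s + 1) + n * k by ring, hc.ev_red] at hcon
  rcases Nat.eq_zero_or_pos s with rfl | hs0
  · simp at hcon
  have h1 := (hc.sTF (j + 1) (s - 1)).rev
  have h2 := hc.sTF (j + s + 1) (k - s - 1)
  rw [show 2 * (j + 1 + ((s - 1 : ℕ) : ℤ)) + 1 = 2 * (j + s) + 1 by omega,
    show 2 * (s - 1) + 2 = 2 * s by omega] at h1
  rw [show 2 * (j + s + 1 + ((k - s - 1 : ℕ) : ℤ)) + 1 = 2 * j + 1 + 2 * k by omega, hc.per,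
    show 2 * (k - s - 1) + 2 = 2 * (k - s) by omega] at h2
  refine S.cm h ((h.cp.append hyt h1).append hcon h2) hxj.symm ?_
  rw [← Multiset.coe_add, ← Multiset.coe_add, Multiset.coe_reverse, Ms,
    ← arc_split hc (2 * (j + 1)) (m := 2 * s) (n := 2 * (k - s)) (by omega),
    show 2 * (j + 1) + ((2 * s : ℕ) : ℤ) = 2 * (j + s + 1) by push_cast; ring]
  abel

/-- at `c (2j+2)` -/
theorem e_count (S : Cx G d N k) (hc : Cyc G c k) (h : BP G N c k false x false y P) {j : ℤ}
    (hxj : (G false).Adj x (c (2 * j + 1))) :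
    d + cw 0 k (fun i => (G false).Adj y (c (2 * i + 1))) ≤
      2 * k + List.countP ((G false).Adj (c (2 * (j + 1)))) P := by
  have h1 := deg_cl h.nd (e_cl S hc h hxj)
  have h2 := S.deg false (c (2 * (j + 1)))
  have h3 : cw 0 k (fun i => (G false).Adj (c (2 * (j + 1))) (c (2 * i + 1))) ≤ k := cw_le _ _ _
  have h4 : cw 0 k (fun i => (G false).Adj (c (2 * (j + 1))) (c (2 * i))) +
      cw 0 k (fun i => (G false).Adj y (c (2 * i + 1))) ≤ k := by
    rw [← cw_base (evP hc false (c (2 * (j + 1)))) 1]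
    apply cw_disj
    rintro i hi ⟨h5, h6⟩
    rw [zero_add] at h6
    rw [add_comm (1 : ℤ) i] at h5
    exact e_heads S hc h hxj h6 h5
  omega

end etype

/-- `IsC` with vertex set `P` -/
def Clo (G : Bool → SimpleGraph V) (P : List V) : Prop :=
  ∃ L, IsC G L ∧ (L : Multiset V) = (P : Multiset V)

section noclose

theorem e_close (S : Cx G d N k) (hc : Cyc G c k) (h : BP G N c k false x false y P)
    (hl : P.length = 2 * l) (hay : Att G c false y) (hncl : ¬ Clo G P) {p : ℤ → V}
    (hp : Sq G false x false y P p (2 * l)) :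
    cw 0 l (fun t => (G false).Adj x (p (2 * t + 1))) ≤ min k (l - 1) := by
  have hlen := h.cp.length_pos
  obtain ⟨t0, ht0⟩ := hay
  obtain ⟨b', z, L, hL, hLm⟩ := hc.openC t0 false
  have key : ∀ t : ℕ, t < l → (G false).Adj x (p (2 * t + 1)) → t + 1 ≤ k ∧ t + 1 < l := by
    intro t ht hadj
    have h1 := hp.pre (s := 2 * t + 1) (by omega)
    rw [fcol_even _ (by omega : (2 * t + 1 + 1) % 2 = 0)] at h1
    have hadj' : (G false).Adj (p ((2 * t + 1 : ℕ) : ℤ)) x := by push_cast; exact hadj.symm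
    by_cases htl : t + 1 = l
    · exfalso
      apply hncl
      refine ⟨_, ⟨_, _, _, h1, hadj', ?_⟩, ?_⟩
      · rw [show 2 * t + 1 + 1 = 2 * l by omega, hp.sg]; exact h.ndP
      · rw [show 2 * t + 1 + 1 = 2 * l by omega, hp.sg]
    · refine ⟨?_, by omega⟩
      have h2 := hp.suf (s := 2 * t + 1 + 1) (by omega)
      rw [fcol_even _ (by omega : (2 * t + 1 + 1) % 2 = 0)] at h2
      have hm : ((seg p 0 (2 * t + 1 + 1) : List V) : Multiset V) +
          ((seg p ((2 * t + 1 + 1 : ℕ) : ℤ) (2 * l - (2 * t + 1 + 1)) ++ L : List V) : Multiset V)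
          = Ms c k P := by
        rw [← Multiset.coe_add, hLm, Ms, ← hp.split (s := 2 * t + 1 + 1) (by omega)]
        abel
      have h4 := hp.adj (2 * t + 1) (by omega)
      rw [fcol_even _ (by omega : (2 * t + 1 + 1) % 2 = 0)] at h4
      have := S.lm h (isC_of h h1 hadj' hm) (h2.append ht0 hL) ⟨p ((2 * t + 1 : ℕ) : ℤ), by
        rw [mem_seg]; exact ⟨2 * t + 1, by omega, by simp⟩, by
          push_cast at h4 ⊢; exact h4.symm⟩ hm
      simp only [seg_length] at this
      omega
  have b1 : cw 0 l (fun t => (G false).Adj x (p (2 * t + 1))) ≤ k - 0 := by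
    apply cw_le_interval
    intro t ht hadj
    rw [zero_add] at hadj
    have := key t ht hadj
    omega
  have b2 : cw 0 l (fun t => (G false).Adj x (p (2 * t + 1))) ≤ (l - 1) - 0 := by
    apply cw_le_interval
    intro t ht hadj
    rw [zero_add] at hadj
    have := key t ht hadj
    omega
  omega

theorem cw_split_at (n : ℕ) (T : ℤ → Prop) (hn : 0 < n) (h0 : ¬ T 0) :
    cw 0 n T = cw 1 (n - 1) T := by
  obtain ⟨m, rfl⟩ := Nat.exists_eq_succ_of_ne_zero hn.ne'
  have := cnt_succ' (c := fun t : ℤ => t) (P := T) 0 m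
  rw [if_neg h0] at this
  rw [cw_cnt, cw_cnt]
  simpa using this

theorem cw_split_end (n : ℕ) (T : ℤ → Prop) (hn : 0 < n) (h0 : ¬ T (n - 1)) :
    cw 0 n T = cw 0 (n - 1) T := by
  obtain ⟨m, rfl⟩ := Nat.exists_eq_succ_of_ne_zero hn.ne'
  have := cnt_succ (c := fun t : ℤ => t) (P := T) 0 m
  rw [if_neg (by simpa using h0)] at this
  rw [cw_cnt, cw_cnt]
  simpa using this

/-- no closing up -/
theorem e_sum (S : Cx G d N k) (hc : Cyc G c k) (h : BP G N c k false x false y P)
    (hl : P.length = 2 * l) (hay : Att G c false y) (hncl : ¬ Clo G P) :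
    List.countP ((G false).Adj x) P + List.countP ((G false).Adj y) P ≤
      2 * min k (l - 1) + (l - 1) := by
  have hlen := h.cp.length_pos
  obtain ⟨-, hax, -⟩ := S.att2 hc h hay
  obtain ⟨p, hp⟩ := h.cp.sq
  rw [hl] at hp
  have hp' := hp.rev h.cp
  have c1 := e_close S hc h hl hay hncl hp
  have c2 := e_close S hc h.rev (by simpa using hl) hax (by
    rintro ⟨L, h1, h2⟩
    exact hncl ⟨L, h1, by rw [h2, Multiset.coe_reverse]⟩) hp'
  have c2' : cw 0 l (fun t => (G false).Adj y (p (2 * t))) ≤ min k (l - 1) := by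
    refine le_trans (le_of_eq ?_) c2
    rw [cw_sum, cw_sum, ← Finset.sum_range_reflect (fun i : ℕ =>
      if (G false).Adj y (p (2 * (0 + (i : ℤ)))) then 1 else 0)]
    apply Finset.sum_congr rfl
    intro i hi
    have hi' := Finset.mem_range.mp hi
    have e : (((2 * l : ℕ) : ℤ) - 1 - (2 * (0 + (i : ℤ)) + 1)) = 2 * (0 + ((l - 1 - i : ℕ) : ℤ)) := by
      omega
    simp only [e]
  have cx : List.countP ((G false).Adj x) P = cw 0 l (fun t => (G false).Adj x (p (2 * t))) +
      cw 0 l (fun t => (G false).Adj x (p (2 * t + 1))) := by rw [hp.countP, cw_par]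
  have cy : List.countP ((G false).Adj y) P = cw 0 l (fun t => (G false).Adj y (p (2 * t))) +
      cw 0 l (fun t => (G false).Adj y (p (2 * t + 1))) := by rw [hp.countP, cw_par]
  have cc : cw 0 l (fun t => (G false).Adj x (p (2 * t))) +
      cw 0 l (fun t => (G false).Adj y (p (2 * t + 1))) ≤ l - 1 := by
    rw [cw_split_at l _ (by omega) (by simp [hp.fst]),
      cw_split_end l (fun t => (G false).Adj y (p (2 * t + 1))) (by omega) (by
        rw [show 2 * ((l : ℤ) - 1) + 1 = ((2 * l : ℕ) : ℤ) - 1 by push_cast; ring, hp.lst]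
        simp)]
    apply cw_disj
    rintro i hi ⟨h1, h2⟩
    rw [zero_add] at h2
    apply hncl
    have g1 := (hp.pre (s := 2 * i + 1) (by omega)).rev
    have g2 := hp.suf (s := 2 * i + 1 + 1) (by omega)
    rw [fcol_even _ (by omega : (2 * i + 1 + 1) % 2 = 0)] at g1 g2
    have g3 := g1.append (w := p ((2 * i + 1 + 1 : ℕ) : ℤ)) (by
      push_cast
      rw [show (2 * (i : ℤ) + 1 + 1) = 2 * (1 + i) by ring]; exact h1) g2
    have hm : (((seg p 0 (2 * i + 1 + 1)).reverse ++
      seg p ((2 * i + 1 + 1 : ℕ) : ℤ) (2 * l - (2 * i + 1 + 1)) : List V) : Multiset V) =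
        (P : Multiset V) := by
      rw [← Multiset.coe_add, Multiset.coe_reverse, hp.split (by omega)]
    refine ⟨_, ⟨_, _, _, g3, ?_, ?_⟩, hm⟩
    · push_cast; exact h2
    · have : (((seg p 0 (2 * i + 1 + 1)).reverse ++
        seg p ((2 * i + 1 + 1 : ℕ) : ℤ) (2 * l - (2 * i + 1 + 1)) : List V) : Multiset V).Nodup := by
        rw [hm]; simpa using h.ndP
      simpa using this
  omega

/-- type E, case where the path does not close up -/
theorem e_false1 (S : Cx G d N k) (hc : Cyc G c k) (h : BP G N c k false x false y P)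
    (hl : P.length = 2 * l) (hay : Att G c false y) (hncl : ¬ Clo G P)
    (h1 : ∀ i, ¬ (G false).Adj x (c (2 * i))) (h2 : ∀ i, ¬ (G false).Adj y (c (2 * i))) :
    False := by
  have hlen := h.cp.length_pos
  have hN := h.len
  have hle := S.le
  have hs := e_sum S hc h hl hay hncl
  obtain ⟨hclx, hax, hcly⟩ := S.att2 hc h hay
  have dx := deg_cl h.nd hclx
  have dy := deg_cl h.nd hcly
  have dx2 := S.deg false x
  have dy2 := S.deg false y
  rw [cw_eq_zero (P := fun i => (G false).Adj x (c (2 * i))) (fun i _ => h1 _)] at dx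
  rw [cw_eq_zero (P := fun i => (G false).Adj y (c (2 * i))) (fun i _ => h2 _)] at dy
  obtain ⟨p, hp⟩ := h.cp.sq
  rw [hl] at hp
  have hp' := hp.rev h.cp
  obtain ⟨j, hj1, hj2⟩ : ∃ j, (G false).Adj x (c (2 * j + 1)) ∧ (G false).Adj y (c (2 * j + 1)) := by
    by_contra hcon
    push Not at hcon
    have := cw_disj (P := fun i => (G false).Adj x (c (2 * i + 1)))
      (Q := fun i => (G false).Adj y (c (2 * i + 1))) (a := 0) (b := 0) (n := k)
      (fun i _ hh => hcon _ hh.1 hh.2)
    omega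
  have k1 := e_count S hc h hj1
  have k2 := e_count S hc h.rev hj2
  have z : ∀ s : ℕ, s < 2 * l → ¬ (G false).Adj (c (2 * (j + 1))) (p s) := by
    intro s hs
    by_cases hs2 : s % 2 = 1
    · exact e_one S hc h hj1 hp hs2 hs
    · have := e_one S hc h.rev hj2 hp' (s := 2 * l - 1 - s) (by omega) (by omega)
      rwa [show (((2 * l : ℕ) : ℤ) - 1 - ((2 * l - 1 - s : ℕ) : ℤ)) = s by omega] at this
  have zc : List.countP ((G false).Adj (c (2 * (j + 1)))) P = 0 := by
    rw [hp.countP]
    apply cw_eq_zero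
    intro i hi
    rw [zero_add]
    exact z i hi
  have zc' : List.countP ((G false).Adj (c (2 * (j + 1)))) P.reverse = 0 := by
    rw [List.countP_reverse, zc]
  omega

end noclose

end Pool.Agent.Helper458
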