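import Pool.Agent.Helper458.PC6

set_option autoImplicit false
set_option linter.unusedSectionVars false

namespace Pool.Agent.Helper458

open Classical

variable {V : Type*} [Fintype V] {G : Bool → SimpleGraph V} {d N k l : ℕ}
  {c e : ℤ → V} {a b : Bool} {x y : V} {P : List V}

theorem e_noev (S : Cx G d N k) (hc : Cyc G c k) (h : BP G N c k false x false y P)
    (hl : P.length = 2 * l) (hay : Att G c false y) (h1 : ∀ i, ¬ (G false).Adj x (c (2 * i))) :
    ∀ i, ¬ (G false).Adj y (c (2 * i)) := by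
  intro i0 hi0
  have hlen := h.cp.length_pos
  have hk := hc.pos
  have hN := h.len
  have hle := S.le
  obtain ⟨hclx, hax, hcly⟩ := S.att2 hc h hay
  have dx := deg_cl h.nd hclx
  have dx2 := S.deg false x
  rw [cw_eq_zero (P := fun i => (G false).Adj x (c (2 * i))) (fun i _ => h1 _)] at dx
  have wx := cp_lt (G := G) (g := false) h.cp.fst_mem
  have hxo : ∃ i, (G false).Adj x (c (2 * i + 1)) := by
    rcases hax.ev_od with ⟨i, hi⟩ | h3
    · exact absurd hi (h1 i)
    · exact h3
  have r1 := (hr_count (P := fun i => (G false).Adj x (c (2 * i + 1)))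
    (Q := fun i => (G false).Adj y (c (2 * i))) (k := k) (l := l)
      hk (by omega) (odP hc false x) (evP hc false y)
      (fun j r hr h1 h2 => ruleE S hc h hl hr h1 h2) hxo ⟨i0, hi0⟩).2.1
  have pey := cw_pos_of (T := fun i => (G false).Adj y (c (2 * i))) hk (evP hc false y) ⟨i0, hi0⟩
  omega

section closed

/-- good positions -/
def Gd (G : Bool → SimpleGraph V) (c e : ℤ → V) (t : ℤ) : Prop :=
  Att G c false (e (2 * t)) ∧ ∀ i, ¬ (G false).Adj (e (2 * t)) (c (2 * i))

theorem bp_of (hnd : (Ms c k (seg e 0 (2 * l))).Nodup) (hN : 2 * k + 2 * l = N) {P' : List V}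
    (hcp : CP G a x b y P') (hm : (P' : Multiset V) = ((seg e 0 (2 * l) : List V) : Multiset V)) :
    BP G N c k a x b y P' := by
  refine ⟨hcp, ?_, ?_⟩
  · unfold Ms; rw [hm]; exact hnd
  · have := congrArg Multiset.card hm
    simp at this
    omega

theorem Cyc.sqT (he : Cyc G e l) (t : ℤ) : Sq G false (e (2 * t)) false (e (2 * t - 1))
    (seg e (2 * t) (2 * l)) (fun s => e (2 * t + s)) (2 * l) := by
  have hl := he.pos
  refine ⟨by simp, by omega, ?_, ?_, ?_, ?_, ?_⟩
  · simp only [seg, zero_add]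
  · simp
  · show e _ = e _
    rw [← he.per (2 * t - 1)]
    congr 1; push_cast; ring
  · intro n _
    show (G (fcol false (n + 1))).Adj (e (2 * t + n)) (e (2 * t + (n + 1)))
    rcases Nat.even_or_odd' n with ⟨m, rfl | rfl⟩
    · rw [fcol_odd _ (by omega)]
      have := he.arrT (t + m)
      rw [show 2 * (t + (m : ℤ)) = 2 * t + ((2 * m : ℕ) : ℤ) by push_cast; ring] at this
      rw [show 2 * t + (((2 * m : ℕ) : ℤ) + 1) = 2 * t + ((2 * m : ℕ) : ℤ) + 1 by ring]
      exact this
    · rw [fcol_even _ (by omega)]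
      have := he.arrF (t + m)
      rw [show 2 * (t + (m : ℤ)) + 1 = 2 * t + ((2 * m + 1 : ℕ) : ℤ) by push_cast; ring,
        show 2 * (t + (m : ℤ)) + 2 = 2 * t + (((2 * m + 1 : ℕ) : ℤ) + 1) by push_cast; ring] at this
      exact this
  · rw [fcol_even _ (by omega)]

theorem bp0 (he : Cyc G e l) (hnd : (Ms c k (seg e 0 (2 * l))).Nodup) (hN : 2 * k + 2 * l = N)
    (t : ℤ) : BP G N c k false (e (2 * t)) false (e (2 * t - 1)) (seg e (2 * t) (2 * l)) :=
  bp_of hnd hN (he.fullT t) (he.coe _)

theorem gd_pair (S : Cx G d N k) (hc : Cyc G c k) (he : Cyc G e l)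
    (hnd : (Ms c k (seg e 0 (2 * l))).Nodup) (hN : 2 * k + 2 * l = N) {t : ℤ} (hg : Gd G c e t) :
    Att G c false (e (2 * t - 1)) ∧ ∀ i, ¬ (G false).Adj (e (2 * t - 1)) (c (2 * i)) := by
  have h := bp0 he hnd hN t
  have h1 := (S.att hc h.rev hg.1).2
  exact ⟨h1, e_noev S hc h (l := l) (by simp) h1 hg.2⟩

theorem gd_pair' (S : Cx G d N k) (hc : Cyc G c k) (he : Cyc G e l)
    (hnd : (Ms c k (seg e 0 (2 * l))).Nodup) (hN : 2 * k + 2 * l = N) {t : ℤ}
    (h1 : Att G c false (e (2 * t - 1))) (h2 : ∀ i, ¬ (G false).Adj (e (2 * t - 1)) (c (2 * i))) :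
    Gd G c e t := by
  have h := bp0 he hnd hN t
  have h3 := (S.att hc h h1).2
  exact ⟨h3, e_noev S hc h.rev (l := l) (by simp) h3 h2⟩

theorem gd_spread (S : Cx G d N k) (hc : Cyc G c k) (he : Cyc G e l)
    (hnd : (Ms c k (seg e 0 (2 * l))).Nodup) (hN : 2 * k + 2 * l = N) {t : ℤ} (hg : Gd G c e t)
    {m : ℕ} (hm0 : 0 < m) (hml : m < l) (hadj : (G false).Adj (e (2 * t - 1)) (e (2 * (t + m) - 1))) :
    Gd G c e (t + m) := by
  have h1 := he.sTF t (m - 1)
  have h2 := (he.sTF (t + m) (l - m - 1)).rev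
  rw [show 2 * (t + ((m - 1 : ℕ) : ℤ)) + 1 = 2 * (t + m) - 1 by omega,
    show 2 * (m - 1) + 2 = 2 * m by omega] at h1
  rw [show 2 * (t + m + ((l - m - 1 : ℕ) : ℤ)) + 1 = 2 * t - 1 + 2 * l by omega, he.per,
    show 2 * (l - m - 1) + 2 = 2 * (l - m) by omega] at h2
  have h3 := h1.append hadj.symm h2
  have hm : ((seg e (2 * t) (2 * m) ++ (seg e (2 * (t + m)) (2 * (l - m))).reverse : List V) :
      Multiset V) = ((seg e 0 (2 * l) : List V) : Multiset V) := by
    rw [← Multiset.coe_add, Multiset.coe_reverse,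
      ← arc_split he (2 * t) (m := 2 * m) (n := 2 * (l - m)) (by omega),
      show 2 * t + ((2 * m : ℕ) : ℤ) = 2 * (t + m) by push_cast; ring]
  have h4 := bp_of hnd hN h3 hm
  have h5 := (S.att hc h4.rev hg.1).2
  refine ⟨h5, e_noev S hc h4 (l := l) ?_ h5 hg.2⟩
  simp only [List.length_append, List.length_reverse, seg_length]
  omega

theorem gd_per (he : Cyc G e l) (t : ℤ) : Gd G c e (t + l) ↔ Gd G c e t := by
  unfold Gd
  rw [show 2 * (t + (l : ℤ)) = 2 * t + 2 * l by ring, he.per]

theorem countP_cyc (_he : Cyc G e l) {P' : List V}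
    (hm : (P' : Multiset V) = ((seg e 0 (2 * l) : List V) : Multiset V)) (T : V → Prop) :
    List.countP T P' = cw 0 l (fun t => T (e (2 * t))) + cw 0 l (fun t => T (e (2 * t + 1))) := by
  rw [← Multiset.coe_countP, hm, cnt_eq_countP, cnt_cw, cw_par]

/-- type E, the path closes up -/
theorem e_false2 (S : Cx G d N k) (hc : Cyc G c k) (he : Cyc G e l)
    (hnd : (Ms c k (seg e 0 (2 * l))).Nodup) (hN : 2 * k + 2 * l = N) {t0 : ℤ}
    (hg : Gd G c e t0) : False := by
  have hk := hc.pos
  have hl := he.pos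
  have hle := S.le
  have h := bp0 he hnd hN t0
  obtain ⟨hay, hny⟩ := gd_pair S hc he hnd hN hg
  obtain ⟨hclx, hax, hcly⟩ := S.att2 hc h hay
  set y := e (2 * t0 - 1) with hy
  have dy := deg_cl h.nd hcly
  have dy2 := S.deg false y
  rw [cw_eq_zero (P := fun i => (G false).Adj y (c (2 * i))) (fun i _ => hny _),
    countP_cyc he (he.coe _)] at dy
  have b1 : cw 0 l (fun t => (G false).Adj y (e (2 * t))) ≤ l := cw_le _ _ _
  have hper1 : ∀ t : ℤ, (G false).Adj y (e (2 * (t + l) - 1)) ↔ (G false).Adj y (e (2 * t - 1)) := by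
    intro t
    rw [show 2 * (t + (l : ℤ)) - 1 = 2 * t - 1 + 2 * l by ring, he.per]
  have b2 : cw 0 l (fun t => (G false).Adj y (e (2 * t + 1))) + 1 ≤ cw 0 l (Gd G c e) := by
    have e1 : cw 0 l (fun t => (G false).Adj y (e (2 * t + 1))) =
        cw 0 l (fun t => (G false).Adj y (e (2 * t - 1))) := by
      rw [← cw_shift (P := fun t => (G false).Adj y (e (2 * t - 1))) hper1 1]
      apply cw_congr
      intro t
      rw [show 2 * (t + 1) - 1 = 2 * t + 1 by ring]
    rw [e1, ← cw_base (P := fun t => (G false).Adj y (e (2 * t - 1))) hper1 t0,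
      ← cw_base (P := Gd G c e) (gd_per he) t0]
    apply cw_lt_of _ 0 hl
    · simp [hy]
    · simpa using hg
    · intro i hi hadj
      rcases Nat.eq_zero_or_pos i with rfl | hi0
      · simp [hy] at hadj
      · exact gd_spread S hc he hnd hN hg hi0 hi hadj
  -- the vertex v
  obtain ⟨j, hj⟩ : ∃ j, (G false).Adj (e (2 * t0)) (c (2 * j + 1)) := by
    rcases hax.ev_od with ⟨i, hi⟩ | h3
    · exact absurd hi (hg.2 i)
    · exact h3
  have hcnt := e_count S hc h hj
  rw [countP_cyc he (he.coe _)] at hcnt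
  have b3 : cw 0 l (fun t => (G false).Adj (c (2 * (j + 1))) (e (2 * t + 1))) = 0 := by
    apply cw_eq_zero
    intro i hi hadj
    obtain ⟨s, hs, n, hn⟩ := rep' hl t0 (0 + (i : ℤ))
    rw [hn, he.od_red] at hadj
    have := e_one S hc h hj (he.sqT t0) (s := 2 * s + 1) (by omega) (by omega)
    apply this
    show (G false).Adj _ (e (2 * t0 + ((2 * s + 1 : ℕ) : ℤ)))
    rw [show 2 * t0 + ((2 * s + 1 : ℕ) : ℤ) = 2 * (t0 + s) + 1 by push_cast; ring]
    exact hadj
  have b4 : cw 0 l (fun t => (G false).Adj (c (2 * (j + 1))) (e (2 * t))) + cw 0 l (Gd G c e) ≤ l := by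
    apply cw_disj
    rintro i _ ⟨h1, h2⟩
    exact h2.2 (j + 1) h1.symm
  omega

theorem e_false (S : Cx G d N k) (hc : Cyc G c k) (h : BP G N c k false x false y P)
    (hl : P.length = 2 * l) (hay : Att G c false y)
    (h1 : ∀ i, ¬ (G false).Adj x (c (2 * i))) (h2 : ∀ i, ¬ (G false).Adj y (c (2 * i))) :
    False := by
  by_cases hclo : Clo G P
  · obtain ⟨L, hL, hLm⟩ := hclo
    obtain ⟨e, l', he, hel, hem⟩ := exists_Cyc hL
    have hlen : L.length = 2 * l := by
      have := congrArg Multiset.card hLm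
      simpa [hl] using this
    have hll : l' = l := by omega
    subst hll
    have hnd : (Ms c k (seg e 0 (2 * l'))).Nodup := by
      unfold Ms; rw [hem, hLm]; exact h.nd
    have hN : 2 * k + 2 * l' = N := by rw [← hl]; exact h.len
    have hax := (S.att hc h hay).2
    have hx : x ∈ seg e 0 (2 * l') := by
      have : x ∈ ((seg e 0 (2 * l') : List V) : Multiset V) := by
        rw [hem, hLm]; simpa using h.cp.fst_mem
      simpa using this
    rw [mem_seg] at hx
    obtain ⟨τ, _, hτ⟩ := hx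
    rw [zero_add] at hτ
    rcases Nat.even_or_odd' τ with ⟨t, rfl | rfl⟩
    · apply e_false2 S hc he hnd hN (t0 := t)
      refine ⟨?_, ?_⟩
      · push_cast at hτ; rw [hτ]; exact hax
      · push_cast at hτ; rw [hτ]; exact h1
    · have e2 : e (2 * ((t : ℤ) + 1) - 1) = x := by
        rw [← hτ]; congr 1; push_cast; ring
      apply e_false2 S hc he hnd hN (t0 := (t : ℤ) + 1)
      apply gd_pair' S hc he hnd hN
      · rw [e2]; exact hax
      · rw [e2]; exact h1
  · exact e_false1 S hc h hl hay hclo h1 h2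

theorem o_false (S : Cx G d N k) (hc : Cyc G c k) (h : BP G N c k false x false y P)
    (hl : P.length = 2 * l) (hay : Att G c false y)
    (h1 : ∀ i, ¬ (G false).Adj x (c (2 * i + 1))) (h2 : ∀ i, ¬ (G false).Adj y (c (2 * i + 1))) :
    False := by
  have h' := (h.refl hc).1
  apply e_false S hc.refl.1 h' hl
  · obtain ⟨t, ht⟩ := hay
    exact ⟨1 - t, by simpa using ht⟩
  · intro i
    have := h1 (-i)
    rw [refl_even c] at this
    simpa using this
  · intro i
    have := h2 (-i)
    rw [refl_even c] at this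
    simpa using this

end closed

/-- the remaining type -/
structure BT (G : Bool → SimpleGraph V) (d k l : ℕ) (c : ℤ → V) (x y : V) (P : List V) : Prop where
  deq : d = k + l
  fx : Kc G false x P
  lk : l + 1 ≤ k
  e1 : ∀ i, (G false).Adj x (c (2 * i + 1)) ↔ gap (fun j => (G false).Adj y (c (2 * j))) l i
  e1' : ∀ j, (G false).Adj y (c (2 * j)) ↔ gap' (fun i => (G false).Adj x (c (2 * i + 1))) l j
  xe : ∃ i, (G false).Adj x (c (2 * i))
  xo : ∃ i, (G false).Adj x (c (2 * i + 1))

theorem even_type (S : Cx G d N k) (hc : Cyc G c k) (h : BP G N c k false x false y P)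
    (hl : P.length = 2 * l) (hay : Att G c false y) : BT G d k l c x y P := by
  obtain ⟨hclx, hax, hcly⟩ := S.att2 hc h hay
  have hlen := h.cp.length_pos
  have hk := hc.pos
  have hN := h.len
  have hle := S.le
  have hl1 : 1 ≤ l := by omega
  have hlr : P.reverse.length = 2 * l := by simpa using hl
  have dx := deg_cl h.nd hclx
  have dy := deg_cl h.nd hcly
  have dx2 := S.deg false x
  have dy2 := S.deg false y
  have wx := cp_lt (G := G) (g := false) h.cp.fst_mem
  have wy := cp_lt (G := G) (g := false) h.cp.snd_mem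
  have r1 := fun (h1 : ∃ i, (G false).Adj x (c (2 * i + 1)))
      (h2 : ∃ i, (G false).Adj y (c (2 * i))) =>
    hr_count (P := fun i => (G false).Adj x (c (2 * i + 1)))
      (Q := fun i => (G false).Adj y (c (2 * i)))
      hk hl1 (odP hc false x) (evP hc false y)
      (fun j r hr h1 h2 => ruleE S hc h hl hr h1 h2) h1 h2
  have r1' := fun (h1 : ∃ i, (G false).Adj x (c (2 * i + 1)))
      (h2 : ∃ i, (G false).Adj y (c (2 * i))) =>
    hr_count' (P := fun i => (G false).Adj x (c (2 * i + 1)))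
      (Q := fun i => (G false).Adj y (c (2 * i)))
      hk hl1 (odP hc false x) (evP hc false y)
      (fun j r hr h1 h2 => ruleE S hc h hl hr h1 h2) h1 h2
  have r2 := fun (h1 : ∃ i, (G false).Adj y (c (2 * i + 1)))
      (h2 : ∃ i, (G false).Adj x (c (2 * i))) =>
    hr_count (P := fun i => (G false).Adj y (c (2 * i + 1)))
      (Q := fun i => (G false).Adj x (c (2 * i)))
      hk hl1 (odP hc false y) (evP hc false x)
      (fun j r hr h1 h2 => ruleE S hc h.rev hlr hr h1 h2) h1 h2
  have pex := cw_pos_of (T := fun i => (G false).Adj x (c (2 * i))) hk (evP hc false x)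
  have pox := cw_pos_of (T := fun i => (G false).Adj x (c (2 * i + 1))) hk (odP hc false x)
  have pey := cw_pos_of (T := fun i => (G false).Adj y (c (2 * i))) hk (evP hc false y)
  have poy := cw_pos_of (T := fun i => (G false).Adj y (c (2 * i + 1))) hk (odP hc false y)
  have hxe : ∃ i, (G false).Adj x (c (2 * i)) := by
    by_contra hcon
    push Not at hcon
    exact e_false S hc h hl hay hcon (e_noev S hc h hl hay hcon)
  have hye : ∃ i, (G false).Adj y (c (2 * i)) := by
    by_contra hcon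
    push Not at hcon
    exact e_false S hc h hl hay (e_noev S hc h.rev hlr hax hcon) hcon
  have hxo : ∃ i, (G false).Adj x (c (2 * i + 1)) := by
    by_contra hcon
    have z := cw_none (k := k) hcon
    have h2 : ¬ ∃ i, (G false).Adj y (c (2 * i + 1)) := by
      intro h2
      have := (r2 h2 hxe).2.1
      have := poy h2
      omega
    exact o_false S hc h hl hay (fun i hi => hcon ⟨i, hi⟩) (fun i hi => h2 ⟨i, hi⟩)
  have hyo : ∃ i, (G false).Adj y (c (2 * i + 1)) := by
    by_contra hcon
    have z := cw_none (k := k) hcon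
    have := (r1 hxo hye).2.1
    have := pox hxo
    omega
  obtain ⟨a1, a2, a3, a4⟩ := r1 hxo hye
  obtain ⟨b3, b4⟩ := r1' hxo hye
  obtain ⟨c1, c2, c3, c4⟩ := r2 hyo hxe
  have s1 : cw 0 k (fun i => (G false).Adj x (c (2 * i + 1))) +
    cw 0 k (fun i => (G false).Adj y (c (2 * i))) + l = k + 1 := by omega
  refine ⟨by omega, ?_, a1, ?_, ?_, hxe, hxo⟩
  · intro z hz hxz
    exact cp_full h.cp.fst_mem hz hxz h.ndP (by omega)
  · exact fun i => ⟨a3 i, a4 s1 i⟩
  · exact fun i => ⟨b3 i, b4 s1 i⟩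

/-- odd positions -/
theorem even_A (S : Cx G d N k) (hc : Cyc G c k) (h : BP G N c k false x false y P)
    (hl : P.length = 2 * l) (hay : Att G c false y) {p : ℤ → V}
    (hp : Sq G false x false y P p (2 * l)) {s : ℕ} (hs : s % 2 = 1) (hsl : s < 2 * l) :
    Kc G false (p s) P ∧ Att G c false (p s) := by
  have hF := even_type S hc h hl hay
  have hax := (S.att hc h hay).2
  by_cases hsl' : s + 1 = 2 * l
  · have e1 : p s = y := by rw [← hp.lst]; congr 1; omega
    rw [e1]
    have hF' := even_type S hc h.rev (by simpa using hl) hax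
    exact ⟨fun z hz hne => hF'.fx z (by simpa using hz) hne, hay⟩
  have h1 := (hp.pre (s := s) hsl).rev
  have h2 := hp.suf (s := s + 1) (by omega)
  rw [fcol_even _ (by omega : (s + 1) % 2 = 0)] at h1 h2
  have hx : (G false).Adj x (p ((s + 1 : ℕ) : ℤ)) := by
    apply hF.fx _ (hp.mem (by omega))
    rw [← hp.fst]
    intro he
    have := hp.inj h.ndP (s := 0) (t := s + 1) (by omega) (by omega) (by simpa using he)
    omega
  have h3 := h1.append hx h2
  have hm : (((seg p 0 (s + 1)).reverse ++ seg p ((s + 1 : ℕ) : ℤ) (2 * l - (s + 1)) : List V) :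
      Multiset V) = (P : Multiset V) := by
    rw [← Multiset.coe_add, Multiset.coe_reverse, hp.split (by omega)]
  have h4 := h.of_perm h3 hm
  have hmem : ∀ z, z ∈ P → z ∈ ((seg p 0 (s + 1)).reverse ++
      seg p ((s + 1 : ℕ) : ℤ) (2 * l - (s + 1))) := by
    intro z hz
    have : z ∈ (P : Multiset V) := by simpa using hz
    rw [← hm] at this
    simpa using this
  have hlen : ((seg p 0 (s + 1)).reverse ++ seg p ((s + 1 : ℕ) : ℤ) (2 * l - (s + 1))).length
      = 2 * l := by
    have := congrArg Multiset.card hm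
    rw [Multiset.coe_card, Multiset.coe_card, hl] at this
    exact this
  have hF' := even_type S hc h4 hlen hay
  refine ⟨fun z hz hne => hF'.fx z (hmem z hz) hne, ?_⟩
  exact (S.att hc h4 hay).2

theorem even_C (S : Cx G d N k) (hc : Cyc G c k) (h : BP G N c k false x false y P)
    (hl : P.length = 2 * l) (hay : Att G c false y) :
    ∀ w ∈ P, Kc G false w P ∧ Att G c false w := by
  obtain ⟨p, hp⟩ := h.cp.sq
  rw [hl] at hp
  intro w hw
  obtain ⟨s, hs, rfl⟩ := hp.ex hw
  rcases Nat.even_or_odd' s with ⟨m, hm | hm⟩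
  · have hax := (S.att hc h hay).2
    have := even_A S hc h.rev (by simpa using hl) hax (hp.rev h.cp) (s := 2 * l - 1 - s)
      (by omega) (by omega)
    rw [show (((2 * l : ℕ) : ℤ) - 1 - ((2 * l - 1 - s : ℕ) : ℤ)) = s by omega] at this
    exact ⟨fun z hz hne => this.1 z (by simpa using hz) hne, this.2⟩
  · exact even_A S hc h hl hay hp (by omega) hs

/-- every vertex of the path is closed in colour `false` -/
theorem even_cl (S : Cx G d N k) (hc : Cyc G c k) (h : BP G N c k false x false y P)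
    (hl : P.length = 2 * l) (hay : Att G c false y) :
    ∀ w ∈ P, Cl G false w (Ms c k P) := by
  intro w hw
  obtain ⟨t, ht⟩ := (even_C S hc h hl hay w hw).2
  -- `w` is the end of some spanning path
  have hxy : (G false).Adj y x := by
    apply (even_C S hc h hl hay y h.cp.snd_mem).1 x h.cp.fst_mem
    rintro rfl
    obtain ⟨p, hp⟩ := h.cp.sq
    rw [hl] at hp
    have := h.cp.length_pos
    have := hp.inj h.ndP (s := 2 * l - 1) (t := 0) (by omega) (by omega) (by
      rw [Nat.cast_zero, hp.fst, ← hp.lst]; congr 1; omega)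
    omega
  obtain ⟨e, l', he, hel, hem⟩ := exists_Cyc (L := P) ⟨_, _, _, h.cp, hxy, h.ndP⟩
  have hwe : w ∈ seg e 0 (2 * l') := by
    have : w ∈ ((seg e 0 (2 * l') : List V) : Multiset V) := by rw [hem]; simpa using hw
    simpa using this
  rw [mem_seg] at hwe
  obtain ⟨τ, _, hτ⟩ := hwe
  obtain ⟨b', z, L, hL, hLm⟩ := he.openC (0 + τ) false
  rw [hτ] at hL
  have h4 := h.of_perm hL (by rw [hLm, hem])
  have h5 : Att G c b' z := by
    have := (S.att hc h4.rev ⟨t, ht⟩).2
    exact this
  have := (S.att hc h4 h5).1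
  have e2 : Ms c k L = Ms c k P := by unfold Ms; rw [hLm, hem]
  rwa [e2] at this

end Pool.Agent.Helper458
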