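import Pool.Agent.Helper458.PC7

set_option autoImplicit false
set_option linter.unusedSectionVars false

namespace Pool.Agent.Helper458

open Classical

variable {V : Type*} [Fintype V] {G : Bool → SimpleGraph V} {d N k l : ℕ}
  {c e : ℤ → V} {a b : Bool} {x y : V} {P : List V}

theorem even_ne (h : BP G N c k a x b y P) (hl : P.length = 2 * l) : y ≠ x := by
  rintro rfl
  obtain ⟨p, hp⟩ := h.cp.sq
  rw [hl] at hp
  have := h.cp.length_pos
  have := hp.inj h.ndP (s := 2 * l - 1) (t := 0) (by omega) (by omega) (by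
    rw [Nat.cast_zero, hp.fst, ← hp.lst]; congr 1; omega)
  omega

theorem even_e (S : Cx G d N k) (hc : Cyc G c k) (h : BP G N c k false x false y P)
    (hl : P.length = 2 * l) (hay : Att G c false y) :
    ∃ e : ℤ → V, Cyc G e l ∧ ((seg e 0 (2 * l) : List V) : Multiset V) = (P : Multiset V) := by
  have hxy : (G false).Adj y x :=
    (even_C S hc h hl hay y h.cp.snd_mem).1 x h.cp.fst_mem (even_ne h hl)
  obtain ⟨e, l', he, hel, hem⟩ := exists_Cyc (L := P) ⟨_, _, _, h.cp, hxy, h.ndP⟩
  have : l' = l := by omega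
  subst this
  exact ⟨e, he, hem⟩

theorem mem_of_coe {L L' : List V} (h : (L : Multiset V) = (L' : Multiset V)) {v : V} :
    v ∈ L ↔ v ∈ L' := by
  have : v ∈ (L : Multiset V) ↔ v ∈ (L' : Multiset V) := by rw [h]
  simpa using this

/-- every vertex is closed in the other colour as well -/
theorem even_clT (S : Cx G d N k) (hc : Cyc G c k) (h : BP G N c k false x false y P)
    (hl : P.length = 2 * l) (hay : Att G c false y) :
    ∀ w ∈ P, Cl G true w (Ms c k P) := by
  intro w hw z hwz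
  by_contra hz
  obtain ⟨e, he, hem⟩ := even_e S hc h hl hay
  have hF := even_type S hc h hl hay
  have hC := even_C S hc h hl hay
  have hcl := even_cl S hc h hl hay
  have hlp := he.pos
  have zP : ∀ w' ∈ P, ¬ (G false).Adj z w' := by
    intro w' hw' hadj
    exact hz (hcl w' hw' z hadj.symm)
  have hwe : w ∈ seg e 0 (2 * l) := (mem_of_coe hem).mpr hw
  rw [mem_seg] at hwe
  obtain ⟨τ, _, hτ⟩ := hwe
  rw [zero_add] at hτ
  have zC : ∀ t, ¬ (G false).Adj z (c t) := by
    intro t hadj
    obtain ⟨b', z', L, hL, hLm⟩ := hc.openC t false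
    obtain ⟨b'', z'', L', hL', hLm'⟩ := he.openC τ true
    rw [hτ] at hL'
    have h1 : CP G false z b'' z'' (z :: L') := CP.cons false z w b'' z'' L' hwz.symm hL'
    have h2 := hL.rev.append hadj.symm h1
    refine S.pm h h2 (M := {z}) ?_ (by simp) (by simp) (by simpa using hz)
    rw [← Multiset.coe_add, Multiset.coe_reverse, hLm, ← Multiset.cons_coe, hLm', hem, Ms,
      ← Multiset.singleton_add]
    abel
  -- path on `W` without the partner of `w`
  obtain ⟨w1, L1, f, h1, hm1⟩ : ∃ w1 L1 f, CP G true w false w1 L1 ∧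
      (L1 : Multiset V) + {f} = (P : Multiset V) := by
    rcases Nat.even_or_odd' τ with ⟨i, hi | hi⟩
    · have h1 := (he.sTT ((i : ℤ) + 1) (l - 1)).rev
      have e1 : e (2 * ((i : ℤ) + 1 + ((l - 1 : ℕ) : ℤ))) = w := by
        rw [← hτ, ← he.per τ]; congr 1; rw [hi]; push_cast; omega
      rw [e1] at h1
      refine ⟨_, _, e (2 * i + 1), h1, ?_⟩
      rw [← hem, ← arc_split he (2 * (i : ℤ) + 1) (m := 1) (n := 2 * (l - 1) + 1) (by omega),
        seg_one, Multiset.coe_reverse,
        show 2 * (i : ℤ) + 1 + ((1 : ℕ) : ℤ) = 2 * ((i : ℤ) + 1) by push_cast; ring, add_comm]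
      rfl
    · have h1 := he.sFF (i : ℤ) (l - 1)
      have e1 : e (2 * (i : ℤ) + 1) = w := by
        rw [← hτ]; congr 1; rw [hi]; push_cast; ring
      rw [e1] at h1
      refine ⟨_, _, e (2 * i + 1 + ((2 * (l - 1) + 1 : ℕ) : ℤ)), h1, ?_⟩
      rw [← hem, ← arc_split he (2 * (i : ℤ) + 1) (m := 2 * (l - 1) + 1) (n := 1) (by omega),
        seg_one]
      rfl
  have hsub : ∀ v, v ∈ L1 → v ∈ P := by
    intro v hv
    have : v ∈ (L1 : Multiset V) + {f} := by
      rw [Multiset.mem_add]; left; simpa using hv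
    rw [hm1] at this
    simpa using this
  obtain ⟨t, ht⟩ := (hC w1 (hsub w1 h1.snd_mem)).2
  obtain ⟨b', z', L, hL, hLm⟩ := hc.openC t false
  have h2 : CP G false z false w1 (z :: L1) := CP.cons false z w false w1 L1 hwz.symm h1
  have h3 := h2.append ht hL
  have hle : (((z :: L1) ++ L : List V) : Multiset V) ≤ {z} + Ms c k P := by
    rw [← Multiset.coe_add, hLm, ← Multiset.cons_coe, Ms, ← hm1, ← Multiset.singleton_add]
    calc _ ≤ {z} + (L1 : Multiset V) + ((seg c 0 (2 * k) : List V) : Multiset V) + {f} :=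
          Multiset.le_add_right _ _
      _ = _ := by abel
  have hnd : (((z :: L1) ++ L : List V) : Multiset V).Nodup := by
    apply Multiset.nodup_of_le hle
    rw [Multiset.nodup_add]
    refine ⟨by simp, h.nd, ?_⟩
    rw [Multiset.disjoint_left]
    intro v hv
    rw [Multiset.mem_singleton] at hv
    subst hv
    exact hz
  have hlen : ((z :: L1) ++ L).length = N := by
    have g1 := congrArg Multiset.card hm1
    have g2 := congrArg Multiset.card hLm
    have g3 := h.len
    simp at g1 g2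
    simp only [List.length_append, List.length_cons]
    omega
  have hclz := S.closed h3 hnd hlen
  have hdz := S.deg false z
  have hpos : 0 < dg (G false) z := by
    have := hF.deq
    omega
  obtain ⟨u, hu⟩ := Finset.card_pos.mp hpos
  simp only [Finset.mem_filter, Finset.mem_univ, true_and] at hu
  have := hclz u hu
  rw [Multiset.mem_coe, List.mem_append, List.mem_cons] at this
  rcases this with (rfl | hu1) | hu2
  · simp at hu
  · exact zP u (hsub u hu1) hu
  · have : u ∈ seg c 0 (2 * k) := (mem_of_coe hLm).mp hu2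
    rw [mem_seg] at this
    obtain ⟨s, _, hs⟩ := this
    rw [← hs] at hu
    exact zC _ hu

theorem even_attT (S : Cx G d N k) (hc : Cyc G c k) (h : BP G N c k false x false y P)
    (hl : P.length = 2 * l) (hay : Att G c false y) : ∀ w ∈ P, Att G c true w := by
  intro w hw
  have hF := even_type S hc h hl hay
  have h1 := deg_cl h.nd (even_clT S hc h hl hay w hw)
  have h2 := S.deg true w
  have h3 := cp_lt (G := G) (g := true) hw
  by_contra hcon
  have hcon' : ∀ t, ¬ (G true).Adj w (c t) := fun t ht => hcon ⟨t, ht⟩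
  rw [cw_eq_zero (fun i _ => hcon' _), cw_eq_zero (fun i _ => hcon' _)] at h1
  have := hF.deq
  have := hF.lk
  omega

theorem even_KT (S : Cx G d N k) (hc : Cyc G c k) (h : BP G N c k false x false y P)
    (hl : P.length = 2 * l) (hay : Att G c false y) : ∀ w ∈ P, Kc G true w P := by
  intro w hw
  obtain ⟨e, he, hem⟩ := even_e S hc h hl hay
  have h1 := he.fullF 0
  have h2 := h.of_perm h1 (by rw [he.coe, hem])
  have h3 := (h2.swp hc).1
  have hmem : ∀ v, v ∈ seg e (2 * 0 + 1) (2 * l) ↔ v ∈ P := by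
    intro v
    apply mem_of_coe
    rw [he.coe, hem]
  have h4 : Att (sw G) (fun t => c (t + 1)) false (e (2 * 0)) := by
    obtain ⟨t, ht⟩ := even_attT S hc h hl hay (e (2 * 0)) ((hmem _).mp h1.snd_mem)
    exact ⟨t - 1, by simpa using ht⟩
  have h5 := (even_C S.swp hc.swp h3 (l := l) (by simp) h4 w ((hmem w).mpr hw)).1
  intro z hz hne
  simpa using h5 z ((hmem z).mpr hz) hne

/-- the final structure in the even case -/
structure DB (G : Bool → SimpleGraph V) (N d k l : ℕ) (c : ℤ → V) (P : List V) : Prop where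
  hc : Cyc G c k
  nd : (Ms c k P).Nodup
  len : P.length = 2 * l
  lpos : 0 < l
  hN : 2 * k + 2 * l = N
  K : ∀ g, ∀ w ∈ P, Kc G g w P
  A : ∀ g, ∀ w ∈ P, Att G c g w
  C : ∀ g, ∀ w ∈ P, Cl G g w (Ms c k P)
  F : ∀ w ∈ P, ∀ w' ∈ P, w ≠ w' → BT G d k l c w w' P
  T : ∀ w ∈ P, ∀ w' ∈ P, w ≠ w' → BT (sw G) d k l (fun t => c (t + 1)) w w' P

theorem DB_mk (S : Cx G d N k) (hc : Cyc G c k) (hnd : (Ms c k P).Nodup) (hlen : P.length = 2 * l)
    (hl : 0 < l) (hN : 2 * k + 2 * l = N) (K : ∀ g, ∀ w ∈ P, Kc G g w P)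
    (A : ∀ g, ∀ w ∈ P, Att G c g w) (C : ∀ g, ∀ w ∈ P, Cl G g w (Ms c k P)) :
    DB G N d k l c P := by
  have hndP : P.Nodup := by simpa using (Multiset.nodup_add.mp hnd).2.1
  have aux : ∀ a, ∀ w ∈ P, ∀ w' ∈ P, w ≠ w' → ∃ P', BP G N c k a w a w' P' ∧
      P'.length = 2 * l ∧ ∀ z, z ∈ P' ↔ z ∈ P := by
    intro a w hw w' hw' hne
    obtain ⟨P', h1, h2⟩ := dc_path K hndP hw hw' hne a
    rw [hlen, fcol_even _ (by omega)] at h1
    have hlen' : P'.length = 2 * l := by
      have := congrArg Multiset.card h2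
      rw [Multiset.coe_card, Multiset.coe_card, hlen] at this
      exact this
    refine ⟨P', ⟨h1, ?_, by rw [hlen']; exact hN⟩, hlen', fun z => mem_of_coe h2⟩
    unfold Ms; rw [h2]; exact hnd
  refine ⟨hc, hnd, hlen, hl, hN, K, A, C, ?_, ?_⟩
  · intro w hw w' hw' hne
    obtain ⟨P', h1, h2, h3⟩ := aux false w hw w' hw' hne
    have hF := even_type S hc h1 h2 (A false w' hw')
    exact ⟨hF.deq, fun z hz => hF.fx z ((h3 z).mpr hz), hF.lk, hF.e1, hF.e1', hF.xe, hF.xo⟩
  · intro w hw w' hw' hne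
    obtain ⟨P', h1, h2, h3⟩ := aux true w hw w' hw' hne
    have hF := even_type S.swp hc.swp (h1.swp hc).1 h2 (by
      obtain ⟨t, ht⟩ := A true w' hw'
      exact ⟨t - 1, by simpa using ht⟩)
    exact ⟨hF.deq, fun z hz => hF.fx z ((h3 z).mpr hz), hF.lk, hF.e1, hF.e1', hF.xe, hF.xo⟩

theorem even_DB0 (S : Cx G d N k) (hc : Cyc G c k) (h : BP G N c k false x false y P)
    (hl : P.length = 2 * l) (hay : Att G c false y) :
    (∀ g, ∀ w ∈ P, Kc G g w P) ∧ (∀ g, ∀ w ∈ P, Att G c g w) ∧
      (∀ g, ∀ w ∈ P, Cl G g w (Ms c k P)) := by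
  refine ⟨?_, ?_, ?_⟩
  · intro g
    cases g
    · exact fun w hw => (even_C S hc h hl hay w hw).1
    · exact even_KT S hc h hl hay
  · intro g
    cases g
    · exact fun w hw => (even_C S hc h hl hay w hw).2
    · exact even_attT S hc h hl hay
  · intro g
    cases g
    · exact even_cl S hc h hl hay
    · exact even_clT S hc h hl hay

theorem even_DB (S : Cx G d N k) (hc : Cyc G c k) (h : BP G N c k a x a y P)
    (hl : P.length = 2 * l) (hay : Att G c a y) : DB G N d k l c P := by
  have hlen := h.cp.length_pos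
  have hN := h.len
  rw [hl] at hN
  cases a
  · obtain ⟨h1, h2, h3⟩ := even_DB0 S hc h hl hay
    exact DB_mk S hc h.nd hl (by omega) hN h1 h2 h3
  · obtain ⟨h1, h2, h3⟩ := even_DB0 S.swp hc.swp (h.swp hc).1 hl (by
      obtain ⟨t, ht⟩ := hay
      exact ⟨t - 1, by simpa using ht⟩)
    refine DB_mk S hc h.nd hl (by omega) hN ?_ ?_ ?_
    · intro g w hw z hz hne
      simpa using h1 (!g) w hw z hz hne
    · intro g w hw
      obtain ⟨t, ht⟩ := h2 (!g) w hw
      exact ⟨t + 1, by simpa using ht⟩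
    · intro g w hw z hz
      have := h3 (!g) w hw z (by simpa using hz)
      rwa [(h.swp hc).2] at this

end Pool.Agent.Helper458
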