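import Pool.Agent.Helper458.PC8

set_option autoImplicit false
set_option linter.unusedSectionVars false

namespace Pool.Agent.Helper458

open Classical

variable {V : Type*} [Fintype V] {G : Bool → SimpleGraph V} {d N k l : ℕ}
  {c e : ℤ → V} {a b : Bool} {x y : V} {P : List V}

theorem DB.ndP (D : DB G N d k l c P) : P.Nodup := by
  simpa using (Multiset.nodup_add.mp D.nd).2.1

theorem DB.uf (D : DB G N d k l c P) (hl : 2 ≤ l) : UF G c P := by
  intro g t w hw w' hw'
  obtain ⟨z, hz, hz1, hz2⟩ := third D.ndP (by rw [D.len]; omega) w w'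
  have f1 := D.F w hw z hz (Ne.symm hz1)
  have f2 := D.F w' hw' z hz (Ne.symm hz2)
  have f3 := D.F z hz w hw hz1
  have f4 := D.F z hz w' hw' hz2
  have t1 := D.T w hw z hz (Ne.symm hz1)
  have t2 := D.T w' hw' z hz (Ne.symm hz2)
  have t3 := D.T z hz w hw hz1
  have t4 := D.T z hz w' hw' hz2
  rcases Int.even_or_odd' t with ⟨i, rfl | rfl⟩
  · cases g
    · rw [f3.e1', f4.e1']
    · have h1 : (G true).Adj w (c (2 * (i - 1) + 1 + 1)) ↔ _ := t1.e1 (i - 1)
      have h2 : (G true).Adj w' (c (2 * (i - 1) + 1 + 1)) ↔ _ := t2.e1 (i - 1)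
      rw [show 2 * (i - 1) + 1 + 1 = 2 * i by ring] at h1 h2
      rw [h1, h2]
  · cases g
    · rw [f1.e1, f2.e1]
    · have h1 : (G true).Adj w (c (2 * i + 1)) ↔ _ := t3.e1' i
      have h2 : (G true).Adj w' (c (2 * i + 1)) ↔ _ := t4.e1' i
      rw [h1, h2]

theorem even_big (S : Cx G d N k) (D : DB G N d k l c P) (hl : 2 ≤ l) : False := by
  have hc := D.hc
  have hk := hc.pos
  have hU := D.uf hl
  obtain ⟨x, hx⟩ : ∃ x, x ∈ P := List.exists_mem_of_length_pos (by rw [D.len]; omega)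
  obtain ⟨y, hy, hyx, -⟩ := third D.ndP (by rw [D.len]; omega) x x
  have hxy : x ≠ y := Ne.symm hyx
  have t1 := D.T x hx y hy hxy
  have T1 : ∀ i, (G true).Adj x (c (2 * (i + 1))) ↔ gap (fun j => (G true).Adj y (c (2 * j + 1))) l i := by
    intro i
    have h1 : (G true).Adj x (c (2 * i + 1 + 1)) ↔ _ := t1.e1 i
    rwa [show 2 * i + 1 + 1 = 2 * (i + 1) by ring] at h1
  obtain ⟨i, hi, hi'⟩ := cyc_step hk (T := fun i => (G true).Adj x (c (2 * i))) (evP hc true x)
    (by
      obtain ⟨j, hj⟩ := t1.xo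
      exact ⟨j + 1, by
        show (G true).Adj x (c (2 * (j + 1)))
        have h1 : (G true).Adj x (c (2 * j + 1 + 1)) := hj
        rwa [show 2 * j + 1 + 1 = 2 * (j + 1) by ring] at h1⟩)
    (by
      obtain ⟨j, hj⟩ := (D.T y hy x hx hyx).xe
      have hj' : (G true).Adj y (c (2 * j + 1)) := hj
      refine ⟨j, fun hcon => ?_⟩
      have h1 := (T1 (j - 1)).mp (by rw [show j - 1 + 1 = j by ring]; exact hcon) 1 le_rfl (by omega)
      apply h1
      show (G true).Adj y (c (2 * (j - 1 + ((1 : ℕ) : ℤ)) + 1))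
      rwa [show j - 1 + ((1 : ℕ) : ℤ) = j by push_cast; ring])
  have g1 := (T1 (i - 1)).mp (by rw [show i - 1 + 1 = i by ring]; exact hi)
  have hyj : (G true).Adj y (c (2 * (i + l) + 1)) := by
    by_contra hcon
    apply hi'
    show (G true).Adj x (c (2 * (i + 1)))
    rw [T1]
    intro s hs1 hs2
    by_cases hsl : s = l
    · subst hsl
      exact hcon
    · have := g1 (s + 1) (by omega) (by omega)
      rw [show i - 1 + ((s + 1 : ℕ) : ℤ) = i + s by push_cast; ring] at this
      exact this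
  have hlk := t1.lk
  obtain ⟨P1, hP1, hP1m⟩ := dc_path D.K D.ndP hx hy hxy true
  rw [D.len, fcol_even _ (by omega)] at hP1
  have hBP : BP G N c k true x true y P1 := by
    refine ⟨hP1, ?_, ?_⟩
    · unfold Ms; rw [hP1m]; exact D.nd
    · have := congrArg Multiset.card hP1m
      rw [Multiset.coe_card, Multiset.coe_card, D.len] at this
      rw [this]; exact D.hN
  have hMs1 : Ms c k P1 = Ms c k P := by unfold Ms; rw [hP1m]
  have hend : c (2 * (i + l + ((k - l - 1 : ℕ) : ℤ)) + 2) = c (2 * i) := by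
    rw [show 2 * (i + l + ((k - l - 1 : ℕ) : ℤ)) + 2 = 2 * i + 2 * k by omega, hc.per]
  have hC := hP1.append hyj (hc.sFT (i + l) (k - l - 1))
  rw [hend] at hC
  have hUc := hc.sFT i (l - 1)
  set L := P1 ++ seg c (2 * (i + l) + 1) (2 * (k - l - 1) + 2) with hL
  set U := seg c (2 * i + 1) (2 * (l - 1) + 2) with hUdef
  have hm : (L : Multiset V) + (U : Multiset V) = Ms c k P1 := by
    rw [Ms, hL, hUdef, ← Multiset.coe_add,
      ← arc_split hc (2 * i + 1) (m := 2 * (l - 1) + 2) (n := 2 * (k - l - 1) + 2) (by omega),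
      show 2 * i + 1 + ((2 * (l - 1) + 2 : ℕ) : ℤ) = 2 * (i + l) + 1 by omega]
    abel
  have hLC := isC_of hBP hC hi.symm hm
  obtain ⟨c', k', hc', hk', hcL⟩ := exists_Cyc hLC
  have hP1len : P1.length = 2 * l := by
    have := congrArg Multiset.card hP1m
    rw [Multiset.coe_card, Multiset.coe_card, D.len] at this
    exact this
  have hLlen : L.length = 2 * k := by
    rw [hL, List.length_append, seg_length, hP1len]; omega
  have hkk : k' = k := by omega
  subst hkk
  have hMs : Ms c' k' U = Ms c k' P1 := by rw [Ms, hcL, hm]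
  have hUlen : U.length = 2 * l := by rw [hUdef, seg_length]; omega
  have hB : BP G N c' k' true (c (2 * i + 1)) true (c (2 * (i + ((l - 1 : ℕ) : ℤ)) + 2)) U := by
    refine ⟨hUc, by rw [hMs]; exact hBP.nd, ?_⟩
    rw [hUlen]; exact D.hN
  have hmemL : ∀ v ∈ L, ∃ t, c' t = v := by
    intro v hv
    have : v ∈ seg c' 0 (2 * k') := (mem_of_coe hcL).mpr hv
    rw [mem_seg] at this
    obtain ⟨t, _, ht⟩ := this
    exact ⟨_, ht⟩
  have hatt : Att G c' true (c (2 * (i + ((l - 1 : ℕ) : ℤ)) + 2)) := by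
    have h1 : Att G c' true (c (2 * i + 1)) := by
      obtain ⟨t, ht⟩ := hmemL (c (2 * i)) (by
        rw [hL, List.mem_append, mem_seg]
        right
        refine ⟨2 * (k' - l - 1) + 1, by omega, ?_⟩
        rw [← hend]; congr 1; push_cast; ring)
      exact ⟨t, by rw [ht]; exact (hc.arrT i).symm⟩
    exact (S.att hc' hB.rev h1).2
  have hU' := (even_DB S hc' hB hUlen hatt).uf hl
  have hUmem : ∀ s : ℕ, s < 2 * l → c (2 * i + 1 + s) ∈ U := by
    intro s hs
    rw [hUdef, mem_seg]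
    exact ⟨s, by omega, rfl⟩
  have hPL : ∀ w ∈ P, w ∈ L := by
    intro w hw
    rw [hL, List.mem_append]
    exact Or.inl ((mem_of_coe hP1m).mpr hw)
  have hv0 : c (2 * (i + 1)) ∈ U := by
    have := hUmem 1 (by omega)
    rwa [show 2 * i + 1 + ((1 : ℕ) : ℤ) = 2 * (i + 1) by push_cast; ring] at this
  have hnoB : ∀ u ∈ U, ∀ w ∈ P, ¬ (G false).Adj u w := by
    intro u hu w hw hadj
    obtain ⟨t, ht⟩ := hmemL w (hPL w hw)
    rw [← ht] at hadj
    have h1 := (hU' false t u hu _ hv0).mp hadj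
    have h2 := (hU' false t u hu _ (hUmem 0 (by omega))).mp hadj
    rw [ht] at h1 h2
    have h3 := (hU false _ w hw x hx).mp h1.symm
    have h4 := (hU false _ w hw y hy).mp h2.symm
    rw [Nat.cast_zero, add_zero] at h4
    have h5 := ((D.F y hy x hx hyx).e1 i).mp h4 1 le_rfl (by omega)
    apply h5
    show (G false).Adj x (c (2 * (i + ((1 : ℕ) : ℤ))))
    rw [Nat.cast_one]; exact h3
  have hfin : (G false).Adj x (c (2 * (i + l))) := by
    rw [(D.F y hy x hx hyx).e1']
    intro s hs1 hs2 hadj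
    have h1 := hUmem (2 * (l - s)) (by omega)
    rw [show 2 * i + 1 + ((2 * (l - s) : ℕ) : ℤ) = 2 * (i + l - s) + 1 by omega] at h1
    exact hnoB _ h1 y hy hadj.symm
  have h1 := hUmem (2 * l - 1) (by omega)
  rw [show 2 * i + 1 + ((2 * l - 1 : ℕ) : ℤ) = 2 * (i + l) by omega] at h1
  exact hnoB _ h1 x hx hfin.symm

end Pool.Agent.Helper458
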