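import Pool.Agent.Helper458.Big3

set_option autoImplicit false

namespace Pool.Agent.Helper458

open Classical

variable {V : Type*}

/-- counting indices in a window -/
noncomputable def cw (a : ℤ) (n : ℕ) (P : ℤ → Prop) : ℕ :=
  ((Finset.range n).filter (fun i : ℕ => P (a + i))).card

section cw

variable {P Q : ℤ → Prop}

theorem cnt_cw (c : ℤ → V) (a : ℤ) (n : ℕ) (P : V → Prop) :
    cnt c a n P = cw a n (fun t => P (c t)) := rfl

theorem cw_cnt (a : ℤ) (n : ℕ) (P : ℤ → Prop) :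
    cw a n P = cnt (fun t : ℤ => t) a n P := rfl

theorem cw_base {k : ℕ} (hper : ∀ t, P (t + k) ↔ P t) (a : ℤ) : cw a k P = cw 0 k P := by
  have step : ∀ a : ℤ, cw (a + 1) k P = cw a k P := by
    intro a
    have h1 := cnt_succ (c := fun t : ℤ => t) (P := P) a k
    have h2 := cnt_succ' (c := fun t : ℤ => t) (P := P) a k
    simp only [hper] at h1
    rw [cw_cnt, cw_cnt]
    omega
  induction a using Int.induction_on with
  | zero => rfl
  | succ a ih => rw [step, ih]
  | pred a ih =>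
    have := step (-(a : ℤ) - 1)
    rw [show -(a : ℤ) - 1 + 1 = -a by ring] at this
    rw [← this, ih]

theorem cw_sum (a : ℤ) (n : ℕ) : cw a n P = ∑ i ∈ Finset.range n, (if P (a + i) then 1 else 0) := by
  rw [cw, Finset.card_filter]

theorem cw_compl (a : ℤ) (n : ℕ) : cw a n P + cw a n (fun t => ¬ P t) = n := by
  rw [cw_sum, cw_sum, ← Finset.sum_add_distrib]
  rw [Finset.sum_congr rfl (g := fun _ => 1)]
  · simp
  · intro i _
    by_cases h : P (a + i) <;> simp [h]

theorem cw_split (a : ℤ) (n : ℕ) : cw a n P = cw a n (fun t => Q t ∧ P t) + cw a n (fun t => ¬ Q t ∧ P t) := by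
  rw [cw_sum, cw_sum, cw_sum, ← Finset.sum_add_distrib]
  apply Finset.sum_congr rfl
  intro i _
  by_cases h : P (a + i) <;> by_cases h' : Q (a + i) <;> simp [h, h']

theorem cw_congr {a : ℤ} {n : ℕ} (h : ∀ t : ℤ, P t ↔ Q t) : cw a n P = cw a n Q := by
  have : P = Q := by ext t; exact h t
  rw [this]

theorem cw_mono {a : ℤ} {n : ℕ} (h : ∀ t : ℤ, P t → Q t) : cw a n P ≤ cw a n Q :=
  cnt_mono (c := fun t : ℤ => t) (fun i _ => h _)

theorem cw_eq_zero {a : ℤ} {n : ℕ} (h : ∀ i : ℕ, i < n → ¬ P (a + i)) : cw a n P = 0 :=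
  cnt_eq_zero (c := fun t : ℤ => t) h

theorem cw_pos_iff {a : ℤ} {n : ℕ} : 0 < cw a n P ↔ ∃ i : ℕ, i < n ∧ P (a + i) :=
  cnt_pos_iff (c := fun t : ℤ => t)

theorem cw_mono' {a : ℤ} {n : ℕ} (h : ∀ i : ℕ, i < n → P (a + i) → Q (a + i)) :
    cw a n P ≤ cw a n Q :=
  cnt_mono (c := fun t : ℤ => t) h

theorem cw_neg {k : ℕ} (hper : ∀ t, P (t + k) ↔ P t) : cw 0 k (fun t => P (-t - 1)) = cw 0 k P := by
  rw [cw_sum, cw_sum, ← Finset.sum_range_reflect (fun i : ℕ => if P (0 + i) then 1 else 0)]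
  apply Finset.sum_congr rfl
  intro i hi
  have hi' := Finset.mem_range.mp hi
  have : P (-(0 + (i : ℤ)) - 1) ↔ P (0 + ((k - 1 - i : ℕ) : ℤ)) := by
    rw [← hper (-(0 + (i : ℤ)) - 1)]
    have e : -(0 + (i : ℤ)) - 1 + k = 0 + ((k - 1 - i : ℕ) : ℤ) := by omega
    rw [e]
  simp only [this]

theorem cw_shift {k : ℕ} (hper : ∀ t, P (t + k) ↔ P t) (s : ℤ) :
    cw 0 k (fun t => P (t + s)) = cw 0 k P := by
  rw [← cw_base hper s]
  unfold cw
  congr 1
  apply Finset.filter_congr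
  intro i _
  show P (0 + (i : ℤ) + s) ↔ P (s + i)
  rw [show (0 : ℤ) + i + s = s + i by ring]

theorem cw_lt_of {a : ℤ} {n : ℕ}
    (h : ∀ i : ℕ, i < n → P (a + i) → Q (a + i)) (j : ℕ) (hj : j < n)
    (hP : ¬ P (a + j)) (hQ : Q (a + j)) : cw a n P + 1 ≤ cw a n Q := by
  apply Finset.card_lt_card
  rw [Finset.ssubset_iff_of_subset]
  · refine ⟨j, by simp [hj, hQ], by simp [hP]⟩
  · intro i hi
    simp only [Finset.mem_filter, Finset.mem_range] at hi ⊢
    exact ⟨hi.1, h i hi.1 hi.2⟩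

theorem cw_eq_of_le {a : ℤ} {n : ℕ} (h : ∀ t : ℤ, P t → Q t) (heq : cw a n Q ≤ cw a n P) (i : ℕ)
    (hi : i < n) (hQ : Q (a + i)) : P (a + i) := by
  by_contra hcon
  have := cw_lt_of (P := P) (Q := Q) (a := a) (n := n) (fun i _ => h _) i hi hcon hQ
  omega

theorem cw_two {a : ℤ} {n s t : ℕ} (hs : s < n) (ht : t < n) (hst : s ≠ t) (h1 : P (a + s))
    (h2 : P (a + t)) : 2 ≤ cw a n P := by
  have hsub : ({s, t} : Finset ℕ) ⊆ (Finset.range n).filter (fun i : ℕ => P (a + i)) := by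
    intro i hi
    simp only [Finset.mem_insert, Finset.mem_singleton] at hi
    simp only [Finset.mem_filter, Finset.mem_range]
    rcases hi with rfl | rfl
    · exact ⟨hs, h1⟩
    · exact ⟨ht, h2⟩
  have := Finset.card_le_card hsub
  rw [Finset.card_pair hst] at this
  exact this

theorem cw_pos {a : ℤ} {n s : ℕ} (hs : s < n) (h1 : P (a + s)) : 1 ≤ cw a n P := by
  have := (cnt_pos_iff (c := fun t : ℤ => t) (P := P) (a := a) (n := n)).mpr ⟨s, hs, h1⟩
  exact this

theorem cw_except {a : ℤ} {n s : ℕ}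
    (h : ∀ t : ℕ, t < n → t ≠ s → P (a + t) → Q (a + t)) : cw a n P ≤ cw a n Q + 1 := by
  have hsub : (Finset.range n).filter (fun i : ℕ => P (a + i)) ⊆
      insert s ((Finset.range n).filter (fun i : ℕ => Q (a + i))) := by
    intro i hi
    simp only [Finset.mem_insert, Finset.mem_filter, Finset.mem_range] at hi ⊢
    by_cases his : i = s
    · exact Or.inl his
    · exact Or.inr ⟨hi.1, h i hi.1 his hi.2⟩
  exact le_trans (Finset.card_le_card hsub) (Finset.card_insert_le _ _)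

theorem cw_almost {a : ℤ} {n : ℕ}
    (h : ∀ t s : ℕ, t < s → s < n → P (a + t) → P (a + s) → Q (a + t)) :
    cw a n P ≤ cw a n Q + 1 := by
  by_cases hex : ∃ t : ℕ, t < n ∧ P (a + t)
  · obtain ⟨s, ⟨hs, hPs⟩, hmx⟩ := exists_greatest (b := n) (P := fun t : ℕ => t < n ∧ P (a + t))
      hex (fun t ht => ht.1.le)
    apply cw_except (s := s)
    intro t ht hts hP
    have := hmx t ⟨ht, hP⟩
    exact h t s (by omega) hs hP hPs
  · push Not at hex
    have : cw a n P = 0 := cnt_eq_zero (c := fun t : ℤ => t) hex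
    omega

theorem sum_cw_comm (k : ℕ) (T : ℤ → ℤ → Prop) :
    ∑ i ∈ Finset.range k, cw 0 k (fun q => T (0 + (i : ℤ)) q) =
      ∑ q ∈ Finset.range k, cw 0 k (fun i => T i (0 + (q : ℤ))) := by
  simp only [cw_sum]
  exact Finset.sum_comm

end cw

section small

variable [Fintype V] {G : SimpleGraph V} {f : V → V} {c : ℤ → V} {k : ℕ}

theorem W_two (S : Setup G f c k 1) {x : V} (hx : x ∈ Wf f c k) {v : V} (hv : v ∈ Wf f c k) :
    v = x ∨ v = f x := by
  have hsub : ({x, f x} : Finset V) ⊆ Wf f c k := by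
    intro w hw
    simp only [Finset.mem_insert, Finset.mem_singleton] at hw
    rcases hw with rfl | rfl
    · exact hx
    · exact S.f_mem_W.mpr hx
  have hcard : (Wf f c k).card ≤ ({x, f x} : Finset V).card := by
    rw [S.card_W, Finset.card_pair (fun h => S.ne x h.symm)]
  have := Finset.eq_of_subset_of_card_le hsub hcard
  rw [← this] at hv
  simpa using hv

theorem vert_cases (S : Setup G f c k 1) {x : V} (hx : x ∈ Wf f c k) (v : V) :
    v = x ∨ v = f x ∨ (∃ t, v = c t) ∨ (∃ t, v = f (c t)) := by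
  by_cases hv : v ∈ Wf f c k
  · rcases W_two S hx hv with h | h
    · exact Or.inl h
    · exact Or.inr (Or.inl h)
  · right; right
    rw [S.mem_W, not_not, mem_ms] at hv
    rcases hv with hv | ⟨w, hw, rfl⟩
    · obtain ⟨t, _, rfl⟩ := (mem_seg c).mp hv
      exact Or.inl ⟨_, rfl⟩
    · obtain ⟨t, _, rfl⟩ := (mem_seg c).mp hw
      exact Or.inr ⟨_, rfl⟩

variable {x : V}

theorem F1 (S : Setup G f c k 1) (hx : x ∈ Wf f c k) (t : ℤ) :
    G.Adj (f x) (c (t + 1)) ↔ ¬ G.Adj x (f (c t)) := by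
  have h0 := W_struct S
  have h1 := h0.2.2.1 x hx
  have h2 := h0.2.2.1 (f x) (S.f_mem_W.mpr hx)
  have hs := S.single hx
  have hs' := hs.rv S
  have i2 : cnt c 0 k (fun v => G.Adj (f x) (f v)) + cnt c 1 k (G.Adj x) ≤ k := by
    apply cnt_disj
    rintro t _ ⟨a1, a2⟩
    exact S.ins0 hs' (0 + t) ⟨a1, by rw [show (0 : ℤ) + t + 1 = 1 + t by ring]; exact a2⟩
  rw [cnt_base S.cyc.per 1] at i2
  constructor
  · intro h3 h4
    exact S.ins0 hs t ⟨h4, h3⟩
  · intro h3
    by_contra h4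
    have := cnt_disj_lt (c := c) (c' := c) (P := fun v => G.Adj x (f v)) (Q := G.Adj (f x))
      (a := t) (b := t + 1) (n := k) (by
        intro i _
        have := S.ins0 hs (t + i)
        rwa [show t + 1 + (i : ℤ) = t + i + 1 by ring]) 0 S.cyc.pos (by simpa using h3)
      (by simpa using h4)
    rw [cnt_base S.cyc.per t, cnt_base S.cyc.per (t + 1)] at this
    omega

theorem F2 (S : Setup G f c k 1) (hx : x ∈ Wf f c k) (t : ℤ) :
    G.Adj x (c (t + 1)) ↔ ¬ G.Adj (f x) (f (c t)) := by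
  have := F1 S (S.f_mem_W.mpr hx) t
  rwa [S.inv] at this

theorem deg_idx (S : Setup G f c k 1) (hx : x ∈ Wf f c k) (v : V) :
    dg G v = cw 0 k (fun j => G.Adj v (c (j + 1))) + cw 0 k (fun j => G.Adj v (f (c j))) +
      ((if G.Adj v x then 1 else 0) + (if G.Adj v (f x) then 1 else 0)) := by
  rw [deg_eq S.cyc, ← cnt_base S.cyc.per 1]
  have h1 : (Wf f c k).val = {x, f x} := by
    have := sp_ms S (S.single hx) rfl
    rw [← this, ms_cons, ms_nil, add_zero]
  have h2 : cnt c 1 k (G.Adj v) = cw 0 k (fun j => G.Adj v (c (j + 1))) := by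
    unfold cnt cw
    congr 1
    apply Finset.filter_congr
    intro i _
    show G.Adj v (c (1 + i)) ↔ G.Adj v (c (0 + (i : ℤ) + 1))
    rw [show (0 : ℤ) + i + 1 = 1 + i by ring]
  have h3 : dW G f c k v = (if G.Adj v x then 1 else 0) + (if G.Adj v (f x) then 1 else 0) := by
    rw [dW, h1]
    simp only [Multiset.insert_eq_cons, Multiset.countP_cons]
    rw [← Multiset.cons_zero, Multiset.countP_cons]
    simp [add_comm]
  rw [h2, h3]
  rfl

theorem blk1 (S : Setup G f c k 1) (q : ℤ) {s : ℕ} (hs : 0 < s) :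
    Pth G f (c (q + 1)) (f (c (q + s))) (seg c (q + 1) s) := by
  have := S.cyc.pth (q + 1) s hs
  rw [show q + 1 + (s : ℤ) - 1 = q + s by ring] at this
  exact this

theorem blk3 (S : Setup G f c k 1) (q : ℤ) {s r u : ℕ} (hk : s + r + u = k) (hu : 0 < u) :
    Pth G f (c (q + s + r + 1)) (f (c q)) (seg c (q + s + r + 1) u) := by
  have := S.cyc.pth (q + s + r + 1) u hu
  rw [show q + s + r + 1 + (u : ℤ) - 1 = q + k by rw [← hk]; push_cast; ring, S.cyc.per] at this
  exact this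

theorem contra3 (S : Setup G f c k 1) (hx : x ∈ Wf f c k) {q : ℤ} {s r u : ℕ} (hk : s + r + u = k)
    {L : List V} {p p' : V} (hp : Pth G f p p' L) (ha : G.Adj p' p)
    (hms : ms f L = ms f (seg c (q + 1) s) + ms f (seg c (q + s + 1) r) +
      ms f (seg c (q + s + r + 1) u) + ms f [x]) : False := by
  have hnd := (S.single hx).nd' S (q + 1)
  have e : ms f (seg c (q + 1) k) = ms f (seg c (q + 1) s) + ms f (seg c (q + s + 1) r) +
      ms f (seg c (q + s + r + 1) u) := by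
    rw [← hk, seg_add, seg_add, ms_append, ms_append]
    push_cast
    rw [show q + 1 + (s : ℤ) = q + s + 1 by ring, show q + 1 + ((s : ℤ) + r) = q + s + r + 1 by ring]
  rw [e, ← hms] at hnd
  have h1 := S.max L ⟨_, _, hp, ha, hnd⟩
  have h2 := congrArg Multiset.card hms
  simp only [card_ms, Multiset.card_add, seg_length, List.length_singleton] at h2
  omega

variable {q : ℤ} {s r u : ℕ}

theorem rule5 (S : Setup G f c k 1) (hx : x ∈ Wf f c k) (hk : s + r + u = k) (hs : 0 < s)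
    (hr : 0 < r) (hu : 0 < u) (h1 : G.Adj x (f (c (q + s + r)))) (h2 : G.Adj (f x) (f (c (q + s))))
    (h3 : G.Adj (c (q + s + 1)) (f (c q))) (h4 : G.Adj (c (q + s + r + 1)) (c (q + 1))) :
    False := by
  have p := (((blk3 S q hk hu).append h3.symm (blk1 S (q + s) hr)).append h1.symm
    (Pth.single x)).append h2 ((blk1 S q hs).rv S.inv)
  refine contra3 (q := q) S hx hk p h4.symm ?_
  simp only [ms_append, ms_rv S.inv]
  abel

theorem rule6 (S : Setup G f c k 1) (hx : x ∈ Wf f c k) (hk : s + r + u = k) (hs : 0 < s)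
    (hr : 0 < r) (hu : 0 < u) (h1 : G.Adj x (f (c (q + s + r)))) (h2 : G.Adj (f x) (c (q + 1)))
    (h3 : G.Adj (f (c (q + s))) (c (q + s + r + 1))) (h4 : G.Adj (c (q + s + 1)) (f (c q))) :
    False := by
  have p := (((blk1 S (q + s) hr).append h1.symm (Pth.single x)).append h2
    (blk1 S q hs)).append h3 (blk3 S q hk hu)
  refine contra3 (q := q) S hx hk p h4.symm ?_
  simp only [ms_append]
  abel

theorem rule7a (S : Setup G f c k 1) (hx : x ∈ Wf f c k) (hk : s + r + u = k) (hs : 0 < s)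
    (hr : 0 < r) (hu : 0 < u) (h1 : G.Adj x (f (c q))) (h2 : G.Adj (f x) (c (q + s + 1)))
    (h3 : G.Adj (c (q + 1)) (f (c (q + s + r)))) (h4 : G.Adj (c (q + s + r + 1)) (f (c (q + s)))) :
    False := by
  have p := (((blk3 S q hk hu).append h1.symm (Pth.single x)).append h2
    (blk1 S (q + s) hr)).append h3.symm (blk1 S q hs)
  refine contra3 (q := q) S hx hk p h4.symm ?_
  simp only [ms_append]
  abel

theorem rule7b (S : Setup G f c k 1) (hx : x ∈ Wf f c k) (hk : s + r + u = k) (hs : 0 < s)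
    (hr : 0 < r) (hu : 0 < u) (h1 : G.Adj x (f (c q))) (h2 : G.Adj (f x) (f (c (q + s))))
    (h3 : G.Adj (c (q + 1)) (f (c (q + s + r)))) (h4 : G.Adj (c (q + s + r + 1)) (c (q + s + 1))) :
    False := by
  have p := (((blk3 S q hk hu).append h1.symm (Pth.single x)).append h2
    ((blk1 S q hs).rv S.inv)).append h3 ((blk1 S (q + s) hr).rv S.inv)
  refine contra3 (q := q) S hx hk p h4.symm ?_
  simp only [ms_append, ms_rv S.inv]
  abel

theorem rule7c (S : Setup G f c k 1) (hx : x ∈ Wf f c k) (hk : s + r + u = k) (hs : 0 < s)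
    (hr : 0 < r) (hu : 0 < u) (h1 : G.Adj x (f (c (q + s)))) (h2 : G.Adj (f x) (c (q + s + r + 1)))
    (h3 : G.Adj (c (q + 1)) (f (c (q + s + r)))) (h4 : G.Adj (c (q + s + 1)) (f (c q))) :
    False := by
  have p := (((Pth.single x).append h2 (blk3 S q hk hu)).append h4.symm
    (blk1 S (q + s) hr)).append h3.symm (blk1 S q hs)
  refine contra3 (q := q) S hx hk p h1.symm ?_
  simp only [ms_append]
  abel

theorem ruleZ1 (S : Setup G f c k 1) {y : V} (hy : y ∈ Wf f c k) (hk : s + r + u = k) (hs : 0 < s)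
    (hr : 0 < r) (hu : 0 < u) (h1 : G.Adj (f (c (q + s))) (f y)) (h2 : G.Adj y (c (q + s + r + 1)))
    (h3 : G.Adj (c (q + s + 1)) (f (c q))) : ¬ G.Adj (f (c (q + s + r))) (c (q + 1)) := by
  intro h4
  have hy' : f y ∈ Wf f c k := S.f_mem_W.mpr hy
  have p1 := Pth.single (G := G) (f := f) (f y)
  rw [S.inv] at p1
  have p := (((blk1 S (q + s) hr).append h4 (blk1 S q hs)).append h1 p1).append h2
    (blk3 S q hk hu)
  refine contra3 (q := q) S hy' hk p h3.symm ?_
  simp only [ms_append]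
  abel

theorem ruleZ2 (S : Setup G f c k 1) {y : V} (hy : y ∈ Wf f c k) (hk : s + r + u = k) (hs : 0 < s)
    (hr : 0 < r) (hu : 0 < u) (h1 : G.Adj (f y) (f (c (q + s)))) (h2 : G.Adj y (f (c (q + s + r))))
    (h3 : G.Adj (c (q + s + 1)) (f (c q))) : ¬ G.Adj (c (q + 1)) (c (q + s + r + 1)) := by
  intro h4
  have p := (((blk1 S (q + s) hr).append h2.symm (Pth.single y)).append h1
    ((blk1 S q hs).rv S.inv)).append h4 (blk3 S q hk hu)
  refine contra3 (q := q) S hy hk p h3.symm ?_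
  simp only [ms_append, ms_rv S.inv]
  abel

theorem ruleZ3 (S : Setup G f c k 1) {y : V} (hy : y ∈ Wf f c k) (hk : s + r + u = k) (hs : 0 < s)
    (hr : 0 < r) (hu : 0 < u) (h1 : G.Adj (c (q + 1)) (f y)) (h2 : G.Adj y (c (q + s + r + 1)))
    (h3 : G.Adj (c (q + s + 1)) (f (c q))) : ¬ G.Adj (f (c (q + s + r))) (f (c (q + s))) := by
  intro h4
  have hy' : f y ∈ Wf f c k := S.f_mem_W.mpr hy
  have p1 := Pth.single (G := G) (f := f) (f y)
  rw [S.inv] at p1
  have p := (((blk1 S (q + s) hr).append h4 ((blk1 S q hs).rv S.inv)).append h1 p1).append h2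
    (blk3 S q hk hu)
  refine contra3 (q := q) S hy' hk p h3.symm ?_
  simp only [ms_append, ms_rv S.inv]
  abel

theorem heads (S : Setup G f c k 1) (hx : x ∈ Wf f c k) {i j : ℤ} (h1 : G.Adj x (f (c i)))
    (h2 : G.Adj (f x) (f (c j))) : ¬ G.Adj (c (i + 1)) (c (j + 1)) :=
  fun h => S.heads (S.single hx) i j h1 ⟨h, h2⟩

theorem tails (S : Setup G f c k 1) (hx : x ∈ Wf f c k) {i j : ℤ} (h1 : G.Adj x (c (i + 1)))
    (h2 : G.Adj (f x) (c (j + 1))) : ¬ G.Adj (f (c i)) (f (c j)) := by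
  have hx' : x ∈ Wf f (fun t => f (c (-t))) k := by rw [Wf_rev S]; exact hx
  have := heads S.rev hx' (i := -i - 1) (j := -j - 1)
  simp only [S.inv] at this
  rw [show -(-i - 1) = i + 1 by ring, show -(-j - 1) = j + 1 by ring,
    show -(-i - 1 + 1) = i by ring, show -(-j - 1 + 1) = j by ring] at this
  exact this h1 h2

end small

end Pool.Agent.Helper458
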