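import Pool.Agent.Helper458.Small1

set_option autoImplicit false

namespace Pool.Agent.Helper458

open Classical

variable {V : Type*}

/-- both `x` and `f x` are adjacent to the second vertex -/
def EE (G : SimpleGraph V) (f : V → V) (c : ℤ → V) (x : V) (t : ℤ) : Prop :=
  G.Adj x (f (c t)) ∧ G.Adj (f x) (f (c t))

/-- neither is -/
def OO (G : SimpleGraph V) (f : V → V) (c : ℤ → V) (x : V) (t : ℤ) : Prop :=
  ¬ G.Adj x (f (c t)) ∧ ¬ G.Adj (f x) (f (c t))

section small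

variable [Fintype V] {G : SimpleGraph V} {f : V → V} {c : ℤ → V} {k : ℕ} {x : V}

theorem per1 (S : Setup G f c k 1) (t : ℤ) : c (t + k + 1) = c (t + 1) := by
  rw [show t + (k : ℤ) + 1 = t + 1 + k by ring, S.cyc.per]

theorem EE_per (S : Setup G f c k 1) (t : ℤ) : EE G f c x (t + k) ↔ EE G f c x t := by
  simp only [EE, S.cyc.per]

theorem OO_per (S : Setup G f c k 1) (t : ℤ) : OO G f c x (t + k) ↔ OO G f c x t := by
  simp only [OO, S.cyc.per]

theorem EE_per_int (S : Setup G f c k 1) (t n : ℤ) : EE G f c x (t + n * k) ↔ EE G f c x t := by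
  simp only [EE, S.cyc.per_int]

theorem OO_per_int (S : Setup G f c k 1) (t n : ℤ) : OO G f c x (t + n * k) ↔ OO G f c x t := by
  simp only [OO, S.cyc.per_int]

theorem per_int1 (S : Setup G f c k 1) (t n : ℤ) : c (t + n * k + 1) = c (t + 1) := by
  rw [show t + n * (k : ℤ) + 1 = t + 1 + n * k by ring, S.cyc.per_int]

theorem row_ineq (S : Setup G f c k 1) (hx : x ∈ Wf f c k) {i : ℤ} (hi : EE G f c x i) :
    cw 0 k (fun q => ¬ G.Adj (c (i + 1)) (f (c q))) + 1 ≤
      cw 0 k (fun q => G.Adj (c (i + 1)) (c (q + 1))) := by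
  have h1 := S.deg (c (i + 1))
  rw [deg_idx S hx] at h1
  have h2 : ¬ G.Adj (c (i + 1)) x := by
    intro h
    exact (F2 S hx i).mp h.symm hi.2
  have h3 : ¬ G.Adj (c (i + 1)) (f x) := by
    intro h
    exact (F1 S hx i).mp h.symm hi.1
  rw [if_neg h2, if_neg h3] at h1
  have h4 := cw_compl (P := fun q => G.Adj (c (i + 1)) (f (c q))) 0 k
  omega

theorem adj_OO (S : Setup G f c k 1) (hx : x ∈ Wf f c k) {i q : ℤ} (hi : EE G f c x i)
    (h : G.Adj (c (i + 1)) (c (q + 1))) : OO G f c x q := by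
  constructor
  · intro h1
    exact heads S hx h1 hi.2 h.symm
  · intro h1
    exact heads S hx hi.1 h1 h

theorem col_ineq (S : Setup G f c k 1) (hx : x ∈ Wf f c k) (q : ℤ) :
    cw 0 k (fun i => EE G f c x i ∧ G.Adj (c (i + 1)) (c (q + 1))) ≤
      cw 0 k (fun i => EE G f c x i ∧ ¬ G.Adj (c (i + 1)) (f (c q))) + 1 := by
  rw [← cw_base (k := k) (P := fun i => EE G f c x i ∧ G.Adj (c (i + 1)) (c (q + 1)))
    (by intro t; simp only [EE_per S, per1 S]) q]
  rw [← cw_base (k := k) (P := fun i => EE G f c x i ∧ ¬ G.Adj (c (i + 1)) (f (c q)))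
    (by intro t; simp only [EE_per S, per1 S]) q]
  apply cw_almost
  rintro t s hts hsk ⟨e1, b1⟩ ⟨e2, b2⟩
  refine ⟨e1, ?_⟩
  intro h3
  rcases Nat.eq_zero_or_pos t with rfl | ht
  · simp at b1
  obtain ⟨r, rfl⟩ := Nat.exists_eq_add_of_lt hts
  obtain ⟨u, hu⟩ := Nat.exists_eq_add_of_lt hsk
  refine rule5 (q := q) (s := t) (r := r + 1) (u := u + 1) S hx (by omega) ht (by omega) (by omega)
    ?_ e1.2 h3 ?_
  · have := e2.1
    rw [show q + ((t + r + 1 : ℕ) : ℤ) = q + t + ((r + 1 : ℕ) : ℤ) by push_cast; ring] at this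
    exact this
  · rw [show q + ((t + r + 1 : ℕ) : ℤ) = q + t + ((r + 1 : ℕ) : ℤ) by push_cast; ring] at b2
    exact b2

theorem eps_le (S : Setup G f c k 1) (hx : x ∈ Wf f c k) :
    cw 0 k (EE G f c x) ≤ cw 0 k (OO G f c x) ∧
    (cw 0 k (EE G f c x) = cw 0 k (OO G f c x) →
      (∀ i q, EE G f c x i → ¬ OO G f c x q → G.Adj (c (i + 1)) (f (c q))) ∧
      (∀ i, EE G f c x i → cw 0 k (fun q => G.Adj (c (i + 1)) (c (q + 1))) =
        cw 0 k (fun q => ¬ G.Adj (c (i + 1)) (f (c q))) + 1) ∧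
      (∀ q, OO G f c x q → cw 0 k (fun i => EE G f c x i ∧ G.Adj (c (i + 1)) (c (q + 1))) =
        cw 0 k (fun i => EE G f c x i ∧ ¬ G.Adj (c (i + 1)) (f (c q))) + 1)) := by
  set T1 : ℤ → ℤ → Prop := fun i q => EE G f c x i ∧ G.Adj (c (i + 1)) (c (q + 1)) with hT1
  set T2 : ℤ → ℤ → Prop := fun i q => EE G f c x i ∧ ¬ G.Adj (c (i + 1)) (f (c q)) with hT2
  have rows : ∀ i : ℤ, cw 0 k (T2 i) + (if EE G f c x i then 1 else 0) ≤ cw 0 k (T1 i) := by
    intro i
    by_cases hi : EE G f c x i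
    · simp only [hT1, hT2, hi, true_and, if_true]
      exact row_ineq S hx hi
    · simp only [hT1, hT2, hi, false_and, if_false]
      omega
  have cols : ∀ q : ℤ, cw 0 k (fun i => T1 i q) ≤ cw 0 k (fun i => T2 i q) +
      (if OO G f c x q then 1 else 0) := by
    intro q
    by_cases hq : OO G f c x q
    · simp only [hq, if_true]
      exact col_ineq S hx q
    · have : cw 0 k (fun i => T1 i q) = 0 := by
        apply cw_eq_zero
        rintro i _ ⟨h1, h2⟩
        exact hq (adj_OO S hx h1 h2)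
      omega
  have s1 : ∑ i ∈ Finset.range k, (cw 0 k (T2 (0 + (i : ℤ))) +
      (if EE G f c x (0 + (i : ℤ)) then 1 else 0)) ≤
      ∑ i ∈ Finset.range k, cw 0 k (T1 (0 + (i : ℤ))) :=
    Finset.sum_le_sum (fun i _ => rows _)
  have s2 : ∑ q ∈ Finset.range k, cw 0 k (fun i => T1 i (0 + (q : ℤ))) ≤
      ∑ q ∈ Finset.range k, (cw 0 k (fun i => T2 i (0 + (q : ℤ))) +
        (if OO G f c x (0 + (q : ℤ)) then 1 else 0)) :=
    Finset.sum_le_sum (fun i _ => cols _)
  have c1 : ∑ i ∈ Finset.range k, cw 0 k (T1 (0 + (i : ℤ))) =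
      ∑ q ∈ Finset.range k, cw 0 k (fun i => T1 i (0 + (q : ℤ))) := sum_cw_comm k T1
  have c2 : ∑ i ∈ Finset.range k, cw 0 k (T2 (0 + (i : ℤ))) =
      ∑ q ∈ Finset.range k, cw 0 k (fun i => T2 i (0 + (q : ℤ))) := sum_cw_comm k T2
  have e1 : cw 0 k (EE G f c x) = ∑ i ∈ Finset.range k,
      (if EE G f c x (0 + (i : ℤ)) then 1 else 0) := cw_sum 0 k
  have e2 : cw 0 k (OO G f c x) = ∑ i ∈ Finset.range k,
      (if OO G f c x (0 + (i : ℤ)) then 1 else 0) := cw_sum 0 k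
  have a1 : ∑ i ∈ Finset.range k, (cw 0 k (T2 (0 + (i : ℤ))) +
      (if EE G f c x (0 + (i : ℤ)) then 1 else 0)) = ∑ i ∈ Finset.range k, cw 0 k (T2 (0 + (i : ℤ)))
        + cw 0 k (EE G f c x) := by rw [Finset.sum_add_distrib, e1]
  have a2 : ∑ q ∈ Finset.range k, (cw 0 k (fun i => T2 i (0 + (q : ℤ))) +
        (if OO G f c x (0 + (q : ℤ)) then 1 else 0)) =
      ∑ q ∈ Finset.range k, cw 0 k (fun i => T2 i (0 + (q : ℤ))) + cw 0 k (OO G f c x) := by
    rw [Finset.sum_add_distrib, e2]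
  refine ⟨by omega, ?_⟩
  intro heq
  have r1 : ∑ i ∈ Finset.range k, (cw 0 k (T2 (0 + (i : ℤ))) +
      (if EE G f c x (0 + (i : ℤ)) then 1 else 0)) =
      ∑ i ∈ Finset.range k, cw 0 k (T1 (0 + (i : ℤ))) := by omega
  have r2 : ∑ q ∈ Finset.range k, cw 0 k (fun i => T1 i (0 + (q : ℤ))) =
      ∑ q ∈ Finset.range k, (cw 0 k (fun i => T2 i (0 + (q : ℤ))) +
        (if OO G f c x (0 + (q : ℤ)) then 1 else 0)) := by omega
  have r1' := (Finset.sum_eq_sum_iff_of_le (fun i _ => rows _)).mp r1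
  have r2' := (Finset.sum_eq_sum_iff_of_le (fun i _ => cols _)).mp r2
  refine ⟨?_, ?_, ?_⟩
  · intro i q hi hq
    obtain ⟨s, hs, n, rfl⟩ := rep S 0 q
    have h1 := r2' s (Finset.mem_range.mpr hs)
    rw [OO_per_int S] at hq
    rw [if_neg hq, add_zero] at h1
    have h2 : cw 0 k (fun i => T1 i (0 + (s : ℤ))) = 0 := by
      apply cw_eq_zero
      rintro i _ ⟨h1, h2⟩
      exact hq (adj_OO S hx h1 h2)
    rw [h2] at h1
    rw [S.cyc.per_int]
    by_contra hcon
    obtain ⟨t, ht, m, hm⟩ := rep S 0 i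
    have h3 : 1 ≤ cw 0 k (fun i => T2 i (0 + (s : ℤ))) := by
      apply cw_pos ht
      rw [hm, EE_per_int S] at hi
      rw [hm, per_int1 S] at hcon
      exact ⟨hi, hcon⟩
    omega
  · intro i hi
    obtain ⟨s, hs, n, rfl⟩ := rep S 0 i
    have h1 := r1' s (Finset.mem_range.mpr hs)
    rw [EE_per_int S] at hi
    simp only [hT1, hT2, hi, true_and, if_true] at h1
    rw [per_int1 S]
    exact h1.symm
  · intro q hq
    obtain ⟨s, hs, n, rfl⟩ := rep S 0 q
    have h1 := r2' s (Finset.mem_range.mpr hs)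
    rw [OO_per_int S] at hq
    simp only [hT1, hT2, hq, if_true] at h1
    rw [per_int1 S, S.cyc.per_int]
    exact h1

theorem EE_rev (S : Setup G f c k 1) (hx : x ∈ Wf f c k) (t : ℤ) :
    EE G f (fun t => f (c (-t))) x t ↔ OO G f c x (-t - 1) := by
  simp only [EE, OO, S.inv]
  have h1 := F1 S hx (-t - 1)
  have h2 := F2 S hx (-t - 1)
  rw [show -t - 1 + 1 = -t by ring] at h1 h2
  rw [h1, h2]
  exact and_comm

theorem OO_rev (S : Setup G f c k 1) (hx : x ∈ Wf f c k) (t : ℤ) :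
    OO G f (fun t => f (c (-t))) x t ↔ EE G f c x (-t - 1) := by
  simp only [EE, OO, S.inv]
  have h1 := F1 S hx (-t - 1)
  have h2 := F2 S hx (-t - 1)
  rw [show -t - 1 + 1 = -t by ring] at h1 h2
  rw [h1, h2, not_not, not_not]
  exact and_comm

theorem cw_EE_rev (S : Setup G f c k 1) (hx : x ∈ Wf f c k) :
    cw 0 k (EE G f (fun t => f (c (-t))) x) = cw 0 k (OO G f c x) := by
  rw [cw_congr (EE_rev S hx)]
  exact cw_neg (OO_per S)

theorem cw_OO_rev (S : Setup G f c k 1) (hx : x ∈ Wf f c k) :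
    cw 0 k (OO G f (fun t => f (c (-t))) x) = cw 0 k (EE G f c x) := by
  rw [cw_congr (OO_rev S hx)]
  exact cw_neg (EE_per S)

theorem hx_rev (S : Setup G f c k 1) (hx : x ∈ Wf f c k) : x ∈ Wf f (fun t => f (c (-t))) k := by
  rw [Wf_rev S]; exact hx

theorem bal (S : Setup G f c k 1) (hx : x ∈ Wf f c k) :
    cw 0 k (EE G f c x) = cw 0 k (OO G f c x) := by
  have h1 := (eps_le S hx).1
  have h2 := (eps_le S.rev (hx_rev S hx)).1
  rw [cw_EE_rev S hx, cw_OO_rev S hx] at h2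
  omega

theorem E1 (S : Setup G f c k 1) (hx : x ∈ Wf f c k) {i q : ℤ} (hi : EE G f c x i)
    (hq : ¬ OO G f c x q) : G.Adj (c (i + 1)) (f (c q)) :=
  ((eps_le S hx).2 (bal S hx)).1 i q hi hq

theorem E1' (S : Setup G f c k 1) (hx : x ∈ Wf f c k) {q j : ℤ} (hq : OO G f c x q)
    (hj : ¬ EE G f c x j) : G.Adj (f (c q)) (c (j + 1)) := by
  have h := E1 S.rev (hx_rev S hx) (i := -q - 1) (q := -j - 1)
    (by rw [EE_rev S hx]; convert hq using 1; ring)
    (by rw [OO_rev S hx]; convert hj using 2; ring)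
  simp only [S.inv] at h
  rw [show -(-q - 1 + 1) = q by ring, show -(-j - 1) = j + 1 by ring] at h
  exact h

theorem E2 (S : Setup G f c k 1) (hx : x ∈ Wf f c k) {i : ℤ} (hi : EE G f c x i) :
    cw 0 k (fun q => G.Adj (c (i + 1)) (c (q + 1))) =
        cw 0 k (fun q => ¬ G.Adj (c (i + 1)) (f (c q))) + 1 :=
  ((eps_le S hx).2 (bal S hx)).2.1 i hi

theorem E3 (S : Setup G f c k 1) (hx : x ∈ Wf f c k) {q : ℤ} (hq : OO G f c x q) :
    cw q k (fun i => EE G f c x i ∧ G.Adj (c (i + 1)) (c (q + 1))) =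
        cw q k (fun i => EE G f c x i ∧ ¬ G.Adj (c (i + 1)) (f (c q))) + 1 := by
  rw [cw_base (k := k) (P := fun i => EE G f c x i ∧ G.Adj (c (i + 1)) (c (q + 1)))
    (by intro t; simp only [EE_per S, per1 S]) q]
  rw [cw_base (k := k) (P := fun i => EE G f c x i ∧ ¬ G.Adj (c (i + 1)) (f (c q)))
    (by intro t; simp only [EE_per S, per1 S]) q]
  exact ((eps_le S hx).2 (bal S hx)).2.2 q hq

theorem R1 (S : Setup G f c k 1) (hx : x ∈ Wf f c k) {q : ℤ} {s r u : ℕ} (hk : s + r + u = k)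
    (hs : 0 < s) (hr : 0 < r) (hu : 0 < u) (hq : OO G f c x q) (hi : EE G f c x (q + s + r))
    (hp : ¬ OO G f c x (q + s)) : ¬ G.Adj (c (q + s + 1)) (f (c q)) := by
  intro h
  exact rule6 S hx hk hs hr hu hi.1 ((F1 S hx q).mpr hq.1) (E1 S hx hi hp).symm h

theorem R2 (S : Setup G f c k 1) (hx : x ∈ Wf f c k) {q : ℤ} {s r u : ℕ} (hk : s + r + u = k)
    (hs : 0 < s) (hr : 0 < r) (hu : 0 < u) (hq : OO G f c x q) (hi : EE G f c x (q + s + r)) :
    EE G f c x (q + s) ∨ OO G f c x (q + s) := by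
  by_contra hcon
  push Not at hcon
  exact R1 S hx hk hs hr hu hq hi hcon.2 (E1' S hx hq hcon.1).symm

theorem not_both {t : ℤ} (h1 : EE G f c x t) (h2 : OO G f c x t) : False := h2.1 h1.1

theorem E4 (S : Setup G f c k 1) (hx : x ∈ Wf f c k) (hpos : 0 < cw 0 k (EE G f c x)) {q : ℤ}
    (hq : OO G f c x q) : (∀ i, EE G f c x i → G.Adj (c (i + 1)) (c (q + 1))) ∧
    ∃ t : ℕ, t < k ∧ EE G f c x (q + t) ∧ G.Adj (c (q + t + 1)) (f (c q)) ∧
      ∀ t' : ℕ, t < t' → t' < k → ¬ EE G f c x (q + t') := by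
  have key : ∀ t s : ℕ, t < s → s < k → EE G f c x (q + t) → EE G f c x (q + s) →
      ¬ G.Adj (c (q + t + 1)) (f (c q)) := by
    intro t s hts hsk h1 h2
    rcases Nat.eq_zero_or_pos t with rfl | ht
    · exact absurd hq (fun h => not_both (by simpa using h1) h)
    obtain ⟨r, rfl⟩ := Nat.exists_eq_add_of_lt hts
    obtain ⟨u, hu⟩ := Nat.exists_eq_add_of_lt hsk
    refine R1 S hx (q := q) (s := t) (r := r + 1) (u := u + 1) (by omega) ht (by omega) (by omega)
      hq ?_ (fun h => not_both h1 h)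
    rw [show q + ((t + r + 1 : ℕ) : ℤ) = q + t + ((r + 1 : ℕ) : ℤ) by push_cast; ring] at h2
    exact h2
  have h1 : cw q k (EE G f c x) ≤
      cw q k (fun i => EE G f c x i ∧ ¬ G.Adj (c (i + 1)) (f (c q))) + 1 := by
    apply cw_almost
    intro t s hts hsk h1 h2
    exact ⟨h1, key t s hts hsk h1 h2⟩
  have h2 := E3 S hx hq
  have h3 : cw q k (fun i => EE G f c x i ∧ G.Adj (c (i + 1)) (c (q + 1))) ≤
      cw q k (EE G f c x) := cw_mono (fun t h => h.1)
  have h4 : cw q k (EE G f c x) = cw 0 k (EE G f c x) := cw_base (EE_per S) q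
  constructor
  · intro i hi
    obtain ⟨t, ht, n, rfl⟩ := rep S q i
    rw [EE_per_int S] at hi
    have := cw_eq_of_le (a := q) (n := k)
      (P := fun i => EE G f c x i ∧ G.Adj (c (i + 1)) (c (q + 1))) (Q := EE G f c x)
      (fun t h => h.1) (by omega) t ht hi
    rw [per_int1 S]
    exact this.2
  · obtain ⟨t, ht, hP, hQ⟩ : ∃ t : ℕ, t < k ∧ EE G f c x (q + t) ∧
        ¬ (¬ G.Adj (c (q + t + 1)) (f (c q))) := by
      by_contra hall
      push Not at hall
      have : cw q k (EE G f c x) ≤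
          cw q k (fun i => EE G f c x i ∧ ¬ G.Adj (c (i + 1)) (f (c q))) := by
        apply cw_mono'
        intro i hi hP
        exact ⟨hP, hall i hi hP⟩
      omega
    refine ⟨t, ht, hP, not_not.mp hQ, ?_⟩
    intro t' h5 h6 h7
    exact hQ (key t t' h5 h6 hP h7)

theorem E6 (S : Setup G f c k 1) (hx : x ∈ Wf f c k) (hpos : 0 < cw 0 k (EE G f c x)) {i q0 q1 : ℤ}
    (hi : EE G f c x i) (h0 : OO G f c x q0) (h1 : OO G f c x q1)
    (a0 : G.Adj (c (i + 1)) (f (c q0))) (a1 : G.Adj (c (i + 1)) (f (c q1))) :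
    ∃ n : ℤ, q1 = q0 + n * k := by
  obtain ⟨t, ht, n, rfl⟩ := rep S q0 q1
  rcases Nat.eq_zero_or_pos t with rfl | htp
  · exact ⟨n, by simp⟩
  exfalso
  have e2 := E2 S hx hi
  have e3 : cw 0 k (fun q => G.Adj (c (i + 1)) (c (q + 1))) = cw 0 k (OO G f c x) := by
    apply cw_congr
    intro q
    exact ⟨fun h => adj_OO S hx hi h, fun h => (E4 S hx hpos h).1 i hi⟩
  have e4 : cw 0 k (fun q => ¬ G.Adj (c (i + 1)) (f (c q))) =
      cw 0 k (fun q => ¬ G.Adj (c (i + 1)) (f (c q)) ∧ OO G f c x q) := by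
    apply cw_congr
    intro q
    constructor
    · intro h
      refine ⟨h, ?_⟩
      by_contra h'
      exact h (E1 S hx hi h')
    · exact fun h => h.1
  have e5 := cw_split (P := OO G f c x) (Q := fun q => G.Adj (c (i + 1)) (f (c q))) 0 k
  have e6 : cw 0 k (fun q => G.Adj (c (i + 1)) (f (c q)) ∧ OO G f c x q) = 1 := by omega
  rw [← cw_base (k := k) (P := fun q => G.Adj (c (i + 1)) (f (c q)) ∧ OO G f c x q)
    (by intro t; simp only [OO_per S, S.cyc.per]) q0] at e6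
  have e7 : 2 ≤ cw q0 k (fun q => G.Adj (c (i + 1)) (f (c q)) ∧ OO G f c x q) := by
    apply cw_two (s := 0) (t := t) S.cyc.pos ht (by omega)
    · simpa using ⟨a0, h0⟩
    · rw [S.cyc.per_int] at a1
      rw [OO_per_int S] at h1
      exact ⟨a1, h1⟩
  omega

theorem Ulem (S : Setup G f c k 1) (hx : x ∈ Wf f c k) (hpos : 0 < cw 0 k (EE G f c x)) {q : ℤ}
    {s : ℕ} (hs : 0 < s) (hsk : s < k) (h0 : OO G f c x q) (h1 : OO G f c x (q + s)) :
    ∃ t : ℕ, 0 < t ∧ t < s ∧ EE G f c x (q + t) := by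
  by_contra hcon
  push Not at hcon
  obtain ⟨_, t0, ht0, p0, a0, m0⟩ := E4 S hx hpos h0
  obtain ⟨_, t1, ht1, p1, a1, m1⟩ := E4 S hx hpos h1
  have g1 : 0 < t0 := by
    rcases Nat.eq_zero_or_pos t0 with rfl | h
    · exact absurd h0 (fun h => not_both (by simpa using p0) h)
    · exact h
  have g2 : t0 ≠ s := by
    rintro rfl
    exact not_both p0 h1
  have g3 : s < t0 := by
    by_contra h
    exact hcon t0 g1 (by omega) p0
  have g4 : t0 - s ≤ t1 := by
    by_contra h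
    apply m1 (t0 - s) (by omega) (by omega)
    rw [show q + (s : ℤ) + ((t0 - s : ℕ) : ℤ) = q + t0 by omega]
    exact p0
  have g5 : t1 = t0 - s := by
    by_contra h
    rcases Nat.lt_or_ge (s + t1) k with h3 | h3
    · apply m0 (s + t1) (by omega) h3
      push_cast
      rw [← add_assoc]
      exact p1
    · have p2 : EE G f c x (q + ((s + t1 - k : ℕ) : ℤ)) := by
        rw [← EE_per S]
        rw [show q + ((s + t1 - k : ℕ) : ℤ) + k = q + s + t1 by omega]
        exact p1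
      rcases Nat.eq_zero_or_pos (s + t1 - k) with h4 | h4
      · rw [h4] at p2
        exact not_both (by simpa using p2) h0
      · exact hcon _ h4 (by omega) p2
  have e : q + (s : ℤ) + t1 = q + t0 := by omega
  rw [e] at p1 a1
  obtain ⟨n, hn⟩ := E6 S hx hpos p0 h0 h1 a0 a1
  have h5 : (s : ℤ) = n * k := by linarith
  have := int_mul_zero (k := k) (n := n) (by rw [← h5]; omega) (by rw [← h5]; omega)
  subst this
  simp at h5
  omega

end small

end Pool.Agent.Helper458
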