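import Pool.Agent.Helper458.Small2

set_option autoImplicit false

namespace Pool.Agent.Helper458

open Classical

variable {V : Type*}

section small

variable [Fintype V] {G : SimpleGraph V} {f : V → V} {c : ℤ → V} {k : ℕ} {x : V}

/-- number of second vertices adjacent to x and to f x agree -/
theorem a_eq (S : Setup G f c k 1) (hx : x ∈ Wf f c k) :
    cw 0 k (fun t => G.Adj x (f (c t))) = cw 0 k (fun t => G.Adj (f x) (f (c t))) := by
  have h0 := W_struct S
  have h2 := h0.2.2.1 (f x) (S.f_mem_W.mpr hx)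
  have h3 : cnt c 0 k (G.Adj (f x)) = cw 0 k (fun t => ¬ G.Adj x (f (c t))) := by
    rw [← cnt_base S.cyc.per 1]
    unfold cnt cw
    congr 1
    ext i
    have := F1 S hx (0 + i)
    rw [show (0 : ℤ) + i + 1 = 1 + i by ring] at this
    simp only [Finset.mem_filter]
    rw [this]
  have h4 := cw_compl (P := fun t => G.Adj x (f (c t))) 0 k
  have h5 : cnt c 0 k (fun v => G.Adj (f x) (f v)) = cw 0 k (fun t => G.Adj (f x) (f (c t))) := rfl
  omega

theorem k4 (S : Setup G f c 4 1) (hx : x ∈ Wf f c 4) {q : ℤ} (hq : OO G f c x q)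
    (hi : EE G f c x (q + 1)) (h2 : G.Adj x (f (c (q + 2)))) (h2' : ¬ G.Adj (f x) (f (c (q + 2))))
    (h3 : ¬ G.Adj x (f (c (q + 3)))) (hadj : G.Adj (c (q + 2)) (f (c q))) : False := by
  have hdeg := S.deg (f (c (q + 2)))
  rw [deg_idx S hx] at hdeg
  have x3 : G.Adj x (c (q + 3)) := by
    have := (F2 S hx (q + 2)).mpr h2'
    rwa [show q + 2 + 1 = q + 3 by ring] at this
  have b1 : cw 0 4 (fun j => G.Adj (f (c (q + 2))) (c (j + 1))) ≤ 3 := by
    rw [← cw_base (k := 4) (P := fun j => G.Adj (f (c (q + 2))) (c (j + 1)))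
      (by intro t; simp only [per1 S]) q]
    have h4 : ¬ G.Adj (f (c (q + 2))) (c (q + 1)) := by
      have := ruleZ1 (q := q) (s := 1) (r := 1) (u := 2) S hx rfl (by omega) (by omega) (by omega)
        (by push_cast; exact hi.2.symm)
        (by push_cast; rw [show q + 1 + 1 + 1 = q + 3 by ring]; exact x3)
        (by push_cast; rw [show q + 1 + 1 = q + 2 by ring]; exact hadj)
      push_cast at this
      rwa [show q + 1 + 1 = q + 2 by ring] at this
    have := cnt_lt (c := fun t : ℤ => t) (P := fun j => G.Adj (f (c (q + 2))) (c (j + 1)))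
      (a := q) (n := 4) 0 (by omega) (by simpa using h4)
    rw [← cw_cnt] at this
    omega
  have b2 : cw 0 4 (fun j => G.Adj (f (c (q + 2))) (f (c j))) = 0 := by
    rw [← cw_base (k := 4) (P := fun j => G.Adj (f (c (q + 2))) (f (c j)))
      (by intro t; simp only [S.cyc.per]) q]
    apply cw_eq_zero
    intro i hi4
    interval_cases i
    · have := tails S hx (i := q + 2) (j := q) (by rw [show q + 2 + 1 = q + 3 by ring]; exact x3)
        ((F1 S hx q).mpr hq.1)
      simpa using this
    · have := ruleZ3 (q := q) (s := 1) (r := 1) (u := 2) S hx rfl (by omega) (by omega) (by omega)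
        (by
          have := (F1 S hx q).mpr hq.1
          exact this.symm)
        (by push_cast; rw [show q + 1 + 1 + 1 = q + 3 by ring]; exact x3)
        (by push_cast; rw [show q + 1 + 1 = q + 2 by ring]; exact hadj)
      push_cast at this
      rw [show q + 1 + 1 = q + 2 by ring] at this
      simpa using this
    · simp
    · have := tails S hx (i := q + 2) (j := q + 3)
        (by rw [show q + 2 + 1 = q + 3 by ring]; exact x3) ((F1 S hx (q + 3)).mpr h3)
      simpa using this
  have b3 : ¬ G.Adj (f (c (q + 2))) (f x) := fun h => h2' h.symm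
  rw [b2, if_neg b3] at hdeg
  split_ifs at hdeg <;> omega

theorem alpha0 (S : Setup G f c k 1) (hx : x ∈ Wf f c k) (hpos : 0 < cw 0 k (EE G f c x)) (p : ℤ) :
    EE G f c x p ∨ OO G f c x p := by
  by_contra hcon
  push Not at hcon
  obtain ⟨hpE, hpO⟩ := hcon
  have hbal := bal S hx
  -- order
  have ord : ∀ s t : ℕ, s < k → t < k → OO G f c x (p + s) → EE G f c x (p + t) → s < t := by
    intro s t hs ht h1 h2
    by_contra h3
    have hst : t ≠ s := by rintro rfl; exact not_both h2 h1
    have ht0 : 0 < t := by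
      rcases Nat.eq_zero_or_pos t with rfl | h
      · exact absurd (by simpa using h2) hpE
      · exact h
    have := R2 S hx (q := p + s - k) (s := k - s) (r := t) (u := s - t) (by omega) (by omega) ht0
      (by omega) (by rw [← OO_per S]; convert h1 using 1; ring)
      (by convert h2 using 1; omega)
    rw [show p + s - k + ((k - s : ℕ) : ℤ) = p by omega] at this
    rcases this with h | h
    · exact hpE h
    · exact hpO h
  have uniq : ∀ s0 s1 : ℕ, s0 < s1 → s1 < k → OO G f c x (p + s0) → OO G f c x (p + s1) →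
      False := by
    intro s0 s1 h1 h2 h3 h4
    obtain ⟨t, ht0, ht1, ht2⟩ := Ulem S hx hpos (q := p + s0) (s := s1 - s0) (by omega) (by omega)
      h3 (by convert h4 using 1; omega)
    rw [show p + (s0 : ℤ) + t = p + ((s0 + t : ℕ) : ℤ) by push_cast; ring] at ht2
    have := ord s1 (s0 + t) h2 (by omega) h4 ht2
    omega
  have hO1 : cw p k (OO G f c x) ≤ 1 := by
    have := cw_almost (a := p) (n := k) (P := OO G f c x) (Q := fun _ => False) (by
      intro t s hts hs h1 h2
      exact uniq t s hts hs h1 h2)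
    have h0 : cw p k (fun _ => False) = 0 := cw_eq_zero (by simp)
    omega
  rw [cw_base (OO_per S)] at hO1
  have hOpos : 0 < cw p k (OO G f c x) := by rw [cw_base (OO_per S)]; omega
  obtain ⟨s, hs, hOs⟩ := cnt_pos_iff (c := fun t : ℤ => t).mp hOpos
  have hEpos : 0 < cw p k (EE G f c x) := by rw [cw_base (EE_per S)]; omega
  obtain ⟨t, ht, hEt⟩ := cnt_pos_iff (c := fun t : ℤ => t).mp hEpos
  have hst := ord s t hs ht hOs hEt
  have hEs : EE G f c x (p + s + 1) := by
    rcases Nat.lt_or_ge (s + 1) t with h1 | h1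
    · have hs0 : 0 < s := by
        rcases Nat.eq_zero_or_pos s with rfl | h
        · exact absurd (by simpa using hOs) hpO
        · exact h
      have := R2 S hx (q := p + s) (s := 1) (r := t - (s + 1)) (u := k - (t - s)) (by omega)
        (by omega) (by omega) (by omega) hOs (by convert hEt using 1; omega)
      push_cast at this
      rcases this with h | h
      · exact h
      · exfalso
        apply uniq s (s + 1) (by omega) (by omega) hOs
        push_cast; rw [← add_assoc]; exact h
    · have : t = s + 1 := by omega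
      subst this
      push_cast at hEt
      rw [← add_assoc] at hEt
      exact hEt
  set q : ℤ := p + s with hq
  have hE1 : cw 0 k (EE G f c x) = 1 := by omega
  have hO1' : cw 0 k (OO G f c x) = 1 := by omega
  have hk1 : 1 < k := by omega
  have noE : ∀ r : ℕ, 2 ≤ r → r < k → ¬ EE G f c x (q + r) := by
    intro r h1 h2 h3
    have := cw_two (a := q) (n := k) (P := EE G f c x) (s := 1) (t := r) (by omega) h2 (by omega)
      (by exact_mod_cast hEs) h3
    rw [cw_base (EE_per S)] at this
    omega
  have noO : ∀ r : ℕ, 2 ≤ r → r < k → ¬ OO G f c x (q + r) := by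
    intro r h1 h2 h3
    have := cw_two (a := q) (n := k) (P := OO G f c x) (s := 0) (t := r) (by omega) h2 (by omega)
      (by simpa using hOs) h3
    rw [cw_base (OO_per S)] at this
    omega
  have hadj : G.Adj (c (q + 1 + 1)) (f (c q)) := by
    obtain ⟨_, t0, ht0, p0, a0, m0⟩ := E4 S hx hpos hOs
    have : t0 = 1 := by
      rcases Nat.lt_or_ge t0 2 with h | h
      · rcases Nat.eq_zero_or_pos t0 with rfl | h'
        · exact absurd hOs (fun h => not_both (by simpa using p0) h)
        · omega
      · exact absurd p0 (noE t0 h ht0)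
    subst this
    exact_mod_cast a0
  -- adjacency of c (q+1) and f (c (q+1)) to x, f x
  have y1 : ∀ y ∈ Wf f c k, G.Adj y (f (c (q + 1))) := by
    intro y hy
    rcases W_two S hx hy with rfl | rfl
    · exact hEs.1
    · exact hEs.2
  have y2 : ∀ y ∈ Wf f c k, G.Adj y (c (q + 1)) := by
    intro y hy
    rcases W_two S hx hy with rfl | rfl
    · exact (F2 S hx q).mpr hOs.2
    · exact (F1 S hx q).mpr hOs.1
  have exy : ∀ r : ℕ, 2 ≤ r → r < k → ∃ y ∈ Wf f c k, G.Adj y (f (c (q + r))) ∧
      G.Adj y (c (q + r + 1)) := by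
    intro r h1 h2
    have e1 := noE r h1 h2
    have e2 := noO r h1 h2
    simp only [EE, OO] at e1 e2
    by_cases h3 : G.Adj x (f (c (q + r)))
    · exact ⟨x, hx, h3, (F2 S hx _).mpr (fun h => e1 ⟨h3, h⟩)⟩
    · refine ⟨f x, S.f_mem_W.mpr hx, ?_, (F1 S hx _).mpr h3⟩
      by_contra h4
      exact e2 ⟨h3, h4⟩
  -- degree of c (q+1)
  have hdeg := S.deg (c (q + 1))
  rw [deg_idx S hx] at hdeg
  have d1 : cw 0 k (fun j => G.Adj (c (q + 1)) (c (j + 1))) ≤ 2 - 1 := by
    rw [← cw_base (k := k) (P := fun j => G.Adj (c (q + 1)) (c (j + 1)))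
      (by intro t; simp only [per1 S]) q]
    apply cnt_le_interval (c := fun t : ℤ => t) (P := fun j => G.Adj (c (q + 1)) (c (j + 1)))
    intro r hr hadj2
    constructor
    · rcases Nat.eq_zero_or_pos r with rfl | h
      · simp at hadj2
      · exact h
    · by_contra h2
      obtain ⟨y, hy, hy1, hy2⟩ := exy r (by omega) hr
      have := ruleZ2 (q := q) (s := 1) (r := r - 1) (u := k - r) S hy (by omega) (by omega)
        (by omega) (by omega) (by push_cast; exact y1 _ (S.f_mem_W.mpr hy))
        (by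
          rw [show q + ((1 : ℕ) : ℤ) + ((r - 1 : ℕ) : ℤ) = q + r by omega]
          exact hy1)
        (by push_cast; exact hadj)
      apply this
      rw [show q + ((1 : ℕ) : ℤ) + ((r - 1 : ℕ) : ℤ) = q + r by omega]
      exact hadj2
  have d2 : cw 0 k (fun j => G.Adj (c (q + 1)) (f (c j))) ≤ 2 - 0 := by
    rw [← cw_base (k := k) (P := fun j => G.Adj (c (q + 1)) (f (c j)))
      (by intro t; simp only [S.cyc.per]) q]
    apply cnt_le_interval (c := fun t : ℤ => t) (P := fun j => G.Adj (c (q + 1)) (f (c j)))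
    intro r hr hadj2
    refine ⟨by omega, ?_⟩
    by_contra h2
    obtain ⟨y, hy, hy1, hy2⟩ := exy r (by omega) hr
    have := ruleZ1 (q := q) (s := 1) (r := r - 1) (u := k - r) S hy (by omega) (by omega)
      (by omega) (by omega) (by push_cast; exact (y1 _ (S.f_mem_W.mpr hy)).symm)
      (by
        rw [show q + ((1 : ℕ) : ℤ) + ((r - 1 : ℕ) : ℤ) + 1 = q + r + 1 by omega]
        exact hy2)
      (by push_cast; exact hadj)
    apply this
    rw [show q + ((1 : ℕ) : ℤ) + ((r - 1 : ℕ) : ℤ) = q + r by omega]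
    exact hadj2.symm
  have hk4 : k ≤ 4 := by
    split_ifs at hdeg <;> omega
  -- counting
  have hae := a_eq S hx
  rw [← cw_base (k := k) (P := fun t => G.Adj x (f (c t)))
      (by intro t; simp only [S.cyc.per]) q,
    ← cw_base (k := k) (P := fun t => G.Adj (f x) (f (c t)))
      (by intro t; simp only [S.cyc.per]) q] at hae
  have hp_loc : ∃ r : ℕ, 2 ≤ r ∧ r < k := by
    obtain ⟨r, hr, n, hn⟩ := rep S q p
    refine ⟨r, ?_, hr⟩
    rw [hn, EE_per_int S] at hpE
    rw [hn, OO_per_int S] at hpO
    by_contra h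
    have : r = 0 ∨ r = 1 := by omega
    rcases this with rfl | rfl
    · exact hpO (by simpa using hOs)
    · exact hpE (by exact_mod_cast hEs)
  obtain ⟨r0, hr0, hr0k⟩ := hp_loc
  have q0 : ¬ G.Adj x (f (c q)) ∧ ¬ G.Adj (f x) (f (c q)) := hOs
  have q1 : G.Adj x (f (c (q + 1))) ∧ G.Adj (f x) (f (c (q + 1))) := hEs
  have hk34 : k = 3 ∨ k = 4 := by omega
  rcases hk34 with rfl | rfl
  · have e1 := noE 2 (by omega) (by omega)
    have e2 := noO 2 (by omega) (by omega)
    simp only [EE, OO] at e1 e2
    rw [cw_cnt, cw_cnt, cnt_succ, cnt_succ, cnt_succ, cnt_zero, cnt_succ, cnt_succ, cnt_succ,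
      cnt_zero] at hae
    push_cast at hae e1 e2
    rw [add_zero] at hae
    rw [if_neg q0.1, if_neg q0.2, if_pos q1.1, if_pos q1.2] at hae
    by_cases h3 : G.Adj x (f (c (q + 2))) <;> by_cases h4 : G.Adj (f x) (f (c (q + 2))) <;>
      simp [h3, h4] at hae e1 e2
  · have e1 := noE 2 (by omega) (by omega)
    have e2 := noO 2 (by omega) (by omega)
    have e3 := noE 3 (by omega) (by omega)
    have e4 := noO 3 (by omega) (by omega)
    simp only [EE, OO] at e1 e2 e3 e4
    rw [cw_cnt, cw_cnt, cnt_succ, cnt_succ, cnt_succ, cnt_succ, cnt_zero, cnt_succ, cnt_succ,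
      cnt_succ, cnt_succ, cnt_zero] at hae
    push_cast at hae e1 e2 e3 e4
    rw [add_zero] at hae
    rw [if_neg q0.1, if_neg q0.2, if_pos q1.1, if_pos q1.2] at hae
    rw [show q + 1 + 1 = q + 2 by ring] at hadj
    by_cases h3 : G.Adj x (f (c (q + 2)))
    · have h4 : ¬ G.Adj (f x) (f (c (q + 2))) := fun h => e1 ⟨h3, h⟩
      have h5 : ¬ G.Adj x (f (c (q + 3))) := by
        intro h5
        by_cases h6 : G.Adj (f x) (f (c (q + 3)))
        · exact e3 ⟨h5, h6⟩
        · simp [h3, h4, h5, h6] at hae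
      exact k4 S hx hOs hEs h3 h4 h5 hadj
    · have h4 : G.Adj (f x) (f (c (q + 2))) := by
        by_contra h; exact e2 ⟨h3, h⟩
      have h5 : ¬ G.Adj (f x) (f (c (q + 3))) := by
        intro h5
        by_cases h6 : G.Adj x (f (c (q + 3)))
        · exact e3 ⟨h6, h5⟩
        · simp [h3, h4, h5, h6] at hae
      have hOs' : OO G f c (f x) q := ⟨hOs.2, by rw [S.inv]; exact hOs.1⟩
      have hEs' : EE G f c (f x) (q + 1) := ⟨hEs.2, by rw [S.inv]; exact hEs.1⟩
      exact k4 S (S.f_mem_W.mpr hx) hOs' hEs' h4 (by rw [S.inv]; exact h3) h5 hadj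

end small

end Pool.Agent.Helper458
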