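import Pool.Agent.Helper458.Small3

set_option autoImplicit false

namespace Pool.Agent.Helper458

open Classical

variable {V : Type*}

section small

variable [Fintype V] {G : SimpleGraph V} {f : V → V} {c : ℤ → V} {k : ℕ} {x : V}

theorem alt1 (S : Setup G f c k 1) (hx : x ∈ Wf f c k) (hpos : 0 < cw 0 k (EE G f c x)) {q : ℤ}
    (hq : OO G f c x q) : EE G f c x (q + 1) := by
  rcases alpha0 S hx hpos (q + 1) with h | h
  · exact h
  exfalso
  have hbal := bal S hx
  -- k ≥ 2
  have hk : 1 < k := by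
    by_contra hk
    have hk1 : k = 1 := by have := S.cyc.pos; omega
    obtain ⟨t, ht, hEt⟩ := cnt_pos_iff (c := fun t : ℤ => t).mp hpos
    obtain ⟨s, hs, n, hn⟩ := rep S (0 + (t : ℤ)) q
    rw [hn, OO_per_int S] at hq
    have : s = 0 := by omega
    subst this
    exact not_both hEt (by simpa using hq)
  obtain ⟨t, h1, h2, _⟩ := Ulem S hx hpos (q := q) (s := 1) (by omega) hk hq (by simpa using h)
  omega

theorem alt2 (S : Setup G f c k 1) (hx : x ∈ Wf f c k) (hpos : 0 < cw 0 k (EE G f c x)) {q : ℤ}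
    (hq : EE G f c x (q + 1)) : OO G f c x q := by
  have h1 : cw 0 k (fun t => EE G f c x (t + 1)) = cw 0 k (EE G f c x) := cw_shift (EE_per S) 1
  have h2 := bal S hx
  obtain ⟨t, ht, n, rfl⟩ := rep S 0 q
  rw [OO_per_int S]
  apply cw_eq_of_le (P := OO G f c x) (Q := fun t => EE G f c x (t + 1)) (n := k)
    (fun t h => alt1 S hx hpos h) (by omega) t ht
  rw [← EE_per_int S _ n]
  convert hq using 1
  ring

/-- vertices adjacent to both are not tight -/
theorem nontight_c (S : Setup G f c k 1) (hx : x ∈ Wf f c k) (hpos : 0 < cw 0 k (EE G f c x))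
    {q : ℤ} (hq : OO G f c x q) : k + 1 < dg G (c (q + 1)) := by
  rw [deg_idx S hx]
  have h1 : G.Adj (c (q + 1)) x := ((F2 S hx q).mpr hq.2).symm
  have h2 : G.Adj (c (q + 1)) (f x) := ((F1 S hx q).mpr hq.1).symm
  rw [if_pos h1, if_pos h2]
  have h3 : cw 0 k (EE G f c x) ≤ cw 0 k (fun j => G.Adj (c (q + 1)) (c (j + 1))) :=
    cw_mono (fun t ht => ((E4 S hx hpos hq).1 t ht).symm)
  have h4 : cw 0 k (OO G f c x) ≤ cw 0 k (fun j => G.Adj (c (q + 1)) (f (c j))) :=
    cw_mono (fun t ht => (E1' S hx ht (fun h => not_both h hq)).symm)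
  have h5 : k ≤ cw 0 k (EE G f c x) + cw 0 k (OO G f c x) := by
    have h6 := cw_compl (P := EE G f c x) 0 k
    have h7 : cw 0 k (fun t => ¬ EE G f c x t) ≤ cw 0 k (OO G f c x) := by
      apply cw_mono
      intro t ht
      rcases alpha0 S hx hpos t with h | h
      · exact absurd h ht
      · exact h
    omega
  omega

theorem nontight_fc (S : Setup G f c k 1) (hx : x ∈ Wf f c k) (hpos : 0 < cw 0 k (EE G f c x))
    {i : ℤ} (hi : EE G f c x i) : k + 1 < dg G (f (c i)) := by
  have hpos' : 0 < cw 0 k (EE G f (fun t => f (c (-t))) x) := by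
    rw [cw_EE_rev S hx, ← bal S hx]; exact hpos
  have := nontight_c S.rev (hx_rev S hx) hpos' (q := -i - 1)
    (by rw [OO_rev S hx]; convert hi using 1; ring)
  rw [show -(-i - 1 + 1) = i by ring] at this
  exact this

theorem tight_fc (S : Setup G f c k 1) (hx : x ∈ Wf f c k) (hpos : 0 < cw 0 k (EE G f c x))
    {t : ℤ} (ht : dg G (f (c t)) = k + 1) : OO G f c x t := by
  rcases alpha0 S hx hpos t with h | h
  · have := nontight_fc S hx hpos h
    omega
  · exact h

theorem tight_c (S : Setup G f c k 1) (hx : x ∈ Wf f c k) (hpos : 0 < cw 0 k (EE G f c x))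
    {t : ℤ} (ht : dg G (c t) = k + 1) : EE G f c x (t - 1) ∧ OO G f c x t := by
  have h1 : EE G f c x (t - 1) := by
    rcases alpha0 S hx hpos (t - 1) with h | h
    · exact h
    · have := nontight_c S hx hpos h
      rw [show t - 1 + 1 = t by ring] at this
      omega
  refine ⟨h1, ?_⟩
  rcases alpha0 S hx hpos t with h | h
  · exfalso
    have := alt2 S hx hpos (q := t - 1) (by rw [show t - 1 + 1 = t by ring]; exact h)
    exact not_both h1 this
  · exact h

/-- the type (c) conclusion -/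
theorem typeC (S : Setup G f c k 1) (hx : x ∈ Wf f c k) (hpos : 0 < cw 0 k (EE G f c x))
    (a u : V) (ha : dg G a = k + 1) (hu : dg G u = k + 1) (hadj : G.Adj a u) : u = f a := by
  have xc : ∀ t, dg G (c t) = k + 1 → ¬ G.Adj x (c t) ∧ ¬ G.Adj (f x) (c t) := by
    intro t ht
    have h1 := (tight_c S hx hpos ht).1
    have h2 := F1 S hx (t - 1)
    have h3 := F2 S hx (t - 1)
    rw [show t - 1 + 1 = t by ring] at h2 h3
    exact ⟨fun h => h3.mp h h1.2, fun h => h2.mp h h1.1⟩
  have xfc : ∀ t, dg G (f (c t)) = k + 1 → ¬ G.Adj x (f (c t)) ∧ ¬ G.Adj (f x) (f (c t)) :=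
    fun t ht => tight_fc S hx hpos ht
  have cc : ∀ t s, dg G (c t) = k + 1 → dg G (c s) = k + 1 → ¬ G.Adj (c t) (c s) := by
    intro t s ht hs h
    have h1 := (tight_c S hx hpos ht).1
    have h2 := (tight_c S hx hpos hs).1
    have h3 := heads S hx h1.1 h2.2
    rw [show t - 1 + 1 = t by ring, show s - 1 + 1 = s by ring] at h3
    exact h3 h
  have fcfc : ∀ t s, dg G (f (c t)) = k + 1 → dg G (f (c s)) = k + 1 →
      ¬ G.Adj (f (c t)) (f (c s)) := by
    intro t s ht hs h
    have h1 := tight_fc S hx hpos ht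
    have h2 := tight_fc S hx hpos hs
    exact tails S hx ((F2 S hx t).mpr h1.2) ((F1 S hx s).mpr h2.1) h
  have cfc : ∀ t s, dg G (c t) = k + 1 → dg G (f (c s)) = k + 1 → G.Adj (c t) (f (c s)) →
      c s = c t := by
    intro t s ht hs h
    obtain ⟨h1, h1'⟩ := tight_c S hx hpos ht
    have h2 := tight_fc S hx hpos hs
    have h3 : G.Adj (c (t - 1 + 1)) (f (c t)) := by
      obtain ⟨_, t0, ht0, p0, a0, m0⟩ := E4 S hx hpos h1'
      have : t0 = k - 1 := by
        by_contra hne
        apply m0 (k - 1) (by omega) (by omega)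
        rw [← EE_per S, show t - 1 + (k : ℤ) = t + ((k - 1 : ℕ) : ℤ) by omega] at h1
        exact h1
      subst this
      rw [show t + ((k - 1 : ℕ) : ℤ) + 1 = t - 1 + 1 + k by omega, S.cyc.per] at a0
      exact a0
    rw [show t = t - 1 + 1 by ring] at h
    obtain ⟨n, hn⟩ := E6 S hx hpos h1 h1' h2 h3 h
    rw [hn, S.cyc.per_int]
  rcases vert_cases S hx a with rfl | rfl | ⟨t, rfl⟩ | ⟨t, rfl⟩
  · rcases vert_cases S hx u with rfl | rfl | ⟨s, rfl⟩ | ⟨s, rfl⟩
    · exact absurd hadj (by simp)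
    · rfl
    · exact absurd hadj (xc s hu).1
    · exact absurd hadj (xfc s hu).1
  · rcases vert_cases S hx u with rfl | rfl | ⟨s, rfl⟩ | ⟨s, rfl⟩
    · rw [S.inv]
    · exact absurd hadj (by simp)
    · exact absurd hadj (xc s hu).2
    · exact absurd hadj (xfc s hu).2
  · rcases vert_cases S hx u with rfl | rfl | ⟨s, rfl⟩ | ⟨s, rfl⟩
    · exact absurd hadj.symm (xc t ha).1
    · exact absurd hadj.symm (xc t ha).2
    · exact absurd hadj (cc t s ha hu)
    · rw [cfc t s ha hu hadj]
  · rcases vert_cases S hx u with rfl | rfl | ⟨s, rfl⟩ | ⟨s, rfl⟩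
    · exact absurd hadj.symm (xfc t ha).1
    · exact absurd hadj.symm (xfc t ha).2
    · rw [S.inv, cfc s t hu ha hadj.symm]
    · exact absurd hadj (fcfc t s ha hu)

end small

end Pool.Agent.Helper458
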