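import Pool.Agent.Helper458.Small4

set_option autoImplicit false

namespace Pool.Agent.Helper458

open Classical

variable {V : Type*}

section small

variable [Fintype V] {G : SimpleGraph V} {f : V → V} {c : ℤ → V} {k : ℕ} {x : V}

/-- kind of an index -/
def AA (G : SimpleGraph V) (f : V → V) (c : ℤ → V) (x : V) (t : ℤ) : Prop := G.Adj x (f (c t))

/-- standing assumption : no `EE`, no `OO` -/
structure Set6 (G : SimpleGraph V) (f : V → V) (c : ℤ → V) (k : ℕ) (x : V) : Prop where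
  S : Setup G f c k 1
  hx : x ∈ Wf f c k
  alt : ∀ t, G.Adj (f x) (f (c t)) ↔ ¬ G.Adj x (f (c t))

theorem set6_of (S : Setup G f c k 1) (hx : x ∈ Wf f c k) (h0 : ¬ 0 < cw 0 k (EE G f c x)) :
    Set6 G f c k x := by
  have h1 : cw 0 k (EE G f c x) = 0 := by omega
  have h2 : cw 0 k (OO G f c x) = 0 := by rw [← bal S hx]; exact h1
  refine ⟨S, hx, ?_⟩
  intro t
  have e1 : ¬ EE G f c x t := by
    intro h
    obtain ⟨s, hs, n, rfl⟩ := rep S 0 t
    rw [EE_per_int S] at h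
    have := cw_pos hs h
    omega
  have e2 : ¬ OO G f c x t := by
    intro h
    obtain ⟨s, hs, n, rfl⟩ := rep S 0 t
    rw [OO_per_int S] at h
    have := cw_pos hs h
    omega
  simp only [EE, OO] at e1 e2
  constructor
  · intro h h'; exact e1 ⟨h', h⟩
  · intro h; by_contra h'; exact e2 ⟨h, h'⟩

namespace Set6

variable (T : Set6 G f c k x)
include T

theorem swap : Set6 G f c k (f x) := by
  refine ⟨T.S, T.S.f_mem_W.mpr T.hx, ?_⟩
  intro t
  rw [T.S.inv, T.alt t, not_not]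

theorem AA_swap (t : ℤ) : AA G f c (f x) t ↔ ¬ AA G f c x t := T.alt t

theorem AA_per (t : ℤ) : AA G f c x (t + k) ↔ AA G f c x t := by
  simp only [AA, T.S.cyc.per]

theorem AA_per_int (t n : ℤ) : AA G f c x (t + n * k) ↔ AA G f c x t := by
  simp only [AA, T.S.cyc.per_int]

theorem xc (t : ℤ) : G.Adj x (c (t + 1)) ↔ AA G f c x t := by
  rw [F2 T.S T.hx, T.alt, not_not]; rfl

theorem fxc (t : ℤ) : G.Adj (f x) (c (t + 1)) ↔ ¬ AA G f c x t := F1 T.S T.hx t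

theorem fxfc (t : ℤ) : G.Adj (f x) (f (c t)) ↔ ¬ AA G f c x t := T.alt t

theorem opp_cc {i j : ℤ} (h : G.Adj (c (i + 1)) (c (j + 1))) : (AA G f c x i ↔ AA G f c x j) := by
  by_contra hcon
  by_cases hi : AA G f c x i
  · have hj : ¬ AA G f c x j := fun h => hcon ⟨fun _ => h, fun _ => hi⟩
    exact heads T.S T.hx hi ((T.fxfc j).mpr hj) h
  · have hj : AA G f c x j := by
      by_contra h
      exact hcon ⟨fun h' => absurd h' hi, fun h' => absurd h' h⟩
    exact heads T.S T.hx hj ((T.fxfc i).mpr hi) h.symm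

theorem opp_ff {i j : ℤ} (h : G.Adj (f (c i)) (f (c j))) : (AA G f c x i ↔ AA G f c x j) := by
  by_contra hcon
  by_cases hi : AA G f c x i
  · have hj : ¬ AA G f c x j := fun h => hcon ⟨fun _ => h, fun _ => hi⟩
    exact tails T.S T.hx ((T.xc i).mpr hi) ((T.fxc j).mpr hj) h
  · have hj : AA G f c x j := by
      by_contra h
      exact hcon ⟨fun h' => absurd h' hi, fun h' => absurd h' h⟩
    exact tails T.S T.hx ((T.xc j).mpr hj) ((T.fxc i).mpr hi) h.symm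

theorem half : 2 * cw 0 k (AA G f c x) = k := by
  have h1 := a_eq T.S T.hx
  have h2 := cw_compl (P := AA G f c x) 0 k
  have h3 : cw 0 k (fun t => G.Adj (f x) (f (c t))) = cw 0 k (fun t => ¬ AA G f c x t) :=
    cw_congr T.alt
  have h4 : cw 0 k (fun t => G.Adj x (f (c t))) = cw 0 k (AA G f c x) := rfl
  omega

theorem half' (i : ℤ) : 2 * cw 0 k (fun j => AA G f c x j ↔ AA G f c x i) = k := by
  by_cases hi : AA G f c x i
  · simp only [hi, iff_true]
    exact T.half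
  · simp only [hi, iff_false]
    have h1 := T.half
    have h2 := cw_compl (P := AA G f c x) 0 k
    omega

theorem deg_ineq (i : ℤ) :
    cw 0 k (fun j => (AA G f c x j ↔ AA G f c x i) ∧ ¬ G.Adj (c (i + 1)) (f (c j))) +
      cw 0 k (fun j => (AA G f c x j ↔ AA G f c x i) ∧ ¬ G.Adj (c (i + 1)) (c (j + 1))) ≤
    cw 0 k (fun j => ¬ (AA G f c x j ↔ AA G f c x i) ∧ G.Adj (c (i + 1)) (f (c j))) := by
  have hdeg := T.S.deg (c (i + 1))
  rw [deg_idx T.S T.hx] at hdeg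
  have h1 : (if G.Adj (c (i + 1)) x then 1 else 0) + (if G.Adj (c (i + 1)) (f x) then 1 else 0)
      = 1 := by
    by_cases hi : AA G f c x i
    · rw [if_pos ((T.xc i).mpr hi).symm, if_neg (fun h => (T.fxc i).mp h.symm hi)]
    · rw [if_neg (fun h => hi ((T.xc i).mp h.symm)), if_pos ((T.fxc i).mpr hi).symm]
  rw [h1] at hdeg
  have h2 := T.half' i
  have h3 : cw 0 k (fun j => G.Adj (c (i + 1)) (c (j + 1))) =
      cw 0 k (fun j => G.Adj (c (i + 1)) (c (j + 1)) ∧ (AA G f c x j ↔ AA G f c x i)) := by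
    apply cw_congr
    intro j
    exact ⟨fun h => ⟨h, (T.opp_cc h).symm⟩, fun h => h.1⟩
  have h4 := cw_split (P := fun j => (AA G f c x j ↔ AA G f c x i))
    (Q := fun j => G.Adj (c (i + 1)) (c (j + 1))) 0 k
  have h5 := cw_split (P := fun j => (AA G f c x j ↔ AA G f c x i))
    (Q := fun j => G.Adj (c (i + 1)) (f (c j))) 0 k
  have h6 := cw_split (P := fun j => G.Adj (c (i + 1)) (f (c j)))
    (Q := fun j => (AA G f c x j ↔ AA G f c x i)) 0 k
  have c1 : cw 0 k (fun t => (AA G f c x t ↔ AA G f c x i) ∧ G.Adj (c (i + 1)) (f (c t))) =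
      cw 0 k (fun t => G.Adj (c (i + 1)) (f (c t)) ∧ (AA G f c x t ↔ AA G f c x i)) :=
    cw_congr (fun t => and_comm)
  have c2 : cw 0 k (fun t => (AA G f c x t ↔ AA G f c x i) ∧ ¬ G.Adj (c (i + 1)) (f (c t))) =
      cw 0 k (fun t => ¬ G.Adj (c (i + 1)) (f (c t)) ∧ (AA G f c x t ↔ AA G f c x i)) :=
    cw_congr (fun t => and_comm)
  have c3 : cw 0 k (fun t => (AA G f c x t ↔ AA G f c x i) ∧ ¬ G.Adj (c (i + 1)) (c (t + 1))) =
      cw 0 k (fun t => ¬ G.Adj (c (i + 1)) (c (t + 1)) ∧ (AA G f c x t ↔ AA G f c x i)) :=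
    cw_congr (fun t => and_comm)
  omega

/-- switching rules -/
theorem sw {q : ℤ} {s r u : ℕ} (hk : s + r + u = k) (hs : 0 < s)
    (hr : 0 < r) (hu : 0 < u) (hopp : ¬ (AA G f c x (q + s + r) ↔ AA G f c x q))
    (hb : G.Adj (c (q + 1)) (f (c (q + s + r)))) :
    ((AA G f c x (q + s) ↔ AA G f c x (q + s + r)) →
      ¬ G.Adj (c (q + s + r + 1)) (f (c (q + s))) ∧
        ¬ G.Adj (c (q + s + r + 1)) (c (q + s + 1))) ∧
    ((AA G f c x (q + s) ↔ AA G f c x q) → ¬ G.Adj (c (q + s + 1)) (f (c q))) := by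
  by_cases hq : AA G f c x q
  · have hj : ¬ AA G f c x (q + s + r) := fun h => hopp ⟨fun _ => hq, fun _ => h⟩
    refine ⟨fun hp => ?_, fun hp => ?_⟩
    · have hp' : ¬ AA G f c x (q + s) := fun h => hj (hp.mp h)
      exact ⟨fun h => rule7a T.S T.hx hk hs hr hu hq ((T.fxc _).mpr hp') hb h,
        fun h => rule7b T.S T.hx hk hs hr hu hq ((T.fxfc _).mpr hp') hb h⟩
    · have hp' : AA G f c x (q + s) := hp.mpr hq
      exact fun h => rule7c T.S T.hx hk hs hr hu hp' ((T.fxc _).mpr hj) hb h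
  · have hj : AA G f c x (q + s + r) := by
      by_contra h
      exact hopp ⟨fun h' => absurd h' h, fun h' => absurd h' hq⟩
    have T' := T.swap
    have hq' : G.Adj (f x) (f (c q)) := (T.fxfc q).mpr hq
    refine ⟨fun hp => ?_, fun hp => ?_⟩
    · have hp' : AA G f c x (q + s) := hp.mpr hj
      refine ⟨fun h => rule7a T'.S T'.hx hk hs hr hu hq' ?_ hb h,
        fun h => rule7b T'.S T'.hx hk hs hr hu hq' ?_ hb h⟩
      · rw [T.S.inv]; exact (T.xc _).mpr hp'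
      · rw [T.S.inv]; exact hp'
    · have hp' : ¬ AA G f c x (q + s) := fun h => hq (hp.mp h)
      refine fun h => rule7c T'.S T'.hx hk hs hr hu ((T.fxfc _).mpr hp') ?_ hb h
      rw [T.S.inv]; exact (T.xc _).mpr hj

/-- the growth argument -/
theorem growth : ∀ i : ℤ,
    cw 0 k (fun j => ¬ (AA G f c x j ↔ AA G f c x i) ∧ G.Adj (c (i + 1)) (f (c j))) ≤ 1 := by
  have hne : (Finset.range k).Nonempty := ⟨0, Finset.mem_range.mpr T.S.cyc.pos⟩
  obtain ⟨i0, hi0, hmax⟩ := Finset.exists_max_image (Finset.range k)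
    (fun i : ℕ => cw 0 k (fun j => ¬ (AA G f c x j ↔ AA G f c x (i : ℤ)) ∧
      G.Adj (c ((i : ℤ) + 1)) (f (c j)))) hne
  have hmax' : ∀ i : ℤ, cw 0 k (fun j => ¬ (AA G f c x j ↔ AA G f c x i) ∧
      G.Adj (c (i + 1)) (f (c j))) ≤
      cw 0 k (fun j => ¬ (AA G f c x j ↔ AA G f c x (i0 : ℤ)) ∧
        G.Adj (c ((i0 : ℤ) + 1)) (f (c j))) := by
    intro i
    obtain ⟨s, hs, n, rfl⟩ := rep T.S 0 i
    have := hmax s (Finset.mem_range.mpr hs)
    simp only [T.AA_per_int, per_int1 T.S, zero_add]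
    exact this
  intro i
  refine le_trans (hmax' i) ?_
  clear i
  set n := cw 0 k (fun j => ¬ (AA G f c x j ↔ AA G f c x (i0 : ℤ)) ∧
        G.Adj (c ((i0 : ℤ) + 1)) (f (c j))) with hn
  have hn' : n = cw i0 k (fun j => ¬ (AA G f c x j ↔ AA G f c x (i0 : ℤ)) ∧
        G.Adj (c ((i0 : ℤ) + 1)) (f (c j))) := by
    rw [cw_base (k := k) (P := fun j => ¬ (AA G f c x j ↔ AA G f c x (i0 : ℤ)) ∧
        G.Adj (c ((i0 : ℤ) + 1)) (f (c j))) (by intro t; simp only [T.AA_per, T.S.cyc.per])]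
  by_cases hn0 : n = 0
  · omega
  have hpos : 0 < cw i0 k (fun j => ¬ (AA G f c x j ↔ AA G f c x (i0 : ℤ)) ∧
        G.Adj (c ((i0 : ℤ) + 1)) (f (c j))) := by omega
  obtain ⟨s0, hs0, hP0⟩ := cw_pos_iff.mp hpos
  obtain ⟨t, ⟨ht, hopp, hb⟩, hmx⟩ := exists_greatest (b := k)
    (P := fun t : ℕ => t < k ∧ ¬ (AA G f c x (i0 + t) ↔ AA G f c x (i0 : ℤ)) ∧
        G.Adj (c ((i0 : ℤ) + 1)) (f (c (i0 + t)))) ⟨s0, hs0, hP0⟩ (fun t ht => ht.1.le)
  have key : ∀ s : ℕ, s < k → s ≠ t → (¬ (AA G f c x (i0 + s) ↔ AA G f c x (i0 : ℤ)) ∧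
        G.Adj (c ((i0 : ℤ) + 1)) (f (c (i0 + s)))) →
      (AA G f c x (i0 + s) ↔ AA G f c x (i0 + t)) ∧ ¬ G.Adj (c (i0 + t + 1)) (f (c (i0 + s))) ∧
        ¬ G.Adj (c (i0 + t + 1)) (c (i0 + s + 1)) := by
    intro s hsk hst hs
    have h1 := hmx s ⟨hsk, hs⟩
    have hlt : s < t := by omega
    have hs0 : 0 < s := by
      rcases Nat.eq_zero_or_pos s with rfl | h
      · exact absurd (by simp) hs.1
      · exact h
    obtain ⟨r, rfl⟩ := Nat.exists_eq_add_of_lt hlt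
    obtain ⟨u, hu⟩ := Nat.exists_eq_add_of_lt ht
    have e : (i0 : ℤ) + ((s + r + 1 : ℕ) : ℤ) = i0 + s + ((r + 1 : ℕ) : ℤ) := by push_cast; ring
    rw [e] at hopp hb ⊢
    have hsame : (AA G f c x (i0 + s) ↔ AA G f c x (i0 + s + ((r + 1 : ℕ) : ℤ))) := by
      have h2 := hs.1
      by_cases a1 : AA G f c x (i0 : ℤ) <;> by_cases a2 : AA G f c x (i0 + (s : ℤ)) <;>
        by_cases a3 : AA G f c x (i0 + s + ((r + 1 : ℕ) : ℤ)) <;> simp_all
    have := (T.sw (q := i0) (s := s) (r := r + 1) (u := u + 1) (by omega) hs0 (by omega)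
      (by omega) hopp hb).1 hsame
    exact ⟨hsame, this⟩
  have hd := T.deg_ineq (i0 + t)
  have hm := hmax' (i0 + t)
  have g1 : n ≤ cw i0 k (fun j => (AA G f c x j ↔ AA G f c x (i0 + t)) ∧
      ¬ G.Adj (c (i0 + t + 1)) (f (c j))) + 1 := by
    rw [hn']
    apply cw_except (s := t)
    intro s hs hst hP
    have := key s hs hst hP
    exact ⟨this.1, this.2.1⟩
  have g2 : n ≤ cw i0 k (fun j => (AA G f c x j ↔ AA G f c x (i0 + t)) ∧
      ¬ G.Adj (c (i0 + t + 1)) (c (j + 1))) := by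
    rw [hn']
    apply cw_mono'
    intro s hs hP
    by_cases hst : s = t
    · subst hst
      exact ⟨Iff.rfl, by simp⟩
    · have := key s hs hst hP
      exact ⟨this.1, this.2.2⟩
  rw [cw_base (k := k) (P := fun j => (AA G f c x j ↔ AA G f c x (i0 + t)) ∧
      ¬ G.Adj (c (i0 + t + 1)) (f (c j))) (by intro t; simp only [T.AA_per, T.S.cyc.per])] at g1
  rw [cw_base (k := k) (P := fun j => (AA G f c x j ↔ AA G f c x (i0 + t)) ∧
      ¬ G.Adj (c (i0 + t + 1)) (c (j + 1))) (by intro t; simp only [T.AA_per, per1 T.S])] at g2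
  omega

theorem K1 {i j : ℤ} (h : AA G f c x j ↔ AA G f c x i) : G.Adj (c (i + 1)) (f (c j)) := by
  by_contra hcon
  have h1 := T.growth i
  have h2 := T.deg_ineq i
  have h3 : 1 ≤ cw 0 k (fun j => (AA G f c x j ↔ AA G f c x i) ∧
      ¬ G.Adj (c (i + 1)) (c (j + 1))) := by
    obtain ⟨s, hs, n, hn⟩ := rep T.S 0 i
    apply cw_pos hs
    rw [hn, T.AA_per_int, per_int1 T.S]
    exact ⟨Iff.rfl, by simp⟩
  have h4 : 1 ≤ cw 0 k (fun j => (AA G f c x j ↔ AA G f c x i) ∧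
      ¬ G.Adj (c (i + 1)) (f (c j))) := by
    obtain ⟨s, hs, n, hn⟩ := rep T.S 0 j
    apply cw_pos hs
    rw [hn, T.AA_per_int] at h
    rw [hn, T.S.cyc.per_int] at hcon
    exact ⟨h, hcon⟩
  omega

theorem K2 {i : ℤ} {s : ℕ} (hs : s < k) (hopp : ¬ (AA G f c x (i + s) ↔ AA G f c x i))
    (hb : G.Adj (c (i + 1)) (f (c (i + s)))) : s = 1 := by
  have hs0 : 0 < s := by
    rcases Nat.eq_zero_or_pos s with rfl | h
    · exact absurd (by simp) hopp
    · exact h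
  by_contra hne
  obtain ⟨r, rfl⟩ : ∃ r, s = 1 + (r + 1) := ⟨s - 2, by omega⟩
  have e : i + ((1 + (r + 1) : ℕ) : ℤ) = i + (1 : ℕ) + ((r + 1 : ℕ) : ℤ) := by push_cast; ring
  rw [e] at hopp hb
  have h1 := T.sw (q := i) (s := 1) (r := r + 1) (u := k - (r + 2)) (by omega) (by omega)
    (by omega) (by omega) hopp hb
  by_cases hp : (AA G f c x (i + (1 : ℕ)) ↔ AA G f c x (i + (1 : ℕ) + ((r + 1 : ℕ) : ℤ)))
  · exact (h1.1 hp).1 (T.K1 hp)
  · have hp2 : (AA G f c x (i + (1 : ℕ)) ↔ AA G f c x i) := by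
      by_cases a1 : AA G f c x i <;> by_cases a2 : AA G f c x (i + (1 : ℕ)) <;>
        by_cases a3 : AA G f c x (i + (1 : ℕ) + ((r + 1 : ℕ) : ℤ)) <;> simp_all
    exact h1.2 hp2 (T.K1 hp2.symm)

theorem K3 (i : ℤ) : ¬ (AA G f c x (i + 1) ↔ AA G f c x i) ∧ G.Adj (c (i + 1)) (f (c (i + 1))) := by
  have h2 := T.deg_ineq i
  have h3 : 1 ≤ cw 0 k (fun j => (AA G f c x j ↔ AA G f c x i) ∧
      ¬ G.Adj (c (i + 1)) (c (j + 1))) := by
    obtain ⟨s, hs, n, hn⟩ := rep T.S 0 i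
    apply cw_pos hs
    rw [hn, T.AA_per_int, per_int1 T.S]
    exact ⟨Iff.rfl, by simp⟩
  have h4 : 0 < cw i k (fun j => ¬ (AA G f c x j ↔ AA G f c x i) ∧
      G.Adj (c (i + 1)) (f (c j))) := by
    rw [cw_base (k := k) (P := fun j => ¬ (AA G f c x j ↔ AA G f c x i) ∧
      G.Adj (c (i + 1)) (f (c j))) (by intro t; simp only [T.AA_per, T.S.cyc.per])]
    omega
  obtain ⟨s, hs, hP⟩ := cw_pos_iff.mp h4
  have := T.K2 hs hP.1 hP.2
  subst this
  exact_mod_cast hP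

theorem K4 {i j : ℤ} (hopp : ¬ (AA G f c x j ↔ AA G f c x i)) (hb : G.Adj (c (i + 1)) (f (c j))) :
    c j = c (i + 1) := by
  obtain ⟨s, hs, n, rfl⟩ := rep T.S i j
  rw [T.AA_per_int] at hopp
  rw [T.S.cyc.per_int] at hb ⊢
  have := T.K2 hs hopp hb
  subst this
  push_cast
  rfl

/-- type (b), first part -/
theorem B1 (v : V) : G.Adj v (f v) := by
  have hxx : G.Adj x (f x) := W_adj T.S T.hx (T.S.f_mem_W.mpr T.hx) (T.S.ne x)
  rcases vert_cases T.S T.hx v with rfl | rfl | ⟨t, rfl⟩ | ⟨t, rfl⟩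
  · exact hxx
  · rw [T.S.inv]; exact hxx.symm
  · have := (T.K3 (t - 1)).2
    rwa [show t - 1 + 1 = t by ring] at this
  · have := (T.K3 (t - 1)).2
    rw [show t - 1 + 1 = t by ring] at this
    rw [T.S.inv]; exact this.symm

theorem B2x (w : V) (h1 : G.Adj x w) (h2 : G.Adj (f x) w) : False := by
  rcases vert_cases T.S T.hx w with rfl | rfl | ⟨t, rfl⟩ | ⟨t, rfl⟩
  · simp at h1
  · simp at h2
  · have e1 := T.xc (t - 1)
    have e2 := T.fxc (t - 1)
    rw [show t - 1 + 1 = t by ring] at e1 e2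
    exact e2.mp h2 (e1.mp h1)
  · exact (T.fxfc t).mp h2 h1

theorem B2c (t : ℤ) (w : V) (h1 : G.Adj (c t) w) (h2 : G.Adj (f (c t)) w) : False := by
  have e1 := T.xc (t - 1)
  have e2 := T.fxc (t - 1)
  have k3 := (T.K3 (t - 1)).1
  rw [show t - 1 + 1 = t by ring] at e1 e2 k3
  have e3 := T.fxfc t
  have e4 : G.Adj x (f (c t)) ↔ AA G f c x t := Iff.rfl
  rcases vert_cases T.S T.hx w with rfl | rfl | ⟨s, rfl⟩ | ⟨s, rfl⟩
  · have a1 := e1.mp h1.symm
    have a2 := e4.mp h2.symm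
    exact k3 ⟨fun _ => a1, fun _ => a2⟩
  · have a1 := e2.mp h1.symm
    have a2 := e3.mp h2.symm
    exact k3 ⟨fun h => absurd h a2, fun h => absurd h a1⟩
  · rw [show t = t - 1 + 1 by ring, show s = s - 1 + 1 by ring] at h1
    have a1 := T.opp_cc h1
    rw [show s = s - 1 + 1 by ring] at h2
    by_cases a2 : AA G f c x t ↔ AA G f c x (s - 1)
    · exact k3 (a2.trans a1.symm)
    · have a3 := T.K4 a2 h2.symm
      rw [show t - 1 + 1 = t by ring, ← a3] at h1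
      simp at h1
  · have a1 := T.opp_ff h2
    rw [show t = t - 1 + 1 by ring] at h1
    by_cases a2 : AA G f c x s ↔ AA G f c x (t - 1)
    · exact k3 (a1.trans a2)
    · have a3 := T.K4 a2 h1
      rw [show t - 1 + 1 = t by ring] at a3
      rw [a3] at h2
      simp at h2

/-- type (b), second part -/
theorem B2 (v w : V) (h1 : G.Adj v w) (h2 : G.Adj (f v) w) : False := by
  rcases vert_cases T.S T.hx v with rfl | rfl | ⟨t, rfl⟩ | ⟨t, rfl⟩
  · exact T.B2x w h1 h2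
  · rw [T.S.inv] at h2
    exact T.B2x w h2 h1
  · exact T.B2c t w h1 h2
  · rw [T.S.inv] at h2
    exact T.B2c t w h2 h1

end Set6

end small

end Pool.Agent.Helper458
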