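import Pool.Agent.Helper458.WCycle

set_option autoImplicit false

namespace Pool.Agent.Helper458

open Classical

variable {V : Type*}

section
variable {G : SimpleGraph V} {f : V → V} {c : ℤ → V} {k : ℕ}

theorem CycFun.ne_of_lt (hc : CycFun G f c k) (s : ℤ) (j : ℕ) (hj : 0 < j) (hjk : j < k) :
    c s ≠ c (s + j) := by
  intro h
  have hnd : (ms f (seg c s k)).Nodup := by rw [hc.ms_eq]; exact hc.nd
  rw [ms] at hnd
  have h1 : (seg c s k).Nodup := by
    have := (Multiset.nodup_add.mp hnd).1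
    exact Multiset.coe_nodup.mp this
  have h2 := List.nodup_iff_getElem?_ne_getElem?.mp h1 0 j hj (by simpa using hjk)
  apply h2
  simp only [seg, List.getElem?_map, List.getElem?_range hc.pos, List.getElem?_range hjk,
    Option.map_some]
  simp [h]

theorem CycFun.ne_f (hc : CycFun G f c k) (s t : ℤ) : c s ≠ f (c t) := by
  intro h
  have hnd := hc.nd
  rw [ms] at hnd
  have h1 := (Multiset.nodup_add.mp hnd).2.2
  rw [Multiset.disjoint_left] at h1
  have h2 : c s ∈ ((seg c 0 k : List V) : Multiset V) := by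
    rw [← Multiset.coe_eq_coe.mpr (hc.perm s)]
    exact (mem_seg c).mpr ⟨0, hc.pos, by simp⟩
  have h3 : c t ∈ seg c 0 k := by
    rw [← (hc.perm t).mem_iff]
    exact (mem_seg c).mpr ⟨0, hc.pos, by simp⟩
  apply h1 h2
  rw [h]
  exact Multiset.mem_coe.mpr (List.mem_map_of_mem h3)

end

section

variable [Fintype V] {G : SimpleGraph V} {f : V → V} {c : ℤ → V} {k l : ℕ}

theorem dW_card (z : V) : dW G f c k z = ((Wf f c k).filter (G.Adj z)).card := by
  rw [dW, Multiset.countP_eq_card_filter]; rfl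

theorem full_adj (S : Setup G f c k l) {z : V} (h : 2 * l ≤ dW G f c k z + 1)
    {u : V} (hz : z ∈ Wf f c k) (hu : u ∈ Wf f c k) (hne : u ≠ z) : G.Adj z u := by
  by_contra hcon
  rw [dW_card] at h
  have h1 : (Wf f c k).filter (G.Adj z) ⊆ ((Wf f c k).erase z).erase u := by
    intro v hv
    simp only [Finset.mem_filter, Finset.mem_erase] at hv ⊢
    refine ⟨?_, ?_, hv.1⟩
    · rintro rfl; exact hcon hv.2
    · rintro rfl; exact G.loopless.irrefl _ hv.2
  have h2 := Finset.card_le_card h1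
  rw [Finset.card_erase_of_mem (by simp [hu, hne]), Finset.card_erase_of_mem hz, S.card_W] at h2
  have := S.lpos
  omega

/-- spanning paths of the complement -/
def SP (G : SimpleGraph V) (f : V → V) (c : ℤ → V) (k l : ℕ) (x y : V) : Prop :=
  ∃ P, WP G f c k x y P ∧ P.length = l

theorem SP.symm (S : Setup G f c k l) {x y : V} (h : SP G f c k l x y) : SP G f c k l y x := by
  obtain ⟨P, h, hl⟩ := h
  exact ⟨_, h.rv S, by rw [rv_length]; exact hl⟩

/-- trichotomy for the ends of a spanning path -/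
theorem tri (S : Setup G f c k l) (hlk : l ≤ k) {x y : V} (h : SP G f c k l x y) :
    (cnt c 0 k (fun v => G.Adj x (f v)) = 0 ∧ cnt c 0 k (fun v => G.Adj y (f v)) = 0 ∧
      0 < cnt c 0 k (G.Adj x) ∧ 0 < cnt c 0 k (G.Adj y)) ∨
    (cnt c 0 k (G.Adj x) = 0 ∧ cnt c 0 k (G.Adj y) = 0 ∧
      0 < cnt c 0 k (fun v => G.Adj x (f v)) ∧ 0 < cnt c 0 k (fun v => G.Adj y (f v))) ∨
    (0 < cnt c 0 k (G.Adj x) ∧ 0 < cnt c 0 k (G.Adj y) ∧
      0 < cnt c 0 k (fun v => G.Adj x (f v)) ∧ 0 < cnt c 0 k (fun v => G.Adj y (f v)) ∧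
      dW G f c k x + 1 = 2 * l ∧ dW G f c k y + 1 = 2 * l ∧
      cnt c 0 k (fun v => G.Adj x (f v)) + cnt c 0 k (G.Adj y) + l = k + 1 ∧
      cnt c 0 k (fun v => G.Adj y (f v)) + cnt c 0 k (G.Adj x) + l = k + 1 ∧
      cnt c 0 k (fun v => G.Adj x (f v)) + cnt c 0 k (G.Adj x) + l = k + 1 ∧
      cnt c 0 k (fun v => G.Adj y (f v)) + cnt c 0 k (G.Adj y) + l = k + 1) := by
  obtain ⟨P, h, hl⟩ := h
  have hx := h.mem h.pth.fst_mem_ms
  have hy := h.mem h.pth.snd_mem_ms
  have w1 := dW_le S hx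
  have w2 := dW_le S hy
  have d1 := S.deg x
  have d2 := S.deg y
  rw [deg_eq S.cyc] at d1 d2
  have Q1 := S.Q h
  have Q2 := S.Q (h.rv S)
  rw [rv_length] at Q2
  rw [hl] at Q1 Q2
  have lp := S.lpos
  generalize cnt c 0 k (G.Adj x) = o at *
  generalize cnt c 0 k (G.Adj y) = o' at *
  generalize cnt c 0 k (fun v => G.Adj x (f v)) = a at *
  generalize cnt c 0 k (fun v => G.Adj y (f v)) = a' at *
  by_cases ha : a = 0
  · left
    have ho : 0 < o := by omega
    have ha' : a' = 0 := by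
      by_contra hc
      have := Q2 (by omega) ho
      omega
    refine ⟨ha, ha', ho, by omega⟩
  · right
    by_cases ho : o = 0
    · left
      have ho' : o' = 0 := by
        by_contra hc
        have := Q1 (by omega) (by omega)
        omega
      refine ⟨ho, ho', by omega, by omega⟩
    · right
      have ha' : 0 < a' := by
        by_contra hc
        have := Q1 (by omega) (by omega)
        omega
      have q2 := Q2 ha' (by omega)
      have ho' : 0 < o' := by
        by_contra hc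
        omega
      have q1 := Q1 (by omega) ho'
      omega

theorem cnt_lt_of {c : ℤ → V} {P Q : V → Prop} {a : ℤ} {n : ℕ}
    (h : ∀ i : ℕ, i < n → P (c (a + i)) → Q (c (a + i))) (j : ℕ) (hj : j < n)
    (hP : ¬ P (c (a + j))) (hQ : Q (c (a + j))) : cnt c a n P + 1 ≤ cnt c a n Q := by
  apply Finset.card_lt_card
  rw [Finset.ssubset_iff_of_subset]
  · refine ⟨j, by simp [hj, hQ], by simp [hP]⟩
  · intro i hi
    simp only [Finset.mem_filter, Finset.mem_range] at hi ⊢
    exact ⟨hi.1, h i hi.1 hi.2⟩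

section types

variable (S : Setup G f c k l) (hlk : l ≤ k)
include S hlk

/-- properties of a spanning cycle of the complement -/
theorem sp_rot {d : ℤ → V} (hd : CycFun G f d l) (hW : ms f (seg d 0 l) = (Wf f c k).val) (t : ℤ) :
    SP G f c k l (d t) (f (d (t - 1))) := by
  have h1 := hd.pth t l S.lpos
  rw [show t + (l : ℤ) - 1 = t - 1 + l by ring, hd.per] at h1
  refine ⟨_, wp_of S.cyc h1 (by rw [hd.ms_eq]; exact hd.nd) ?_, by simp⟩
  intro v hv
  rw [hd.ms_eq, hW] at hv
  exact hv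

theorem sp_headadj {d : ℤ → V} (hd : CycFun G f d l) (hW : ms f (seg d 0 l) = (Wf f c k).val)
    (s t : ℤ) (h : G.Adj (d s) (d t)) : SP G f c k l (f (d (t - 1))) (f (d (s - 1))) := by
  have hl : (0 : ℤ) < l := by exact_mod_cast S.lpos
  have h1 := Int.emod_nonneg (t - s) hl.ne'
  have h2 := Int.emod_lt_of_pos (t - s) hl
  obtain ⟨j, hj⟩ := Int.eq_ofNat_of_zero_le h1
  have h3 := Int.emod_add_mul_ediv (t - s) l
  have ht : t = s + j + ((t - s) / l) * l := by
    have : (l : ℤ) * ((t - s) / l) = ((t - s) / l) * l := mul_comm _ _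
    omega
  generalize (t - s) / l = n at ht
  have e1 : d t = d (s + j) := by rw [ht]; exact hd.per_int _ _
  have e2 : d (t - 1) = d (s + j - 1) := by
    rw [ht, show s + (j:ℤ) + n * l - 1 = s + j - 1 + n * l by ring]; exact hd.per_int _ _
  rw [e1] at h
  rw [e2]
  rcases Nat.eq_zero_or_pos j with rfl | hj0
  · simp at h
  have hjl : j < l := by omega
  obtain ⟨r, hr⟩ := Nat.exists_eq_add_of_lt hjl
  have p1 := (hd.pth s j hj0).rv S.inv
  have p2 := hd.pth (s + j) (r + 1) (by omega)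
  rw [show s + (j : ℤ) + ((r + 1 : ℕ) : ℤ) - 1 = s - 1 + l by rw [hr]; push_cast; ring,
    hd.per] at p2
  have p3 := p1.append h p2
  have hms : ms f (rv f (seg d s j) ++ seg d (s + j) (r + 1)) = ms f (seg d s l) := by
    rw [ms_append, ms_rv S.inv, ← ms_append, ← seg_add]
    congr 2; omega
  refine ⟨_, wp_of S.cyc p3 (by rw [hms, hd.ms_eq]; exact hd.nd) ?_, by simp; omega⟩
  intro v hv
  rw [hms, hd.ms_eq, hW] at hv
  exact hv

omit hlk in
theorem rev_ms {d : ℤ → V} (hd : CycFun G f d l) :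
    ms f (seg (fun t => f (d (-t))) 0 l) = ms f (seg d 0 l) := by
  have h1 : seg (fun t => f (d (-t))) 0 l = rv f (seg d (1 - l) l) := by
    simp only [seg, rv, List.map_map]
    apply List.ext_getElem
    · simp
    · intro n h1 h2
      simp only [List.length_map, List.length_range] at h1
      simp only [List.getElem_map, List.getElem_range, List.getElem_reverse, Function.comp,
        List.length_map, List.length_range]
      congr 2
      omega
  rw [h1, ms_rv S.inv, hd.ms_eq]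

theorem E_iff {x y : V} (h : SP G f c k l x y) :
    cnt c 0 k (G.Adj x) = 0 ↔ cnt c 0 k (G.Adj y) = 0 := by
  have := tri S hlk h
  omega

theorem O_iff {x y : V} (h : SP G f c k l x y) :
    cnt c 0 k (fun v => G.Adj x (f v)) = 0 ↔ cnt c 0 k (fun v => G.Adj y (f v)) = 0 := by
  have := tri S hlk h
  omega

theorem dW_seg {d : ℤ → V} (hd : CycFun G f d l) (hW : ms f (seg d 0 l) = (Wf f c k).val) (z : V) :
    dW G f c k z = cnt d 0 l (G.Adj z) + cnt d 0 l (fun v => G.Adj z (f v)) := by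
  rw [dW, ← hW, countP_ms, cnt_eq_countP, cnt_eq_countP]

theorem mem_W_seg {d : ℤ → V} (hd : CycFun G f d l) (hW : ms f (seg d 0 l) = (Wf f c k).val)
    (t : ℤ) : d t ∈ Wf f c k := by
  have := hd.mem t
  rw [hW] at this
  exact this

/-- the main propagation step across a matching edge -/
theorem E_step {d : ℤ → V} (hd : CycFun G f d l) (hW : ms f (seg d 0 l) = (Wf f c k).val) (t : ℤ)
    (hE : cnt c 0 k (G.Adj (d t)) = 0) : cnt c 0 k (G.Adj (f (d t))) = 0 := by
  by_contra hE'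
  -- shift to t = 0
  wlog ht : t = 0 generalizing d t with H
  · have hs := hd.shift t
    refine H hs ?_ 0 (by simpa using hE) (by simpa using hE') rfl
    rw [← hW, ← hd.ms_eq t]
    congr 1
    simp only [seg]
    apply List.map_congr_left
    intro i _
    congr 1; ring
  subst ht
  have hlpos := S.lpos
  have hrev := hd.rev S.inv
  have hWrev : ms f (seg (fun t => f (d (-t))) 0 l) = (Wf f c k).val := by rw [rev_ms S hd, hW]
  have E1 : ∀ t, cnt c 0 k (G.Adj (d t)) = 0 ↔ cnt c 0 k (G.Adj (f (d (t - 1)))) = 0 :=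
    fun t => E_iff S hlk (sp_rot S hlk hd hW t)
  have O1 : ∀ t, cnt c 0 k (fun v => G.Adj (d t) (f v)) = 0 ↔
      cnt c 0 k (fun v => G.Adj (f (d (t - 1))) (f v)) = 0 :=
    fun t => O_iff S hlk (sp_rot S hlk hd hW t)
  have Eh : ∀ s t, G.Adj (d s) (d t) →
      (cnt c 0 k (G.Adj (d s)) = 0 ↔ cnt c 0 k (G.Adj (d t)) = 0) := by
    intro s t h
    rw [E1 s, E1 t]
    exact (E_iff S hlk (sp_headadj S hlk hd hW s t h)).symm
  have Et : ∀ s t, G.Adj (f (d s)) (f (d t)) →
      (cnt c 0 k (G.Adj (f (d s))) = 0 ↔ cnt c 0 k (G.Adj (f (d t))) = 0) := by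
    intro s t h
    have h1 := E_iff S hlk (sp_headadj S hlk hrev hWrev (-s) (-t) (by simpa using h))
    simp only [S.inv] at h1
    rw [show -(-t - 1) = t + 1 by ring, show -(-s - 1) = s + 1 by ring] at h1
    have h2 := E1 (s + 1)
    have h3 := E1 (t + 1)
    rw [show s + 1 - 1 = s by ring] at h2
    rw [show t + 1 - 1 = t by ring] at h3
    rw [← h2, ← h3, h1]
  have Ot : ∀ s t, G.Adj (f (d s)) (f (d t)) →
      (cnt c 0 k (fun v => G.Adj (f (d s)) (f v)) = 0 ↔
        cnt c 0 k (fun v => G.Adj (f (d t)) (f v)) = 0) := by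
    intro s t h
    have h1 := O_iff S hlk (sp_headadj S hlk hrev hWrev (-s) (-t) (by simpa using h))
    simp only [S.inv] at h1
    rw [show -(-t - 1) = t + 1 by ring, show -(-s - 1) = s + 1 by ring] at h1
    have h2 := O1 (s + 1)
    have h3 := O1 (t + 1)
    rw [show s + 1 - 1 = s by ring] at h2
    rw [show t + 1 - 1 = t by ring] at h3
    rw [← h2, ← h3, h1]
  have hd0 : d 0 ∈ Wf f c k := mem_W_seg S hlk hd hW 0
  have hfd0 : f (d 0) ∈ Wf f c k := S.f_mem_W.mpr hd0
  by_cases hO : cnt c 0 k (fun v => G.Adj (f (d 0)) (f v)) = 0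
  · -- sub-case B
    have s1 := dW_seg S hlk hd hW (d 0)
    have s2 := dW_seg S hlk hd hW (f (d 0))
    have b1 : cnt d 0 l (G.Adj (d 0)) + 1 ≤ cnt d 0 l (fun v => cnt c 0 k (G.Adj v) = 0) := by
      apply cnt_lt_of _ 0 hlpos
      · simp
      · simpa using hE
      · intro i hi h
        exact (Eh _ _ h).mp hE
    have b2 : cnt d 0 l (fun v => G.Adj (f (d 0)) (f v)) + 1 ≤
        cnt d 0 l (fun v => cnt c 0 k (fun w => G.Adj (f v) (f w)) = 0) := by
      apply cnt_lt_of _ 0 hlpos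
      · simp
      · simpa using hO
      · intro i hi h
        exact (Ot _ _ h).mp hO
    have b3 : cnt d 0 l (fun v => G.Adj (d 0) (f v)) ≤ l := cnt_le _ _
    have b4 : cnt d 0 l (G.Adj (f (d 0))) ≤ l := cnt_le _ _
    have b5 : cnt d 0 l (fun v => cnt c 0 k (G.Adj v) = 0) =
        cnt d 0 l (fun v => cnt c 0 k (G.Adj (f v)) = 0) := by
      rw [← cnt_base (c := d) hd.per (-1) (P := fun v => cnt c 0 k (G.Adj (f v)) = 0)]
      apply cnt_congr
      intro i _
      have := E1 (0 + i)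
      rw [show (0 : ℤ) + i - 1 = -1 + i by ring] at this
      exact this
    have b6 : cnt d 0 l (fun v => cnt c 0 k (G.Adj (f v)) = 0) +
        cnt d 0 l (fun v => cnt c 0 k (fun w => G.Adj (f v) (f w)) = 0) ≤ l := by
      apply cnt_disj
      rintro i hi ⟨h1, h2⟩
      have hz : f (d (0 + i)) ∈ Wf f c k := S.f_mem_W.mpr (mem_W_seg S hlk hd hW _)
      have w := dW_le S hz
      have dd := S.deg (f (d (0 + i)))
      rw [deg_eq S.cyc] at dd
      omega
    have hs := S.single hd0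
    have i1 : cnt c 0 k (fun v => G.Adj (d 0) (f v)) + cnt c 1 k (G.Adj (f (d 0))) ≤ k := by
      apply cnt_disj
      rintro t _ ⟨a1, a2⟩
      exact S.ins0 hs (0 + t) ⟨a1, by rw [show (0 : ℤ) + t + 1 = 1 + t by ring]; exact a2⟩
    rw [cnt_base S.cyc.per 1] at i1
    have dd1 := S.deg (d 0)
    have dd2 := S.deg (f (d 0))
    rw [deg_eq S.cyc] at dd1 dd2
    omega
  · -- sub-case A
    have h1 := sp_rot S hlk hd hW 1
    rw [show (1 : ℤ) - 1 = 0 by ring] at h1
    have h2 := tri S hlk h1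
    have h3 : dW G f c k (f (d 0)) + 1 = 2 * l := by omega
    rcases Nat.lt_or_ge 1 l with hl | hl
    · have hne : f (d (-1)) ≠ f (d 0) := by
        intro h
        have := hd.ne_of_lt (-1) 1 (by norm_num) hl
        apply this
        rw [S.finj h]; norm_num
      have hadj := full_adj S h3.ge hfd0 (S.f_mem_W.mpr (mem_W_seg S hlk hd hW (-1))) hne
      have h4 := Et _ _ hadj
      have h5 := E1 0
      rw [show (0 : ℤ) - 1 = -1 by ring] at h5
      exact hE' (h4.mpr (h5.mp hE))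
    · have hl1 : l = 1 := by omega
      have h4 : d (1 : ℤ) = d 0 := by
        have := hd.per 0
        rw [hl1] at this
        simpa using this
      rw [h4] at h1
      exact hE' ((E_iff S hlk h1).mp hE)

/-- every outside vertex has a neighbour among the first vertices of the cycle -/
theorem all_o {D : List V} (hD : IsCyc G f D) (hDW : ms f D = (Wf f c k).val)
    {z : V} (hz : z ∈ Wf f c k) : 0 < cnt c 0 k (G.Adj z) := by
  by_contra hcon
  have hE0 : cnt c 0 k (G.Adj z) = 0 := by omega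
  obtain ⟨d, hd, hdD⟩ := exists_cycFun hD
  have hDl : D.length = l := by
    have h1 := congrArg Multiset.card hDW
    rw [card_ms] at h1
    have h2 := S.card_W
    rw [Finset.card_def] at h2
    omega
  rw [hDl] at hd hdD
  have hW : ms f (seg d 0 l) = (Wf f c k).val := by rw [hdD, hDW]
  have hrev := hd.rev S.inv
  have hWrev : ms f (seg (fun t => f (d (-t))) 0 l) = (Wf f c k).val := by rw [rev_ms S hd, hW]
  have st1 : ∀ t, cnt c 0 k (G.Adj (d t)) = 0 → cnt c 0 k (G.Adj (f (d t))) = 0 :=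
    fun t => E_step S hlk hd hW t
  have st2 : ∀ t, cnt c 0 k (G.Adj (f (d t))) = 0 → cnt c 0 k (G.Adj (d t)) = 0 := by
    intro t h
    have := E_step S hlk hrev hWrev (-t) (by simpa using h)
    simpa [S.inv] using this
  have st3 : ∀ t, cnt c 0 k (G.Adj (d t)) = 0 ↔ cnt c 0 k (G.Adj (d (t - 1))) = 0 := by
    intro t
    rw [E_iff S hlk (sp_rot S hlk hd hW t)]
    exact ⟨st2 _, st1 _⟩
  have st4 : ∀ t, cnt c 0 k (G.Adj (d t)) = 0 ↔ cnt c 0 k (G.Adj (d 0)) = 0 := by
    intro t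
    induction t using Int.induction_on with
    | zero => rfl
    | succ i ih =>
      rw [st3 (i + 1), show (i : ℤ) + 1 - 1 = i by ring, ih]
    | pred i ih => rw [← st3 (-i), ih]
  have hall0 : ∀ t, cnt c 0 k (G.Adj (d t)) = 0 := by
    have hz' : z ∈ ms f (seg d 0 l) := by rw [hW]; exact hz
    rw [mem_ms] at hz'
    rcases hz' with hz' | ⟨w, hw, rfl⟩
    · obtain ⟨t, _, rfl⟩ := (mem_seg _).mp hz'
      intro s
      rw [st4 s, ← st4 (0 + t)]; exact hE0
    · obtain ⟨t, _, rfl⟩ := (mem_seg _).mp hw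
      intro s
      rw [st4 s, ← st4 (0 + t)]; exact st2 _ hE0
  have hall : ∀ u ∈ Wf f c k, cnt c 0 k (G.Adj u) = 0 := by
    intro u hu
    have hz' : u ∈ ms f (seg d 0 l) := by rw [hW]; exact hu
    rw [mem_ms] at hz'
    rcases hz' with hz' | ⟨w, hw, rfl⟩
    · obtain ⟨t, _, rfl⟩ := (mem_seg _).mp hz'
      exact hall0 _
    · obtain ⟨t, _, rfl⟩ := (mem_seg _).mp hw
      exact st1 _ (hall0 _)
  -- final contradiction
  have hsp := sp_rot S hlk hd hW 0
  have htri := tri S hlk hsp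
  have hx0 := hall0 0
  have hax : 0 < cnt c 0 k (fun v => G.Adj (d 0) (f v)) := by omega
  obtain ⟨i, hi, hxi⟩ := cnt_pos_iff.mp hax
  obtain ⟨P, hP, hPl⟩ := hsp
  set y := f (d (0 - 1)) with hy
  set j : ℤ := 0 + i with hj
  have e1 : cnt c 1 k (G.Adj (c (j + 1))) + cnt c 0 k (fun v => G.Adj y (f v)) ≤ k := by
    apply cnt_disj
    rintro t _ ⟨b1, b2⟩
    exact S.heads hP j (0 + t) hxi ⟨by rw [show (0 : ℤ) + t + 1 = 1 + t by ring]; exact b1, b2⟩
  rw [cnt_base S.cyc.per 1] at e1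
  have e2 := S.deg (c (j + 1))
  rw [deg_eq S.cyc] at e2
  have e3 : cnt c 0 k (fun v => G.Adj (c (j + 1)) (f v)) ≤ k := cnt_le _ _
  have e4 : dW G f c k (c (j + 1)) = 0 := by
    rw [dW, Multiset.countP_eq_zero]
    intro u hu hadj
    have h0 := hall u hu
    have h1 : 0 < cnt c (j + 1) k (G.Adj u) := by
      rw [cnt_pos_iff]
      exact ⟨0, S.cyc.pos, by simpa using hadj.symm⟩
    rw [cnt_base S.cyc.per] at h1
    omega
  have hyW : y ∈ Wf f c k := S.f_mem_W.mpr (mem_W_seg S hlk hd hW _)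
  have e5 := dW_le S hyW
  have e6 := S.deg y
  rw [deg_eq S.cyc] at e6
  have e7 := hall y hyW
  omega

end types

theorem all_a (S : Setup G f c k l) (hlk : l ≤ k) {D : List V} (hD : IsCyc G f D)
    (hDW : ms f D = (Wf f c k).val)
    {z : V} (hz : z ∈ Wf f c k) : 0 < cnt c 0 k (fun v => G.Adj z (f v)) := by
  have := all_o S.rev hlk hD (by rw [Wf_rev S]; exact hDW) (z := z) (by rw [Wf_rev S]; exact hz)
  rwa [cnt_rev S] at this

/-- summary: structure of the complement -/
theorem W_struct (S : Setup G f c k l) : l ≤ k ∧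
    (∀ z ∈ Wf f c k, dW G f c k z + 1 = 2 * l) ∧
    (∀ z ∈ Wf f c k, cnt c 0 k (fun v => G.Adj z (f v)) + cnt c 0 k (G.Adj z) + l = k + 1) ∧
    (∀ z ∈ Wf f c k, 0 < cnt c 0 k (G.Adj z)) ∧
    (∀ z ∈ Wf f c k, 0 < cnt c 0 k (fun v => G.Adj z (f v))) := by
  obtain ⟨D, hD, hDW⟩ := exists_W_cycle S
  have hDl : D.length = l := by
    have h1 := congrArg Multiset.card hDW
    rw [card_ms] at h1
    have h2 := S.card_W
    rw [Finset.card_def] at h2
    omega
  have hlk : l ≤ k := by rw [← hDl]; exact S.max _ hD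
  have ho := fun z hz => all_o S hlk hD hDW (z := z) hz
  have ha := fun z hz => all_a S hlk hD hDW (z := z) hz
  obtain ⟨d, hd, hdD⟩ := exists_cycFun hD
  rw [hDl] at hd hdD
  have hW : ms f (seg d 0 l) = (Wf f c k).val := by rw [hdD, hDW]
  have hsp : ∀ z ∈ Wf f c k, ∃ y ∈ Wf f c k, SP G f c k l z y := by
    intro z hz
    have hz' : z ∈ ms f (seg d 0 l) := by rw [hW]; exact hz
    rw [mem_ms] at hz'
    rcases hz' with hz' | ⟨w, hw, rfl⟩
    · obtain ⟨t, _, rfl⟩ := (mem_seg _).mp hz'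
      exact ⟨_, S.f_mem_W.mpr (mem_W_seg S hlk hd hW _), sp_rot S hlk hd hW _⟩
    · obtain ⟨t, _, rfl⟩ := (mem_seg _).mp hw
      have := (sp_rot S hlk hd hW ((0 + t) + 1)).symm S
      rw [show (0 : ℤ) + t + 1 - 1 = 0 + t by ring] at this
      exact ⟨_, mem_W_seg S hlk hd hW _, this⟩
  have htri : ∀ z ∈ Wf f c k, dW G f c k z + 1 = 2 * l ∧
      cnt c 0 k (fun v => G.Adj z (f v)) + cnt c 0 k (G.Adj z) + l = k + 1 := by
    intro z hz
    obtain ⟨y, hy, hzy⟩ := hsp z hz
    have h1 := tri S hlk hzy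
    have h2 := ho z hz
    have h3 := ha z hz
    have h4 := ho y hy
    have h5 := ha y hy
    omega
  exact ⟨hlk, fun z hz => (htri z hz).1, fun z hz => (htri z hz).2, ho, ha⟩

end

end Pool.Agent.Helper458
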