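import Pool.Agent.Helper458.Count

set_option autoImplicit false

namespace Pool.Agent.Helper458

open Classical

variable {V : Type*}

section pathseq

variable {G : SimpleGraph V} {f : V → V}

/-- a path as a segment of a sequence -/
theorem Pth.seq {x y : V} {P : List V} (h : Pth G f x y P) :
    ∃ p : ℤ → V, seg p 0 P.length = P ∧ p 0 = x ∧ f (p (P.length - 1)) = y ∧
      ∀ t : ℕ, t + 1 < P.length → G.Adj (f (p t)) (p (t + 1)) := by
  refine ⟨fun t => P.getD t.toNat x, ?_, ?_, ?_, ?_⟩
  · apply List.ext_getElem
    · simp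
    · intro n h1 h2
      simp [seg]
      rw [List.getElem?_eq_getElem h2]; rfl
  · obtain ⟨P', rfl⟩ := h.eq_cons
    simp
  · have hl := h.length_pos
    induction h with
    | single u => simp
    | cons u w v L hh h' ih =>
      have h3 := h'.length_pos
      have := ih h3
      have e1 : ((((u :: L).length : ℕ) : ℤ) - 1).toNat = (L.length - 1) + 1 := by
        simp only [List.length_cons]; push_cast; omega
      have e2 : (((L.length : ℕ) : ℤ) - 1).toNat = L.length - 1 := by omega
      simp only [e1, e2] at this ⊢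
      have hlt : L.length - 1 < L.length := by omega
      simp only [List.getD_cons_succ]
      rw [List.getD_eq_getElem _ _ hlt] at this ⊢
      exact this
  · intro t ht
    simp only [Int.toNat_natCast]
    have e2 : ((t : ℤ) + 1).toNat = t + 1 := by omega
    rw [e2]
    clear e2
    induction h generalizing t with
    | single u => simp at ht
    | cons u w v L hh h' ih =>
      rcases t with _ | t
      · obtain ⟨L', rfl⟩ := h'.eq_cons
        simpa using hh
      · simp only [List.length_cons] at ht
        have h4 : t + 1 < L.length := by omega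
        have := ih t h4
        simp only [List.getD_cons_succ]
        rw [List.getD_eq_getElem _ _ (by omega)] at this ⊢
        rw [List.getD_eq_getElem _ _ (by omega)] at this ⊢
        exact this

theorem pth_sub {p : ℤ → V} {len : ℕ} (h : ∀ t : ℕ, t + 1 < len → G.Adj (f (p t)) (p (t + 1)))
    (a n : ℕ) (hn : a + n < len) : Pth G f (p a) (f (p (a + n))) (seg p a (n + 1)) := by
  induction n generalizing a with
  | zero => rw [seg_one]; simpa using Pth.single (p a)
  | succ n ih =>
    rw [seg_succ]
    have := ih (a + 1) (by omega)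
    push_cast at this ⊢
    rw [show (a : ℤ) + 1 + (n : ℤ) = a + (n + 1) by ring] at this
    exact Pth.cons _ _ _ _ (h a (by omega)) this

end pathseq

section

variable [Fintype V] {G : SimpleGraph V} {f : V → V} {c : ℤ → V} {k l : ℕ}

theorem cnt_rev (S : Setup G f c k l) (P : V → Prop) :
    cnt (fun t => f (c (-t))) 0 k P = cnt c 0 k (fun v => P (f v)) := by
  rw [← cnt_eq_countP, ← cnt_eq_countP]
  have h1 : seg (fun t => f (c (-t))) 0 k = rv f (seg c (1 - k) k) := by
    simp only [seg, rv, List.map_map]
    apply List.ext_getElem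
    · simp
    · intro n h1 h2
      simp only [List.length_map, List.length_range] at h1
      simp only [List.getElem_map, List.getElem_range, List.getElem_reverse, Function.comp,
        List.length_map, List.length_range]
      congr 2
      omega
  rw [h1, rv, Multiset.coe_reverse]
  simp only [Multiset.coe_countP, List.countP_map]
  have := (S.cyc.perm (1 - k)).countP_eq (fun v => decide (P (f v)))
  simpa [Function.comp_def] using this

theorem seg_rev_ms (S : Setup G f c k l) :
    ms f (seg (fun t => f (c (-t))) 0 k) = ms f (seg c 0 k) := by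
  have h1 : seg (fun t => f (c (-t))) 0 k = rv f (seg c (1 - k) k) := by
    simp only [seg, rv, List.map_map]
    apply List.ext_getElem
    · simp
    · intro n h1 h2
      simp only [List.length_map, List.length_range] at h1
      simp only [List.getElem_map, List.getElem_range, List.getElem_reverse, Function.comp,
        List.length_map, List.length_range]
      congr 2
      omega
  rw [h1, ms_rv S.inv, S.cyc.ms_eq]

theorem Setup.rev (S : Setup G f c k l) : Setup G f (fun t => f (c (-t))) k l :=
  ⟨S.inv, S.ne, S.cyc.rev S.inv, S.max, S.card, S.deg, S.lpos⟩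

theorem Wf_rev (S : Setup G f c k l) : Wf f (fun t => f (c (-t))) k = Wf f c k := by
  simp only [Wf, seg_rev_ms S]

theorem dW_rev (S : Setup G f c k l) (z : V) :
    dW G f (fun t => f (c (-t))) k z = dW G f c k z := by
  simp only [dW, Wf_rev S]

theorem WP.crev (S : Setup G f c k l) {x y : V} {P : List V} (h : WP G f c k x y P) :
    WP G f (fun t => f (c (-t))) k x y P := ⟨h.pth, by rw [seg_rev_ms S]; exact h.nd⟩

/-- neighbours in a set given by a path -/
theorem dW_eq {z : V} {P : List V} (hnd : (ms f P).Nodup)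
    (hsub : ∀ v ∈ ms f P, v ∈ Wf f c k) (h : ∀ u ∈ Wf f c k, G.Adj z u → u ∈ ms f P) :
    dW G f c k z = Multiset.countP (G.Adj z) (ms f P) := by
  rw [dW, Multiset.countP_eq_card_filter, Multiset.countP_eq_card_filter]
  congr 1
  apply (Multiset.Nodup.ext ((Wf f c k).nodup.filter _) (hnd.filter _)).mpr
  intro v
  simp only [Multiset.mem_filter, Finset.mem_val]
  constructor
  · rintro ⟨h1, h2⟩; exact ⟨h v h1 h2, h2⟩
  · rintro ⟨h1, h2⟩; exact ⟨hsub v h1, h2⟩

/-- extension of a path outside the cycle -/
theorem WP.extend (S : Setup G f c k l) {x y u : V} {P : List V} (h : WP G f c k x y P)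
    (hu : u ∈ Wf f c k) (hu' : u ∉ ms f P) (ha : G.Adj x u) :
    WP G f c k (f u) y (f u :: P) := by
  apply wp_of S.cyc
  · apply Pth.cons _ x _ _ _ h.pth
    rw [S.inv]; exact ha.symm
  · rw [ms_cons, S.inv]
    simp only [Multiset.insert_eq_cons, Multiset.singleton_add, Multiset.cons_add,
      Multiset.nodup_cons, Multiset.mem_cons]
    refine ⟨?_, hu', h.ndP⟩
    rintro (h1 | h1)
    · exact S.ne u h1
    · rw [f_mem_ms_iff S.inv] at h1; exact hu' h1
  · intro v hv
    rw [ms_cons, S.inv] at hv
    simp only [Multiset.insert_eq_cons, Multiset.singleton_add, Multiset.cons_add,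
      Multiset.mem_cons] at hv
    rcases hv with rfl | rfl | hv
    · exact S.f_mem_W.mpr hu
    · exact hu
    · exact h.mem hv

/-- sub-paths -/
theorem WP.of_le (S : Setup G f c k l) {x y x' y' : V} {P P' : List V} (h : WP G f c k x y P)
    (hp : Pth G f x' y' P') (hle : ms f P' ≤ ms f P) : WP G f c k x' y' P' :=
  wp_of S.cyc hp (Multiset.nodup_of_le hle h.ndP)
    (fun _ hv => h.mem (Multiset.mem_of_le hle hv))

theorem pair_bound (S : Setup G f c k l) {z : V} (hz : z ∈ Wf f c k) :
    2 * l ≤ dW G f c k z + dW G f c k (f z) := by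
  have h1 := S.deg z
  have h2 := S.deg (f z)
  rw [deg_eq S.cyc] at h1 h2
  have hs := S.single hz
  have hs' := hs.rv S
  have i1 : cnt c 0 k (fun v => G.Adj z (f v)) + cnt c 1 k (G.Adj (f z)) ≤ k := by
    apply cnt_disj
    rintro t _ ⟨a1, a2⟩
    exact S.ins0 hs (0 + t) ⟨a1, by rw [show (0 : ℤ) + t + 1 = 1 + t by ring]; exact a2⟩
  have i2 : cnt c 0 k (fun v => G.Adj (f z) (f v)) + cnt c 1 k (G.Adj z) ≤ k := by
    apply cnt_disj
    rintro t _ ⟨a1, a2⟩
    exact S.ins0 hs' (0 + t) ⟨a1, by rw [show (0 : ℤ) + t + 1 = 1 + t by ring]; exact a2⟩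
  rw [cnt_base S.cyc.per 1] at i1 i2
  omega

/-- number of neighbours inside a sub-multiset -/
theorem countP_adj_le {z : V} {s : Multiset V} (hz : z ∈ s) (G : SimpleGraph V) :
    Multiset.countP (G.Adj z) s + 1 ≤ Multiset.card s := by
  obtain ⟨t, rfl⟩ := Multiset.exists_cons_of_mem hz
  rw [Multiset.countP_cons_of_neg _ (by simp), Multiset.card_cons]
  have := Multiset.countP_le_card (G.Adj z) t
  omega

theorem dW_le (S : Setup G f c k l) {z : V} (hz : z ∈ Wf f c k) : dW G f c k z + 1 ≤ 2 * l := by
  have := countP_adj_le (s := (Wf f c k).val) hz G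
  have h2 := S.card_W
  rw [Finset.card_def] at h2
  rw [h2] at this
  exact this

/-- Case I : the longest path outside closes up. -/
theorem case_one (S : Setup G f c k l) {x y : V} {P : List V} (h : WP G f c k x y P)
    (hmx : ∀ x' y' P', WP G f c k x' y' P' → P'.length ≤ P.length)
    {D : List V} (hD : IsCyc G f D) (hDP : ms f D = ms f P) :
    ms f P = (Wf f c k).val := by
  obtain ⟨d, hd, hdD⟩ := exists_cycFun hD
  have hlen : D.length = P.length := by
    have := congrArg Multiset.card hDP
    rw [card_ms, card_ms] at this; omega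
  have hmsd : ms f (seg d 0 D.length) = ms f P := by rw [hdD, hDP]
  -- no edges out of the path
  have key : ∀ d : ℤ → V, CycFun G f d D.length → ms f (seg d 0 D.length) = ms f P →
      ∀ t : ℤ, ∀ u ∈ Wf f c k, G.Adj (d t) u → u ∈ ms f P := by
    intro d hd hms t u hu hadj
    by_contra hcon
    have hp := hd.pth t _ hd.pos
    have hw : WP G f c k (d t) _ _ := WP.of_le S h hp (by rw [hd.ms_eq, hms])
    have := hmx _ _ _ (hw.extend S hu (by rw [hd.ms_eq, hms]; exact hcon) hadj)
    simp [hlen] at this
  have key2 : ∀ v ∈ ms f P, ∀ u ∈ Wf f c k, G.Adj v u → u ∈ ms f P := by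
    intro v hv u hu hadj
    rw [← hmsd, mem_ms] at hv
    rcases hv with hv | ⟨w, hw, rfl⟩
    · obtain ⟨t, _, rfl⟩ := (mem_seg _).mp hv
      exact key d hd hmsd _ u hu hadj
    · obtain ⟨t, _, rfl⟩ := (mem_seg _).mp hw
      have hd' := hd.rev S.inv
      have hms' : ms f (seg (fun t => f (d (-t))) 0 D.length) = ms f P := by
        rw [← hmsd]
        have h1 : seg (fun t => f (d (-t))) 0 D.length = rv f (seg d (1 - D.length) D.length) := by
          simp only [seg, rv, List.map_map]
          apply List.ext_getElem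
          · simp
          · intro n h1 h2
            simp only [List.length_map, List.length_range] at h1
            simp only [List.getElem_map, List.getElem_range, List.getElem_reverse, Function.comp,
              List.length_map, List.length_range]
            congr 2
            omega
        rw [h1, ms_rv S.inv, hd.ms_eq]
      refine key _ hd' hms' (-(0 + t)) u hu ?_
      simpa using hadj
  by_contra hne
  -- there is a vertex outside the path
  have hsub : ms f P ≤ (Wf f c k).val := by
    rw [Multiset.le_iff_subset h.ndP]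
    intro v hv
    exact h.mem hv
  obtain ⟨u, hu, huP⟩ : ∃ u ∈ Wf f c k, u ∉ ms f P := by
    by_contra hall
    push Not at hall
    apply hne
    apply le_antisymm hsub
    rw [Multiset.le_iff_subset (Wf f c k).nodup]
    intro v hv
    exact hall v hv
  -- counting
  set R := (Wf f c k).val - ms f P with hR
  have hsum : (Wf f c k).val = ms f P + R := by
    rw [hR, add_comm]; exact (tsub_add_cancel_of_le hsub).symm
  have hndR : (ms f P + R).Nodup := by rw [← hsum]; exact (Wf f c k).nodup
  have hdis := (Multiset.nodup_add.mp hndR).2.2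
  rw [Multiset.disjoint_left] at hdis
  have hcR : Multiset.card R + 2 * P.length = 2 * l := by
    have h1 := congrArg Multiset.card hsum
    rw [Multiset.card_add, card_ms] at h1
    have h2 := S.card_W
    rw [Finset.card_def] at h2
    omega
  have bR : ∀ v ∈ R, dW G f c k v + 1 ≤ Multiset.card R := by
    intro v hv
    have hvW : v ∈ Wf f c k := by
      rw [← Finset.mem_val, hsum]; exact Multiset.mem_add.mpr (Or.inr hv)
    have h1 : dW G f c k v = Multiset.countP (G.Adj v) R := by
      rw [dW, hsum, Multiset.countP_add]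
      have : Multiset.countP (G.Adj v) (ms f P) = 0 := by
        rw [Multiset.countP_eq_zero]
        intro w hw hadj
        exact hdis (key2 w hw v hvW hadj.symm) hv
      rw [this, zero_add]
    rw [h1]
    exact countP_adj_le hv G
  have bP : ∀ v ∈ ms f P, dW G f c k v + 1 ≤ 2 * P.length := by
    intro v hv
    have h1 : dW G f c k v = Multiset.countP (G.Adj v) (ms f P) :=
      dW_eq h.ndP (fun _ hv => h.mem hv) (key2 v hv)
    rw [h1, ← card_ms (f := f)]
    exact countP_adj_le hv G
  have huR : u ∈ R := by
    have : u ∈ ms f P + R := by rw [← hsum]; exact hu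
    rcases Multiset.mem_add.mp this with h1 | h1
    · exact absurd h1 huP
    · exact h1
  have hfuR : f u ∈ R := by
    have : f u ∈ ms f P + R := by rw [← hsum]; exact S.f_mem_W.mpr hu
    rcases Multiset.mem_add.mp this with h1 | h1
    · exact absurd ((f_mem_ms_iff S.inv).mp h1) huP
    · exact h1
  have e1 := bR u huR
  have e2 := bR _ hfuR
  have e3 := pair_bound S hu
  have hx := h.pth.fst_mem_ms
  have e4 := bP x hx
  have e5 := bP (f x) (f_mem_ms S.inv hx)
  have e6 := pair_bound S (h.mem hx)
  omega

/-- Case II, even only. -/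
theorem case_two_even (S : Setup G f c k l) {x y : V} {P : List V} (h : WP G f c k x y P)
    (hl : P.length ≤ l)
    {p : ℤ → V} (hp1 : seg p 0 P.length = P) (hp2 : p 0 = x) (hp3 : f (p (P.length - 1)) = y)
    (hp4 : ∀ t : ℕ, t + 1 < P.length → G.Adj (f (p t)) (p (t + 1)))
    (hb1 : dW G f c k x + dW G f c k y + 1 ≤ P.length + 2 * k)
    (hb2 : dW G f c k x + dW G f c k y + 3 ≤ 3 * P.length)
    (hb3 : dW G f c k y + 2 ≤ 2 * P.length)
    (hox : cnt c 0 k (G.Adj x) = 0) (hoy : cnt c 0 k (G.Adj y) = 0) : False := by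
  have h1 := S.deg x
  have h2 := S.deg y
  rw [deg_eq S.cyc] at h1 h2
  have hPpos := h.pth.length_pos
  have hdis : cnt c 0 k (fun v => G.Adj x (f v)) + cnt c 0 k (fun v => G.Adj y (f v)) ≤ k := by
    apply cnt_disj
    rintro i _ ⟨hx, hy⟩
    set j : ℤ := 0 + i with hj
    -- the vertex v
    have e1 : cnt c 1 k (G.Adj (c (j + 1))) + cnt c 0 k (fun v => G.Adj y (f v)) ≤ k := by
      apply cnt_disj
      rintro t _ ⟨b1, b2⟩
      exact S.heads h j (0 + t) hx ⟨by rw [show (0 : ℤ) + t + 1 = 1 + t by ring]; exact b1, b2⟩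
    rw [cnt_base S.cyc.per 1] at e1
    have e2 := S.deg (c (j + 1))
    rw [deg_eq S.cyc] at e2
    have e3 : cnt c 0 k (fun v => G.Adj (c (j + 1)) (f v)) ≤ k := cnt_le _ _
    -- no neighbour in the path
    have e4 : ∀ u ∈ ms f P, ¬ G.Adj (c (j + 1)) u := by
      intro u hu hadj
      rw [mem_ms, ← hp1] at hu
      rcases hu with hu | ⟨w, hw, rfl⟩
      · obtain ⟨t, ht, rfl⟩ := (mem_seg _).mp hu
        obtain ⟨r, hr⟩ := Nat.exists_eq_add_of_lt ht
        have q1 := pth_sub hp4 t r (by omega)
        have e5 : (t : ℤ) + r = P.length - 1 := by omega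
        rw [e5, hp3] at q1
        have q2 : WP G f c k _ _ _ := WP.of_le S h q1 (by
          have e6 : P.length = t + (r + 1) := by omega
          conv_rhs => rw [← hp1, e6, seg_add, ms_append]
          rw [zero_add]
          exact Multiset.le_add_left _ _)
        have q3 := q2.rv S
        apply S.ins0 q3 j
        refine ⟨hy, ?_⟩
        rw [zero_add] at hadj
        exact hadj.symm
      · obtain ⟨t, ht, rfl⟩ := (mem_seg _).mp hw
        have q1 := pth_sub hp4 0 t (by omega)
        rw [Nat.cast_zero, hp2] at q1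
        have q2 : WP G f c k _ _ _ := WP.of_le S h q1 (by
          obtain ⟨r, hr⟩ := Nat.exists_eq_add_of_lt ht
          have e6 : P.length = (t + 1) + r := by omega
          conv_rhs => rw [← hp1, e6, seg_add, ms_append]
          exact Multiset.le_add_right _ _)
        apply S.ins0 q2 j
        exact ⟨hx, hadj.symm⟩
    have e5 : dW G f c k (c (j + 1)) + 2 * P.length ≤ 2 * l := by
      have hsub : ms f P ≤ (Wf f c k).val := by
        rw [Multiset.le_iff_subset h.ndP]
        intro v hv
        exact h.mem hv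
      have hsum : (Wf f c k).val = ms f P + ((Wf f c k).val - ms f P) := by
        rw [add_comm]; exact (tsub_add_cancel_of_le hsub).symm
      have h1 := congrArg Multiset.card hsum
      rw [Multiset.card_add, card_ms] at h1
      have h2 := S.card_W
      rw [Finset.card_def] at h2
      rw [dW, hsum, Multiset.countP_add]
      have : Multiset.countP (G.Adj (c (j + 1))) (ms f P) = 0 := by
        rw [Multiset.countP_eq_zero]
        intro w hw hadj
        exact e4 w hw hadj
      rw [this, zero_add]
      have := Multiset.countP_le_card (G.Adj (c (j + 1))) ((Wf f c k).val - ms f P)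
      omega
    omega
  omega

theorem exists_greatest {P : ℕ → Prop} {b : ℕ} (h : ∃ n, P n) (hb : ∀ n, P n → n ≤ b) :
    ∃ n, P n ∧ ∀ m, P m → m ≤ n := by
  have h3 := Nat.findGreatest_spec (P := P) (hb _ h.choose_spec) h.choose_spec
  exact ⟨_, h3, fun n' hn' => Nat.le_findGreatest (hb _ hn') hn'⟩

theorem WP.length_le (S : Setup G f c k l) {x y : V} {P : List V} (h : WP G f c k x y P) :
    P.length ≤ l := by
  have hsub : ms f P ≤ (Wf f c k).val := by
    rw [Multiset.le_iff_subset h.ndP]
    intro v hv
    exact h.mem hv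
  have h1 := Multiset.card_le_card hsub
  have h2 := S.card_W
  rw [Finset.card_def] at h2
  rw [card_ms] at h1
  omega

/-- The complement of a longest alternating cycle is spanned by an alternating cycle. -/
theorem exists_W_cycle (S : Setup G f c k l) : ∃ D, IsCyc G f D ∧ ms f D = (Wf f c k).val := by
  -- longest path
  have hne : ∃ z, z ∈ Wf f c k := by
    have := S.card_W
    have hl := S.lpos
    have : 0 < (Wf f c k).card := by omega
    exact Finset.card_pos.mp this
  obtain ⟨z, hz⟩ := hne
  obtain ⟨n, ⟨x, y, P, h, hn⟩, hmx'⟩ := exists_greatest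
    (P := fun n => ∃ x y P, WP G f c k x y P ∧ P.length = n) (b := l)
    ⟨1, z, f z, [z], S.single hz, rfl⟩
    (by rintro n ⟨x, y, P, h, rfl⟩; exact h.length_le S)
  have hmx : ∀ x' y' P', WP G f c k x' y' P' → P'.length ≤ P.length := by
    intro x' y' P' h'
    rw [hn]; exact hmx' _ ⟨x', y', P', h', rfl⟩
  by_cases hD : ∃ D, IsCyc G f D ∧ ms f D = ms f P
  · obtain ⟨D, hD1, hD2⟩ := hD
    exact ⟨D, hD1, by rw [hD2]; exact case_one S h hmx hD1 hD2⟩
  exfalso
  obtain ⟨p, hp1, hp2, hp3, hp4⟩ := h.pth.seq
  have hPpos := h.pth.length_pos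
  set L := P.length with hL
  -- neighbours
  have nx : ∀ u ∈ Wf f c k, G.Adj x u → u ∈ ms f P := by
    intro u hu ha
    by_contra hc
    have := hmx _ _ _ (h.extend S hu hc ha)
    simp at this
    omega
  have ny : ∀ u ∈ Wf f c k, G.Adj y u → u ∈ ms f P := by
    intro u hu ha
    by_contra hc
    have := hmx _ _ _ ((h.rv S).extend S hu (by rw [ms_rv S.inv]; exact hc) ha)
    simp at this
    omega
  have dx : dW G f c k x = cnt p 0 L (G.Adj x) + cnt p 0 L (fun v => G.Adj x (f v)) := by
    rw [dW_eq h.ndP (fun _ hv => h.mem hv) nx, countP_ms]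
    conv_lhs => rw [← hp1]
    rw [cnt_eq_countP, cnt_eq_countP]
  have dy : dW G f c k y = cnt p 0 L (G.Adj y) + cnt p 0 L (fun v => G.Adj y (f v)) := by
    rw [dW_eq h.ndP (fun _ hv => h.mem hv) ny, countP_ms]
    conv_lhs => rw [← hp1]
    rw [cnt_eq_countP, cnt_eq_countP]
  have sub_nd : ∀ (a n r : ℕ), L = a + n + r → ms f (seg p a n) ≤ ms f P := by
    intro a n r hr
    conv_rhs => rw [← hp1, hr, seg_add, seg_add, ms_append, ms_append]
    push_cast
    rw [zero_add]
    exact le_trans (Multiset.le_add_left _ _) (Multiset.le_add_right _ _)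
  -- cycles at x
  have cx : ∀ j : ℕ, j < L → G.Adj x (f (p j)) → j + 1 ≤ k ∧ j + 1 < L := by
    intro j hj ha
    have q1 := pth_sub hp4 0 j (by omega)
    rw [Nat.cast_zero, hp2] at q1
    rw [zero_add] at q1
    have hle := sub_nd 0 (j + 1) (L - (j + 1)) (by omega)
    have hc : IsCyc G f (seg p 0 (j + 1)) :=
      ⟨_, _, q1, ha.symm, Multiset.nodup_of_le hle h.ndP⟩
    refine ⟨by simpa using S.max _ hc, ?_⟩
    by_contra hcon
    have : j + 1 = L := by omega
    rw [this] at hc
    exact hD ⟨_, hc, by rw [hp1]⟩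
  have cy : ∀ j : ℕ, j < L → G.Adj y (p j) → L - j ≤ k ∧ 0 < j := by
    intro j hj ha
    obtain ⟨r, hr⟩ := Nat.exists_eq_add_of_lt hj
    have q1 := pth_sub hp4 j r (by omega)
    have e5 : (j : ℤ) + r = L - 1 := by omega
    rw [e5, hp3] at q1
    have hle := sub_nd j (r + 1) 0 (by omega)
    have hc : IsCyc G f (seg p j (r + 1)) :=
      ⟨_, _, q1, ha, Multiset.nodup_of_le hle h.ndP⟩
    refine ⟨by have := S.max _ hc; simp at this; omega, ?_⟩
    by_contra hcon
    have h0 : j = 0 := by omega
    subst h0
    have e6 : r + 1 = L := by omega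
    rw [e6] at hc
    exact hD ⟨_, hc, by rw [Nat.cast_zero, hp1]⟩
  have cross : ∀ j : ℕ, j + 1 < L → ¬ (G.Adj y (f (p j)) ∧ G.Adj x (p (j + 1))) := by
    rintro j hj ⟨h1, h2⟩
    have q1 := pth_sub hp4 0 j (by omega)
    rw [Nat.cast_zero, hp2, zero_add] at q1
    obtain ⟨r, hr⟩ := Nat.exists_eq_add_of_lt hj
    have q2 := pth_sub hp4 (j + 1) r (by omega)
    have e5 : ((j + 1 : ℕ) : ℤ) + r = L - 1 := by omega
    rw [e5, hp3] at q2
    have q3 := q1.append h1.symm (q2.rv S.inv)
    have e6 : ms f (seg p 0 (j + 1) ++ rv f (seg p ((j + 1 : ℕ) : ℤ) (r + 1))) = ms f P := by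
      rw [ms_append, ms_rv S.inv, ← ms_append]
      have := seg_add p 0 (j + 1) (r + 1)
      rw [zero_add] at this
      rw [← this, show j + 1 + (r + 1) = L by omega, hp1]
    refine hD ⟨_, ⟨_, _, q3, ?_, by rw [e6]; exact h.ndP⟩, e6⟩
    push_cast
    exact h2.symm
  -- counting bounds
  have b1 : cnt p 0 L (fun v => G.Adj x (f v)) ≤ k := by
    rcases Nat.lt_or_ge L k with hk | hk
    · exact le_trans (cnt_le _ _) hk.le
    · obtain ⟨r, hr⟩ := Nat.exists_eq_add_of_le hk
      rw [hr, cnt_add]
      have : cnt p (0 + k) r (fun v => G.Adj x (f v)) = 0 := by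
        apply cnt_eq_zero
        intro i hi ha
        have := (cx (k + i) (by omega) (by convert ha using 3; push_cast; ring)).1
        omega
      rw [this]
      have := cnt_le (c := p) (P := fun v => G.Adj x (f v)) 0 k
      omega
  have b1' : cnt p 0 L (fun v => G.Adj x (f v)) + 1 ≤ L := by
    apply cnt_lt (L - 1) (by omega)
    intro ha
    have := (cx (L - 1) (by omega) (by convert ha using 3; push_cast; ring)).2
    omega
  have b2 : cnt p 0 L (G.Adj y) ≤ k := by
    rcases Nat.lt_or_ge L k with hk | hk
    · exact le_trans (cnt_le _ _) hk.le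
    · obtain ⟨r, hr⟩ := Nat.exists_eq_add_of_le hk
      rw [hr, add_comm, cnt_add]
      have : cnt p 0 r (G.Adj y) = 0 := by
        apply cnt_eq_zero
        intro i hi ha
        have := (cy i (by omega) (by convert ha using 2; ring)).1
        omega
      rw [this]
      have := cnt_le (c := p) (P := G.Adj y) (0 + r) k
      omega
  have b2' : cnt p 0 L (G.Adj y) + 1 ≤ L := by
    apply cnt_lt 0 (by omega)
    intro ha
    have := (cy 0 (by omega) (by simpa using ha)).2
    omega
  have b3 : cnt p 0 L (G.Adj x) + cnt p 0 L (fun v => G.Adj y (f v)) + 1 ≤ L := by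
    obtain ⟨L', hL'⟩ : ∃ L', L = L' + 1 := ⟨L - 1, by omega⟩
    rw [hL', cnt_succ' (P := G.Adj x), cnt_succ (P := fun v => G.Adj y (f v))]
    have e1 : ¬ G.Adj x (p 0) := by rw [hp2]; simp
    have e2 : ¬ G.Adj y (f (p (0 + L'))) := by
      rw [show (0 : ℤ) + L' = L - 1 by omega, hp3]; simp
    have e3 : cnt p 0 L' (fun v => G.Adj y (f v)) + cnt p (0 + 1) L' (G.Adj x) ≤ L' := by
      apply cnt_disj
      rintro i hi ⟨h1, h2⟩
      apply cross i (by omega)
      refine ⟨by convert h1 using 3; ring, by convert h2 using 2; ring⟩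
    simp only [e1, e2, if_false]
    omega
  -- degrees
  have hl : L ≤ l := h.length_le S
  have d1 := S.deg x
  have d2 := S.deg y
  rw [deg_eq S.cyc] at d1 d2
  have Q1 := S.Q h
  have Q2 := S.Q (h.rv S)
  rw [rv_length] at Q2
  rw [← hL] at Q1 Q2
  have cases : (cnt c 0 k (G.Adj x) = 0 ∧ cnt c 0 k (G.Adj y) = 0) ∨
      (cnt c 0 k (fun v => G.Adj x (f v)) = 0 ∧ cnt c 0 k (fun v => G.Adj y (f v)) = 0) := by
    by_contra hcon
    generalize cnt c 0 k (G.Adj x) = o at *
    generalize cnt c 0 k (G.Adj y) = o' at *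
    generalize cnt c 0 k (fun v => G.Adj x (f v)) = a at *
    generalize cnt c 0 k (fun v => G.Adj y (f v)) = a' at *
    by_cases ha : a = 0
    · by_cases ha' : a' = 0
      · exact hcon (Or.inr ⟨ha, ha'⟩)
      · by_cases ho : o = 0
        · omega
        · have := Q2 (by omega) (by omega)
          omega
    · by_cases ho : o = 0
      · by_cases ho' : o' = 0
        · exact hcon (Or.inl ⟨ho, ho'⟩)
        · have := Q1 (by omega) (by omega)
          omega
      · by_cases ha' : a' = 0
        · by_cases ho' : o' = 0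
          · omega
          · have := Q1 (by omega) (by omega)
            omega
        · have q2 := Q2 (by omega) (by omega)
          by_cases ho' : o' = 0
          · omega
          · have q1 := Q1 (by omega) (by omega)
            omega
  rcases cases with ⟨c1, c2⟩ | ⟨c1, c2⟩
  · exact case_two_even S h hl hp1 hp2 hp3 hp4 (by omega) (by omega) (by omega) c1 c2
  · refine case_two_even S.rev (h.crev S) hl hp1 hp2 hp3 hp4 ?_ ?_ ?_ ?_ ?_
    · rw [dW_rev S, dW_rev S]; omega
    · rw [dW_rev S, dW_rev S]; omega
    · rw [dW_rev S]; omega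
    · rw [cnt_rev S]; exact c1
    · rw [cnt_rev S]; exact c2

end

end Pool.Agent.Helper458
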